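import Mathlib

set_option autoImplicit false

/-!
Tools for transfinite recursions of length `ω₁` under the continuum hypothesis.
-/

open Set Cardinal

namespace Pool.Agent.Q154.CHT

/-- The continuum hypothesis. -/
def CH : Prop := (Cardinal.continuum : Cardinal.{0}) = Cardinal.aleph 1

/-- an index type of order type `ω₁` -/
abbrev W : Type := (Cardinal.aleph 1 : Cardinal.{0}).ord.ToType

theorem mk_W : #W = ℵ₁ := by
  rw [Cardinal.mk_ord_toType]

theorem countable_Iio (w : W) : (Iio w).Countable := by
  rw [← Cardinal.le_aleph0_iff_set_countable, ← Cardinal.lt_aleph_one_iff]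
  have h := Cardinal.mk_Iio_lt w (by rw [Cardinal.mk_ord_toType]; exact (Ordinal.type_toType _).symm)
  rwa [Cardinal.mk_ord_toType] at h

theorem countable_Iic (w : W) : (Iic w).Countable := by
  have h : Iic w = insert w (Iio w) := by
    ext x; simp [le_iff_eq_or_lt]
  rw [h]
  exact (countable_Iio w).insert w

theorem uncountable_W : ¬ (univ : Set W).Countable := by
  rw [← Cardinal.le_aleph0_iff_set_countable, Cardinal.mk_univ, mk_W, not_le]
  exact Cardinal.aleph0_lt_aleph_one

theorem exists_gt_countable {S : Set W} (hS : S.Countable) : ∃ w : W, ∀ s ∈ S, s < w := by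
  have h : (⋃ s ∈ S, Iic s).Countable := hS.biUnion fun s _ => countable_Iic s
  have h2 : ∃ w : W, w ∉ ⋃ s ∈ S, Iic s := by
    by_contra hcon
    push Not at hcon
    exact uncountable_W (h.mono fun w _ => hcon w)
  obtain ⟨w, hw⟩ := h2
  refine ⟨w, fun s hs => ?_⟩
  by_contra hlt
  exact hw (mem_iUnion₂.2 ⟨s, hs, not_lt.1 hlt⟩)

theorem exists_gt (w : W) : ∃ w' : W, w < w' := by
  obtain ⟨w', h⟩ := exists_gt_countable (countable_singleton w)
  exact ⟨w', h w rfl⟩

instance : Nonempty W := by
  obtain ⟨w, -⟩ := exists_gt_countable (S := ∅) countable_empty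
  exact ⟨w⟩

/-- Under CH every nonempty type of size at most continuum is enumerated by `W`. -/
theorem exists_surj (h : CH) (T : Type) [Nonempty T] (hT : #T ≤ Cardinal.continuum) :
    ∃ e : W → T, Function.Surjective e := by
  have h1 : #T ≤ #W := by
    rw [mk_W, ← h]; exact hT
  rw [Cardinal.le_def] at h1
  obtain ⟨f⟩ := h1
  exact ⟨Function.invFun f, Function.invFun_surjective f.injective⟩

/-- Transfinite recursion with choices. -/
theorem exists_rec {I : Type} [LinearOrder I] [WellFoundedLT I] {V : Type} [Nonempty V]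
    (P : I → (I → V) → V → Prop)
    (hc : ∀ i f g v, (∀ j < i, f j = g j) → P i f v → P i g v)
    (h : ∀ i f, (∀ j < i, P j f (f j)) → ∃ v, P i f v) :
    ∃ F : I → V, ∀ i, P i F (F i) := by
  classical
  let v0 : V := Classical.arbitrary V
  let ext : (i : I) → ((j : I) → j < i → V) → I → V := fun i f j => if h : j < i then f j h else v0
  let step : (i : I) → ((j : I) → j < i → V) → V := fun i f =>
    if h : ∃ v, P i (ext i f) v then h.choose else v0
  let F : I → V := (wellFounded_lt (α := I)).fix step
  have hF : ∀ i, F i = step i (fun j _ => F j) := fun i =>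
    (wellFounded_lt (α := I)).fix_eq step i
  refine ⟨F, fun i => ?_⟩
  induction i using WellFoundedLT.induction with
  | _ i ih =>
    have hext : ∀ j < i, ext i (fun j _ => F j) j = F j := fun j hj => by
      simp only [ext, dif_pos hj]
    have hex : ∃ v, P i (ext i (fun j _ => F j)) v := by
      obtain ⟨v, hv⟩ := h i F ih
      exact ⟨v, hc i F _ v (fun j hj => (hext j hj).symm) hv⟩
    have h1 : P i (ext i (fun j _ => F j)) (F i) := by
      rw [hF i]
      simp only [step, dif_pos hex]
      exact hex.choose_spec
    exact hc i _ F _ hext h1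

theorem mk_set_countable (A : Type) [Countable A] : #(Set A) ≤ Cardinal.continuum := by
  rw [Cardinal.mk_set, ← Cardinal.two_power_aleph0]
  exact Cardinal.power_le_power_left two_ne_zero Cardinal.mk_le_aleph0

theorem mk_fun_le (A T : Type) [Countable A] (hT : #T ≤ Cardinal.continuum) :
    #(A → T) ≤ Cardinal.continuum := by
  rw [← Cardinal.power_def]
  calc (#T) ^ (#A) ≤ Cardinal.continuum ^ (#A) := Cardinal.power_le_power_right hT
    _ ≤ Cardinal.continuum ^ ℵ₀ :=
        Cardinal.power_le_power_left Cardinal.continuum_ne_zero Cardinal.mk_le_aleph0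
    _ = Cardinal.continuum := Cardinal.continuum_power_aleph0

/-- Cardinality of spaces of functions from a countable type to the natural numbers. -/
theorem mk_fun_nat (A : Type) [Countable A] : #(A → ℕ) ≤ Cardinal.continuum :=
  mk_fun_le A ℕ (Cardinal.mk_le_aleph0.trans Cardinal.aleph0_le_continuum)

theorem mk_prod_le (A B : Type) (hA : #A ≤ Cardinal.continuum) (hB : #B ≤ Cardinal.continuum) :
    #(A × B) ≤ Cardinal.continuum := by
  rw [Cardinal.mk_prod, Cardinal.lift_id, Cardinal.lift_id]
  exact (mul_le_mul' hA hB).trans Cardinal.continuum_mul_self.le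

theorem mk_countable_le (A : Type) [Countable A] : #A ≤ Cardinal.continuum :=
  Cardinal.mk_le_aleph0.trans Cardinal.aleph0_le_continuum

end Pool.Agent.Q154.CHT
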