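import Mathlib
import Pool.Agent.Q154.CHTools

set_option autoImplicit false

/-!
Stationary and co-stationary sets of countable ordinals.
-/

open Set Cardinal
open Pool.Agent.Q154.CHT

namespace Pool.Agent.Q154.Blum

/-- `S` meets the set of closure points of every function `W → W`. -/
def Stat (S : Set W) : Prop :=
  ∀ h : W → W, ∃ δ ∈ S, (∃ γ, γ < δ) ∧ ∀ γ < δ, h γ < δ

theorem exists_closure_point (h : W → W) (w₀ : W) : ∃ δ, w₀ < δ ∧ ∀ γ < δ, h γ < δ := by
  classical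
  have hstep : ∀ w : W, ∃ w' : W, w < w' ∧ ∀ γ ≤ w, h γ < w' := by
    intro w
    obtain ⟨w', hw'⟩ := exists_gt_countable (S := insert w (h '' Iic w))
      (((countable_Iic w).image h).insert w)
    exact ⟨w', hw' w (mem_insert _ _), fun γ hγ => hw' _ (mem_insert_of_mem _ ⟨γ, hγ, rfl⟩)⟩
  choose f hf1 hf2 using hstep
  let s : ℕ → W := fun n => Nat.rec w₀ (fun _ w => f w) n
  have hs : ∀ n, s (n + 1) = f (s n) := fun n => rfl
  obtain ⟨u, hu⟩ := exists_gt_countable (countable_range s)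
  have hne : {w : W | ∀ n, s n < w}.Nonempty := ⟨u, fun n => hu _ (mem_range_self n)⟩
  set δ := (wellFounded_lt (α := W)).min {w : W | ∀ n, s n < w} hne with hδ
  have hδ1 : ∀ n, s n < δ := (wellFounded_lt (α := W)).min_mem {w : W | ∀ n, s n < w} hne
  refine ⟨δ, hδ1 0, fun γ hγ => ?_⟩
  have h1 : ¬ ∀ n, s n < γ := fun hcon =>
    (wellFounded_lt (α := W)).not_lt_min {w : W | ∀ n, s n < w} (x := γ) hcon hγ
  push Not at h1
  obtain ⟨n, hn⟩ := h1
  have h2 := hf2 (s n) γ hn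
  rw [← hs] at h2
  exact h2.trans (hδ1 (n + 1))

/-- There is a stationary set whose complement is stationary. -/
theorem exists_stat : ∃ S : Set W, Stat S ∧ Stat Sᶜ := by
  classical
  have hle : #W ≤ #(ℕ → Bool) := by
    rw [mk_W]
    have : #(ℕ → Bool) = Cardinal.continuum := by simp
    rw [this]
    exact Cardinal.aleph_one_le_continuum
  rw [Cardinal.le_def] at hle
  obtain ⟨r⟩ := hle
  by_contra hcon
  push Not at hcon
  have hn : ∀ n : ℕ, ∃ h : W → W, ∃ b : Bool, ∀ δ, (∃ γ, γ < δ) → (∀ γ < δ, h γ < δ) → r δ n = b := by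
    intro n
    by_cases h1 : Stat {w : W | r w n = true}
    · have h2 := hcon _ h1
      unfold Stat at h2
      push Not at h2
      obtain ⟨h, hh⟩ := h2
      refine ⟨h, true, fun δ hδ1 hδ2 => ?_⟩
      by_contra h3
      obtain ⟨γ, hγ1, hγ2⟩ := hh δ h3 hδ1
      exact absurd (hδ2 γ hγ1) (not_lt.2 hγ2)
    · unfold Stat at h1
      push Not at h1
      obtain ⟨h, hh⟩ := h1
      refine ⟨h, false, fun δ hδ1 hδ2 => ?_⟩
      by_contra h3
      rw [Bool.not_eq_false] at h3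
      obtain ⟨γ, hγ1, hγ2⟩ := hh δ h3 hδ1
      exact absurd (hδ2 γ hγ1) (not_lt.2 hγ2)
  choose h b hb using hn
  have hsup : ∀ γ : W, ∃ w : W, ∀ n, h n γ < w := by
    intro γ
    obtain ⟨w, hw⟩ := exists_gt_countable (countable_range fun n => h n γ)
    exact ⟨w, fun n => hw _ (mem_range_self n)⟩
  choose H hH using hsup
  obtain ⟨δ₁, h11, h12⟩ := exists_closure_point H (Classical.arbitrary W)
  obtain ⟨δ₂, h21, h22⟩ := exists_closure_point H δ₁
  have heq : r δ₁ = r δ₂ := by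
    funext n
    rw [hb n δ₁ ⟨_, h11⟩ fun γ hγ => (hH γ n).trans (h12 γ hγ),
      hb n δ₂ ⟨_, h21⟩ fun γ hγ => (hH γ n).trans (h22 γ hγ)]
  exact absurd (r.injective heq) h21.ne

theorem Stat.unbounded {S : Set W} (hS : Stat S) (w : W) : ∃ γ ∈ S, w < γ := by
  obtain ⟨δ, hδ, ⟨γ, hγ⟩, h⟩ := hS fun _ => w
  exact ⟨δ, hδ, h γ hγ⟩

end Pool.Agent.Q154.Blum
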