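import Mathlib
import Pool.Agent.Q154.Blum1

set_option autoImplicit false

/-!
The complete linear order of relatively closed subsets of a set of countable ordinals.
-/

open Set Cardinal
open Pool.Agent.Q154.CHT

namespace Pool.Agent.Q154.Blum

/-- `δ` is a limit of the set coded by `x` -/
def Lim (x : W → Bool) (δ : W) : Prop :=
  (∃ i, i < δ ∧ x i = true) ∧ ∀ γ < δ, ∃ i, γ < i ∧ i < δ ∧ x i = true

/-- subsets of `S` which contain their limits except possibly their supremum -/
def Good (S : Set W) (x : W → Bool) : Prop :=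
  (∀ i, x i = true → i ∈ S) ∧ ∀ δ, Lim x δ → (∃ i, δ < i ∧ x i = true) → x δ = true

/-- the space -/
def X (S : Set W) : Type := {x : W → Bool // Good S x}

variable {S : Set W}

/-- the coding of points by functions -/
def X.toLex (x : X S) : Lex (W → Bool) := _root_.toLex x.1

theorem X.toLex_injective : Function.Injective (X.toLex (S := S)) := by
  intro x y h
  exact Subtype.ext (_root_.toLex.injective h)

noncomputable instance : LinearOrder (X S) := LinearOrder.lift' X.toLex X.toLex_injective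

theorem lt_iff (x y : X S) : x < y ↔ ∃ i, (∀ j < i, x.1 j = y.1 j) ∧ x.1 i = false ∧ y.1 i = true := by
  constructor
  · rintro ⟨i, h1, h2⟩
    refine ⟨i, h1, ?_⟩
    have h3 : x.1 i < y.1 i := h2
    revert h3
    cases x.1 i <;> cases y.1 i <;> simp
  · rintro ⟨i, h1, h2, h3⟩
    refine ⟨i, h1, ?_⟩
    show x.1 i < y.1 i
    rw [h2, h3]
    exact Bool.false_lt_true

/-- the supremum -/
noncomputable def supFn (A : Set (X S)) : W → Bool :=
  (wellFounded_lt (α := W)).fix fun i s =>
    open Classical in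
    decide (∃ a ∈ A, (∀ (j : W) (h : j < i), a.1 j = s j h) ∧ a.1 i = true)

theorem supFn_eq (A : Set (X S)) (i : W) : supFn A i = true ↔
    ∃ a ∈ A, (∀ j < i, a.1 j = supFn A j) ∧ a.1 i = true := by
  classical
  have h := (wellFounded_lt (α := W)).fix_eq (C := fun _ => Bool) (fun i s =>
    decide (∃ a ∈ A, (∀ (j : W) (h : j < i), a.1 j = s j h) ∧ a.1 i = true)) i
  unfold supFn
  rw [h]
  simp

theorem supFn_good (A : Set (X S)) : Good S (supFn A) := by
  refine ⟨fun i hi => ?_, fun δ hδ hη => ?_⟩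
  · obtain ⟨a, _, _, ha⟩ := (supFn_eq A i).1 hi
    exact a.2.1 i ha
  · obtain ⟨η, hη1, hη2⟩ := hη
    obtain ⟨a, _, ha2, ha3⟩ := (supFn_eq A η).1 hη2
    rw [← ha2 δ hη1]
    refine a.2.2 δ ⟨?_, fun γ hγ => ?_⟩ ⟨η, hη1, ha3⟩
    · obtain ⟨i, hi1, hi2⟩ := hδ.1
      exact ⟨i, hi1, by rw [ha2 i (hi1.trans hη1)]; exact hi2⟩
    · obtain ⟨i, hi1, hi2, hi3⟩ := hδ.2 γ hγ
      exact ⟨i, hi1, hi2, by rw [ha2 i (hi2.trans hη1)]; exact hi3⟩

noncomputable instance : SupSet (X S) := ⟨fun A => ⟨supFn A, supFn_good A⟩⟩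

theorem sSup_val (A : Set (X S)) : (sSup A).1 = supFn A := rfl

theorem isLUB_sSup' (A : Set (X S)) : IsLUB A (sSup A) := by
  constructor
  · intro a ha
    by_contra hcon
    rw [not_le, lt_iff] at hcon
    obtain ⟨i, h1, h2, h3⟩ := hcon
    rw [sSup_val] at h1 h2
    have : supFn A i = true := (supFn_eq A i).2 ⟨a, ha, fun j hj => (h1 j hj).symm, h3⟩
    rw [h2] at this
    exact absurd this (by simp)
  · intro u hu
    by_contra hcon
    rw [not_le, lt_iff] at hcon
    obtain ⟨i, h1, h2, h3⟩ := hcon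
    rw [sSup_val] at h1 h3
    obtain ⟨a, ha1, ha2, ha3⟩ := (supFn_eq A i).1 h3
    have : u < a := (lt_iff u a).2 ⟨i, fun j hj => by rw [h1 j hj, ha2 j hj], h2, ha3⟩
    exact absurd (hu ha1) (not_le.2 this)

theorem bddAbove' (s : Set (X S)) : BddAbove s :=
  ⟨sSup univ, fun a _ => (isLUB_sSup' (S := S) univ).1 (mem_univ a)⟩

theorem bddBelow' (s : Set (X S)) : BddBelow s :=
  ⟨sSup ∅, fun a _ => (isLUB_sSup' (S := S) ∅).2 (by simp [upperBounds])⟩

noncomputable instance : ConditionallyCompleteLinearOrder (X S) :=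
  { (inferInstance : LinearOrder (X S)),
    conditionallyCompleteLatticeOfLatticeOfsSup (X S) (fun s _ _ => isLUB_sSup' s) with
    csSup_of_not_bddAbove := fun s hs => absurd (bddAbove' s) hs
    csInf_of_not_bddBelow := fun s hs => absurd (bddBelow' s) hs }

noncomputable instance : TopologicalSpace (X S) := Preorder.topology (X S)

instance : OrderTopology (X S) := ⟨rfl⟩

instance : CompactSpace (X S) := by
  constructor
  have h : (univ : Set (X S)) = Icc (sSup ∅) (sSup univ) := by
    ext a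
    simp only [mem_univ, mem_Icc, true_iff]
    exact ⟨(isLUB_sSup' (S := S) ∅).2 (by simp [upperBounds]),
      (isLUB_sSup' (S := S) univ).1 (mem_univ a)⟩
  rw [h]
  exact isCompact_Icc

/-- points have countable supports -/
theorem countable_support (hS : Stat Sᶜ) (x : X S) : {i | x.1 i = true}.Countable := by
  classical
  by_contra hcon
  have hunb : ∀ w : W, ∃ i, w < i ∧ x.1 i = true := by
    intro w
    by_contra h
    push Not at h
    apply hcon
    refine (countable_Iic w).mono fun i hi => ?_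
    by_contra h2
    exact h i (not_le.1 h2) hi
  choose h hh1 hh2 using hunb
  obtain ⟨δ, hδ, ⟨γ₀, hγ₀⟩, hcl⟩ := hS h
  apply hδ
  apply x.2.1 δ
  refine x.2.2 δ ⟨⟨h γ₀, hcl γ₀ hγ₀, hh2 γ₀⟩, fun γ hγ => ⟨h γ, hh1 γ, hcl γ hγ, hh2 γ⟩⟩
    ⟨h δ, hh1 δ, hh2 δ⟩

/-- the space has at most continuum many points -/
theorem exists_inj (hS : Stat Sᶜ) : ∃ f : X S → ℝ, Function.Injective f := by
  classical
  have h1 : ∀ x : X S, ∃ e : ℕ → Option W, ∀ i, x.1 i = true ↔ some i ∈ range e := by
    intro x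
    have hc : (insert none (some '' {i | x.1 i = true}) : Set (Option W)).Countable :=
      ((countable_support hS x).image some).insert none
    obtain ⟨e, he⟩ := hc.exists_eq_range ⟨none, mem_insert _ _⟩
    refine ⟨e, fun i => ?_⟩
    rw [← he]
    simp
  choose e he using h1
  have hinj : Function.Injective e := by
    intro x y hxy
    apply Subtype.ext
    funext i
    have h2 := he x i
    rw [hxy, ← he y i] at h2
    exact Bool.eq_iff_iff.2 h2
  have hW : #(Option W) ≤ Cardinal.continuum := by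
    rw [Cardinal.mk_option, mk_W]
    have h3 : (ℵ₁ : Cardinal.{0}) + 1 = ℵ₁ :=
      Cardinal.add_one_of_aleph0_le (Cardinal.aleph0_le_aleph 1)
    rw [h3]
    exact Cardinal.aleph_one_le_continuum
  have hle : #(X S) ≤ #ℝ := by
    rw [Cardinal.mk_real]
    exact (Cardinal.mk_le_of_injective hinj).trans (mk_fun_le ℕ (Option W) hW)
  rw [Cardinal.le_def] at hle
  obtain ⟨f⟩ := hle
  exact ⟨f, f.injective⟩

end Pool.Agent.Q154.Blum
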