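import Mathlib
import Pool.Agent.Q154.Blum2

set_option autoImplicit false

/-!
Distributivity of the complete linear order of relatively closed subsets of a stationary set.
-/

open Set Cardinal
open Pool.Agent.Q154.CHT

namespace Pool.Agent.Q154.Blum

variable {S : Set W}

/-- the points which agree with `q` up to `γ` -/
def N (q : X S) (γ : W) : Set (X S) := {z | ∀ j ≤ γ, z.1 j = q.1 j}

/-- all limits belong to the set -/
def Cl (q : W → Bool) : Prop := ∀ δ, Lim q δ → q δ = true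

/-- closed sets with largest element `γ` -/
structure Node (q : X S) (γ : W) : Prop where
  top : q.1 γ = true
  bd : ∀ i, γ < i → q.1 i = false
  cl : Cl q.1

theorem self_mem (q : X S) (γ : W) : q ∈ N q γ := fun _ _ => rfl

open Classical in
/-- adding a new largest element -/
noncomputable def extFn (q : X S) (γ : W) : W → Bool := fun i => if i = γ then true else q.1 i

theorem extFn_self (q : X S) (γ : W) : extFn q γ γ = true := by simp [extFn]

theorem extFn_ne (q : X S) {γ i : W} (h : i ≠ γ) : extFn q γ i = q.1 i := by simp [extFn, h]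

theorem extFn_cl {q : X S} {γ : W} (hq : Cl q.1) (hb : ∀ i, q.1 i = true → i < γ) : Cl (extFn q γ) := by
  intro δ hδ
  rcases lt_or_ge γ δ with h | h
  · obtain ⟨i, hi1, hi2, hi3⟩ := hδ.2 γ h
    rw [extFn_ne q hi1.ne'] at hi3
    exact absurd (hb i hi3) (not_lt.2 hi1.le)
  · by_cases he : δ = γ
    · rw [he]; exact extFn_self q γ
    · rw [extFn_ne q he]
      apply hq
      refine ⟨?_, fun γ' hγ' => ?_⟩
      · obtain ⟨i, hi1, hi2⟩ := hδ.1
        rw [extFn_ne q (hi1.trans_le h).ne] at hi2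
        exact ⟨i, hi1, hi2⟩
      · obtain ⟨i, hi1, hi2, hi3⟩ := hδ.2 γ' hγ'
        rw [extFn_ne q (hi2.trans_le h).ne] at hi3
        exact ⟨i, hi1, hi2, hi3⟩

theorem extFn_good {q : X S} {γ : W} (hγ : γ ∈ S) (hq : Cl q.1) (hb : ∀ i, q.1 i = true → i < γ) :
    Good S (extFn q γ) := by
  refine ⟨fun i hi => ?_, fun δ hδ _ => extFn_cl hq hb δ hδ⟩
  by_cases he : i = γ
  · rw [he]; exact hγ
  · rw [extFn_ne q he] at hi
    exact q.2.1 i hi

theorem ext_node {q : X S} {γ : W} (hγ : γ ∈ S) (hq : Cl q.1) (hb : ∀ i, q.1 i = true → i < γ) :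
    Node (⟨extFn q γ, extFn_good hγ hq hb⟩ : X S) γ := by
  refine ⟨extFn_self q γ, fun i hi => ?_, extFn_cl hq hb⟩
  show extFn q γ i = false
  rw [extFn_ne q hi.ne']
  by_contra h
  rw [Bool.not_eq_false] at h
  exact absurd (hb i h) (not_lt.2 hi.le)

theorem Node.lt_of {q : X S} {γ γ' : W} (hq : Node q γ) (h : γ < γ') : ∀ i, q.1 i = true → i < γ' := by
  intro i hi
  by_contra hcon
  have := hq.bd i (h.trans_le (not_lt.1 hcon))
  rw [hi] at this
  exact absurd this (by simp)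

theorem N_convex {q x y z : X S} {γ : W} (hx : x ∈ N q γ) (hy : y ∈ N q γ) (h1 : x < z) (h2 : z < y) :
    z ∈ N q γ := by
  by_contra hcon
  have hex : ∃ j, j ≤ γ ∧ z.1 j ≠ q.1 j := by
    by_contra h
    push Not at h
    exact hcon h
  obtain ⟨j, ⟨hj1, hj2⟩, hmin⟩ := (wellFounded_lt (α := W)).has_min {j | j ≤ γ ∧ z.1 j ≠ q.1 j} hex
  have hag : ∀ k < j, z.1 k = q.1 k := by
    intro k hk
    by_contra h
    exact hmin k ⟨hk.le.trans hj1, h⟩ hk
  cases hz : z.1 j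
  · -- z j = false, q j = true: then z < x
    have hqj : q.1 j = true := by
      by_contra h
      rw [Bool.not_eq_true] at h
      exact hj2 (by rw [hz, h])
    have : z < x := (lt_iff z x).2 ⟨j, fun k hk => by rw [hag k hk, hx k (hk.le.trans hj1)], hz, by
      rw [hx j hj1]; exact hqj⟩
    exact lt_asymm h1 this
  · have hqj : q.1 j = false := by
      by_contra h
      rw [Bool.not_eq_false] at h
      exact hj2 (by rw [hz, h])
    have : y < z := (lt_iff y z).2 ⟨j, fun k hk => by rw [hag k hk, hy k (hk.le.trans hj1)], by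
      rw [hy j hj1]; exact hqj, hz⟩
    exact lt_asymm h2 this

/-- the sets `N q γ` have nonempty interior -/
theorem exists_open (hS : Stat S) {q : X S} {γ : W} (hq : Node q γ) :
    ∃ U : Set (X S), IsOpen U ∧ U.Nonempty ∧ U ⊆ N q γ := by
  obtain ⟨γ₁, h1, h1'⟩ := hS.unbounded γ
  obtain ⟨γ₂, h2, h2'⟩ := hS.unbounded γ₁
  have hb1 := hq.lt_of h1'
  have hb2 := hq.lt_of (h1'.trans h2')
  set q₁ : X S := ⟨extFn q γ₁, extFn_good h1 hq.cl hb1⟩ with hq₁
  set q₂ : X S := ⟨extFn q γ₂, extFn_good h2 hq.cl hb2⟩ with hq₂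
  refine ⟨Ioo q q₁, isOpen_Ioo, ⟨q₂, ?_, ?_⟩, ?_⟩
  · refine (lt_iff _ _).2 ⟨γ₂, fun j hj => (extFn_ne q hj.ne).symm, hq.bd γ₂ (h1'.trans h2'), extFn_self q γ₂⟩
  · refine (lt_iff _ _).2 ⟨γ₁, fun j hj => ?_, ?_, extFn_self q γ₁⟩
    · show extFn q γ₂ j = extFn q γ₁ j
      rw [extFn_ne q hj.ne, extFn_ne q (hj.trans h2').ne]
    · show extFn q γ₂ γ₁ = false
      rw [extFn_ne q h2'.ne]
      exact hq.bd γ₁ h1'
  · rintro z ⟨hz1, hz2⟩
    refine N_convex (self_mem q γ) (fun j hj => ?_) hz1 hz2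
    exact extFn_ne q (hj.trans_lt h1').ne

/-- every nonempty open set contains a fully closed point -/
theorem exists_closed_point {U : Set (X S)} (hU : IsOpen U) (hne : U.Nonempty) :
    ∃ q ∈ U, Cl q.1 := by
  classical
  obtain ⟨p, hp⟩ := hne
  by_cases hcl : Cl p.1
  · exact ⟨p, hp, hcl⟩
  unfold Cl at hcl
  push Not at hcl
  obtain ⟨δ, hδ, hpδ'⟩ := hcl
  have hpδ : p.1 δ = false := Bool.eq_false_of_not_eq_true hpδ'
  have hlt : ∀ i, p.1 i = true → i < δ := by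
    intro i hi
    rcases lt_trichotomy i δ with h | h | h
    · exact h
    · rw [h, hpδ] at hi
      exact absurd hi (by simp)
    · have := p.2.2 δ hδ ⟨i, h, hi⟩
      rw [hpδ] at this
      exact absurd this (by simp)
  -- truncations
  have htr : ∀ γ', p.1 γ' = true → γ' < δ → ∃ q : X S, Cl q.1 ∧ (∀ j ≤ γ', q.1 j = p.1 j) ∧ q < p := by
    intro γ' hγ' hγ'δ
    let q : W → Bool := fun j => if j ≤ γ' then p.1 j else false
    have hq1 : ∀ j ≤ γ', q j = p.1 j := fun j hj => by simp [q, hj]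
    have hq2 : ∀ j, q j = true → j ≤ γ' ∧ p.1 j = true := by
      intro j hj
      by_cases h : j ≤ γ'
      · exact ⟨h, by rw [← hq1 j h]; exact hj⟩
      · simp [q, h] at hj
    have hqcl : Cl q := by
      intro δ' hδ'
      have hle : δ' ≤ γ' := by
        by_contra h
        rw [not_le] at h
        obtain ⟨i, hi1, _, hi3⟩ := hδ'.2 γ' h
        exact absurd (hq2 i hi3).1 (not_le.2 hi1)
      rw [hq1 δ' hle]
      rcases hle.eq_or_lt with h | h
      · rw [h]; exact hγ'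
      · refine p.2.2 δ' ⟨?_, fun γ hγ => ?_⟩ ⟨γ', h, hγ'⟩
        · obtain ⟨i, hi1, hi2⟩ := hδ'.1
          exact ⟨i, hi1, (hq2 i hi2).2⟩
        · obtain ⟨i, hi1, hi2, hi3⟩ := hδ'.2 γ hγ
          exact ⟨i, hi1, hi2, (hq2 i hi3).2⟩
    have hqg : Good S q := ⟨fun i hi => p.2.1 i (hq2 i hi).2, fun δ' h _ => hqcl δ' h⟩
    refine ⟨⟨q, hqg⟩, hqcl, hq1, ?_⟩
    obtain ⟨γ'', h1, _, h3⟩ := hδ.2 γ' hγ'δ
    refine lt_of_le_of_ne ?_ ?_
    · by_contra h
      obtain ⟨j, _, hj2, hj3⟩ := (lt_iff p ⟨q, hqg⟩).1 (not_le.1 h)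
      rw [(hq2 j hj3).2] at hj2
      exact absurd hj2 (by simp)
    · intro h
      have h4 : q γ'' = p.1 γ'' := congrFun (congrArg Subtype.val h) γ''
      rw [h3] at h4
      exact absurd (hq2 γ'' h4).1 (not_le.2 h1)
  obtain ⟨i₀, hi₀, hi₀'⟩ := hδ.1
  obtain ⟨q₀, _, _, hq₀⟩ := htr i₀ hi₀' hi₀
  obtain ⟨l, hl, hlU⟩ := exists_Ioc_subset_of_mem_nhds (hU.mem_nhds hp) ⟨q₀, hq₀⟩
  obtain ⟨i, h1, h2, h3⟩ := (lt_iff l p).1 hl
  obtain ⟨γ', g1, g2, g3⟩ := hδ.2 i (hlt i h3)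
  obtain ⟨q, hq1, hq2, hq3⟩ := htr γ' g3 g2
  refine ⟨q, hlU ⟨?_, hq3.le⟩, hq1⟩
  exact (lt_iff l q).2 ⟨i, fun j hj => by rw [h1 j hj, hq2 j (hj.trans g1).le], h2, by
    rw [hq2 i g1.le]; exact h3⟩

/-- every nonempty open set contains some `N q γ` -/
theorem exists_node (hS : Stat S) (hS' : Stat Sᶜ) {U : Set (X S)} (hU : IsOpen U) (hne : U.Nonempty) :
    ∃ q : X S, ∃ γ, Node q γ ∧ N q γ ⊆ U := by
  obtain ⟨q, hq, hcl⟩ := exists_closed_point hU hne
  obtain ⟨b, hb⟩ := exists_gt_countable (countable_support hS' q)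
  obtain ⟨γ₀, hγ₀, hbγ₀⟩ := hS.unbounded b
  have hb₀ : ∀ i, q.1 i = true → i < γ₀ := fun i hi => (hb i hi).trans hbγ₀
  have hf : ∀ j, γ₀ ≤ j → q.1 j = false := by
    intro j hj
    by_contra h
    rw [Bool.not_eq_false] at h
    exact absurd (hb₀ j h) (not_lt.2 hj)
  have hgt : q < (⟨extFn q γ₀, extFn_good hγ₀ hcl hb₀⟩ : X S) :=
    (lt_iff _ _).2 ⟨γ₀, fun j hj => (extFn_ne q hj.ne).symm, hf γ₀ le_rfl, extFn_self q γ₀⟩
  obtain ⟨u, hu, huU⟩ := exists_Ico_subset_of_mem_nhds (hU.mem_nhds hq) ⟨_, hgt⟩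
  obtain ⟨i, h1, h2, h3⟩ := (lt_iff q u).1 hu
  obtain ⟨γ, hγ, hγ'⟩ := hS.unbounded (max i γ₀)
  have hbγ : ∀ i, q.1 i = true → i < γ := fun i hi => (hb₀ i hi).trans ((le_max_right _ _).trans_lt hγ')
  refine ⟨⟨extFn q γ, extFn_good hγ hcl hbγ⟩, γ, ext_node hγ hcl hbγ, fun z hz => huU ⟨?_, ?_⟩⟩
  · refine le_of_lt ((lt_iff _ _).2 ⟨γ, fun j hj => ?_, ?_, ?_⟩)
    · rw [hz j hj.le]
      exact (extFn_ne q hj.ne).symm
    · exact hf γ ((le_max_right _ _).trans hγ'.le)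
    · rw [hz γ le_rfl]
      exact extFn_self q γ
  · have hiγ : i < γ := (le_max_left _ _).trans_lt hγ'
    refine (lt_iff _ _).2 ⟨i, fun j hj => ?_, ?_, h3⟩
    · rw [hz j (hj.trans hiγ).le, ← h1 j hj]
      exact extFn_ne q (hj.trans hiγ).ne
    · rw [hz i hiγ.le]
      show extFn q γ i = false
      rw [extFn_ne q hiγ.ne]
      exact h2

/-- deciding an open set -/
theorem step (hS : Stat S) (hS' : Stat Sᶜ) {q : X S} {γ : W} (hq : Node q γ) (γ₀ : W) {G : Set (X S)}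
    (hG : IsOpen G) :
    ∃ q' : X S, ∃ γ', Node q' γ' ∧ γ < γ' ∧ γ₀ < γ' ∧ N q' γ' ⊆ N q γ ∧
      (N q' γ' ⊆ G ∨ Disjoint (N q' γ') G) := by
  obtain ⟨U, hU1, hU2, hU3⟩ := exists_open hS hq
  have key : ∃ q₁ : X S, ∃ γ₁, Node q₁ γ₁ ∧ N q₁ γ₁ ⊆ N q γ ∧ (N q₁ γ₁ ⊆ G ∨ Disjoint (N q₁ γ₁) G) := by
    by_cases h : (U ∩ G).Nonempty
    · obtain ⟨q₁, γ₁, h1, h2⟩ := exists_node hS hS' (hU1.inter hG) h
      exact ⟨q₁, γ₁, h1, (h2.trans inter_subset_left).trans hU3, Or.inl (h2.trans inter_subset_right)⟩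
    · obtain ⟨q₁, γ₁, h1, h2⟩ := exists_node hS hS' hU1 hU2
      refine ⟨q₁, γ₁, h1, h2.trans hU3, Or.inr ?_⟩
      rw [disjoint_left]
      intro z hz hzG
      exact h ⟨z, h2 hz, hzG⟩
  obtain ⟨q₁, γ₁, h1, h2, h3⟩ := key
  obtain ⟨γ', hγ', hγ''⟩ := hS.unbounded (max (max γ γ₀) γ₁)
  have hb := h1.lt_of ((le_max_right _ _).trans_lt hγ'')
  have hsub : N (⟨extFn q₁ γ', extFn_good hγ' h1.cl hb⟩ : X S) γ' ⊆ N q₁ γ₁ := by
    intro z hz j hj
    have hjγ : j < γ' := hj.trans_lt ((le_max_right _ _).trans_lt hγ'')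
    rw [hz j hjγ.le]
    exact extFn_ne q₁ hjγ.ne
  refine ⟨⟨extFn q₁ γ', extFn_good hγ' h1.cl hb⟩, γ', ext_node hγ' h1.cl hb, ?_, ?_, hsub.trans h2, ?_⟩
  · exact ((le_max_left _ _).trans (le_max_left _ _)).trans_lt hγ''
  · exact ((le_max_right _ _).trans (le_max_left _ _)).trans_lt hγ''
  · rcases h3 with h3 | h3
    · exact Or.inl (hsub.trans h3)
    · exact Or.inr (h3.mono_left hsub)

/-- limits of nodes -/
theorem limit {q : ℕ → X S} {γ : ℕ → W} (hq : ∀ n, Node (q n) (γ n)) (hmono : ∀ n, γ n < γ (n + 1))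
    (hsub : ∀ n, N (q (n + 1)) (γ (n + 1)) ⊆ N (q n) (γ n)) {δ : W} (hδ : δ ∈ S) (hlt : ∀ n, γ n < δ)
    (hcof : ∀ i < δ, ∃ n, i < γ n) :
    ∃ p : X S, Node p δ ∧ ∀ n, N p δ ⊆ N (q n) (γ n) := by
  classical
  have hγmono : StrictMono γ := strictMono_nat_of_lt_succ hmono
  have hanti : Antitone fun n => N (q n) (γ n) := antitone_nat_of_succ_le hsub
  have hagree : ∀ m n i, i ≤ γ m → i ≤ γ n → (q m).1 i = (q n).1 i := by
    have h1 : ∀ m n i, m ≤ n → i ≤ γ m → (q m).1 i = (q n).1 i := by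
      intro m n i hmn hi
      exact (hanti hmn (self_mem (q n) (γ n)) i hi).symm
    intro m n i hm hn
    rcases le_total m n with h | h
    · exact h1 m n i h hm
    · exact (h1 n m i h hn).symm
  choose k hk using hcof
  let f : W → Bool := fun i => if h : i < δ then (q (k i h)).1 i else if i = δ then true else false
  have hf1 : ∀ n i, i ≤ γ n → f i = (q n).1 i := by
    intro n i hi
    have h : i < δ := hi.trans_lt (hlt n)
    simp only [f, h, dif_pos]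
    exact hagree _ _ i (hk i h).le hi
  have hf2 : f δ = true := by simp [f]
  have hf3 : ∀ i, δ < i → f i = false := by
    intro i hi
    simp [f, not_lt.2 hi.le, hi.ne']
  have hcl : Cl f := by
    intro δ' hδ'
    rcases lt_trichotomy δ' δ with h | h | h
    · set n := k δ' h with hn
      have hkn := hk δ' h
      rw [hf1 n δ' hkn.le]
      refine (q n).2.2 δ' ⟨?_, fun γ' hγ' => ?_⟩ ⟨γ n, hkn, (hq n).top⟩
      · obtain ⟨i, hi1, hi2⟩ := hδ'.1
        exact ⟨i, hi1, by rw [← hf1 n i (hi1.trans hkn).le]; exact hi2⟩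
      · obtain ⟨i, hi1, hi2, hi3⟩ := hδ'.2 γ' hγ'
        exact ⟨i, hi1, hi2, by rw [← hf1 n i (hi2.trans hkn).le]; exact hi3⟩
    · rw [h]; exact hf2
    · obtain ⟨i, hi1, _, hi3⟩ := hδ'.2 δ h
      rw [hf3 i hi1] at hi3
      exact absurd hi3 (by simp)
  have hgood : Good S f := by
    refine ⟨fun i hi => ?_, fun δ' h _ => hcl δ' h⟩
    rcases lt_trichotomy i δ with h | h | h
    · rw [hf1 _ i (hk i h).le] at hi
      exact (q _).2.1 i hi
    · rw [h]; exact hδ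
    · rw [hf3 i h] at hi
      exact absurd hi (by simp)
  refine ⟨⟨f, hgood⟩, ⟨hf2, hf3, hcl⟩, fun n z hz j hj => ?_⟩
  rw [hz j (hj.trans (hlt n).le)]
  exact hf1 n j hj

/-- **Distributivity.** -/
theorem distributive (hS : Stat S) (hS' : Stat Sᶜ) (G : ℕ → Set (X S)) (hG : ∀ n, IsOpen (G n)) :
    ∃ V : Set (X S), IsOpen V ∧ V.Nonempty ∧ ∀ n, V ⊆ G n ∨ Disjoint V (G n) := by
  classical
  -- nodes as a type
  let Nd : Type := {p : X S × W // Node p.1 p.2}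
  have hst : ∀ (p : Nd) (n : ℕ) (w : W), ∃ p' : Nd, p.1.2 < p'.1.2 ∧ w < p'.1.2 ∧
      N p'.1.1 p'.1.2 ⊆ N p.1.1 p.1.2 ∧ (N p'.1.1 p'.1.2 ⊆ G n ∨ Disjoint (N p'.1.1 p'.1.2) (G n)) := by
    intro p n w
    obtain ⟨q', γ', h1, h2, h3, h4, h5⟩ := step hS hS' p.2 w (hG n)
    exact ⟨⟨(q', γ'), h1⟩, h2, h3, h4, h5⟩
  choose E hE1 hE2 hE3 hE4 using hst
  have hne : Nonempty Nd := by
    obtain ⟨q, γ, h, _⟩ := exists_node hS hS' (U := Set.univ) isOpen_univ
      ⟨⟨fun _ => false, ⟨fun i hi => absurd hi (by simp), fun δ hδ => by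
        obtain ⟨⟨i, _, hi⟩, _⟩ := hδ
        exact absurd hi (by simp)⟩⟩, mem_univ _⟩
    exact ⟨⟨(q, γ), h⟩⟩
  let p₀ : Nd := Classical.choice hne
  let g : List (ℕ × W) → Nd := fun l => l.foldr (fun a p => E p a.1 a.2) p₀
  have hg : ∀ a l, g (a :: l) = E (g l) a.1 a.2 := fun a l => rfl
  -- bounds
  have hbd : ∀ w : W, ∃ w' : W, w < w' ∧ ∀ l : List (ℕ × W), (∀ a ∈ l, a.2 ≤ w) → (g l).1.2 < w' := by
    intro w
    have hc1 : {a : ℕ × W | a.2 ≤ w}.Countable := by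
      have : {a : ℕ × W | a.2 ≤ w} = Set.univ ×ˢ Iic w := by ext a; simp
      rw [this]
      exact countable_univ.prod (countable_Iic w)
    have hc2 : {l : List (ℕ × W) | ∀ a ∈ l, a.2 ≤ w}.Countable := by
      have hcount : Countable {a : ℕ × W | a.2 ≤ w} := hc1.to_subtype
      have h := Set.range_list_map_coe {a : ℕ × W | a.2 ≤ w}
      have h2 : {l : List (ℕ × W) | ∀ a ∈ l, a.2 ≤ w} = range (List.map ((↑) : {a : ℕ × W | a.2 ≤ w} → ℕ × W)) := by
        rw [h]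
        rfl
      rw [h2]
      exact countable_range _
    obtain ⟨w', hw'⟩ := exists_gt_countable (S := insert w ((fun l => (g l).1.2) '' {l : List (ℕ × W) | ∀ a ∈ l, a.2 ≤ w}))
      ((hc2.image _).insert w)
    exact ⟨w', hw' w (mem_insert _ _), fun l hl => hw' _ (mem_insert_of_mem _ ⟨l, hl, rfl⟩)⟩
  choose h hh1 hh2 using hbd
  obtain ⟨δ, hδS, ⟨w₀, hw₀⟩, hcl⟩ := hS h
  -- a cofinal sequence
  have hIne : (Iio δ).Nonempty := ⟨w₀, hw₀⟩
  obtain ⟨e, he⟩ := (countable_Iio δ).exists_eq_range hIne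
  have he1 : ∀ n, e n < δ := fun n => by
    have : e n ∈ Iio δ := by rw [he]; exact mem_range_self n
    exact this
  let l : ℕ → List (ℕ × W) := fun n => Nat.rec [] (fun n l => (n, e n) :: l) n
  have hl : ∀ n, l (n + 1) = (n, e n) :: l n := fun n => rfl
  have hlb : ∀ n, ∃ w < δ, ∀ a ∈ l n, a.2 ≤ w := by
    intro n
    induction n with
    | zero => exact ⟨w₀, hw₀, fun a ha => absurd ha (by simp [l])⟩
    | succ n ih =>
      obtain ⟨w, hw1, hw2⟩ := ih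
      refine ⟨max w (e n), max_lt hw1 (he1 n), fun a ha => ?_⟩
      rw [hl, List.mem_cons] at ha
      rcases ha with rfl | ha
      · exact le_max_right _ _
      · exact (hw2 a ha).trans (le_max_left _ _)
  have hlt : ∀ n, (g (l n)).1.2 < δ := by
    intro n
    obtain ⟨w, hw1, hw2⟩ := hlb n
    exact (hh2 w (l n) hw2).trans (hcl w hw1)
  obtain ⟨p, hp1, hp2⟩ := limit (q := fun n => (g (l n)).1.1) (γ := fun n => (g (l n)).1.2)
    (fun n => (g (l n)).2) (fun n => by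
      show (g (l n)).1.2 < (g (l (n + 1))).1.2
      rw [hl, hg]; exact hE1 _ _ _)
    (fun n => by
      show N (g (l (n + 1))).1.1 (g (l (n + 1))).1.2 ⊆ N (g (l n)).1.1 (g (l n)).1.2
      rw [hl, hg]; exact hE3 _ _ _) hδS hlt
    (fun i hi => by
      have : i ∈ range e := by rw [← he]; exact hi
      obtain ⟨n, rfl⟩ := this
      refine ⟨n + 1, ?_⟩
      show e n < (g (l (n + 1))).1.2
      rw [hl, hg]
      exact hE2 _ _ _)
  obtain ⟨V, hV1, hV2, hV3⟩ := exists_open hS hp1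
  refine ⟨V, hV1, hV2, fun n => ?_⟩
  have hsub : V ⊆ N (g (l (n + 1))).1.1 (g (l (n + 1))).1.2 := hV3.trans (hp2 (n + 1))
  rw [hl, hg] at hsub
  rcases hE4 (g (l n)) n (e n) with h4 | h4
  · exact Or.inl (hsub.trans h4)
  · exact Or.inr (h4.mono_left hsub)

/-- every nonempty open set contains two disjoint nonempty open sets -/
theorem two_open (hS : Stat S) (hS' : Stat Sᶜ) {V : Set (X S)} (hV : IsOpen V) (hne : V.Nonempty) :
    ∃ V₁ V₂ : Set (X S), IsOpen V₁ ∧ IsOpen V₂ ∧ V₁.Nonempty ∧ V₂.Nonempty ∧ V₁ ⊆ V ∧ V₂ ⊆ V ∧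
      Disjoint V₁ V₂ := by
  obtain ⟨q, γ, hq, hqV⟩ := exists_node hS hS' hV hne
  obtain ⟨γ₁, h1, h1'⟩ := hS.unbounded γ
  obtain ⟨γ₂, h2, h2'⟩ := hS.unbounded γ₁
  have hb1 := hq.lt_of h1'
  have hb2 := hq.lt_of (h1'.trans h2')
  have n1 := ext_node h1 hq.cl hb1
  have n2 := ext_node h2 hq.cl hb2
  obtain ⟨U₁, a1, a2, a3⟩ := exists_open hS n1
  obtain ⟨U₂, b1, b2, b3⟩ := exists_open hS n2
  have s1 : N (⟨extFn q γ₁, extFn_good h1 hq.cl hb1⟩ : X S) γ₁ ⊆ N q γ := fun z hz j hj => by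
    rw [hz j (hj.trans h1'.le)]
    exact extFn_ne q (hj.trans_lt h1').ne
  have s2 : N (⟨extFn q γ₂, extFn_good h2 hq.cl hb2⟩ : X S) γ₂ ⊆ N q γ := fun z hz j hj => by
    rw [hz j (hj.trans (h1'.trans h2').le)]
    exact extFn_ne q (hj.trans_lt (h1'.trans h2')).ne
  refine ⟨U₁, U₂, a1, b1, a2, b2, (a3.trans s1).trans hqV, (b3.trans s2).trans hqV, ?_⟩
  rw [disjoint_left]
  intro z hz1 hz2
  have e1 : z.1 γ₁ = true := by
    rw [a3 hz1 γ₁ le_rfl]; exact extFn_self q γ₁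
  have e2 : z.1 γ₁ = false := by
    rw [b3 hz2 γ₁ h2'.le]
    show extFn q γ₂ γ₁ = false
    rw [extFn_ne q h2'.ne]
    exact hq.bd γ₁ h1'
  rw [e1] at e2
  exact absurd e2 (by simp)

/-- an injective real function is not continuous on any dense set -/
theorem not_blumberg (hS : Stat S) (hS' : Stat Sᶜ) (f : X S → ℝ) (hf : Function.Injective f)
    (D : Set (X S)) (hD : Dense D) : ¬ ContinuousOn f D := by
  classical
  intro hc
  -- rational rays
  have h1 : ∀ r : ℚ, ∃ G : Set (X S), IsOpen G ∧ ∀ d ∈ D, d ∈ G ↔ f d < r := by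
    intro r
    obtain ⟨G, hG, hGe⟩ := (continuousOn_iff'.1 hc) (Iio (r : ℝ)) isOpen_Iio
    refine ⟨G, hG, fun d hd => ?_⟩
    constructor
    · intro h
      have : d ∈ G ∩ D := ⟨h, hd⟩
      rw [← hGe] at this
      exact this.1
    · intro h
      have : d ∈ f ⁻¹' Iio (r : ℝ) ∩ D := ⟨h, hd⟩
      rw [hGe] at this
      exact this.1
  choose G hG hGe using h1
  obtain ⟨φ, hφ⟩ := exists_surjective_nat ℚ
  obtain ⟨V, hV1, hV2, hV3⟩ := distributive hS hS' (fun n => G (φ n)) (fun n => hG _)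
  obtain ⟨V₁, V₂, a1, b1, a2, b2, a3, b3, hdis⟩ := two_open hS hS' hV1 hV2
  obtain ⟨d₁, hd1, hd1'⟩ := hD.inter_open_nonempty V₁ a1 a2
  obtain ⟨d₂, hd2, hd2'⟩ := hD.inter_open_nonempty V₂ b1 b2
  have key : ∀ r : ℚ, f d₁ < r ↔ f d₂ < r := by
    intro r
    obtain ⟨n, rfl⟩ := hφ r
    rw [← hGe _ d₁ hd1', ← hGe _ d₂ hd2']
    rcases hV3 n with h | h
    · exact ⟨fun _ => h (b3 hd2), fun _ => h (a3 hd1)⟩
    · exact ⟨fun h2 => absurd h2 ((disjoint_left.1 h) (a3 hd1)),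
        fun h2 => absurd h2 ((disjoint_left.1 h) (b3 hd2))⟩
  have heq : f d₁ = f d₂ := by
    rcases lt_trichotomy (f d₁) (f d₂) with h | h | h
    · obtain ⟨r, hr1, hr2⟩ := exists_rat_btwn h
      exact absurd ((key r).1 hr1) (not_lt.2 hr2.le)
    · exact h
    · obtain ⟨r, hr1, hr2⟩ := exists_rat_btwn h
      exact absurd ((key r).2 hr1) (not_lt.2 hr2.le)
  have := hf heq
  rw [this] at hd1
  exact (disjoint_left.1 hdis) hd1 hd2

end Pool.Agent.Q154.Blum
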