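import Mathlib
import Pool.Agent.Q154.CHTools

set_option autoImplicit false

/-!
Generic strictly increasing functions: a Rasiowa-Sikorski lemma.
-/

open Set Filter

namespace Pool.Agent.Q154.Gen

/-- cylinder of a list -/
def cyl (σ : List ℕ) : Set (ℕ → ℕ) := {x | ∀ i < σ.length, x i = σ.getD i 0}

/-- the list of the first `n` values -/
def pre (x : ℕ → ℕ) (n : ℕ) : List ℕ := (List.range n).map x

@[simp] theorem length_pre (x : ℕ → ℕ) (n : ℕ) : (pre x n).length = n := by simp [pre]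

theorem getD_pre (x : ℕ → ℕ) {n i : ℕ} (h : i < n) : (pre x n).getD i 0 = x i := by
  simp [pre, h]

theorem mem_cyl_pre {x y : ℕ → ℕ} {n : ℕ} : y ∈ cyl (pre x n) ↔ ∀ i < n, y i = x i := by
  unfold cyl
  rw [Set.mem_ofPred_eq, length_pre]
  exact forall₂_congr fun i hi => by rw [getD_pre x hi]

theorem isOpen_cyl (σ : List ℕ) : IsOpen (cyl σ) := by
  have : cyl σ = ⋂ i ∈ Finset.range σ.length, {x : ℕ → ℕ | x i = σ.getD i 0} := by
    ext x; simp [cyl]
  rw [this]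
  refine isOpen_biInter_finset fun i _ => ?_
  have h : Continuous fun x : ℕ → ℕ => x i := continuous_apply i
  exact (isOpen_discrete ({σ.getD i 0} : Set ℕ)).preimage h

theorem exists_cyl_subset {U : Set (ℕ → ℕ)} (hU : IsOpen U) {x : ℕ → ℕ} (hx : x ∈ U) :
    ∃ n, cyl (pre x n) ⊆ U := by
  rw [isOpen_pi_iff] at hU
  obtain ⟨I, u, hu, hsub⟩ := hU x hx
  refine ⟨(I.sup id) + 1, fun y hy => hsub ?_⟩
  intro i hi
  have h1 : i < I.sup id + 1 := Nat.lt_succ_of_le (Finset.le_sup (f := id) hi)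
  rw [mem_cyl_pre.1 hy i h1]
  exact (hu i hi).2

/-- conditions: a strictly increasing function, a length and a finite set of lower bounds -/
structure Cnd {W : Type} (c : W → ℕ → ℕ) (S : Set W) : Type where
  x : ℕ → ℕ
  n : ℕ
  F : Finset W
  mono : StrictMono x
  sub : ∀ b ∈ F, b ∈ S

instance {W : Type} (c : W → ℕ → ℕ) (S : Set W) : Preorder (Cnd c S) where
  le p q := p.n ≤ q.n ∧ p.F ⊆ q.F ∧ (∀ j < p.n, q.x j = p.x j) ∧
    ∀ j, p.n ≤ j → j < q.n → ∀ b ∈ p.F, c b j ≤ q.x j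
  le_refl p := ⟨le_rfl, Finset.Subset.refl _, fun _ _ => rfl, fun j h1 h2 => by omega⟩
  le_trans p q r := by
    rintro ⟨h1, h2, h3, h4⟩ ⟨k1, k2, k3, k4⟩
    refine ⟨h1.trans k1, h2.trans k2, fun j hj => ?_, fun j hj1 hj2 b hb => ?_⟩
    · rw [k3 j (hj.trans_le h1), h3 j hj]
    · by_cases h : j < q.n
      · rw [k3 j h]; exact h4 j hj1 h b hb
      · exact k4 j (not_lt.1 h) hj2 b (h2 hb)

theorem le_def {W : Type} {c : W → ℕ → ℕ} {S : Set W} {p q : Cnd c S} :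
    p ≤ q ↔ p.n ≤ q.n ∧ p.F ⊆ q.F ∧ (∀ j < p.n, q.x j = p.x j) ∧
    ∀ j, p.n ≤ j → j < q.n → ∀ b ∈ p.F, c b j ≤ q.x j := Iff.rfl

/-- **Rasiowa-Sikorski lemma** for strictly increasing functions with lower bounds. -/
theorem generic {W : Type} (c : W → ℕ → ℕ) {S : Set W} (hS : S.Countable)
    (hc : ∀ b ∈ S, Monotone (c b)) {ι : Type} [Countable ι] (D : ι → Set (ℕ → ℕ))
    (hD : ∀ i, ∀ p : Cnd c S, ∃ q : Cnd c S, p ≤ q ∧
      ∀ z, StrictMono z → (∀ j < q.n, z j = q.x j) → (∀ j, q.n ≤ j → ∀ b ∈ q.F, c b j ≤ z j) →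
        z ∈ D i) :
    ∃ z, StrictMono z ∧ (∀ b ∈ S, ∀ᶠ j in atTop, c b j ≤ z j) ∧ ∀ i, z ∈ D i := by
  classical
  have : Countable S := hS.to_subtype
  have : Encodable (ι ⊕ (ℕ ⊕ S)) := Encodable.ofCountable _
  have hlen : ∀ (l : ℕ) (p : Cnd c S), ∃ q : Cnd c S, p ≤ q ∧ l ≤ q.n := by
    intro l p
    let y : ℕ → ℕ := fun j => if j < p.n then p.x j else p.x j + ∑ b ∈ p.F, c b j
    have hy : StrictMono y := by
      intro i j hij
      simp only [y]
      have h1 := p.mono hij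
      have h2 : ∑ b ∈ p.F, c b i ≤ ∑ b ∈ p.F, c b j :=
        Finset.sum_le_sum fun b hb => hc b (p.sub b hb) hij.le
      split_ifs <;> omega
    refine ⟨⟨y, max l p.n, p.F, hy, p.sub⟩, ⟨le_max_right _ _, Finset.Subset.refl _, ?_, ?_⟩,
      le_max_left _ _⟩
    · intro j hj
      simp only [y, if_pos hj]
    · intro j hj1 hj2 b hb
      simp only [y, if_neg (not_lt.2 hj1)]
      exact (Finset.single_le_sum (f := fun b => c b j) (fun _ _ => Nat.zero_le _) hb).trans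
        (Nat.le_add_left _ _)
  let 𝒟 : ι ⊕ (ℕ ⊕ S) → Order.Cofinal (Cnd c S) := fun s => match s with
    | Sum.inl i => ⟨{q | ∀ z, StrictMono z → (∀ j < q.n, z j = q.x j) →
        (∀ j, q.n ≤ j → ∀ b ∈ q.F, c b j ≤ z j) → z ∈ D i}, fun p => by
          obtain ⟨q, hq1, hq2⟩ := hD i p
          exact ⟨q, hq2, hq1⟩⟩
    | Sum.inr (Sum.inl l) => ⟨{q | l ≤ q.n}, fun p => by
          obtain ⟨q, hq1, hq2⟩ := hlen l p
          exact ⟨q, hq2, hq1⟩⟩
    | Sum.inr (Sum.inr b) => ⟨{q | b.1 ∈ q.F}, fun p => by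
          refine ⟨⟨p.x, p.n, insert b.1 p.F, p.mono, ?_⟩, Finset.mem_insert_self _ _, ?_⟩
          · intro b' hb'
            rcases Finset.mem_insert.1 hb' with rfl | h
            · exact b.2
            · exact p.sub b' h
          · exact ⟨le_rfl, Finset.subset_insert _ _, fun _ _ => rfl,
              fun j h1 h2 => absurd h2 (not_lt.2 h1)⟩⟩
  let p0 : Cnd c S := ⟨id, 0, ∅, strictMono_id, by simp⟩
  let s : ℕ → Cnd c S := Order.sequenceOfCofinals p0 𝒟
  have hs : Monotone s := Order.sequenceOfCofinals.monotone p0 𝒟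
  have hmem : ∀ t, s (Encodable.encode t + 1) ∈ 𝒟 t := fun t =>
    Order.sequenceOfCofinals.encode_mem p0 𝒟 t
  let kk : ℕ → ℕ := fun l => Encodable.encode (Sum.inr (Sum.inl l) : ι ⊕ (ℕ ⊕ S)) + 1
  have hkk : ∀ l, l ≤ (s (kk l)).n := fun l => hmem (Sum.inr (Sum.inl l))
  let z : ℕ → ℕ := fun j => (s (kk (j + 1))).x j
  have hz : ∀ k j, j < (s k).n → z j = (s k).x j := by
    intro k j hj
    rcases le_total k (kk (j + 1)) with h | h
    · exact (hs h).2.2.1 j hj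
    · exact ((hs h).2.2.1 j (hkk (j + 1))).symm
  have hz2 : ∀ k j, (s k).n ≤ j → ∀ b ∈ (s k).F, c b j ≤ z j := by
    intro k j hj b hb
    let k' := max k (kk (j + 1))
    have h1 : j < (s k').n := lt_of_lt_of_le (hkk (j + 1)) (hs (le_max_right _ _)).1
    rw [hz k' j h1]
    exact (hs (le_max_left _ _)).2.2.2 j hj h1 b hb
  have hzm : StrictMono z := by
    intro i j hij
    rw [hz (kk (j + 1)) i (lt_trans hij (hkk (j + 1))), hz (kk (j + 1)) j (hkk (j + 1))]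
    exact (s _).mono hij
  refine ⟨z, hzm, ?_, ?_⟩
  · intro b hb
    have h1 : b ∈ (s (Encodable.encode (Sum.inr (Sum.inr ⟨b, hb⟩) : ι ⊕ (ℕ ⊕ S)) + 1)).F :=
      hmem (Sum.inr (Sum.inr ⟨b, hb⟩))
    filter_upwards [eventually_ge_atTop
      (s (Encodable.encode (Sum.inr (Sum.inr ⟨b, hb⟩) : ι ⊕ (ℕ ⊕ S)) + 1)).n] with j hj
    exact hz2 _ j hj b h1
  · intro i
    exact hmem (Sum.inl i) z hzm (fun j hj => hz _ j hj) (fun j hj b hb => hz2 _ j hj b hb)

/-- countable families are dominated -/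
theorem exists_dominating {ι : Type} [Countable ι] (k : ι → ℕ → ℕ) :
    ∃ h : ℕ → ℕ, ∀ i, ∀ᶠ n in atTop, k i n ≤ h n := by
  classical
  obtain ⟨e, he⟩ := exists_injective_nat ι
  let g : ℕ → ℕ → ℕ := fun m => if h : ∃ i, e i = m then k h.choose else 0
  have hg : ∀ i, g (e i) = k i := fun i => by
    have h : ∃ i', e i' = e i := ⟨i, rfl⟩
    simp only [g, dif_pos h]
    rw [he h.choose_spec]
  refine ⟨fun n => ∑ m ∈ Finset.range (n + 1), g m n, fun i => ?_⟩
  filter_upwards [eventually_ge_atTop (e i)] with n hn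
  rw [← hg i]
  exact Finset.single_le_sum (f := fun m => g m n) (fun _ _ => Nat.zero_le _)
    (Finset.mem_range.2 (Nat.lt_succ_of_le hn))

end Pool.Agent.Q154.Gen
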