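import Mathlib
import Pool.Agent.Q154.Gen

set_option autoImplicit false

/-!
A Menger cofinite-filter scale under CH: the combinatorial core.
-/

open Set Filter

namespace Pool.Agent.Q154.CF

open Gen CHT

/-- legal extensions of the list `σ` above `g` -/
def L (σ : List ℕ) (g : ℕ → ℕ) : Set (ℕ → ℕ) :=
  {y | StrictMono y ∧ y ∈ cyl σ ∧ ∀ i, σ.length ≤ i → g i ≤ y i}

/-- the basic alternative -/
def A (u : ℕ → ℕ → List ℕ) (h g : ℕ → ℕ) (σ : List ℕ) (N : ℕ) : Prop :=
  ∃ n, N ≤ n ∧ ((∀ k, ∀ y ∈ L σ g, y ∉ cyl (u n k)) ∨ (∃ k ≤ h n, ∃ y ∈ L σ g, y ∈ cyl (u n k)))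

/-- lower bounds from a finite set of functions and a list -/
def gg (c : W → ℕ → ℕ) (F : Finset W) (w : List ℕ) : ℕ → ℕ :=
  fun i => max (w.getD i 0) (F.sup fun b => c b i)

theorem gg_congr {c c' : W → ℕ → ℕ} {F : Finset W} (w : List ℕ) (h : ∀ b ∈ F, c b = c' b) :
    gg c F w = gg c' F w := by
  funext i
  unfold gg
  congr 1
  exact Finset.sup_congr rfl fun b hb => by rw [h b hb]

theorem A_of_dom {u : ℕ → ℕ → List ℕ} {h g : ℕ → ℕ} {σ : List ℕ} (k : ℕ → ℕ)
    (hk : ∀ n, (∃ k', ∃ y ∈ L σ g, y ∈ cyl (u n k')) → ∃ y ∈ L σ g, y ∈ cyl (u n (k n)))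
    (hh : ∀ᶠ n in atTop, k n ≤ h n) (N : ℕ) : A u h g σ N := by
  obtain ⟨n, hn1, hn2⟩ := (hh.and (eventually_ge_atTop N)).exists
  refine ⟨n, hn2, ?_⟩
  by_cases hex : ∃ k', ∃ y ∈ L σ g, y ∈ cyl (u n k')
  · exact Or.inr ⟨k n, hn1, hk n hex⟩
  · left
    push Not at hex
    exact fun k y hy => hex k y hy

/-- all data attached to a stage -/
structure V : Type where
  h : ℕ → ℕ
  c : ℕ → ℕ

instance : Nonempty V := ⟨⟨id, id⟩⟩

section stage

variable (u : W → ℕ → ℕ → List ℕ) (b : W → ℕ → ℕ)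

/-- the requirements of a stage -/
def P (β : W) (f : W → V) (v : V) : Prop :=
  StrictMono v.c ∧
  (∀ ξ < β, ∀ F : Finset W, (∀ j ∈ F, j < β) → ∀ (σ w : List ℕ) (N : ℕ),
    A (u ξ) v.h (gg (fun j => (f j).c) F w) σ N) ∧
  (∀ γ < β, ∀ ξ < γ, ∀ F : Finset W, (∀ j ∈ F, j < β) → ∀ (σ w : List ℕ) (N : ℕ),
    A (u ξ) (f γ).h (fun i => max (gg (fun j => (f j).c) F w i) (v.c i)) σ N) ∧
  (∀ ξ < β, ∀ F : Finset W, (∀ j ∈ F, j < β) → ∀ (σ w : List ℕ) (N : ℕ),
    A (u ξ) v.h (fun i => max (gg (fun j => (f j).c) F w i) (v.c i)) σ N) ∧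
  (∀ ξ < β, ∀ N, ∃ n, N ≤ n ∧ b ξ n < v.c n)

theorem P_congr (β : W) (f g : W → V) (v : V) (h : ∀ j < β, f j = g j) (hP : P u b β f v) :
    P u b β g v := by
  obtain ⟨h1, h2, h3, h4, h5⟩ := hP
  have e : ∀ F : Finset W, (∀ j ∈ F, j < β) → ∀ w, gg (fun j => (f j).c) F w
      = gg (fun j => (g j).c) F w := fun F hF w =>
    gg_congr w fun j hj => by rw [h j (hF j hj)]
  refine ⟨h1, ?_, ?_, ?_, h5⟩
  · intro ξ hξ F hF σ w N
    rw [← e F hF w]; exact h2 ξ hξ F hF σ w N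
  · intro γ hγ ξ hξ F hF σ w N
    rw [← e F hF w, ← h γ hγ]; exact h3 γ hγ ξ hξ F hF σ w N
  · intro ξ hξ F hF σ w N
    rw [← e F hF w]; exact h4 ξ hξ F hF σ w N

theorem A_all {β : W} {f : W → V} (hf : ∀ j < β, P u b j f (f j)) {γ : W} (hγ : γ < β) {ξ : W}
    (hξ : ξ < γ) (F : Finset W) (hF : ∀ j ∈ F, j < β) (σ w : List ℕ) (N : ℕ) :
    A (u ξ) (f γ).h (gg (fun j => (f j).c) F w) σ N := by
  classical
  by_cases hall : ∀ j ∈ F, j < γ
  · exact (hf γ hγ).2.1 ξ hξ F hall σ w N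
  · push Not at hall
    obtain ⟨j0, hj0, hj0γ⟩ := hall
    have hne : F.Nonempty := ⟨j0, hj0⟩
    let m := F.max' hne
    have hm : m ∈ F := F.max'_mem hne
    have hγm : γ ≤ m := hj0γ.trans (F.le_max' j0 hj0)
    have hlt : ∀ j ∈ F.erase m, j < m := fun j hj =>
      lt_of_le_of_ne (F.le_max' j (Finset.mem_of_mem_erase hj)) (Finset.ne_of_mem_erase hj)
    have e : gg (fun j => (f j).c) F w
        = fun i => max (gg (fun j => (f j).c) (F.erase m) w i) ((f m).c i) := by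
      funext i
      unfold gg
      conv_lhs => rw [← Finset.insert_erase hm, Finset.sup_insert]
      rw [max_assoc]
      congr 1
      exact max_comm _ _
    rw [e]
    rcases hγm.lt_or_eq with h | h
    · exact (hf m (hF m hm)).2.2.1 γ h ξ hξ _ hlt σ w N
    · subst h
      exact (hf _ (hF _ hm)).2.2.2.1 ξ hξ _ hlt σ w N

/-- choice of `h` -/
theorem exists_h (β : W) (f : W → V) : ∃ h : ℕ → ℕ, ∀ ξ < β, ∀ F : Finset W, (∀ j ∈ F, j < β) →
    ∀ (σ w : List ℕ) (N : ℕ), A (u ξ) h (gg (fun j => (f j).c) F w) σ N := by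
  classical
  have : Countable (Iio β) := (countable_Iio β).to_subtype
  let ι := Iio β × Finset (Iio β) × List ℕ × List ℕ
  let g : ι → ℕ → ℕ := fun p => gg (fun j => (f j).c) (p.2.1.map (Function.Embedding.subtype _))
    p.2.2.2
  let k : ι → ℕ → ℕ := fun p n =>
    if h : ∃ k', ∃ y ∈ L p.2.2.1 (g p), y ∈ cyl (u p.1.1 n k') then h.choose else 0
  obtain ⟨h, hh⟩ := exists_dominating k
  refine ⟨h, fun ξ hξ F hF σ w N => ?_⟩
  have hF' : (F.subtype (· ∈ Iio β)).map (Function.Embedding.subtype _) = F :=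
    Finset.subtype_map_of_mem hF
  let p : ι := (⟨ξ, hξ⟩, F.subtype (· ∈ Iio β), σ, w)
  have hg : g p = gg (fun j => (f j).c) F w := by
    simp only [g, p, hF']
  rw [← hg]
  refine A_of_dom (k p) ?_ (hh p) N
  intro n hn
  have hk : k p n = hn.choose := dif_pos hn
  rw [hk]
  exact hn.choose_spec

theorem strictMono_add {y : ℕ → ℕ} (hy : StrictMono y) (a d : ℕ) : y a + d ≤ y (a + d) := by
  induction d with
  | zero => simp
  | succ d ih =>
    have := hy (show a + d < a + (d + 1) by omega)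
    omega

/-- the list with entries `max w x` on `[0, n')` -/
def mx (w : List ℕ) (x : ℕ → ℕ) (n' : ℕ) : List ℕ :=
  (List.range (max w.length n')).map fun i => max (w.getD i 0) (if i < n' then x i else 0)

theorem getD_mx (w : List ℕ) (x : ℕ → ℕ) (n' i : ℕ) :
    (mx w x n').getD i 0 = max (w.getD i 0) (if i < n' then x i else 0) := by
  unfold mx
  by_cases h : i < max w.length n'
  · simp [h]
  · have h1 : ¬ i < w.length := fun h' => h (lt_of_lt_of_le h' (le_max_left _ _))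
    have h2 : ¬ i < n' := fun h' => h (lt_of_lt_of_le h' (le_max_right _ _))
    simp [h, h1, h2]

/-- density of the requirements on `c` -/
theorem dense_A {u : ℕ → ℕ → List ℕ} {h : ℕ → ℕ} {G : List ℕ → ℕ → ℕ} {G0 : ℕ → ℕ}
    (hG : ∀ w i, G w i = max (w.getD i 0) (G0 i))
    (hA : ∀ (σ w : List ℕ) (N : ℕ), A u h (G w) σ N) (σ w : List ℕ) (N : ℕ) {x : ℕ → ℕ}
    (hx : StrictMono x) (n : ℕ) :
    ∃ q : ℕ → ℕ, ∃ m, StrictMono q ∧ n ≤ m ∧ (∀ j < n, q j = x j) ∧
      ∀ z, StrictMono z → (∀ j < m, z j = q j) → A u h (fun i => max (G w i) (z i)) σ N := by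
  let n' := max n (σ.length + 1)
  have hn'1 : 1 ≤ n' := le_trans (Nat.le_add_left _ _) (le_max_right _ _)
  have hn'σ : σ.length < n' := lt_of_lt_of_le (Nat.lt_succ_self _) (le_max_right _ _)
  have hGw : ∀ i, G (mx w x n') i = max (max (w.getD i 0) (if i < n' then x i else 0)) (G0 i) := by
    intro i; rw [hG, getD_mx]
  obtain ⟨n0, hn0, hcase⟩ := hA σ (mx w x n') N
  rcases hcase with h1 | ⟨k, hk, y, hy, hyk⟩
  · refine ⟨x, n', hx, le_max_left _ _, fun _ _ => rfl, fun z hz hzx => ⟨n0, hn0, Or.inl ?_⟩⟩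
    intro k y hy
    apply h1 k y
    refine ⟨hy.1, hy.2.1, fun i hi => ?_⟩
    refine le_trans ?_ (hy.2.2 i hi)
    rw [hGw]
    beta_reduce
    rw [hG]
    by_cases hin : i < n'
    · rw [if_pos hin, hzx i hin]
      omega
    · rw [if_neg hin]
      omega
  · let M := max n' (u n0 k).length
    let q : ℕ → ℕ := fun j => if j < n' then x j else x (n' - 1) + (j - (n' - 1))
    have hq : StrictMono q := by
      intro i j hij
      simp only [q]
      split_ifs with h1 h2 h2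
      · exact hx hij
      · have := hx.monotone (show i ≤ n' - 1 by omega)
        omega
      · omega
      · omega
    refine ⟨q, M, hq, (le_max_left _ _).trans (le_max_left _ _), ?_, ?_⟩
    · intro j hj
      have hj' : j < n' := lt_of_lt_of_le hj (le_max_left _ _)
      simp only [q, if_pos hj']
    · intro z hz hzq
      refine ⟨n0, hn0, Or.inr ⟨k, hk, fun j => if j < M then y j else y j + z j, ⟨?_, ?_, ?_⟩, ?_⟩⟩
      · intro i j hij
        have h1 := hy.1 hij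
        have h2 := hz hij
        simp only
        split_ifs <;> omega
      · intro i hi
        have h1 : i < M := lt_of_lt_of_le (hi.trans hn'σ) (le_max_left _ _)
        simp only [if_pos h1]
        exact hy.2.1 i hi
      · intro i hi
        have hyi := hy.2.2 i hi
        rw [hGw] at hyi
        simp only [max_le_iff] at hyi
        have hGi : G w i ≤ y i := by
          rw [hG]; exact max_le hyi.1.1 hyi.2
        by_cases hM : i < M
        · simp only [if_pos hM]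
          refine max_le hGi ?_
          rw [hzq i hM]
          simp only [q]
          by_cases hin : i < n'
          · rw [if_pos hin]
            have := hyi.1.2
            rwa [if_pos hin] at this
          · rw [if_neg hin]
            have h3 := hy.2.2 (n' - 1) (by omega)
            rw [hGw] at h3
            simp only [max_le_iff] at h3
            have h4 := h3.1.2
            rw [if_pos (by omega)] at h4
            have h5 := strictMono_add hy.1 (n' - 1) (i - (n' - 1))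
            rw [show n' - 1 + (i - (n' - 1)) = i by omega] at h5
            omega
        · simp only [if_neg hM]
          exact max_le (hGi.trans (Nat.le_add_right _ _)) (Nat.le_add_left _ _)
      · intro i hi
        have h1 : i < M := lt_of_lt_of_le hi (le_max_right _ _)
        simp only [if_pos h1]
        exact hyk i hi

/-- the recursion step -/
theorem exists_V (β : W) (f : W → V) (hf : ∀ j < β, P u b j f (f j)) : ∃ v, P u b β f v := by
  classical
  obtain ⟨h, hh⟩ := exists_h u β f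
  have : Countable (Iio β) := (countable_Iio β).to_subtype
  let ι := (Iio β × Iio β × Finset (Iio β) × List ℕ × List ℕ × ℕ) ⊕
    ((Iio β × Finset (Iio β) × List ℕ × List ℕ × ℕ) ⊕ (Iio β × ℕ))
  let up : Finset (Iio β) → Finset W := fun F => F.map (Function.Embedding.subtype _)
  have hup : ∀ F : Finset (Iio β), ∀ j ∈ up F, j < β := by
    intro F j hj
    obtain ⟨j', -, rfl⟩ := Finset.mem_map.1 hj
    exact j'.2
  have hup2 : ∀ F : Finset W, (∀ j ∈ F, j < β) → up (F.subtype (· ∈ Iio β)) = F := fun F hF =>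
    Finset.subtype_map_of_mem hF
  let D : ι → Set (ℕ → ℕ) := fun s => match s with
    | Sum.inl (γ, ξ, F, σ, w, N) => {z | ξ.1 < γ.1 →
        A (u ξ) (f γ).h (fun i => max (gg (fun j => (f j).c) (up F) w i) (z i)) σ N}
    | Sum.inr (Sum.inl (ξ, F, σ, w, N)) => {z |
        A (u ξ) h (fun i => max (gg (fun j => (f j).c) (up F) w i) (z i)) σ N}
    | Sum.inr (Sum.inr (ξ, N)) => {z | ∃ n, N ≤ n ∧ b ξ n < z n}
  obtain ⟨c, hc1, -, hc2⟩ := generic (W := W) (fun _ _ => 0) (S := ∅) countable_empty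
    (by simp) D (by
      intro s p
      have mk : ∀ (q : ℕ → ℕ) (m : ℕ) (hq : StrictMono q), p.n ≤ m → (∀ j < p.n, q j = p.x j) →
          (∀ z, StrictMono z → (∀ j < m, z j = q j) → z ∈ D s) →
          ∃ q : Cnd (W := W) (fun _ _ => 0) ∅, p ≤ q ∧
            ∀ z, StrictMono z → (∀ j < q.n, z j = q.x j) →
              (∀ j, q.n ≤ j → ∀ b ∈ q.F, (fun _ _ => 0 : W → ℕ → ℕ) b j ≤ z j) → z ∈ D s := by
        intro q m hq hm hqx hz
        exact ⟨⟨q, m, p.F, hq, p.sub⟩, ⟨hm, Finset.Subset.refl _, hqx, fun _ _ _ _ _ =>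
          Nat.zero_le _⟩, fun z h1 h2 _ => hz z h1 h2⟩
      have hG : ∀ (F : Finset W) (w : List ℕ) (i : ℕ), gg (fun j => (f j).c) F w i
          = max (w.getD i 0) (F.sup fun b => (f b).c i) := fun _ _ _ => rfl
      rcases s with ⟨γ, ξ, F, σ, w, N⟩ | ⟨ξ, F, σ, w, N⟩ | ⟨ξ, N⟩
      · by_cases hξ : ξ.1 < γ.1
        · obtain ⟨q, m, h1, h2, h3, h4⟩ := dense_A (hG (up F))
            (fun σ w N => A_all u b hf γ.2 hξ (up F) (hup F) σ w N) σ w N p.mono p.n
          exact mk q m h1 h2 h3 fun z hz1 hz2 _ => h4 z hz1 hz2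
        · exact mk p.x p.n p.mono le_rfl (fun _ _ => rfl) fun z _ _ h => absurd h hξ
      · obtain ⟨q, m, h1, h2, h3, h4⟩ := dense_A (hG (up F))
            (fun σ w N => hh ξ ξ.2 (up F) (hup F) σ w N) σ w N p.mono p.n
        exact mk q m h1 h2 h3 fun z hz1 hz2 => h4 z hz1 hz2
      · let m0 := max p.n N
        refine mk (fun j => if j < p.n then p.x j else p.x j + (b ξ m0 + 1)) (m0 + 1) ?_
          (by omega) ?_ ?_
        · intro i j hij
          have := p.mono hij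
          simp only
          split_ifs <;> omega
        · intro j hj
          simp only [if_pos hj]
        · intro z _ hz
          refine ⟨m0, le_max_right _ _, ?_⟩
          rw [hz m0 (Nat.lt_succ_self _), if_neg (by omega)]
          omega)
  refine ⟨⟨h, c⟩, hc1, hh, ?_, ?_, ?_⟩
  · intro γ hγ ξ hξ F hF σ w N
    have := hc2 (Sum.inl (⟨γ, hγ⟩, ⟨ξ, hξ.trans hγ⟩, F.subtype (· ∈ Iio β), σ, w, N)) hξ
    simp only [hup2 F hF] at this
    exact this
  · intro ξ hξ F hF σ w N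
    have := hc2 (Sum.inr (Sum.inl (⟨ξ, hξ⟩, F.subtype (· ∈ Iio β), σ, w, N)))
    simp only [D, hup2 F hF] at this
    exact this
  · intro ξ hξ N
    exact hc2 (Sum.inr (Sum.inr (⟨ξ, hξ⟩, N)))

/-- **The combinatorial core.** -/
theorem exists_family :
    ∃ h c x : W → ℕ → ℕ, (∀ α, StrictMono (c α) ∧ StrictMono (x α)) ∧
      (∀ α, ∀ ξ < α, ∀ N, ∃ n, N ≤ n ∧ b ξ n < c α n) ∧
      (∀ α, ∀ β < α, ∀ᶠ j in atTop, c β j ≤ x α j) ∧
      (∀ α, ∀ γ ≤ α, ∀ ξ < γ, ∀ N, ∃ n, N ≤ n ∧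
        ((∀ k, x α ∉ cyl (u ξ n k)) ∨ ∃ k ≤ h γ n, x α ∈ cyl (u ξ n k))) := by
  classical
  obtain ⟨f, hf⟩ := exists_rec (P u b) (fun i f g v h => P_congr u b i f g v h)
    (fun i f h => exists_V u b i f h)
  have hall : ∀ {γ ξ : W}, ξ < γ → ∀ (F : Finset W) (σ w : List ℕ) (N : ℕ),
      A (u ξ) (f γ).h (gg (fun j => (f j).c) F w) σ N := by
    intro γ ξ hξ F σ w N
    obtain ⟨β, hβ⟩ := exists_gt_countable (S := insert γ (F : Set W))
      ((F.countable_toSet).insert γ)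
    exact A_all u b (fun j _ => hf j) (hβ γ (mem_insert _ _)) hξ F
      (fun j hj => hβ j (mem_insert_of_mem _ hj)) σ w N
  have hx : ∀ α : W, ∃ z : ℕ → ℕ, StrictMono z ∧ (∀ β ∈ Iio α, ∀ᶠ j in atTop, (f β).c j ≤ z j) ∧
      ∀ s : Iic α × Iio α × ℕ, s.2.1.1 < s.1.1 → ∃ n, s.2.2 ≤ n ∧
        ((∀ k, z ∉ cyl (u s.2.1 n k)) ∨ ∃ k ≤ (f s.1).h n, z ∈ cyl (u s.2.1 n k)) := by
    intro α
    have : Countable (Iio α) := (countable_Iio α).to_subtype
    have : Countable (Iic α) := (countable_Iic α).to_subtype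
    refine generic (fun j => (f j).c) (countable_Iio α) (fun j _ => (hf j).1.monotone)
      (fun s : Iic α × Iio α × ℕ => {z | s.2.1.1 < s.1.1 → ∃ n, s.2.2 ≤ n ∧
        ((∀ k, z ∉ cyl (u s.2.1 n k)) ∨ ∃ k ≤ (f s.1).h n, z ∈ cyl (u s.2.1 n k))}) ?_
    rintro ⟨γ, ξ, N⟩ p
    by_cases hξ : ξ.1 < γ.1
    · obtain ⟨n0, hn0, hcase⟩ := hall hξ p.F (pre p.x p.n) [] N
      have hgg : ∀ i, ∀ j ∈ p.F, (f j).c i ≤ gg (fun j => (f j).c) p.F [] i := fun i j hj =>
        (Finset.le_sup (f := fun b => (f b).c i) hj).trans (le_max_right _ _)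
      rcases hcase with h1 | ⟨k, hk, y, hy, hyk⟩
      · refine ⟨p, le_rfl, fun z hz1 hz2 hz3 _ => ⟨n0, hn0, Or.inl fun k => h1 k z ⟨hz1, ?_, ?_⟩⟩⟩
        · exact mem_cyl_pre.2 hz2
        · intro i hi
          rw [length_pre] at hi
          unfold gg
          refine max_le (by simp) (Finset.sup_le fun j hj => hz3 i hi j hj)
      · refine ⟨⟨y, max p.n (u ξ n0 k).length, p.F, hy.1, p.sub⟩, ⟨le_max_left _ _,
          Finset.Subset.refl _, mem_cyl_pre.1 hy.2.1, ?_⟩, ?_⟩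
        · intro i hi _ j hj
          exact (hgg i j hj).trans (hy.2.2 i (by rw [length_pre]; exact hi))
        · intro z _ hz2 _ _
          refine ⟨n0, hn0, Or.inr ⟨k, hk, fun i hi => ?_⟩⟩
          rw [hz2 i (lt_of_lt_of_le hi (le_max_right _ _))]
          exact hyk i hi
    · exact ⟨p, le_rfl, fun z _ _ _ h => absurd h hξ⟩
  choose x hx1 hx2 hx3 using hx
  refine ⟨fun γ => (f γ).h, fun γ => (f γ).c, x, fun α => ⟨(hf α).1, hx1 α⟩, ?_, ?_, ?_⟩
  · intro α ξ hξ N
    exact (hf α).2.2.2.2 ξ hξ N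
  · intro α β hβ
    exact hx2 α β hβ
  · intro α γ hγ ξ hξ N
    exact hx3 α (⟨γ, hγ⟩, ⟨ξ, hξ.trans_le hγ⟩, N) hξ

end stage

end Pool.Agent.Q154.CF
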