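import Mathlib.Analysis.Normed.Group.AddCircle
import Mathlib.Topology.MetricSpace.HausdorffDistance
import Mathlib.Analysis.Real.Pi.Bounds
import Mathlib.Tactic

set_option autoImplicit false

/-!
A lower bound for the distortion of correspondences between the circle and a subset of it which
misses an arc.
-/

open Real Metric Set

namespace Pool.Agent.Q154.CircleGH

/-- The circle of length `2π`. -/
abbrev S := AddCircle (2 * π)

theorem norm_abs_of_le {t : ℝ} (h : |t| ≤ π) : ‖(t : S)‖ = |t| := by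
  rw [AddCircle.norm_coe_eq_abs_iff (2 * π) (by positivity)]
  rw [abs_of_pos (by positivity : (0 : ℝ) < 2 * π)]
  linarith

theorem coe_period : ((2 * π : ℝ) : S) = 0 := AddCircle.coe_period (2 * π)

theorem coe_sub_period (t : ℝ) : ((t - 2 * π : ℝ) : S) = (t : S) := by
  rw [AddCircle.coe_sub, coe_period, sub_zero]

theorem coe_add_period (t : ℝ) : ((t + 2 * π : ℝ) : S) = (t : S) := by
  rw [AddCircle.coe_add, coe_period, add_zero]

theorem exists_rep (u : S) : ∃ y : ℝ, (y : S) = u ∧ |y| = ‖u‖ ∧ |y| ≤ π := by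
  obtain ⟨t, rfl⟩ := QuotientAddGroup.mk_surjective u
  refine ⟨t - round ((2 * π)⁻¹ * t) * (2 * π), ?_, ?_, ?_⟩
  · rw [AddCircle.coe_sub]
    have : (((round ((2 * π)⁻¹ * t) : ℝ) * (2 * π) : ℝ) : S) = 0 := by
      rw [AddCircle.coe_eq_zero_iff]
      exact ⟨round ((2 * π)⁻¹ * t), by simp⟩
    rw [this, sub_zero]
  · exact (AddCircle.norm_eq (2 * π)).symm
  · have h1 := AddCircle.norm_le_half_period (2 * π) (x := (t : S)) (by positivity)
    rw [AddCircle.norm_eq, abs_of_pos (by positivity : (0 : ℝ) < 2 * π)] at h1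
    linarith

/-- The norm of a real of absolute value at most `2π`. -/
theorem norm_cases {t : ℝ} (h : |t| ≤ 2 * π) :
    (|t| ≤ π ∧ ‖(t : S)‖ = |t|) ∨ (π ≤ |t| ∧ ‖(t : S)‖ = 2 * π - |t|) := by
  rcases le_total |t| π with h1 | h1
  · exact Or.inl ⟨h1, norm_abs_of_le h1⟩
  · refine Or.inr ⟨h1, ?_⟩
    rcases abs_cases t with ⟨h2, h3⟩ | ⟨h2, h3⟩
    · rw [← coe_sub_period, norm_abs_of_le, abs_of_nonpos]
      · linarith
      · linarith
      · rw [abs_of_nonpos] <;> linarith
    · rw [← coe_add_period, norm_abs_of_le, abs_of_nonneg]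
      · linarith
      · linarith
      · rw [abs_of_nonneg] <;> linarith

/-- The lift of the complement of an arc to an interval. -/
theorem exists_lift (q : S) {r : ℝ} {X : Set S} (hq : ∀ x ∈ X, r ≤ dist q x) :
    ∃ y : S → ℝ, ∀ x ∈ X, |y x| ≤ π - r ∧ ∀ x' ∈ X, dist x x' = ‖((y x - y x' : ℝ) : S)‖ := by
  have h : ∀ x : S, ∃ y : ℝ, (y : S) = x - q - (π : ℝ) ∧ |y| = ‖x - q - ((π : ℝ) : S)‖ ∧ |y| ≤ π :=
    fun x => exists_rep _
  choose y hy using h
  refine ⟨y, fun x hx => ⟨?_, fun x' _ => ?_⟩⟩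
  · have h1 : dist q x = ‖((y x + π : ℝ) : S)‖ := by
      rw [dist_comm, dist_eq_norm, AddCircle.coe_add, (hy x).1]
      congr 1; abel
    have h2 := hq x hx
    rw [h1] at h2
    obtain ⟨h3, h4⟩ := abs_le.1 (hy x).2.2
    rw [abs_le]
    rcases norm_cases (t := y x + π) (by rw [abs_of_nonneg] <;> linarith) with ⟨h5, h6⟩ | ⟨h5, h6⟩
    all_goals
      rw [h6] at h2
      rw [abs_of_nonneg (by linarith)] at h2 h5
      constructor <;> linarith
  · rw [dist_eq_norm, AddCircle.coe_sub, (hy x).1, (hy x').1]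
    congr 1; abel

/-- A sequence bounded away from zero whose end values are opposite has a sign change. -/
theorem exists_jump {N : ℕ} (D : ℕ → ℝ) {m : ℝ} (hm : 0 < m) (hD : ∀ j, m ≤ |D j|)
    (hN : D N = - D 0) :
    ∃ j, j < N ∧ ((m ≤ D j ∧ D (j + 1) ≤ -m) ∨ (D j ≤ -m ∧ m ≤ D (j + 1))) := by
  by_contra hcon
  push Not at hcon
  have key : ∀ s : ℝ, (s = 1 ∨ s = -1) → m ≤ s * D 0 → ∀ j, j ≤ N → m ≤ s * D j := by
    intro s hs h0 j
    induction j with
    | zero => intro _; exact h0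
    | succ j ih =>
      intro hj
      have h1 := ih (by omega)
      have h2 := hcon j (by omega)
      have h3 := hD (j + 1)
      rcases hs with rfl | rfl
      · have h4 := h2.1 (by linarith)
        rcases abs_cases (D (j + 1)) with h | h <;> linarith
      · have h4 := h2.2 (by linarith)
        rcases abs_cases (D (j + 1)) with h | h <;> linarith
  rcases le_abs.1 (hD 0) with h | h
  · have := key 1 (Or.inl rfl) (by linarith) N le_rfl
    rw [hN] at this
    linarith
  · have := key (-1) (Or.inr rfl) (by linarith) N le_rfl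
    rw [hN] at this
    linarith

/-- The main estimate: a map with distortion `D` from the circle to a subset which
misses an arc of length greater than `D` has `D ≥ 2 π / 3`. -/
theorem distortion_bound {X : Set S} {q : S} {r D : ℝ} (hD : 0 ≤ D) (hr : D < 2 * r)
    (hq : ∀ x ∈ X, r ≤ dist q x) (x : S → S) (hx : ∀ p, x p ∈ X)
    (hdist : ∀ p p', |dist (x p) (x p') - dist p p'| ≤ D) : 2 * π / 3 ≤ D := by
  by_contra hcon
  push Not at hcon
  obtain ⟨y, hy⟩ := exists_lift q hq
  -- choose the mesh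
  obtain ⟨N, hN⟩ := exists_nat_gt (π / min (2 * r - D) (π - 3 * D / 2))
  have hpi := Real.pi_pos
  have hmin : 0 < min (2 * r - D) (π - 3 * D / 2) := lt_min (by linarith) (by linarith)
  have hN0 : (0 : ℝ) < N := lt_trans (by positivity) hN
  have hN1 : N ≠ 0 := by
    rintro rfl
    simp at hN0
  set δ : ℝ := π / N with hδ
  have hδ0 : 0 < δ := by positivity
  have hδ1 : δ < min (2 * r - D) (π - 3 * D / 2) := by
    rw [hδ, div_lt_iff₀ hN0]
    rw [div_lt_iff₀ hmin] at hN
    linarith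
  have hδ2 : δ + D < 2 * r := by
    have := lt_of_lt_of_le hδ1 (min_le_left _ _)
    linarith
  have hδ3 : δ + 3 * D / 2 < π := by
    have := lt_of_lt_of_le hδ1 (min_le_right _ _)
    linarith
  have hNδ : N * δ = π := by rw [hδ]; field_simp
  let p : ℕ → S := fun j => ((j * δ : ℝ) : S)
  let Y : ℕ → ℝ := fun j => y (x (p j))
  have hpdist : ∀ j, dist (p (j + 1)) (p j) ≤ δ := by
    intro j
    have h1 : p (j + 1) - p j = ((δ : ℝ) : S) := by
      simp only [p]
      rw [← AddCircle.coe_sub]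
      congr 1
      push_cast
      ring
    rw [dist_eq_norm, h1]
    have h2 : |δ| ≤ π := by rw [abs_of_pos hδ0]; linarith
    rw [norm_abs_of_le h2, abs_of_pos hδ0]
  have hanti : ∀ j, dist (p (j + N)) (p j) = π := by
    intro j
    have h1 : p (j + N) - p j = ((π : ℝ) : S) := by
      simp only [p]
      rw [← AddCircle.coe_sub]
      congr 1
      push_cast
      rw [← hNδ]; ring
    rw [dist_eq_norm, h1, norm_abs_of_le (by rw [abs_of_pos hpi]), abs_of_pos hpi]
  have hanti' : ∀ j, π - δ ≤ dist (p (j + N + 1)) (p j) := by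
    intro j
    have h1 := hanti j
    have h2 := hpdist (j + N)
    have h3 := dist_triangle (p (j + N)) (p (j + N + 1)) (p j)
    rw [dist_comm] at h2
    linarith
  have hper : ∀ j, p (j + N + N) = p j := by
    intro j
    have h1 : (((j + N + N : ℕ) : ℝ) * δ) = j * δ + 2 * π := by
      push_cast
      rw [← hNδ]; ring
    simp only [p]
    rw [h1, coe_add_period]
  have hrπ : ∀ j, |Y j| ≤ π - r := fun j => (hy _ (hx _)).1
  have hYd : ∀ i j, dist (x (p i)) (x (p j)) = ‖((Y i - Y j : ℝ) : S)‖ :=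
    fun i j => (hy _ (hx _)).2 _ (hx _)
  have hr0 : 0 < r := by linarith
  have hYabs : ∀ i j, |Y i - Y j| ≤ 2 * π - 2 * r := by
    intro i j
    have h1 := abs_le.1 (hrπ i)
    have h2 := abs_le.1 (hrπ j)
    rw [abs_le]
    constructor <;> linarith
  have hstep : ∀ j, |Y (j + 1) - Y j| ≤ δ + D := by
    intro j
    have h1 := abs_le.1 (hdist (p (j + 1)) (p j))
    have h2 := hpdist j
    rw [hYd] at h1
    have h3 := hYabs (j + 1) j
    rcases norm_cases (t := Y (j + 1) - Y j) (by linarith) with ⟨h5, h6⟩ | ⟨h5, h6⟩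
    · rw [h6] at h1
      linarith
    · rw [h6] at h1
      linarith
  have hfar : ∀ i j, dist (p i) (p j) - D ≤ |Y i - Y j| := by
    intro i j
    have h1 := abs_le.1 (hdist (p i) (p j))
    rw [hYd] at h1
    have h3 := hYabs i j
    rcases norm_cases (t := Y i - Y j) (by linarith) with ⟨h5, h6⟩ | ⟨h5, h6⟩
    · rw [h6] at h1
      linarith
    · rw [h6] at h1
      linarith
  obtain ⟨j, _, hj⟩ := exists_jump (N := N) (fun j => Y (j + N) - Y j) (m := π - D) (by linarith)
    (fun j => by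
      have := hfar (j + N) j
      rw [hanti] at this
      exact this) (by
      simp only [Y]
      have := hper 0
      rw [zero_add] at this ⊢
      rw [this]
      ring)
  have e : j + 1 + N = j + N + 1 := by omega
  replace hj : (π - D ≤ Y (j + N) - Y j ∧ Y (j + N + 1) - Y (j + 1) ≤ -(π - D)) ∨
      (Y (j + N) - Y j ≤ -(π - D) ∧ π - D ≤ Y (j + N + 1) - Y (j + 1)) := by
    rw [← e]; exact hj
  have h1 := abs_le.1 (hstep j)
  have h2 := abs_le.1 (hstep (j + N))
  have h3 := hfar (j + N + 1) j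
  have h4 := hanti' j
  rcases hj with ⟨h5, h6⟩ | ⟨h5, h6⟩
  · rcases abs_cases (Y (j + N + 1) - Y j) with ⟨h7, h8⟩ | ⟨h7, h8⟩ <;> rw [h7] at h3 <;> linarith
  · rcases abs_cases (Y (j + N + 1) - Y j) with ⟨h7, h8⟩ | ⟨h7, h8⟩ <;> rw [h7] at h3 <;> linarith

/-- The folding map from the interval `[-2π/3, 2π/3]` to the circle. -/
noncomputable def fold (y : ℝ) : ℝ := if |y| ≤ π / 3 then 3 * y else - (3 * y)

/-- The distortion of the folding map, for ordered arguments. -/
theorem fold_dist_aux {y z : ℝ} (hy : |y| ≤ 2 * π / 3) (hz : |z| ≤ 2 * π / 3) (hyz : y ≤ z) :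
    |‖((fold y - fold z : ℝ) : S)‖ - ‖((y - z : ℝ) : S)‖| ≤ 2 * π / 3 := by
  have hpi := Real.pi_pos
  obtain ⟨hy1, hy2⟩ := abs_le.1 hy
  obtain ⟨hz1, hz2⟩ := abs_le.1 hz
  have hB := norm_cases (t := y - z) (by rw [abs_le]; constructor <;> linarith)
  have eB : |y - z| = z - y := by rw [abs_sub_comm, abs_of_nonneg (by linarith)]
  rw [eB] at hB
  have fin : ∀ a : ℝ, |a| ≤ 2 * π → ((fold y - fold z : ℝ) : S) = (a : S) →
      (|a| ≤ π → |(|a| - ‖((y - z : ℝ) : S)‖)| ≤ 2 * π / 3) →
      (π ≤ |a| → |(2 * π - |a| - ‖((y - z : ℝ) : S)‖)| ≤ 2 * π / 3) →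
      |‖((fold y - fold z : ℝ) : S)‖ - ‖((y - z : ℝ) : S)‖| ≤ 2 * π / 3 := by
    intro a ha he h1 h2
    rw [he]
    rcases norm_cases ha with ⟨h3, h4⟩ | ⟨h3, h4⟩
    · rw [h4]; exact h1 h3
    · rw [h4]; exact h2 h3
  by_cases hyM : |y| ≤ π / 3
  · obtain ⟨hy3, hy4⟩ := abs_le.1 hyM
    by_cases hzM : |z| ≤ π / 3
    · obtain ⟨hz3, hz4⟩ := abs_le.1 hzM
      have e : |3 * y - 3 * z| = 3 * z - 3 * y := by
        rw [abs_sub_comm, abs_of_nonneg (by linarith)]
      refine fin (3 * y - 3 * z) ?_ ?_ ?_ ?_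
      · rw [e]; linarith
      · rw [fold, fold, if_pos hyM, if_pos hzM]
      · intro h; rw [e] at h ⊢
        rcases hB with ⟨h5, h6⟩ | ⟨h5, h6⟩ <;> rw [h6, abs_le] <;> constructor <;> linarith
      · intro h; rw [e] at h ⊢
        rcases hB with ⟨h5, h6⟩ | ⟨h5, h6⟩ <;> rw [h6, abs_le] <;> constructor <;> linarith
    · have hz3 : π / 3 < z := by
        rw [not_le] at hzM
        rcases abs_cases z with ⟨h, _⟩ | ⟨h, _⟩ <;> rw [h] at hzM <;> linarith
      refine fin (3 * y + 3 * z - 2 * π) ?_ ?_ ?_ ?_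
      · rw [abs_le]; constructor <;> linarith
      · rw [fold, fold, if_pos hyM, if_neg hzM, coe_sub_period]; congr 1; ring
      · intro h
        rcases abs_cases (3 * y + 3 * z - 2 * π) with ⟨e, _⟩ | ⟨e, _⟩ <;> rw [e] at h ⊢ <;>
        rcases hB with ⟨h5, h6⟩ | ⟨h5, h6⟩ <;> rw [h6, abs_le] <;> constructor <;> linarith
      · intro h
        rcases abs_cases (3 * y + 3 * z - 2 * π) with ⟨e, _⟩ | ⟨e, _⟩ <;> rw [e] at h ⊢ <;>
        rcases hB with ⟨h5, h6⟩ | ⟨h5, h6⟩ <;> rw [h6, abs_le] <;> constructor <;> linarith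
  · by_cases hzM : |z| ≤ π / 3
    · obtain ⟨hz3, hz4⟩ := abs_le.1 hzM
      have hy3 : y < -(π / 3) := by
        rw [not_le] at hyM
        rcases abs_cases y with ⟨h, _⟩ | ⟨h, _⟩ <;> rw [h] at hyM <;> linarith
      refine fin (-(3 * y) - 3 * z - 2 * π) ?_ ?_ ?_ ?_
      · rw [abs_le]; constructor <;> linarith
      · rw [fold, fold, if_neg hyM, if_pos hzM, coe_sub_period]
      · intro h
        rcases abs_cases (-(3 * y) - 3 * z - 2 * π) with ⟨e, _⟩ | ⟨e, _⟩ <;> rw [e] at h ⊢ <;>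
        rcases hB with ⟨h5, h6⟩ | ⟨h5, h6⟩ <;> rw [h6, abs_le] <;> constructor <;> linarith
      · intro h
        rcases abs_cases (-(3 * y) - 3 * z - 2 * π) with ⟨e, _⟩ | ⟨e, _⟩ <;> rw [e] at h ⊢ <;>
        rcases hB with ⟨h5, h6⟩ | ⟨h5, h6⟩ <;> rw [h6, abs_le] <;> constructor <;> linarith
    · rw [not_le] at hyM hzM
      rcases le_total 0 y with hy0 | hy0
      · -- both right
        rw [abs_of_nonneg hy0] at hyM
        have e : |-(3 * y) - -(3 * z)| = 3 * z - 3 * y := by
          rw [abs_of_nonneg (by linarith)]; ring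
        refine fin (-(3 * y) - -(3 * z)) ?_ ?_ ?_ ?_
        · rw [e]; linarith
        · rw [fold, fold, if_neg, if_neg]
          · rw [not_le]; exact hzM
          · rw [not_le, abs_of_nonneg hy0]; exact hyM
        · intro h; rw [e] at h ⊢
          rcases hB with ⟨h5, h6⟩ | ⟨h5, h6⟩ <;> rw [h6, abs_le] <;> constructor <;> linarith
        · intro h; rw [e] at h ⊢
          rcases hB with ⟨h5, h6⟩ | ⟨h5, h6⟩ <;> rw [h6, abs_le] <;> constructor <;> linarith
      · rcases le_total 0 z with hz0 | hz0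
        · -- opposite sides
          have hyn : ¬ |y| ≤ π / 3 := not_le.2 hyM
          have hzn : ¬ |z| ≤ π / 3 := not_le.2 hzM
          rw [abs_of_nonpos hy0] at hyM
          rw [abs_of_nonneg hz0] at hzM
          have e : |-(3 * y) - -(3 * z) - 2 * π| = 3 * z - 3 * y - 2 * π := by
            rw [abs_of_nonneg (by linarith)]; ring
          refine fin (-(3 * y) - -(3 * z) - 2 * π) ?_ ?_ ?_ ?_
          · rw [e]; linarith
          · rw [fold, fold, if_neg hyn, if_neg hzn, coe_sub_period]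
          · intro h; rw [e] at h ⊢
            rcases hB with ⟨h5, h6⟩ | ⟨h5, h6⟩ <;> rw [h6, abs_le] <;> constructor <;> linarith
          · intro h; rw [e] at h ⊢
            rcases hB with ⟨h5, h6⟩ | ⟨h5, h6⟩ <;> rw [h6, abs_le] <;> constructor <;> linarith
        · -- both left
          have hyn : ¬ |y| ≤ π / 3 := not_le.2 hyM
          have hzn : ¬ |z| ≤ π / 3 := not_le.2 hzM
          rw [abs_of_nonpos hz0] at hzM
          have e : |-(3 * y) - -(3 * z)| = 3 * z - 3 * y := by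
            rw [abs_of_nonneg (by linarith)]; ring
          refine fin (-(3 * y) - -(3 * z)) ?_ ?_ ?_ ?_
          · rw [e]; linarith
          · rw [fold, fold, if_neg hyn, if_neg hzn]
          · intro h; rw [e] at h ⊢
            rcases hB with ⟨h5, h6⟩ | ⟨h5, h6⟩ <;> rw [h6, abs_le] <;> constructor <;> linarith
          · intro h; rw [e] at h ⊢
            rcases hB with ⟨h5, h6⟩ | ⟨h5, h6⟩ <;> rw [h6, abs_le] <;> constructor <;> linarith

/-- The distortion of the folding map. -/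
theorem fold_dist {y z : ℝ} (hy : |y| ≤ 2 * π / 3) (hz : |z| ≤ 2 * π / 3) :
    |‖((fold y - fold z : ℝ) : S)‖ - ‖((y - z : ℝ) : S)‖| ≤ 2 * π / 3 := by
  rcases le_total y z with h | h
  · exact fold_dist_aux hy hz h
  · have := fold_dist_aux hz hy h
    have e1 : ((fold y - fold z : ℝ) : S) = -((fold z - fold y : ℝ) : S) := by
      rw [← AddCircle.coe_neg]; congr 1; ring
    have e2 : ((y - z : ℝ) : S) = -((z - y : ℝ) : S) := by
      rw [← AddCircle.coe_neg]; congr 1; ring
    rw [e1, e2, norm_neg, norm_neg]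
    exact this

end Pool.Agent.Q154.CircleGH
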