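import Mathlib

set_option autoImplicit false

/-!
The directions of the infinite convex chain attached to the corner `(1,1)` of the square.
-/

namespace Pool.Agent.Q154.DD

open Finset

/-- half-angle tangents -/
noncomputable def tt (k : ℕ) : ℝ := 1 / 9 + 1 / 72 * (1 / 2) ^ k

noncomputable def wx (k : ℕ) : ℝ := (1 - tt k ^ 2) / (1 + tt k ^ 2)
noncomputable def wy (k : ℕ) : ℝ := 2 * tt k / (1 + tt k ^ 2)

theorem pow_bd (k : ℕ) : 0 < (1 / 2 : ℝ) ^ k ∧ (1 / 2 : ℝ) ^ k ≤ 1 :=
  ⟨by positivity, pow_le_one₀ (by norm_num) (by norm_num)⟩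

theorem tt_gt (k : ℕ) : 1 / 9 < tt k := by
  unfold tt; have := (pow_bd k).1; linarith

theorem tt_le (k : ℕ) : tt k ≤ 1 / 8 := by
  unfold tt; have := (pow_bd k).2; linarith

theorem tt_succ (k : ℕ) : tt (k + 1) < tt k := by
  unfold tt; have := (pow_bd k).1; rw [pow_succ]; linarith

theorem den_pos (k : ℕ) : 0 < 1 + tt k ^ 2 := by positivity

theorem w_unit (k : ℕ) : wx k ^ 2 + wy k ^ 2 = 1 := by
  unfold wx wy
  have := den_pos k
  field_simp
  ring

theorem wx_lt (k : ℕ) : wx k < wx (k + 1) := by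
  unfold wx
  rw [div_lt_div_iff₀ (den_pos k) (den_pos (k + 1))]
  have h1 := tt_succ k
  have h2 := tt_gt (k + 1)
  have h3 := tt_gt k
  nlinarith

theorem wy_lt (k : ℕ) : wy (k + 1) < wy k := by
  unfold wy
  rw [div_lt_div_iff₀ (den_pos (k + 1)) (den_pos k)]
  have h1 := tt_succ k
  have h2 := tt_gt (k + 1)
  have h3 := tt_gt k
  have h4 := tt_le k
  have h5 : tt k * tt (k + 1) < 1 := by nlinarith
  nlinarith [mul_pos (sub_pos.2 h1) (sub_pos.2 h5)]

theorem ratio (k : ℕ) : wx (k + 1) - wx k ≤ 13 / 50 * (wy k - wy (k + 1)) := by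
  unfold wx wy
  have h1 := tt_succ k
  have h2 := tt_gt (k + 1)
  have h3 := tt_gt k
  have h4 := tt_le k
  have d1 := den_pos k
  have d2 := den_pos (k + 1)
  have e1 : (1 - tt (k + 1) ^ 2) / (1 + tt (k + 1) ^ 2) - (1 - tt k ^ 2) / (1 + tt k ^ 2)
      = 2 * (tt k - tt (k + 1)) * (tt k + tt (k + 1)) /
        ((1 + tt k ^ 2) * (1 + tt (k + 1) ^ 2)) := by
    field_simp
    ring
  have e2 : 13 / 50 * (2 * tt k / (1 + tt k ^ 2) - 2 * tt (k + 1) / (1 + tt (k + 1) ^ 2))
      = 2 * (tt k - tt (k + 1)) * (13 / 50 * (1 - tt k * tt (k + 1))) /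
        ((1 + tt k ^ 2) * (1 + tt (k + 1) ^ 2)) := by
    field_simp
    ring
  rw [e1, e2]
  apply div_le_div_of_nonneg_right _ (by positivity)
  apply mul_le_mul_of_nonneg_left _ (by linarith)
  nlinarith

theorem wy_bd (k : ℕ) : 9 / 41 ≤ wy k ∧ wy k ≤ 16 / 65 := by
  unfold wy
  have h3 := tt_gt k
  have h4 := tt_le k
  constructor
  · rw [div_le_div_iff₀ (by norm_num) (den_pos k)]
    nlinarith
  · rw [div_le_div_iff₀ (den_pos k) (by norm_num)]
    nlinarith

theorem wx_bd (k : ℕ) : 63 / 65 ≤ wx k ∧ wx k ≤ 40 / 41 := by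
  unfold wx
  have h3 := tt_gt k
  have h4 := tt_le k
  constructor
  · rw [div_le_div_iff₀ (by norm_num) (den_pos k)]
    nlinarith
  · rw [div_le_div_iff₀ (den_pos k) (by norm_num)]
    nlinarith

/-- partial sums of the potential vectors -/
noncomputable def FX (f : ℕ → Prop) [DecidablePred f] (m : ℕ) : ℝ :=
  ∑ k ∈ range m, if f k then wx k - wx (k + 1) else 0
noncomputable def FY (f : ℕ → Prop) [DecidablePred f] (m : ℕ) : ℝ :=
  ∑ k ∈ range m, if f k then wy k - wy (k + 1) else 0

variable (f : ℕ → Prop) [DecidablePred f]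

theorem FX_succ (m : ℕ) : FX f (m + 1) = FX f m + if f m then wx m - wx (m + 1) else 0 := by
  unfold FX; rw [sum_range_succ]

theorem FY_succ (m : ℕ) : FY f (m + 1) = FY f m + if f m then wy m - wy (m + 1) else 0 := by
  unfold FY; rw [sum_range_succ]

theorem FX_nonpos (m : ℕ) : FX f m ≤ 0 := by
  induction m with
  | zero => simp [FX]
  | succ m ih =>
    rw [FX_succ]
    have := wx_lt m
    split_ifs <;> linarith

theorem FY_nonneg (m : ℕ) : 0 ≤ FY f m := by
  induction m with
  | zero => simp [FY]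
  | succ m ih =>
    rw [FY_succ]
    have := wy_lt m
    split_ifs <;> linarith

theorem FY_le_aux (m : ℕ) : FY f m ≤ wy 0 - wy m := by
  induction m with
  | zero => simp [FY]
  | succ m ih =>
    rw [FY_succ]
    have := wy_lt m
    split_ifs <;> linarith

theorem FY_le (m : ℕ) : FY f m ≤ 3 / 100 := by
  have h1 := FY_le_aux f m
  have h2 := wy_bd 0
  have h3 := wy_bd m
  linarith [h2.2, h3.1]

theorem F_ratio (m : ℕ) : -(FX f m) ≤ 13 / 50 * FY f m := by
  induction m with
  | zero => simp [FX, FY]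
  | succ m ih =>
    rw [FX_succ, FY_succ]
    have := ratio m
    split_ifs <;> linarith

theorem F_norm (m : ℕ) : (wx m + FX f m) ^ 2 + (wy m + FY f m) ^ 2 ≤ 1 := by
  induction m with
  | zero => simp [FX, FY, w_unit]
  | succ m ih =>
    rw [FX_succ, FY_succ]
    by_cases h : f m
    · rw [if_pos h, if_pos h]
      have e1 : wx (m + 1) + (FX f m + (wx m - wx (m + 1))) = wx m + FX f m := by ring
      have e2 : wy (m + 1) + (FY f m + (wy m - wy (m + 1))) = wy m + FY f m := by ring
      rw [e1, e2]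
      exact ih
    · rw [if_neg h, if_neg h, add_zero, add_zero]
      have h1 := wx_lt m
      have h2 := wy_lt m
      have h3 := FX_nonpos f m
      have h4 := FY_nonneg f m
      have h5 := w_unit m
      have h6 := w_unit (m + 1)
      nlinarith [mul_nonneg (sub_nonneg.2 h1.le) (neg_nonneg.2 h3),
        mul_nonneg (sub_nonneg.2 h2.le) h4]

theorem F_zero (m : ℕ) (h : ∀ k < m, ¬ f k) : FX f m = 0 ∧ FY f m = 0 := by
  constructor
  · unfold FX
    apply sum_eq_zero
    intro k hk
    rw [if_neg (h k (mem_range.1 hk))]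
  · unfold FY
    apply sum_eq_zero
    intro k hk
    rw [if_neg (h k (mem_range.1 hk))]

/-- edge lengths of the chain -/
noncomputable def el (k : ℕ) : ℝ := 1 / 40 * (1 / 2) ^ k

theorem el_pos (k : ℕ) : 0 < el k := by unfold el; positivity

theorem el_sum (m : ℕ) : ∑ k ∈ range m, el k = 1 / 20 - 1 / 20 * (1 / 2) ^ m := by
  induction m with
  | zero => simp
  | succ m ih =>
    rw [sum_range_succ, ih, el, pow_succ]
    ring

/-- vertices of the chain -/
noncomputable def cx (m : ℕ) : ℝ := 1 + ∑ k ∈ range m, el k * wx k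
noncomputable def cy (m : ℕ) : ℝ := 1 + ∑ k ∈ range m, el k * wy k

theorem cx_succ (m : ℕ) : cx (m + 1) = cx m + el m * wx m := by
  unfold cx; rw [sum_range_succ]; ring

theorem cy_succ (m : ℕ) : cy (m + 1) = cy m + el m * wy m := by
  unfold cy; rw [sum_range_succ]; ring

theorem cx_zero : cx 0 = 1 := by simp [cx]
theorem cy_zero : cy 0 = 1 := by simp [cy]

/-- The telescoping identity behind the length of the chain. -/
theorem telescope (m : ℕ) :
    -(wx 0 * cx 0 + wy 0 * cy 0)
      + ∑ k ∈ range m, ((wx k - wx (k + 1)) * cx (k + 1) + (wy k - wy (k + 1)) * cy (k + 1))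
      = ∑ k ∈ range m, el k - (wx m * cx m + wy m * cy m) := by
  induction m with
  | zero => simp
  | succ m ih =>
    rw [sum_range_succ, sum_range_succ, ← add_assoc, ih, cx_succ, cy_succ]
    have := w_unit m
    linear_combination (el m) * this

end Pool.Agent.Q154.DD
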