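import Mathlib
import Pool.Agent.Helper752.SquareLower2
import Pool.Agent.Q154.DDChain

set_option autoImplicit false

namespace Pool.Agent.Q154.DD

open scoped ENNReal NNReal
open MeasureTheory Metric Pool.Agent.Helper752

/-- The gap estimate, the pair outside and the triple inside. -/
theorem gap2 {ι : Type*} [Fintype ι] [DecidableEq ι] {K : Set E2} {p : ι → E2} {B : ℝ}
    {M : Set (Finset ι)} (hM : Laminar M)
    (hB : ∀ φ : ι → E2 → ℝ, (∀ A ∈ M, LipOn K φ A) → (∀ x ∈ K, ∑ i, φ i x = 0) →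
      ∑ i, φ i (p i) ≤ B)
    (W : Finset ι) (hW : W ∈ M) (a b c d e : ι) (ha : a ∉ W) (hb : b ∉ W) (hc : c ∈ W)
    (hd : d ∈ W) (he : e ∈ W) (gx gy cx cy dx dy ex ey : ℝ)
    (hg : gx ^ 2 + gy ^ 2 ≤ 1) (h1 : cx ^ 2 + cy ^ 2 ≤ 1) (h2 : dx ^ 2 + dy ^ 2 ≤ 1)
    (h3 : ex ^ 2 + ey ^ 2 ≤ 1) (hsx : cx + dx + ex = 0) (hsy : cy + dy + ey = 0) :
    gx * (p a 0 - p b 0) + gy * (p a 1 - p b 1) + (cx * p c 0 + cy * p c 1)
      + (dx * p d 0 + dy * p d 1) + (ex * p e 0 + ey * p e 1) ≤ B := by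
  let X : ι → ℝ := fun i => (if i = a then gx else 0) + (if i = b then -gx else 0)
    + (if i = c then cx else 0) + (if i = d then dx else 0) + (if i = e then ex else 0)
  let Y : ι → ℝ := fun i => (if i = a then gy else 0) + (if i = b then -gy else 0)
    + (if i = c then cy else 0) + (if i = d then dy else 0) + (if i = e then ey else 0)
  have hX : ∀ A : Finset ι, ∑ i ∈ A, X i = (if a ∈ A then gx else 0) + (if b ∈ A then -gx else 0)
    + (if c ∈ A then cx else 0) + (if d ∈ A then dx else 0) + (if e ∈ A then ex else 0) := by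
    intro A
    simp only [X, Finset.sum_add_distrib, Finset.sum_ite_eq']
  have hY : ∀ A : Finset ι, ∑ i ∈ A, Y i = (if a ∈ A then gy else 0) + (if b ∈ A then -gy else 0)
    + (if c ∈ A then cy else 0) + (if d ∈ A then dy else 0) + (if e ∈ A then ey else 0) := by
    intro A
    simp only [Y, Finset.sum_add_distrib, Finset.sum_ite_eq']
  have key := hB (lin X Y) ?_ ?_
  · have hval : ∑ i, lin X Y i (p i) = gx * (p a 0 - p b 0) + gy * (p a 1 - p b 1)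
        + (cx * p c 0 + cy * p c 1) + (dx * p d 0 + dy * p d 1) + (ex * p e 0 + ey * p e 1) := by
      simp only [lin, X, Y, add_mul, ite_mul, zero_mul, Finset.sum_add_distrib,
        Finset.sum_ite_eq', Finset.mem_univ, if_true]
      ring
    rw [hval] at key
    exact key
  · intro A hA
    apply lin_lipOn
    rw [hX, hY]
    have hcases : (c ∉ A ∧ d ∉ A ∧ e ∉ A) ∨ (a ∉ A ∧ b ∉ A) ∨ (c ∈ A ∧ d ∈ A ∧ e ∈ A) := by
      rcases hM A hA W hW with h | h | h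
      · right; left
        exact ⟨fun h' => ha (h h'), fun h' => hb (h h')⟩
      · right; right
        exact ⟨h hc, h hd, h he⟩
      · left
        exact ⟨fun h' => (Finset.disjoint_left.1 h h' hc), fun h' => (Finset.disjoint_left.1 h h' hd),
          fun h' => (Finset.disjoint_left.1 h h' he)⟩
    have e1 : ex = -(cx + dx) := by linarith
    have e2 : ey = -(cy + dy) := by linarith
    rcases hcases with ⟨h4, h5, h6⟩ | ⟨h4, h5⟩ | ⟨h4, h5, h6⟩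
    · rw [if_neg h4, if_neg h5, if_neg h6, if_neg h4, if_neg h5, if_neg h6]
      split_ifs <;> nlinarith
    · rw [if_neg h4, if_neg h5, if_neg h4, if_neg h5]
      subst e1 e2
      split_ifs <;> nlinarith
    · rw [if_pos h4, if_pos h5, if_pos h6, if_pos h4, if_pos h5, if_pos h6]
      subst e1 e2
      split_ifs <;> nlinarith
  · intro x _
    have h4 : ∑ i, lin X Y i x = (∑ i, X i) * x 0 + (∑ i, Y i) * x 1 := by
      simp only [lin, Finset.sum_add_distrib, ← Finset.sum_mul]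
    rw [h4, hX, hY]
    simp only [Finset.mem_univ, if_true]
    have e1 : ex = -(cx + dx) := by linarith
    have e2 : ey = -(cy + dy) := by linarith
    subst e1 e2
    ring

/-- `W` separates the pair `a, b` from the triple `c, d, e`. -/
def Sep {ι : Type*} (W : Finset ι) (a b c d e : ι) : Prop :=
  (a ∈ W ∧ b ∈ W ∧ c ∉ W ∧ d ∉ W ∧ e ∉ W) ∨ (a ∉ W ∧ b ∉ W ∧ c ∈ W ∧ d ∈ W ∧ e ∈ W)

theorem gapS {ι : Type*} [Fintype ι] [DecidableEq ι] {K : Set E2} {p : ι → E2} {B : ℝ}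
    {M : Set (Finset ι)} (hM : Laminar M)
    (hB : ∀ φ : ι → E2 → ℝ, (∀ A ∈ M, LipOn K φ A) → (∀ x ∈ K, ∑ i, φ i x = 0) →
      ∑ i, φ i (p i) ≤ B)
    (W : Finset ι) (hW : W ∈ M) (a b c d e : ι) (hs : Sep W a b c d e)
    (gx gy cx cy dx dy ex ey : ℝ)
    (hg : gx ^ 2 + gy ^ 2 ≤ 1) (h1 : cx ^ 2 + cy ^ 2 ≤ 1) (h2 : dx ^ 2 + dy ^ 2 ≤ 1)
    (h3 : ex ^ 2 + ey ^ 2 ≤ 1) (hsx : cx + dx + ex = 0) (hsy : cy + dy + ey = 0) :
    gx * (p a 0 - p b 0) + gy * (p a 1 - p b 1) + (cx * p c 0 + cy * p c 1)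
      + (dx * p d 0 + dy * p d 1) + (ex * p e 0 + ey * p e 1) ≤ B := by
  rcases hs with ⟨ha, hb, hc, hd, he⟩ | ⟨ha, hb, hc, hd, he⟩
  · exact gap hM hB W hW a b c d e ha hb hc hd he gx gy cx cy dx dy ex ey hg h1 h2 h3 hsx hsy
  · exact gap2 hM hB W hW a b c d e ha hb hc hd he gx gy cx cy dx dy ex ey hg h1 h2 h3 hsx hsy

/-- The labels. -/
abbrev Lab (m : ℕ) : Type := Fin 9 ⊕ Fin m

/-- The corner labels. -/
def co {m : ℕ} (i : Fin 9) : Lab m := Sum.inl i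

/-- The chain labels: the end and the inner vertices. -/
def IsCh {m : ℕ} (c : Lab m) : Prop := c = co 8 ∨ ∃ k, c = Sum.inr k

/-- closeness of the points to the corners -/
structure Near {m : ℕ} (p : Lab m → E2) : Prop where
  x0 : |p (co 0) 0 + 1| ≤ 1 / 50
  y0 : |p (co 0) 1 - 1| ≤ 1 / 50
  x1 : |p (co 1) 0 - 1| ≤ 1 / 50
  y1 : |p (co 1) 1 - 1| ≤ 1 / 50
  x2 : |p (co 2) 0 - 1| ≤ 1 / 50
  y2 : |p (co 2) 1 + 1| ≤ 1 / 50
  x3 : |p (co 3) 0 + 1| ≤ 1 / 50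
  y3 : |p (co 3) 1 + 1| ≤ 1 / 50
  x4 : |p (co 4) 0 + 1| ≤ 1 / 50
  y4 : |p (co 4) 1 - 1| ≤ 1 / 50
  x5 : |p (co 5) 0 - 1| ≤ 1 / 50
  y5 : |p (co 5) 1 - 1| ≤ 1 / 50
  x6 : |p (co 6) 0 - 1| ≤ 1 / 50
  y6 : |p (co 6) 1 + 1| ≤ 1 / 50
  x7 : |p (co 7) 0 + 1| ≤ 1 / 50
  y7 : |p (co 7) 1 + 1| ≤ 1 / 50
  chx : ∀ c, IsCh c → 1 - 1 / 50 ≤ p c 0
  chy : ∀ c, IsCh c → 1 - 1 / 50 ≤ p c 1

section

variable {m : ℕ} {K : Set E2} {p : Lab m → E2} {B : ℝ} {M : Set (Finset (Lab m))}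

/-- The forbidden separations of the first kind. -/
theorem noSepA (hM : Laminar M)
    (hB : ∀ φ : Lab m → E2 → ℝ, (∀ A ∈ M, LipOn K φ A) → (∀ x ∈ K, ∑ i, φ i x = 0) →
      ∑ i, φ i (p i) ≤ B) (hN : Near p) (hlt : B < 5.7) (W : Finset (Lab m)) (hW : W ∈ M)
    (c : Lab m) (hc : IsCh c) :
    ¬ Sep W (co 0) c (co 2) (co 1) (co 3) ∧ ¬ Sep W (co 2) c (co 0) (co 1) (co 3) ∧
      ¬ Sep W (co 1) (co 2) (co 0) c (co 3) := by
  have x0 := abs_le.1 hN.x0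
  have x1 := abs_le.1 hN.x1
  have x2 := abs_le.1 hN.x2
  have x3 := abs_le.1 hN.x3
  have y0 := abs_le.1 hN.y0
  have y1 := abs_le.1 hN.y1
  have y2 := abs_le.1 hN.y2
  have y3 := abs_le.1 hN.y3
  have cx := hN.chx c hc
  have cy := hN.chy c hc
  refine ⟨fun hs => ?_, fun hs => ?_, fun hs => ?_⟩
  · have := gapS hM hB W hW _ _ _ _ _ hs (-1) 0 0.68 (-0.68) 0.28 0.96 (-0.96) (-0.28)
      (by norm_num) (by norm_num) (by norm_num) (by norm_num) (by norm_num) (by norm_num)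
    linarith
  · have := gapS hM hB W hW _ _ _ _ _ hs 0 (-1) (-0.68) 0.68 0.96 0.28 (-0.28) (-0.96)
      (by norm_num) (by norm_num) (by norm_num) (by norm_num) (by norm_num) (by norm_num)
    linarith
  · have := gapS hM hB W hW _ _ _ _ _ hs 0 1 (-0.68) 0.68 0.96 0.28 (-0.28) (-0.96)
      (by norm_num) (by norm_num) (by norm_num) (by norm_num) (by norm_num) (by norm_num)
    linarith

/-- The forbidden separations of the second kind. -/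
theorem noSepB (hM : Laminar M)
    (hB : ∀ φ : Lab m → E2 → ℝ, (∀ A ∈ M, LipOn K φ A) → (∀ x ∈ K, ∑ i, φ i x = 0) →
      ∑ i, φ i (p i) ≤ B) (hN : Near p) (hlt : B < 5.7) (W : Finset (Lab m)) (hW : W ∈ M)
    (c : Lab m) (hc : IsCh c) :
    ¬ Sep W (co 4) c (co 6) (co 5) (co 7) ∧ ¬ Sep W (co 6) c (co 4) (co 5) (co 7) ∧
      ¬ Sep W (co 5) (co 4) (co 6) c (co 7) := by
  have x4 := abs_le.1 hN.x4
  have x5 := abs_le.1 hN.x5
  have x6 := abs_le.1 hN.x6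
  have x7 := abs_le.1 hN.x7
  have y4 := abs_le.1 hN.y4
  have y5 := abs_le.1 hN.y5
  have y6 := abs_le.1 hN.y6
  have y7 := abs_le.1 hN.y7
  have cx := hN.chx c hc
  have cy := hN.chy c hc
  refine ⟨fun hs => ?_, fun hs => ?_, fun hs => ?_⟩
  · have := gapS hM hB W hW _ _ _ _ _ hs (-1) 0 0.68 (-0.68) 0.28 0.96 (-0.96) (-0.28)
      (by norm_num) (by norm_num) (by norm_num) (by norm_num) (by norm_num) (by norm_num)
    linarith
  · have := gapS hM hB W hW _ _ _ _ _ hs 0 (-1) (-0.68) 0.68 0.96 0.28 (-0.28) (-0.96)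
      (by norm_num) (by norm_num) (by norm_num) (by norm_num) (by norm_num) (by norm_num)
    linarith
  · have := gapS hM hB W hW _ _ _ _ _ hs 1 0 0.68 (-0.68) 0.28 0.96 (-0.96) (-0.28)
      (by norm_num) (by norm_num) (by norm_num) (by norm_num) (by norm_num) (by norm_num)
    linarith

/-- Either the first or the second kind of square separations does not occur. -/
theorem dichotomy (hM : Laminar M)
    (hB : ∀ φ : Lab m → E2 → ℝ, (∀ A ∈ M, LipOn K φ A) → (∀ x ∈ K, ∑ i, φ i x = 0) →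
      ∑ i, φ i (p i) ≤ B) (hN : Near p) (hlt : B < 5.7) :
    (∀ A ∈ M, ¬ (co 0 ∈ A ∧ co 1 ∈ A ∧ co 2 ∉ A ∧ co 3 ∉ A) ∧
      ¬ (co 0 ∉ A ∧ co 1 ∉ A ∧ co 2 ∈ A ∧ co 3 ∈ A)) ∨
    (∀ A ∈ M, ¬ (co 4 ∈ A ∧ co 7 ∈ A ∧ co 5 ∉ A ∧ co 6 ∉ A) ∧
      ¬ (co 4 ∉ A ∧ co 7 ∉ A ∧ co 5 ∈ A ∧ co 6 ∈ A)) := by
  by_contra hcon
  rw [not_or] at hcon
  obtain ⟨h1, h2⟩ := hcon
  push Not at h1 h2
  obtain ⟨S, hS, hS'⟩ := h1
  obtain ⟨T, hT, hT'⟩ := h2
  have hS'' : (co 0 ∈ S ∧ co 1 ∈ S ∧ co 2 ∉ S ∧ co 3 ∉ S) ∨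
      (co 0 ∉ S ∧ co 1 ∉ S ∧ co 2 ∈ S ∧ co 3 ∈ S) := by tauto
  have hT'' : (co 4 ∈ T ∧ co 7 ∈ T ∧ co 5 ∉ T ∧ co 6 ∉ T) ∨
      (co 4 ∉ T ∧ co 7 ∉ T ∧ co 5 ∈ T ∧ co 6 ∈ T) := by tauto
  clear hS' hT'
  have x0 := abs_le.1 hN.x0
  have x1 := abs_le.1 hN.x1
  have x2 := abs_le.1 hN.x2
  have x3 := abs_le.1 hN.x3
  have y0 := abs_le.1 hN.y0
  have y1 := abs_le.1 hN.y1
  have y2 := abs_le.1 hN.y2
  have y3 := abs_le.1 hN.y3
  have x4 := abs_le.1 hN.x4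
  have x5 := abs_le.1 hN.x5
  have x6 := abs_le.1 hN.x6
  have x7 := abs_le.1 hN.x7
  have y4 := abs_le.1 hN.y4
  have y5 := abs_le.1 hN.y5
  have y6 := abs_le.1 hN.y6
  have y7 := abs_le.1 hN.y7
  have triple472 : ∀ W ∈ M, ∀ a b, a ∈ W → b ∈ W → co 4 ∉ W → co 7 ∉ W → co 2 ∉ W →
      ∀ gx gy : ℝ, gx ^ 2 + gy ^ 2 ≤ 1 →
      gx * (p a 0 - p b 0) + gy * (p a 1 - p b 1) + 3.76 ≤ B := by
    intro W hW a b ha hb h4 h7 h2 gx gy hg
    have := gap hM hB W hW a b (co 4) (co 7) (co 2) ha hb h4 h7 h2 gx gy (-0.28) 0.96 (-0.68)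
      (-0.68) 0.96 (-0.28) hg (by norm_num) (by norm_num) (by norm_num) (by norm_num) (by norm_num)
    linarith
  have triple471 : ∀ W ∈ M, ∀ a b, a ∈ W → b ∈ W → co 4 ∉ W → co 7 ∉ W → co 1 ∉ W →
      ∀ gx gy : ℝ, gx ^ 2 + gy ^ 2 ≤ 1 →
      gx * (p a 0 - p b 0) + gy * (p a 1 - p b 1) + 3.76 ≤ B := by
    intro W hW a b ha hb h4 h7 h2 gx gy hg
    have := gap hM hB W hW a b (co 4) (co 7) (co 1) ha hb h4 h7 h2 gx gy (-0.68) 0.68 (-0.28)
      (-0.96) 0.96 0.28 hg (by norm_num) (by norm_num) (by norm_num) (by norm_num) (by norm_num)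
    linarith
  have triple563 : ∀ W ∈ M, ∀ a b, a ∈ W → b ∈ W → co 5 ∉ W → co 6 ∉ W → co 3 ∉ W →
      ∀ gx gy : ℝ, gx ^ 2 + gy ^ 2 ≤ 1 →
      gx * (p a 0 - p b 0) + gy * (p a 1 - p b 1) + 3.76 ≤ B := by
    intro W hW a b ha hb h4 h7 h2 gx gy hg
    have := gap hM hB W hW a b (co 5) (co 6) (co 3) ha hb h4 h7 h2 gx gy 0.28 0.96 0.68 (-0.68)
      (-0.96) (-0.28) hg (by norm_num) (by norm_num) (by norm_num) (by norm_num) (by norm_num)
    linarith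
  have triple560 : ∀ W ∈ M, ∀ a b, a ∈ W → b ∈ W → co 5 ∉ W → co 6 ∉ W → co 0 ∉ W →
      ∀ gx gy : ℝ, gx ^ 2 + gy ^ 2 ≤ 1 →
      gx * (p a 0 - p b 0) + gy * (p a 1 - p b 1) + 3.76 ≤ B := by
    intro W hW a b ha hb h4 h7 h2 gx gy hg
    have := gap hM hB W hW a b (co 5) (co 6) (co 0) ha hb h4 h7 h2 gx gy 0.68 0.68 0.28 (-0.96)
      (-0.96) 0.28 hg (by norm_num) (by norm_num) (by norm_num) (by norm_num) (by norm_num)
    linarith
  have hsub : ∀ {A C : Finset (Lab m)} {i : Lab m}, A ⊆ C → i ∉ C → i ∉ A :=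
    fun h h' h'' => h' (h h'')
  have hdis : ∀ {A C : Finset (Lab m)} {i : Lab m}, Disjoint A C → i ∈ C → i ∉ A :=
    fun h h' h'' => Finset.disjoint_left.1 h h'' h'
  rcases hM S hS T hT with hST | hTS | hd
  · rcases hS'' with ⟨s0, s1, s2, s3⟩ | ⟨s0, s1, s2, s3⟩
    · rcases hT'' with ⟨t4, t7, t5, t6⟩ | ⟨t4, t7, t5, t6⟩
      · have := triple563 S hS _ _ s1 s0 (hsub hST t5) (hsub hST t6) s3 1 0 (by norm_num)
        linarith
      · have := triple472 S hS _ _ s1 s0 (hsub hST t4) (hsub hST t7) s2 1 0 (by norm_num)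
        linarith
    · rcases hT'' with ⟨t4, t7, t5, t6⟩ | ⟨t4, t7, t5, t6⟩
      · have := triple560 S hS _ _ s2 s3 (hsub hST t5) (hsub hST t6) s0 1 0 (by norm_num)
        linarith
      · have := triple471 S hS _ _ s2 s3 (hsub hST t4) (hsub hST t7) s1 1 0 (by norm_num)
        linarith
  · rcases hS'' with ⟨s0, s1, s2, s3⟩ | ⟨s0, s1, s2, s3⟩
    · rcases hT'' with ⟨t4, t7, t5, t6⟩ | ⟨t4, t7, t5, t6⟩
      · have := triple563 T hT _ _ t4 t7 t5 t6 (hsub hTS s3) 0 1 (by norm_num)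
        linarith
      · have := triple472 T hT _ _ t5 t6 t4 t7 (hsub hTS s2) 0 1 (by norm_num)
        linarith
    · rcases hT'' with ⟨t4, t7, t5, t6⟩ | ⟨t4, t7, t5, t6⟩
      · have := triple560 T hT _ _ t4 t7 t5 t6 (hsub hTS s0) 0 1 (by norm_num)
        linarith
      · have := triple471 T hT _ _ t5 t6 t4 t7 (hsub hTS s1) 0 1 (by norm_num)
        linarith
  · rcases hS'' with ⟨s0, s1, s2, s3⟩ | ⟨s0, s1, s2, s3⟩
    · rcases hT'' with ⟨t4, t7, t5, t6⟩ | ⟨t4, t7, t5, t6⟩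
      · have := triple472 S hS _ _ s1 s0 (hdis hd t4) (hdis hd t7) s2 1 0 (by norm_num)
        linarith
      · have := triple563 S hS _ _ s1 s0 (hdis hd t5) (hdis hd t6) s3 1 0 (by norm_num)
        linarith
    · rcases hT'' with ⟨t4, t7, t5, t6⟩ | ⟨t4, t7, t5, t6⟩
      · have := triple471 S hS _ _ s2 s3 (hdis hd t4) (hdis hd t7) s1 1 0 (by norm_num)
        linarith
      · have := triple560 S hS _ _ s2 s3 (hdis hd t5) (hdis hd t6) s0 1 0 (by norm_num)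
        linarith

end

end Pool.Agent.Q154.DD
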