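import Mathlib
import Pool.Agent.Q154.DDLower

set_option autoImplicit false
set_option linter.all false

namespace Pool.Agent.Q154.DD

open scoped ENNReal NNReal Classical
open MeasureTheory Metric Pool.Agent.Helper752 Finset

section

variable {m : ℕ}

/-- membership of the chain labels -/
def mem (A : Finset (Lab m)) (k : ℕ) : Prop := ∃ h : k < m, (Sum.inr ⟨k, h⟩ : Lab m) ∈ A

theorem sum_lab (A : Finset (Lab m)) (X : Fin 9 → ℝ) (g : ℕ → ℝ) :
    ∑ i ∈ A, (Sum.elim X (fun k : Fin m => g k) : Lab m → ℝ) i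
      = ∑ i : Fin 9, (if (co i : Lab m) ∈ A then X i else 0)
        + ∑ k ∈ range m, if mem A k then g k else 0 := by
  have h : ∑ i ∈ A, (Sum.elim X (fun k : Fin m => g k) : Lab m → ℝ) i
      = ∑ i : Lab m, if i ∈ A then (Sum.elim X (fun k : Fin m => g k) : Lab m → ℝ) i else 0 := by
    rw [Finset.sum_ite_mem]; simp
  rw [h, Fintype.sum_sum_type, Finset.sum_range]
  congr 1
  refine Finset.sum_congr rfl fun k _ => ?_
  have : mem A (k : ℕ) ↔ (Sum.inr k : Lab m) ∈ A :=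
    ⟨fun ⟨_, h'⟩ => h', fun h' => ⟨k.2, h'⟩⟩
  simp only [this, Sum.elim_inr]

theorem sum9 (f : Fin 9 → ℝ) : ∑ i, f i = f 0 + f 1 + f 2 + f 3 + f 4 + f 5 + f 6 + f 7 + f 8 := by
  rw [Fin.sum_univ_castSucc, Fin.sum_univ_eight]; rfl

/-- the horizontal potentials -/
noncomputable def XA (m : ℕ) : Fin 9 → ℝ :=
  ![-1 / 2, 1 / 2 - wx 0, 1 / 2, -1 / 2, 0, 0, 0, 0, wx m]
noncomputable def YA (m : ℕ) : Fin 9 → ℝ :=
  ![√3 / 2, √3 / 2 - wy 0, -(√3 / 2), -(√3 / 2), 0, 0, 0, 0, wy m]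
/-- the vertical potentials -/
noncomputable def XB (m : ℕ) : Fin 9 → ℝ :=
  ![0, 0, 0, 0, -(√3 / 2), √3 / 2 - wx 0, √3 / 2, -(√3 / 2), wx m]
noncomputable def YB (m : ℕ) : Fin 9 → ℝ :=
  ![0, 0, 0, 0, 1 / 2, 1 / 2 - wy 0, -1 / 2, -1 / 2, wy m]

/-- extension to the chain labels -/
noncomputable def PX (X : Fin 9 → ℝ) : Lab m → ℝ :=
  Sum.elim X (fun k : Fin m => (fun j : ℕ => wx j - wx (j + 1)) k)
noncomputable def PY (Y : Fin 9 → ℝ) : Lab m → ℝ :=
  Sum.elim Y (fun k : Fin m => (fun j : ℕ => wy j - wy (j + 1)) k)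

theorem sumPX (A : Finset (Lab m)) (X : Fin 9 → ℝ) :
    ∑ i ∈ A, PX X i = ∑ i : Fin 9, (if (co i : Lab m) ∈ A then X i else 0) + FX (mem A) m := by
  exact sum_lab A X (fun j => wx j - wx (j + 1))

theorem sumPY (A : Finset (Lab m)) (Y : Fin 9 → ℝ) :
    ∑ i ∈ A, PY Y i = ∑ i : Fin 9, (if (co i : Lab m) ∈ A then Y i else 0) + FY (mem A) m := by
  exact sum_lab A Y (fun j => wy j - wy (j + 1))

theorem F_univ : FX (mem (Finset.univ : Finset (Lab m))) m = wx 0 - wx m ∧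
    FY (mem (Finset.univ : Finset (Lab m))) m = wy 0 - wy m := by
  constructor
  · unfold FX
    rw [← Finset.sum_range_sub' (fun k => wx k) m]
    refine Finset.sum_congr rfl fun k hk => ?_
    rw [if_pos ⟨mem_range.1 hk, mem_univ _⟩]
  · unfold FY
    rw [← Finset.sum_range_sub' (fun k => wy k) m]
    refine Finset.sum_congr rfl fun k hk => ?_
    rw [if_pos ⟨mem_range.1 hk, mem_univ _⟩]

theorem totA : ∑ i : Lab m, PX (XA m) i = 0 ∧ ∑ i : Lab m, PY (YA m) i = 0 := by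
  rw [sumPX, sumPY, F_univ.1, F_univ.2, sum9, sum9]
  constructor
  · simp [XA]; ring
  · simp [YA]; ring

theorem totB : ∑ i : Lab m, PX (XB m) i = 0 ∧ ∑ i : Lab m, PY (YB m) i = 0 := by
  rw [sumPX, sumPY, F_univ.1, F_univ.2, sum9, sum9]
  constructor
  · simp [XB]; ring
  · simp [YB]; ring

theorem sq3b : 1.73 < √3 := by
  rw [Real.lt_sqrt (by norm_num)]; norm_num

theorem mem_false (A : Finset (Lab m)) (h : ∀ c, IsCh c → c ∉ A) :
    FX (mem A) m = 0 ∧ FY (mem A) m = 0 := by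
  apply F_zero
  rintro k hk ⟨_, h'⟩
  exact h _ (Or.inr ⟨_, rfl⟩) h'

theorem normA1 (A : Finset (Lab m)) (h1 : co 1 ∉ A)
    (hsep : ∀ c, IsCh c → ¬ Sep A (co 0) c (co 2) (co 1) (co 3) ∧
      ¬ Sep A (co 2) c (co 0) (co 1) (co 3) ∧ ¬ Sep A (co 1) (co 2) (co 0) c (co 3))
    (hpat : ¬ (co 0 ∈ A ∧ co 1 ∈ A ∧ co 2 ∉ A ∧ co 3 ∉ A) ∧
      ¬ (co 0 ∉ A ∧ co 1 ∉ A ∧ co 2 ∈ A ∧ co 3 ∈ A)) :
    (∑ i ∈ A, PX (XA m) i) ^ 2 + (∑ i ∈ A, PY (YA m) i) ^ 2 ≤ 1 := by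
  have hs3 := sq3
  have hs3a := sq3_lt
  have hs3b := sq3b
  have f1 := FX_nonpos (mem A) m
  have f2 := FY_nonneg (mem A) m
  have f3 := FY_le (mem A) m
  have f4 := F_ratio (mem A) m
  have f5 := F_norm (mem A) m
  have g1 := wx_bd m
  have g2 := wy_bd m
  rw [sumPX, sumPY, sum9, sum9]
  by_cases hch : ∃ c, IsCh c ∧ c ∈ A
  · obtain ⟨c, hc, hcA⟩ := hch
    obtain ⟨s1, s2, s3⟩ := hsep c hc
    unfold Sep at s1 s2 s3
    by_cases b0 : (co 0 : Lab m) ∈ A <;> by_cases b2 : (co 2 : Lab m) ∈ A <;>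
      by_cases b3 : (co 3 : Lab m) ∈ A
    · by_cases b8 : (co 8 : Lab m) ∈ A
      · simp [XA, YA, b0, h1, b2, b3, b8]
        all_goals first | nlinarith | norm_num [abs_le]
      · simp [XA, YA, b0, h1, b2, b3, b8]
        all_goals first | nlinarith | norm_num [abs_le]
    · by_cases b8 : (co 8 : Lab m) ∈ A
      · simp [XA, YA, b0, h1, b2, b3, b8]
        all_goals first | nlinarith | norm_num [abs_le]
      · simp [XA, YA, b0, h1, b2, b3, b8]
        all_goals first | nlinarith | norm_num [abs_le]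
    · exact absurd (Or.inr ⟨h1, b2, b0, hcA, b3⟩) s3
    · exact absurd (Or.inl ⟨b0, hcA, b2, h1, b3⟩) s1
    · exact absurd ⟨b0, h1, b2, b3⟩ hpat.2
    · exact absurd (Or.inl ⟨b2, hcA, b0, h1, b3⟩) s2
    · by_cases b8 : (co 8 : Lab m) ∈ A
      · simp [XA, YA, b0, h1, b2, b3, b8]
        all_goals first | nlinarith | norm_num [abs_le]
      · simp [XA, YA, b0, h1, b2, b3, b8]
        all_goals first | nlinarith | norm_num [abs_le]
    · by_cases b8 : (co 8 : Lab m) ∈ A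
      · simp [XA, YA, b0, h1, b2, b3, b8]
        all_goals first | nlinarith | norm_num [abs_le]
      · simp [XA, YA, b0, h1, b2, b3, b8]
        all_goals first | nlinarith | norm_num [abs_le]
  · push Not at hch
    have b8 : (co 8 : Lab m) ∉ A := hch _ (Or.inl rfl)
    obtain ⟨e1, e2⟩ := mem_false A hch
    rw [e1, e2]
    by_cases b0 : (co 0 : Lab m) ∈ A <;> by_cases b2 : (co 2 : Lab m) ∈ A <;>
      by_cases b3 : (co 3 : Lab m) ∈ A
    · simp [XA, YA, b0, h1, b2, b3, b8]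
      all_goals first | nlinarith | norm_num [abs_le]
    · simp [XA, YA, b0, h1, b2, b3, b8]
      norm_num
    · simp [XA, YA, b0, h1, b2, b3, b8]
      all_goals first | nlinarith | norm_num [abs_le]
    · simp [XA, YA, b0, h1, b2, b3, b8]
      all_goals first | nlinarith | norm_num [abs_le]
    · exact absurd ⟨b0, h1, b2, b3⟩ hpat.2
    · simp [XA, YA, b0, h1, b2, b3, b8]
      all_goals first | nlinarith | norm_num [abs_le]
    · simp [XA, YA, b0, h1, b2, b3, b8]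
      all_goals first | nlinarith | norm_num [abs_le]
    · simp [XA, YA, b0, h1, b2, b3, b8]

theorem normB1 (A : Finset (Lab m)) (h1 : co 5 ∉ A)
    (hsep : ∀ c, IsCh c → ¬ Sep A (co 4) c (co 6) (co 5) (co 7) ∧
      ¬ Sep A (co 6) c (co 4) (co 5) (co 7) ∧ ¬ Sep A (co 5) (co 4) (co 6) c (co 7))
    (hpat : ¬ (co 4 ∈ A ∧ co 7 ∈ A ∧ co 5 ∉ A ∧ co 6 ∉ A) ∧
      ¬ (co 4 ∉ A ∧ co 7 ∉ A ∧ co 5 ∈ A ∧ co 6 ∈ A)) :
    (∑ i ∈ A, PX (XB m) i) ^ 2 + (∑ i ∈ A, PY (YB m) i) ^ 2 ≤ 1 := by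
  have hs3 := sq3
  have hs3a := sq3_lt
  have hs3b := sq3b
  have f1 := FX_nonpos (mem A) m
  have f2 := FY_nonneg (mem A) m
  have f3 := FY_le (mem A) m
  have f4 := F_ratio (mem A) m
  have f5 := F_norm (mem A) m
  have g1 := wx_bd m
  have g2 := wy_bd m
  rw [sumPX, sumPY, sum9, sum9]
  by_cases hch : ∃ c, IsCh c ∧ c ∈ A
  · obtain ⟨c, hc, hcA⟩ := hch
    obtain ⟨s1, s2, s3⟩ := hsep c hc
    unfold Sep at s1 s2 s3
    by_cases b4 : (co 4 : Lab m) ∈ A <;> by_cases b6 : (co 6 : Lab m) ∈ A <;>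
      by_cases b7 : (co 7 : Lab m) ∈ A
    · by_cases b8 : (co 8 : Lab m) ∈ A
      · simp [XB, YB, b4, h1, b6, b7, b8]
        all_goals first | nlinarith | norm_num [abs_le]
      · simp [XB, YB, b4, h1, b6, b7, b8]
        all_goals first | nlinarith | norm_num [abs_le]
    · by_cases b8 : (co 8 : Lab m) ∈ A
      · simp [XB, YB, b4, h1, b6, b7, b8]
        all_goals first | nlinarith | norm_num [abs_le]
      · simp [XB, YB, b4, h1, b6, b7, b8]
        all_goals first | nlinarith | norm_num [abs_le]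
    · exact absurd ⟨b4, b7, h1, b6⟩ hpat.1
    · exact absurd (Or.inl ⟨b4, hcA, b6, h1, b7⟩) s1
    · exact absurd (Or.inr ⟨h1, b4, b6, hcA, b7⟩) s3
    · exact absurd (Or.inl ⟨b6, hcA, b4, h1, b7⟩) s2
    · by_cases b8 : (co 8 : Lab m) ∈ A
      · simp [XB, YB, b4, h1, b6, b7, b8]
        all_goals first | nlinarith | norm_num [abs_le]
      · simp [XB, YB, b4, h1, b6, b7, b8]
        all_goals first | nlinarith | norm_num [abs_le]
    · by_cases b8 : (co 8 : Lab m) ∈ A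
      · simp [XB, YB, b4, h1, b6, b7, b8]
        all_goals first | nlinarith | norm_num [abs_le]
      · simp [XB, YB, b4, h1, b6, b7, b8]
        all_goals first | nlinarith | norm_num [abs_le]
  · push Not at hch
    have b8 : (co 8 : Lab m) ∉ A := hch _ (Or.inl rfl)
    obtain ⟨e1, e2⟩ := mem_false A hch
    rw [e1, e2]
    by_cases b4 : (co 4 : Lab m) ∈ A <;> by_cases b6 : (co 6 : Lab m) ∈ A <;>
      by_cases b7 : (co 7 : Lab m) ∈ A
    · simp [XB, YB, b4, h1, b6, b7, b8]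
      all_goals first | nlinarith | norm_num [abs_le]
    · simp [XB, YB, b4, h1, b6, b7, b8]
      all_goals first | nlinarith | norm_num [abs_le]
    · exact absurd ⟨b4, b7, h1, b6⟩ hpat.1
    · simp [XB, YB, b4, h1, b6, b7, b8]
      all_goals first | nlinarith | norm_num [abs_le]
    · simp [XB, YB, b4, h1, b6, b7, b8]
      all_goals first | nlinarith | norm_num [abs_le]
    · simp [XB, YB, b4, h1, b6, b7, b8]
      all_goals first | nlinarith | norm_num [abs_le]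
    · simp [XB, YB, b4, h1, b6, b7, b8]
      all_goals first | nlinarith | norm_num [abs_le]
    · simp [XB, YB, b4, h1, b6, b7, b8]

theorem mem_sep_compl (A : Finset (Lab m)) (a b c d e : Lab m) :
    Sep Aᶜ a b c d e ↔ Sep A a b c d e := by
  unfold Sep
  simp only [Finset.mem_compl, not_not]
  tauto

theorem sum_compl_eq (A : Finset (Lab m)) (f : Lab m → ℝ) (h : ∑ i, f i = 0) :
    ∑ i ∈ A, f i = -∑ i ∈ Aᶜ, f i := by
  have := Finset.sum_add_sum_compl A f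
  linarith

theorem normA (A : Finset (Lab m))
    (hsep : ∀ c, IsCh c → ¬ Sep A (co 0) c (co 2) (co 1) (co 3) ∧
      ¬ Sep A (co 2) c (co 0) (co 1) (co 3) ∧ ¬ Sep A (co 1) (co 2) (co 0) c (co 3))
    (hpat : ¬ (co 0 ∈ A ∧ co 1 ∈ A ∧ co 2 ∉ A ∧ co 3 ∉ A) ∧
      ¬ (co 0 ∉ A ∧ co 1 ∉ A ∧ co 2 ∈ A ∧ co 3 ∈ A)) :
    (∑ i ∈ A, PX (XA m) i) ^ 2 + (∑ i ∈ A, PY (YA m) i) ^ 2 ≤ 1 := by
  by_cases h1 : (co 1 : Lab m) ∈ A
  · rw [sum_compl_eq A _ totA.1, sum_compl_eq A _ totA.2, neg_sq, neg_sq]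
    apply normA1
    · simpa using h1
    · intro c hc
      rw [mem_sep_compl, mem_sep_compl, mem_sep_compl]
      exact hsep c hc
    · simp only [Finset.mem_compl, not_not]
      tauto
  · exact normA1 A h1 hsep hpat

theorem normB (A : Finset (Lab m))
    (hsep : ∀ c, IsCh c → ¬ Sep A (co 4) c (co 6) (co 5) (co 7) ∧
      ¬ Sep A (co 6) c (co 4) (co 5) (co 7) ∧ ¬ Sep A (co 5) (co 4) (co 6) c (co 7))
    (hpat : ¬ (co 4 ∈ A ∧ co 7 ∈ A ∧ co 5 ∉ A ∧ co 6 ∉ A) ∧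
      ¬ (co 4 ∉ A ∧ co 7 ∉ A ∧ co 5 ∈ A ∧ co 6 ∈ A)) :
    (∑ i ∈ A, PX (XB m) i) ^ 2 + (∑ i ∈ A, PY (YB m) i) ^ 2 ≤ 1 := by
  by_cases h1 : (co 5 : Lab m) ∈ A
  · rw [sum_compl_eq A _ totB.1, sum_compl_eq A _ totB.2, neg_sq, neg_sq]
    apply normB1
    · simpa using h1
    · intro c hc
      rw [mem_sep_compl, mem_sep_compl, mem_sep_compl]
      exact hsep c hc
    · simp only [Finset.mem_compl, not_not]
      tauto
  · exact normB1 A h1 hsep hpat

/-- the directional constraints -/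
structure Dir {m : ℕ} (p : Lab m → E2) : Prop where
  d0 : 0 ≤ -1 / 2 * (p (co 0) 0 + 1) + √3 / 2 * (p (co 0) 1 - 1)
  d1 : 0 ≤ (1 / 2 - wx 0) * (p (co 1) 0 - 1) + (√3 / 2 - wy 0) * (p (co 1) 1 - 1)
  d2 : 0 ≤ 1 / 2 * (p (co 2) 0 - 1) - √3 / 2 * (p (co 2) 1 + 1)
  d3 : 0 ≤ -1 / 2 * (p (co 3) 0 + 1) - √3 / 2 * (p (co 3) 1 + 1)
  d4 : 0 ≤ -(√3 / 2) * (p (co 4) 0 + 1) + 1 / 2 * (p (co 4) 1 - 1)
  d5 : 0 ≤ (√3 / 2 - wx 0) * (p (co 5) 0 - 1) + (1 / 2 - wy 0) * (p (co 5) 1 - 1)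
  d6 : 0 ≤ √3 / 2 * (p (co 6) 0 - 1) - 1 / 2 * (p (co 6) 1 + 1)
  d7 : 0 ≤ -(√3 / 2) * (p (co 7) 0 + 1) - 1 / 2 * (p (co 7) 1 + 1)
  dc : ∀ k : Fin m, 0 ≤ (wx k - wx (k + 1)) * (p (Sum.inr k) 0 - cx (k + 1))
    + (wy k - wy (k + 1)) * (p (Sum.inr k) 1 - cy (k + 1))

theorem valA (p : Lab m → E2) (hd : Dir p) :
    2 + 2 * √3 + ∑ k ∈ range m, el k + (wx m * (p (co 8) 0 - cx m) + wy m * (p (co 8) 1 - cy m))
      ≤ ∑ i, lin (PX (XA m)) (PY (YA m)) i (p i) := by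
  have hs := telescope m
  rw [cx_zero, cy_zero] at hs
  have h0 : ∑ i, lin (PX (XA m)) (PY (YA m)) i (p i) =
      ∑ i : Fin 9, (XA m i * p (co i) 0 + YA m i * p (co i) 1)
      + ∑ k : Fin m, ((wx k - wx (k + 1)) * p (Sum.inr k) 0
        + (wy k - wy (k + 1)) * p (Sum.inr k) 1) := by
    rw [Fintype.sum_sum_type]
    rfl
  have h1 : ∑ k ∈ range m, ((wx k - wx (k + 1)) * cx (k + 1) + (wy k - wy (k + 1)) * cy (k + 1))
      ≤ ∑ k : Fin m, ((wx k - wx (k + 1)) * p (Sum.inr k) 0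
        + (wy k - wy (k + 1)) * p (Sum.inr k) 1) := by
    rw [Finset.sum_range]
    refine Finset.sum_le_sum fun k _ => ?_
    have := hd.dc k
    linarith
  have d0 := hd.d0
  have d1 := hd.d1
  have d2 := hd.d2
  have d3 := hd.d3
  rw [h0, sum9]
  simp [XA, YA]
  linarith

theorem valB (p : Lab m → E2) (hd : Dir p) :
    2 + 2 * √3 + ∑ k ∈ range m, el k + (wx m * (p (co 8) 0 - cx m) + wy m * (p (co 8) 1 - cy m))
      ≤ ∑ i, lin (PX (XB m)) (PY (YB m)) i (p i) := by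
  have hs := telescope m
  rw [cx_zero, cy_zero] at hs
  have h0 : ∑ i, lin (PX (XB m)) (PY (YB m)) i (p i) =
      ∑ i : Fin 9, (XB m i * p (co i) 0 + YB m i * p (co i) 1)
      + ∑ k : Fin m, ((wx k - wx (k + 1)) * p (Sum.inr k) 0
        + (wy k - wy (k + 1)) * p (Sum.inr k) 1) := by
    rw [Fintype.sum_sum_type]
    rfl
  have h1 : ∑ k ∈ range m, ((wx k - wx (k + 1)) * cx (k + 1) + (wy k - wy (k + 1)) * cy (k + 1))
      ≤ ∑ k : Fin m, ((wx k - wx (k + 1)) * p (Sum.inr k) 0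
        + (wy k - wy (k + 1)) * p (Sum.inr k) 1) := by
    rw [Finset.sum_range]
    refine Finset.sum_le_sum fun k _ => ?_
    have := hd.dc k
    linarith
  have d4 := hd.d4
  have d5 := hd.d5
  have d6 := hd.d6
  have d7 := hd.d7
  rw [h0, sum9]
  simp [XB, YB]
  linarith

theorem zeroPot (X Y : Lab m → ℝ) (hX : ∑ i, X i = 0) (hY : ∑ i, Y i = 0) (x : E2) :
    ∑ i, lin X Y i x = 0 := by
  simp only [lin, Finset.sum_add_distrib, ← Finset.sum_mul]
  rw [hX, hY]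
  ring

/-- **The lower bound.** -/
theorem lower_m {K : Set E2} (hK : IsCompact K) (hc : IsConnected K) (p : Lab m → E2)
    (hp : ∀ i, p i ∈ K) (hN : Near p) (hd : Dir p) (hy : wx m * (p (co 8) 0 - cx m)
      + wy m * (p (co 8) 1 - cy m) ≤ 1 / 10) :
    ENNReal.ofReal (2 + 2 * √3 + ∑ k ∈ range m, el k
      + (wx m * (p (co 8) 0 - cx m) + wy m * (p (co 8) 1 - cy m))) ≤ μH[1] K := by
  set V := 2 + 2 * √3 + ∑ k ∈ range m, el k
      + (wx m * (p (co 8) 0 - cx m) + wy m * (p (co 8) 1 - cy m)) with hV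
  have hV1 : V ≤ 5.65 := by
    have := sq3_lt
    have h2 := el_sum m
    have h3 := (pow_bd m).1
    linarith
  by_contra hlt
  push Not at hlt
  have hfin : μH[1] K ≠ ∞ := ne_top_of_lt hlt
  set L := (μH[1] K).toReal with hL
  have hL0 : 0 ≤ L := ENNReal.toReal_nonneg
  have hLlt : L < V := by
    rw [hL]
    exact (ENNReal.lt_ofReal_iff_toReal_lt hfin).1 hlt
  obtain ⟨M, hM, _, hB⟩ := exists_laminar hK hc p hp L hL0 (by rw [hL, ENNReal.ofReal_toReal hfin])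
    ((V - L) / 2) (by linarith)
  have hlt' : L + (V - L) / 2 < 5.7 := by linarith
  rcases dichotomy hM hB hN hlt' with h | h
  · have := hB (lin (PX (XA m)) (PY (YA m))) (fun A hA => lin_lipOn _ _ _ _
      (normA A (noSepA hM hB hN hlt' A hA) (h A hA))) (fun x _ => zeroPot _ _ totA.1 totA.2 x)
    have h2 := valA p hd
    linarith
  · have := hB (lin (PX (XB m)) (PY (YB m))) (fun A hA => lin_lipOn _ _ _ _
      (normB A (noSepB hM hB hN hlt' A hA) (h A hA))) (fun x _ => zeroPot _ _ totB.1 totB.2 x)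
    have h2 := valB p hd
    linarith

end

end Pool.Agent.Q154.DD
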