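import Mathlib
import Pool.Agent.Q154.DDLower2

set_option autoImplicit false

namespace Pool.Agent.Q154.DD

open scoped ENNReal NNReal Topology
open MeasureTheory Metric Pool.Agent.Helper752 Filter

/-- chain vertices -/
noncomputable def c (n : ℕ) : E2 := !₂[cx n, cy n]

theorem c_x (n : ℕ) : c n 0 = cx n := rfl
theorem c_y (n : ℕ) : c n 1 = cy n := rfl

theorem c_zero : c 0 = !₂[1, 1] := by
  unfold c; rw [cx_zero, cy_zero]

theorem dist_c (n : ℕ) : dist (c n) (c (n + 1)) = el n := by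
  rw [EuclideanSpace.dist_eq]
  simp only [Fin.sum_univ_two, Real.dist_eq, sq_abs, c_x, c_y, cx_succ, cy_succ]
  have e : (cx n - (cx n + el n * wx n)) ^ 2 + (cy n - (cy n + el n * wy n)) ^ 2
      = el n ^ 2 * (wx n ^ 2 + wy n ^ 2) := by ring
  rw [e, w_unit, mul_one, Real.sqrt_sq (el_pos n).le]

theorem dist_c_le (n : ℕ) : dist (c n) (c (n + 1)) ≤ 1 / 40 * (1 / 2) ^ n := by
  rw [dist_c]; rfl

theorem exists_lim : ∃ a, Tendsto c atTop (𝓝 a) :=
  cauchySeq_tendsto_of_complete
    (cauchySeq_of_le_geometric (1 / 2) (1 / 40) (by norm_num) dist_c_le)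

/-- the end of the chain -/
noncomputable def ci : E2 := Classical.choose exists_lim

theorem tendsto_c : Tendsto c atTop (𝓝 ci) := Classical.choose_spec exists_lim

theorem dist_ci (n : ℕ) : dist (c n) ci ≤ 1 / 20 * (1 / 2) ^ n := by
  have := dist_le_of_le_geometric_of_tendsto (1 / 2) (1 / 40) (by norm_num) dist_c_le tendsto_c n
  refine this.trans (le_of_eq ?_)
  ring

theorem tendsto_cx : Tendsto cx atTop (𝓝 (ci 0)) := by
  have : Continuous fun x : E2 => x 0 := by fun_prop
  exact (this.tendsto ci).comp tendsto_c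

theorem tendsto_cy : Tendsto cy atTop (𝓝 (ci 1)) := by
  have : Continuous fun x : E2 => x 1 := by fun_prop
  exact (this.tendsto ci).comp tendsto_c

theorem wx_pos (n : ℕ) : 0 < wx n := by have := wx_bd n; linarith [this.1]
theorem wy_pos (n : ℕ) : 0 < wy n := by have := wy_bd n; linarith [this.1]

theorem cx_strict : StrictMono cx := strictMono_nat_of_lt_succ fun n => by
  rw [cx_succ]; have := mul_pos (el_pos n) (wx_pos n); linarith

theorem cy_strict : StrictMono cy := strictMono_nat_of_lt_succ fun n => by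
  rw [cy_succ]; have := mul_pos (el_pos n) (wy_pos n); linarith

theorem cx_ge (n : ℕ) : 1 ≤ cx n := by rw [← cx_zero]; exact cx_strict.monotone (Nat.zero_le n)
theorem cy_ge (n : ℕ) : 1 ≤ cy n := by rw [← cy_zero]; exact cy_strict.monotone (Nat.zero_le n)

theorem cx_lt_ci (n : ℕ) : cx n < ci 0 :=
  (cx_strict (Nat.lt_succ_self n)).trans_le
    (cx_strict.monotone.ge_of_tendsto tendsto_cx (n + 1))
theorem cy_lt_ci (n : ℕ) : cy n < ci 1 :=
  (cy_strict (Nat.lt_succ_self n)).trans_le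
    (cy_strict.monotone.ge_of_tendsto tendsto_cy (n + 1))

theorem coord_le (x y : E2) (i : Fin 2) : |x i - y i| ≤ dist x y := by
  have := EuclideanSpace.dist_eq x y
  rw [this]
  apply Real.le_sqrt_of_sq_le
  rw [sq_abs]
  have h : (x i - y i) ^ 2 = dist (x i) (y i) ^ 2 := by rw [Real.dist_eq, sq_abs]
  rw [h]
  exact Finset.single_le_sum (f := fun j => dist (x j) (y j) ^ 2) (fun j _ => sq_nonneg _)
    (Finset.mem_univ i)

theorem ci_le : ci 0 ≤ 1 + 1 / 20 ∧ ci 1 ≤ 1 + 1 / 20 := by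
  have h := dist_ci 0
  have h0 := coord_le (c 0) ci 0
  have h1 := coord_le (c 0) ci 1
  rw [c_x, cx_zero] at h0
  rw [c_y, cy_zero] at h1
  have h0' := abs_le.1 h0
  have h1' := abs_le.1 h1
  rw [pow_zero, mul_one] at h
  constructor <;> linarith

/-- the chain -/
noncomputable def Ch : Set E2 := (⋃ n, segment ℝ (c n) (c (n + 1))) ∪ {ci}

theorem compact_segment (a b : E2) : IsCompact (segment ℝ a b) := by
  rw [segment_eq_image_lineMap]
  exact isCompact_Icc.image AffineMap.lineMap_continuous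

theorem seg_sub_ball {n N : ℕ} (h : N ≤ n) :
    segment ℝ (c n) (c (n + 1)) ⊆ closedBall ci (1 / 20 * (1 / 2) ^ N) := by
  apply (convex_closedBall _ _).segment_subset
  · rw [mem_closedBall]
    refine (dist_ci n).trans ?_
    exact mul_le_mul_of_nonneg_left (pow_le_pow_of_le_one (by norm_num) (by norm_num) h)
      (by norm_num)
  · rw [mem_closedBall]
    refine (dist_ci (n + 1)).trans ?_
    exact mul_le_mul_of_nonneg_left
      (pow_le_pow_of_le_one (by norm_num) (by norm_num) (by omega)) (by norm_num)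

theorem Ch_eq : Ch = ⋂ N : ℕ, ((⋃ n ∈ Finset.range N, segment ℝ (c n) (c (n + 1))) ∪
    closedBall ci (1 / 20 * (1 / 2) ^ N)) := by
  apply Set.Subset.antisymm
  · rintro x (hx | hx)
    · obtain ⟨n, hn⟩ := Set.mem_iUnion.1 hx
      refine Set.mem_iInter.2 fun N => ?_
      by_cases h : n < N
      · exact Or.inl (Set.mem_iUnion₂.2 ⟨n, Finset.mem_range.2 h, hn⟩)
      · exact Or.inr (seg_sub_ball (not_lt.1 h) hn)
    · rw [Set.mem_singleton_iff] at hx
      rw [hx]
      refine Set.mem_iInter.2 fun N => Or.inr (mem_closedBall_self (by positivity))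
  · intro x hx
    rw [Set.mem_iInter] at hx
    by_cases h : ∃ n, x ∈ segment ℝ (c n) (c (n + 1))
    · exact Or.inl (Set.mem_iUnion.2 h)
    · right
      push Not at h
      have h1 : ∀ N : ℕ, dist x ci ≤ 1 / 20 * (1 / 2) ^ N := by
        intro N
        rcases hx N with hx' | hx'
        · obtain ⟨n, _, hn⟩ := Set.mem_iUnion₂.1 hx'
          exact absurd hn (h n)
        · exact hx'
      have h2 : Tendsto (fun N : ℕ => 1 / 20 * (1 / 2 : ℝ) ^ N) atTop (𝓝 (1 / 20 * 0)) :=
        (tendsto_pow_atTop_nhds_zero_of_lt_one (by norm_num) (by norm_num)).const_mul _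
      rw [mul_zero] at h2
      have h3 := ge_of_tendsto' h2 h1
      rw [Set.mem_singleton_iff]
      exact dist_le_zero.1 h3

theorem Ch_compact : IsCompact Ch := by
  rw [Ch_eq]
  have h : ∀ N : ℕ, IsCompact ((⋃ n ∈ Finset.range N, segment ℝ (c n) (c (n + 1))) ∪
      closedBall ci (1 / 20 * (1 / 2) ^ N)) := fun N =>
    ((Finset.range N).isCompact_biUnion fun n _ => compact_segment _ _).union
      (isCompact_closedBall _ _)
  exact (h 0).of_isClosed_subset (isClosed_iInter fun N => (h N).isClosed) (Set.iInter_subset _ 0)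

theorem conn_segment (a b : E2) : IsConnected (segment ℝ a b) :=
  (convex_segment a b).isConnected ⟨a, left_mem_segment ℝ a b⟩

theorem Ch_conn : IsConnected Ch := by
  have h : IsConnected (⋃ n, segment ℝ (c n) (c (n + 1))) := by
    apply IsConnected.iUnion_of_chain
    · intro n
      exact conn_segment _ _
    · intro n
      exact ⟨c (n + 1), right_mem_segment ℝ _ _, left_mem_segment ℝ _ _⟩
  apply h.subset_closure Set.subset_union_left
  rintro x (hx | hx)
  · exact subset_closure hx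
  · rw [Set.mem_singleton_iff] at hx
    rw [hx]
    exact mem_closure_of_tendsto tendsto_c (Eventually.of_forall fun n =>
      Set.mem_iUnion.2 ⟨n, left_mem_segment ℝ _ _⟩)

theorem c_mem (n : ℕ) : c n ∈ Ch := Or.inl (Set.mem_iUnion.2 ⟨n, left_mem_segment ℝ _ _⟩)
theorem ci_mem : ci ∈ Ch := Or.inr rfl

theorem Ch_len : μH[1] Ch ≤ ENNReal.ofReal (1 / 20) := by
  unfold Ch
  haveI := MeasureTheory.Measure.noAtoms_hausdorff E2 (d := (1 : ℝ)) one_pos
  refine (measure_union_le _ _).trans ?_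
  rw [measure_singleton, add_zero]
  refine (measure_iUnion_le _).trans ?_
  have h1 : ∀ n, μH[1] (segment ℝ (c n) (c (n + 1))) = ENNReal.ofReal (el n) := by
    intro n
    rw [hausdorffMeasure_segment, edist_dist, dist_c]
  simp only [h1]
  have hs : HasSum el (1 / 20) := by
    have := (hasSum_geometric_two).mul_left (1 / 40 : ℝ)
    have e : (1 / 40 : ℝ) * 2 = 1 / 20 := by norm_num
    rw [e] at this
    exact this
  rw [← ENNReal.ofReal_tsum_of_nonneg (fun n => (el_pos n).le) hs.summable, hs.tsum_eq]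

/-- The horizontal Steiner tree of the square. -/
noncomputable def SA : Set E2 :=
  segment ℝ !₂[-1, 1] !₂[-(1 - √3 / 3), 0] ∪ segment ℝ !₂[-1, -1] !₂[-(1 - √3 / 3), 0]
    ∪ segment ℝ !₂[-(1 - √3 / 3), 0] !₂[1 - √3 / 3, 0]
    ∪ segment ℝ !₂[1 - √3 / 3, 0] !₂[1, 1] ∪ segment ℝ !₂[1 - √3 / 3, 0] !₂[1, -1]

/-- The vertical Steiner tree of the square. -/
noncomputable def SB : Set E2 :=
  segment ℝ !₂[1, -1] !₂[0, -(1 - √3 / 3)] ∪ segment ℝ !₂[-1, -1] !₂[0, -(1 - √3 / 3)]
    ∪ segment ℝ !₂[0, -(1 - √3 / 3)] !₂[0, 1 - √3 / 3]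
    ∪ segment ℝ !₂[0, 1 - √3 / 3] !₂[1, 1] ∪ segment ℝ !₂[0, 1 - √3 / 3] !₂[-1, 1]

theorem SA_compact : IsCompact SA :=
  ((((compact_segment _ _).union (compact_segment _ _)).union (compact_segment _ _)).union
    (compact_segment _ _)).union (compact_segment _ _)

theorem SB_compact : IsCompact SB :=
  ((((compact_segment _ _).union (compact_segment _ _)).union (compact_segment _ _)).union
    (compact_segment _ _)).union (compact_segment _ _)

theorem conn_tree (a b c d e f : E2) :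
    IsConnected (segment ℝ a e ∪ segment ℝ b e ∪ segment ℝ e f ∪ segment ℝ f c
      ∪ segment ℝ f d) := by
  refine IsConnected.union ⟨f, ?_, left_mem_segment ℝ f d⟩ (IsConnected.union
    ⟨f, ?_, left_mem_segment ℝ f c⟩ (IsConnected.union ⟨e, ?_, left_mem_segment ℝ e f⟩
    (IsConnected.union ⟨e, right_mem_segment ℝ a e, right_mem_segment ℝ b e⟩
      (conn_segment _ _) (conn_segment _ _)) (conn_segment _ _)) (conn_segment _ _))
      (conn_segment _ _)
  · exact Or.inl (Or.inr (right_mem_segment ℝ e f))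
  · exact Or.inr (right_mem_segment ℝ e f)
  · exact Or.inr (right_mem_segment ℝ b e)

theorem len_tree (a b c d e f : E2) (ℓ m : ℝ) (hℓ : 0 ≤ ℓ) (hm : 0 ≤ m) (h1 : dist a e ≤ ℓ)
    (h2 : dist b e ≤ ℓ) (h3 : dist e f ≤ m) (h4 : dist f c ≤ ℓ) (h5 : dist f d ≤ ℓ) :
    μH[1] (segment ℝ a e ∪ segment ℝ b e ∪ segment ℝ e f ∪ segment ℝ f c
      ∪ segment ℝ f d) ≤ ENNReal.ofReal (4 * ℓ + m) := by
  have e1 : 4 * ℓ + m = ((((ℓ + ℓ) + m) + ℓ) + ℓ) := by ring
  rw [e1, ENNReal.ofReal_add (by positivity) hℓ, ENNReal.ofReal_add (by positivity) hℓ,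
    ENNReal.ofReal_add (by positivity) hm, ENNReal.ofReal_add hℓ hℓ]
  have hs : ∀ (a b : E2) (ℓ : ℝ), dist a b ≤ ℓ → μH[1] (segment ℝ a b) ≤ ENNReal.ofReal ℓ := by
    intro a b ℓ h
    rw [hausdorffMeasure_segment, edist_dist]
    exact ENNReal.ofReal_le_ofReal h
  refine (measure_union_le _ _).trans (add_le_add ?_ (hs _ _ _ h5))
  refine (measure_union_le _ _).trans (add_le_add ?_ (hs _ _ _ h4))
  refine (measure_union_le _ _).trans (add_le_add ?_ (hs _ _ _ h3))
  exact (measure_union_le _ _).trans (add_le_add (hs _ _ _ h1) (hs _ _ _ h2))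

theorem dist_le_of (a b c d ℓ : ℝ) (hℓ : 0 ≤ ℓ) (h : (a - c) ^ 2 + (b - d) ^ 2 ≤ ℓ ^ 2) :
    dist (!₂[a, b] : E2) !₂[c, d] ≤ ℓ := by
  rw [EuclideanSpace.dist_eq]
  apply Real.sqrt_le_iff.2 ⟨hℓ, _⟩
  simpa [Fin.sum_univ_two, Real.dist_eq, sq_abs] using h

theorem SA_len : μH[1] SA ≤ ENNReal.ofReal (2 + 2 * √3) := by
  have h1 := sq3b
  have h2 := sq3_lt
  have h3 := sq3
  have h := len_tree !₂[-1, 1] !₂[-1, -1] !₂[1, 1] !₂[1, -1] !₂[-(1 - √3 / 3), 0] !₂[1 - √3 / 3, 0]
    (2 * √3 / 3) (2 - 2 * √3 / 3) (by positivity) (by linarith)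
    (dist_le_of _ _ _ _ _ (by positivity) (by nlinarith))
    (dist_le_of _ _ _ _ _ (by positivity) (by nlinarith))
    (dist_le_of _ _ _ _ _ (by linarith) (by nlinarith))
    (dist_le_of _ _ _ _ _ (by positivity) (by nlinarith))
    (dist_le_of _ _ _ _ _ (by positivity) (by nlinarith))
  have e : 4 * (2 * √3 / 3) + (2 - 2 * √3 / 3) = 2 + 2 * √3 := by ring
  rw [e] at h
  exact h

theorem SB_len : μH[1] SB ≤ ENNReal.ofReal (2 + 2 * √3) := by
  have h1 := sq3b
  have h2 := sq3_lt
  have h3 := sq3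
  have h := len_tree !₂[1, -1] !₂[-1, -1] !₂[1, 1] !₂[-1, 1] !₂[0, -(1 - √3 / 3)] !₂[0, 1 - √3 / 3]
    (2 * √3 / 3) (2 - 2 * √3 / 3) (by positivity) (by linarith)
    (dist_le_of _ _ _ _ _ (by positivity) (by nlinarith))
    (dist_le_of _ _ _ _ _ (by positivity) (by nlinarith))
    (dist_le_of _ _ _ _ _ (by linarith) (by nlinarith))
    (dist_le_of _ _ _ _ _ (by positivity) (by nlinarith))
    (dist_le_of _ _ _ _ _ (by positivity) (by nlinarith))
  have e : 4 * (2 * √3 / 3) + (2 - 2 * √3 / 3) = 2 + 2 * √3 := by ring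
  rw [e] at h
  exact h

/-- The corners are in the vertical tree. -/
theorem corner_SB (sx sy : ℝ) (hx : sx = 1 ∨ sx = -1) (hy : sy = 1 ∨ sy = -1) :
    (!₂[sx, sy] : E2) ∈ SB := by
  unfold SB
  rcases hx with rfl | rfl <;> rcases hy with rfl | rfl
  · exact Or.inl (Or.inr (right_mem_segment ℝ _ _))
  · exact Or.inl (Or.inl (Or.inl (Or.inl (left_mem_segment ℝ _ _))))
  · exact Or.inr (right_mem_segment ℝ _ _)
  · exact Or.inl (Or.inl (Or.inl (Or.inr (left_mem_segment ℝ _ _))))

/-- The corners are in the horizontal tree. -/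
theorem corner_SA (sx sy : ℝ) (hx : sx = 1 ∨ sx = -1) (hy : sy = 1 ∨ sy = -1) :
    (!₂[sx, sy] : E2) ∈ SA := by
  unfold SA
  rcases hx with rfl | rfl <;> rcases hy with rfl | rfl
  · exact Or.inl (Or.inr (right_mem_segment ℝ _ _))
  · exact Or.inr (right_mem_segment ℝ _ _)
  · exact Or.inl (Or.inl (Or.inl (Or.inl (left_mem_segment ℝ _ _))))
  · exact Or.inl (Or.inl (Or.inl (Or.inr (left_mem_segment ℝ _ _))))

theorem SA_conn : IsConnected SA := conn_tree _ _ _ _ _ _

theorem SB_conn : IsConnected SB := conn_tree _ _ _ _ _ _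

/-- the two trees -/
noncomputable def TA : Set E2 := SA ∪ Ch
noncomputable def TB : Set E2 := SB ∪ Ch

theorem TA_compact : IsCompact TA := SA_compact.union Ch_compact
theorem TB_compact : IsCompact TB := SB_compact.union Ch_compact

theorem TA_conn : IsConnected TA := by
  apply IsConnected.union _ SA_conn Ch_conn
  exact ⟨c 0, by rw [c_zero]; exact corner_SA 1 1 (Or.inl rfl) (Or.inl rfl), c_mem 0⟩

theorem TB_conn : IsConnected TB := by
  apply IsConnected.union _ SB_conn Ch_conn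
  exact ⟨c 0, by rw [c_zero]; exact corner_SB 1 1 (Or.inl rfl) (Or.inl rfl), c_mem 0⟩

theorem TA_len : μH[1] TA ≤ ENNReal.ofReal (2 + 2 * √3 + 1 / 20) := by
  rw [ENNReal.ofReal_add (by positivity) (by norm_num)]
  exact (measure_union_le _ _).trans (add_le_add SA_len Ch_len)

theorem TB_len : μH[1] TB ≤ ENNReal.ofReal (2 + 2 * √3 + 1 / 20) := by
  rw [ENNReal.ofReal_add (by positivity) (by norm_num)]
  exact (measure_union_le _ _).trans (add_le_add SB_len Ch_len)

end Pool.Agent.Q154.DD
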