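import Mathlib
import Pool.Agent.Q154.DDSets

set_option autoImplicit false

namespace Pool.Agent.Q154.DD

open scoped ENNReal NNReal Topology
open MeasureTheory Metric Pool.Agent.Helper752 Filter

/-- The terminals. -/
noncomputable def AA : Set E2 :=
  {!₂[-1, 1], !₂[1, -1], !₂[-1, -1]} ∪ insert ci (Set.range c)

theorem tendsto_tt : Tendsto tt atTop (𝓝 (1 / 9)) := by
  have h : Tendsto (fun k : ℕ => 1 / 9 + 1 / 72 * (1 / 2 : ℝ) ^ k) atTop
      (𝓝 (1 / 9 + 1 / 72 * 0)) :=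
    ((tendsto_pow_atTop_nhds_zero_of_lt_one (by norm_num) (by norm_num)).const_mul _).const_add _
  rw [mul_zero, add_zero] at h
  exact h

theorem tendsto_wx : Tendsto wx atTop (𝓝 (40 / 41)) := by
  have h : Tendsto (fun k => (1 - tt k ^ 2) / (1 + tt k ^ 2)) atTop
      (𝓝 ((1 - (1 / 9) ^ 2) / (1 + (1 / 9) ^ 2))) :=
    ((tendsto_tt.pow 2).const_sub 1).div ((tendsto_tt.pow 2).const_add 1) (by norm_num)
  have e : (1 - (1 / 9 : ℝ) ^ 2) / (1 + (1 / 9) ^ 2) = 40 / 41 := by norm_num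
  rw [e] at h
  exact h

theorem tendsto_wy : Tendsto wy atTop (𝓝 (9 / 41)) := by
  have h : Tendsto (fun k => 2 * tt k / (1 + tt k ^ 2)) atTop
      (𝓝 (2 * (1 / 9) / (1 + (1 / 9) ^ 2))) :=
    (tendsto_tt.const_mul 2).div ((tendsto_tt.pow 2).const_add 1) (by norm_num)
  have e : 2 * (1 / 9 : ℝ) / (1 + (1 / 9) ^ 2) = 9 / 41 := by norm_num
  rw [e] at h
  exact h

theorem lower_of {K : Set E2} (hK : IsCompact K) (hc : IsConnected K)
    (h : ∀ s ∈ AA, ∀ v0 v1 : ℝ, ∃ w ∈ K, |w 0 - s 0| ≤ 1 / 100 ∧ |w 1 - s 1| ≤ 1 / 100 ∧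
      0 ≤ v0 * (w 0 - s 0) + v1 * (w 1 - s 1)) :
    ENNReal.ofReal (2 + 2 * √3 + 1 / 20) ≤ μH[1] K := by
  have hz : (!₂[1, 1] : E2) ∈ AA := Or.inr (Or.inr ⟨0, c_zero⟩)
  have h03 : (!₂[-1, 1] : E2) ∈ AA := Or.inl (Or.inl rfl)
  have h2 : (!₂[1, -1] : E2) ∈ AA := Or.inl (Or.inr (Or.inl rfl))
  have h3 : (!₂[-1, -1] : E2) ∈ AA := Or.inl (Or.inr (Or.inr rfl))
  have hci : ci ∈ AA := Or.inr (Or.inl rfl)
  have hcn : ∀ n, c n ∈ AA := fun n => Or.inr (Or.inr ⟨n, rfl⟩)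
  obtain ⟨w0, k0, x0, y0, d0⟩ := h _ h03 (-1 / 2) (√3 / 2)
  obtain ⟨w1, k1, x1, y1, d1⟩ := h _ hz (1 / 2 - wx 0) (√3 / 2 - wy 0)
  obtain ⟨w2, k2, x2, y2, d2⟩ := h _ h2 (1 / 2) (-(√3 / 2))
  obtain ⟨w3, k3, x3, y3, d3⟩ := h _ h3 (-1 / 2) (-(√3 / 2))
  obtain ⟨w4, k4, x4, y4, d4⟩ := h _ h03 (-(√3 / 2)) (1 / 2)
  obtain ⟨w5, k5, x5, y5, d5⟩ := h _ hz (√3 / 2 - wx 0) (1 / 2 - wy 0)
  obtain ⟨w6, k6, x6, y6, d6⟩ := h _ h2 (√3 / 2) (-1 / 2)
  obtain ⟨w7, k7, x7, y7, d7⟩ := h _ h3 (-(√3 / 2)) (-1 / 2)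
  obtain ⟨w8, k8, x8, y8, d8⟩ := h _ hci (40 / 41) (9 / 41)
  have hq := fun n : ℕ => h _ (hcn (n + 1)) (wx n - wx (n + 1)) (wy n - wy (n + 1))
  choose q qK qx qy qd using hq
  have d0' : 0 ≤ -1 / 2 * (w0 0 - -1) + √3 / 2 * (w0 1 - 1) := d0
  have d2' : 0 ≤ 1 / 2 * (w2 0 - 1) + -(√3 / 2) * (w2 1 - -1) := d2
  have d3' : 0 ≤ -1 / 2 * (w3 0 - -1) + -(√3 / 2) * (w3 1 - -1) := d3
  have d4' : 0 ≤ -(√3 / 2) * (w4 0 - -1) + 1 / 2 * (w4 1 - 1) := d4
  have d6' : 0 ≤ √3 / 2 * (w6 0 - 1) + -1 / 2 * (w6 1 - -1) := d6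
  have d7' : 0 ≤ -(√3 / 2) * (w7 0 - -1) + -1 / 2 * (w7 1 - -1) := d7
  simp only [c_x, c_y] at qx qy qd
  let p : Fin 9 → E2 := ![w0, w1, w2, w3, w4, w5, w6, w7, w8]
  have hpK : ∀ i, p i ∈ K := by
    intro i
    fin_cases i <;> assumption
  let P : (m : ℕ) → Lab m → E2 := fun m => Sum.elim p (fun k : Fin m => q k)
  have hPK : ∀ m i, P m i ∈ K := by
    intro m i
    rcases i with i | k
    · exact hpK i
    · exact qK k
  have hPx : ∀ m, ∀ l : Lab m, IsCh l → 1 - 1 / 50 ≤ P m l 0 := by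
    rintro m l (rfl | ⟨k, rfl⟩)
    · change 1 - 1 / 50 ≤ w8 0
      have h1 := (abs_le.1 x8).1
      have h2 := cx_lt_ci 0
      rw [cx_zero] at h2
      linarith
    · change 1 - 1 / 50 ≤ q k 0
      have h1 := (abs_le.1 (qx k)).1
      have h2 := cx_ge (k + 1)
      linarith
  have hPy : ∀ m, ∀ l : Lab m, IsCh l → 1 - 1 / 50 ≤ P m l 1 := by
    rintro m l (rfl | ⟨k, rfl⟩)
    · change 1 - 1 / 50 ≤ w8 1
      have h1 := (abs_le.1 y8).1
      have h2 := cy_lt_ci 0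
      rw [cy_zero] at h2
      linarith
    · change 1 - 1 / 50 ≤ q k 1
      have h1 := (abs_le.1 (qy k)).1
      have h2 := cy_ge (k + 1)
      linarith
  have hs : ∀ {a : ℝ}, |a| ≤ 1 / 100 → |a| ≤ 1 / 50 := fun h => h.trans (by norm_num)
  have hneg : ∀ {a : ℝ}, |a - -1| ≤ 1 / 100 → |a + 1| ≤ 1 / 50 := by
    intro a h
    rw [sub_neg_eq_add] at h
    exact hs h
  have hN : ∀ m, Near (P m) := fun m =>
    { x0 := hneg x0, y0 := hs y0, x1 := hs x1, y1 := hs y1, x2 := hs x2, y2 := hneg y2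
      x3 := hneg x3, y3 := hneg y3, x4 := hneg x4, y4 := hs y4, x5 := hs x5, y5 := hs y5
      x6 := hs x6, y6 := hneg y6, x7 := hneg x7, y7 := hneg y7
      chx := hPx m, chy := hPy m }
  have hD : ∀ m, Dir (P m) := fun m =>
    { d0 := by change 0 ≤ -1 / 2 * (w0 0 + 1) + √3 / 2 * (w0 1 - 1); linarith
      d1 := d1
      d2 := by change 0 ≤ 1 / 2 * (w2 0 - 1) - √3 / 2 * (w2 1 + 1); linarith
      d3 := by change 0 ≤ -1 / 2 * (w3 0 + 1) - √3 / 2 * (w3 1 + 1); linarith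
      d4 := by change 0 ≤ -(√3 / 2) * (w4 0 + 1) + 1 / 2 * (w4 1 - 1); linarith
      d5 := d5
      d6 := by change 0 ≤ √3 / 2 * (w6 0 - 1) - 1 / 2 * (w6 1 + 1); linarith
      d7 := by change 0 ≤ -(√3 / 2) * (w7 0 + 1) - 1 / 2 * (w7 1 + 1); linarith
      dc := fun k => qd k }
  have hx8 := abs_le.1 x8
  have hy8 := abs_le.1 y8
  have hlow : ∀ m, ENNReal.ofReal (2 + 2 * √3 + ∑ k ∈ Finset.range m, el k
      + (wx m * (w8 0 - cx m) + wy m * (w8 1 - cy m))) ≤ μH[1] K := by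
    intro m
    refine lower_m hK hc (P m) (hPK m) (hN m) (hD m) ?_
    change wx m * (w8 0 - cx m) + wy m * (w8 1 - cy m) ≤ 1 / 10
    have a1 := wx_bd m
    have a2 := wy_bd m
    have a3 := ci_le
    have a4 := cx_ge m
    have a5 := cy_ge m
    have b1 : w8 0 - cx m ≤ 3 / 50 := by linarith
    have b2 : w8 1 - cy m ≤ 3 / 50 := by linarith
    have b3 := mul_le_mul_of_nonneg_left b1 (wx_pos m).le
    have b4 := mul_le_mul_of_nonneg_left b2 (wy_pos m).le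
    linarith [a1.2, a2.2]
  have hlim : Tendsto (fun m => 2 + 2 * √3 + ∑ k ∈ Finset.range m, el k
      + (wx m * (w8 0 - cx m) + wy m * (w8 1 - cy m))) atTop
      (𝓝 (2 + 2 * √3 + 1 / 20 + (40 / 41 * (w8 0 - ci 0) + 9 / 41 * (w8 1 - ci 1)))) := by
    have t1 : Tendsto (fun m => ∑ k ∈ Finset.range m, el k) atTop (𝓝 (1 / 20)) := by
      have h : Tendsto (fun m : ℕ => 1 / 20 - 1 / 20 * (1 / 2 : ℝ) ^ m) atTop
          (𝓝 (1 / 20 - 1 / 20 * 0)) :=
        ((tendsto_pow_atTop_nhds_zero_of_lt_one (by norm_num) (by norm_num)).const_mul _).const_sub _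
      rw [mul_zero, sub_zero] at h
      refine h.congr fun m => ?_
      rw [el_sum]
    exact (t1.const_add _).add ((tendsto_wx.mul (tendsto_cx.const_sub _)).add
      (tendsto_wy.mul (tendsto_cy.const_sub _)))
  have hfin := le_of_tendsto' ((ENNReal.continuous_ofReal.tendsto _).comp hlim) hlow
  refine le_trans (ENNReal.ofReal_le_ofReal ?_) hfin
  linarith

/-- Steiner minimality. -/
theorem steiner {K : Set E2} (hK : IsCompact K) (hc : IsConnected K) (h : AA ⊆ K) :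
    ENNReal.ofReal (2 + 2 * √3 + 1 / 20) ≤ μH[1] K := by
  refine lower_of hK hc fun s hs v0 v1 => ⟨s, h hs, ?_, ?_, ?_⟩
  · simp
  · simp
  · simp

theorem AA_sub (S : Set E2) (h : ∀ sx sy : ℝ, (sx = 1 ∨ sx = -1) → (sy = 1 ∨ sy = -1) →
    (!₂[sx, sy] : E2) ∈ S) : AA ⊆ S ∪ Ch := by
  rintro x ((rfl | rfl | hx) | (rfl | ⟨n, rfl⟩))
  · exact Or.inl (h _ _ (Or.inr rfl) (Or.inl rfl))
  · exact Or.inl (h _ _ (Or.inl rfl) (Or.inr rfl))
  · rw [Set.mem_singleton_iff] at hx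
    rw [hx]
    exact Or.inl (h _ _ (Or.inr rfl) (Or.inr rfl))
  · exact Or.inr ci_mem
  · exact Or.inr (c_mem n)

theorem AA_TA : AA ⊆ TA := AA_sub SA corner_SA
theorem AA_TB : AA ⊆ TB := AA_sub SB corner_SB

/-- the compact set `M` -/
noncomputable def MM : Set E2 := {y | infDist y TA ≤ 1 / 200}

theorem MM_compact : IsCompact MM := by
  apply Metric.isCompact_of_isClosed_isBounded
  · exact isClosed_le (continuous_infDist_pt _) continuous_const
  · have h : MM ⊆ cthickening (1 / 200) TA := by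
      intro x hx
      obtain ⟨w, hw, hd⟩ := TA_compact.exists_infDist_eq_dist TA_conn.nonempty x
      exact mem_cthickening_of_dist_le x w _ TA hw (hd ▸ hx)
    exact TA_compact.isBounded.cthickening.subset h

theorem rmin {K : Set E2} (hK : IsCompact K) (hc : IsConnected K)
    (h : ∀ y ∈ MM, infDist y K ≤ 1 / 200) :
    ENNReal.ofReal (2 + 2 * √3 + 1 / 20) ≤ μH[1] K := by
  refine lower_of hK hc fun s hs v0 v1 => ?_
  -- the unit vector
  set R := √(v0 ^ 2 + v1 ^ 2) with hR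
  have hR0 : 0 ≤ R := Real.sqrt_nonneg _
  have hR2 : R ^ 2 = v0 ^ 2 + v1 ^ 2 := Real.sq_sqrt (by positivity)
  obtain ⟨n0, n1, hn, e0, e1⟩ : ∃ n0 n1 : ℝ, n0 ^ 2 + n1 ^ 2 = 1 ∧ v0 = R * n0 ∧ v1 = R * n1 := by
    rcases eq_or_lt_of_le hR0 with h0 | h0
    · rw [← h0] at hR2
      have a0 : v0 = 0 := by nlinarith [sq_nonneg v0, sq_nonneg v1]
      have a1 : v1 = 0 := by nlinarith [sq_nonneg v0, sq_nonneg v1]
      exact ⟨1, 0, by norm_num, by rw [← h0, a0]; ring, by rw [← h0, a1]; ring⟩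
    · refine ⟨v0 / R, v1 / R, ?_, ?_, ?_⟩
      · field_simp
        linarith
      · field_simp
      · field_simp
  let y : E2 := !₂[s 0 + 1 / 200 * n0, s 1 + 1 / 200 * n1]
  have hy0 : y 0 = s 0 + 1 / 200 * n0 := rfl
  have hy1 : y 1 = s 1 + 1 / 200 * n1 := rfl
  have hys : dist y s = 1 / 200 := by
    rw [EuclideanSpace.dist_eq]
    simp only [Fin.sum_univ_two, Real.dist_eq, sq_abs, hy0, hy1]
    have e : (s 0 + 1 / 200 * n0 - s 0) ^ 2 + (s 1 + 1 / 200 * n1 - s 1) ^ 2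
        = (1 / 200) ^ 2 * (n0 ^ 2 + n1 ^ 2) := by ring
    rw [e, hn, mul_one, Real.sqrt_sq (by norm_num)]
  have hyM : y ∈ MM := (infDist_le_dist_of_mem (AA_TA hs)).trans hys.le
  obtain ⟨w, hw, hd⟩ := hK.exists_infDist_eq_dist hc.nonempty y
  have hd' : dist y w ≤ 1 / 200 := hd ▸ h y hyM
  have hws : dist w s ≤ 1 / 100 := by
    have := dist_triangle w y s
    rw [dist_comm w y] at this
    linarith
  refine ⟨w, hw, (coord_le w s 0).trans hws, (coord_le w s 1).trans hws, ?_⟩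
  rw [EuclideanSpace.dist_eq, Real.sqrt_le_left (by norm_num)] at hd'
  simp only [Fin.sum_univ_two, Real.dist_eq, sq_abs, hy0, hy1] at hd'
  have hnn : 0 ≤ n0 * (w 0 - s 0) + n1 * (w 1 - s 1) := by
    nlinarith [sq_nonneg (w 0 - s 0), sq_nonneg (w 1 - s 1)]
  have e : v0 * (w 0 - s 0) + v1 * (w 1 - s 1) = R * (n0 * (w 0 - s 0) + n1 * (w 1 - s 1)) := by
    rw [e0, e1]; ring
  rw [e]
  exact mul_nonneg hR0 hnn

theorem AA_compact : IsCompact AA := by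
  unfold AA
  apply IsCompact.union
  · exact (Set.Finite.insert _ (Set.Finite.insert _ (Set.finite_singleton _))).isCompact
  · exact tendsto_c.isCompact_insert_range

theorem AA_countable : AA.Countable := by
  unfold AA
  apply Set.Countable.union
  · exact ((Set.finite_singleton _).insert _ |>.insert _).countable
  · exact (Set.countable_range c).insert _

theorem c_inj : Function.Injective c := by
  intro a b h
  have : cx a = cx b := by rw [← c_x, ← c_x, h]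
  exact cx_strict.injective this

theorem AA_infinite : ¬ AA.Finite := by
  apply Set.infinite_of_injective_forall_mem c_inj
  intro n
  exact Or.inr (Or.inr ⟨n, rfl⟩)

end Pool.Agent.Q154.DD
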