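import Mathlib
import Pool.Agent.Q154.DDMain

set_option autoImplicit false

namespace Pool.Agent.Q154.DD

open scoped ENNReal NNReal Topology
open MeasureTheory Metric Pool.Agent.Helper752 Filter

theorem no_seg {S : Set E2} {a : E2} (ρ : ℝ) (hρ : 0 < ρ) (f0 f1 : ℝ)
    (h : ∀ p ∈ S, dist p a < ρ → p ≠ a → 0 < f0 * (p 0 - a 0) + f1 * (p 1 - a 1)) :
    ¬ ∃ x y : E2, x ≠ y ∧ segment ℝ x y ⊆ S ∧ a ∈ openSegment ℝ x y := by
  rintro ⟨x, y, hxy, hS, s, t, hs, ht, hst, rfl⟩
  have hd : 0 < ‖y - x‖ := norm_pos_iff.2 (sub_ne_zero.2 hxy.symm)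
  obtain ⟨ε, hε0, hε1, hε2, hε3⟩ : ∃ ε : ℝ, 0 < ε ∧ ε ≤ s ∧ ε ≤ t ∧ ε * ‖y - x‖ < ρ := by
    refine ⟨min (min s t) (ρ / (2 * ‖y - x‖)), by positivity, ?_, ?_, ?_⟩
    · exact (min_le_left _ _).trans (min_le_left _ _)
    · exact (min_le_left _ _).trans (min_le_right _ _)
    · calc min (min s t) (ρ / (2 * ‖y - x‖)) * ‖y - x‖ ≤ ρ / (2 * ‖y - x‖) * ‖y - x‖ :=
            mul_le_mul_of_nonneg_right (min_le_right _ _) hd.le
        _ = ρ / 2 := by field_simp
        _ < ρ := by linarith
  have key : ∀ η : ℝ, |η| = ε → 0 < f0 * (η * (y 0 - x 0)) + f1 * (η * (y 1 - x 1)) := by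
    intro η hη
    have hη' := abs_le.1 hη.le
    have e : (s • x + t • y) + η • (y - x) = (s - η) • x + (t + η) • y := by
      rw [smul_sub, sub_smul, add_smul]; abel
    have hmem : (s • x + t • y) + η • (y - x) ∈ S := by
      rw [e]
      exact hS ⟨s - η, t + η, by linarith, by linarith, by linarith, rfl⟩
    have hdist : dist ((s • x + t • y) + η • (y - x)) (s • x + t • y) < ρ := by
      rw [dist_eq_norm, add_sub_cancel_left, norm_smul, Real.norm_eq_abs, hη]
      exact hε3
    have hne : (s • x + t • y) + η • (y - x) ≠ s • x + t • y := by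
      intro h'
      rw [add_eq_left, smul_eq_zero] at h'
      rcases h' with h' | h'
      · rw [h', abs_zero] at hη; linarith
      · exact hxy (sub_eq_zero.1 h').symm
    have := h _ hmem hdist hne
    simpa using this
  have h1 := key ε (abs_of_pos hε0)
  have h2 := key (-ε) (by rw [abs_neg, abs_of_pos hε0])
  linarith

theorem seg_coord {a b p : E2} (hp : p ∈ segment ℝ a b) :
    ∃ s t : ℝ, 0 ≤ s ∧ 0 ≤ t ∧ s + t = 1 ∧ p = s • a + t • b ∧ p 0 = s * a 0 + t * b 0 ∧
      p 1 = s * a 1 + t * b 1 := by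
  obtain ⟨s, t, hs, ht, hst, rfl⟩ := hp
  exact ⟨s, t, hs, ht, hst, rfl, by simp, by simp⟩

theorem wx_mono : StrictMono wx := strictMono_nat_of_lt_succ wx_lt
theorem wy_anti : StrictAnti wy := strictAnti_nat_of_succ_lt wy_lt

theorem chain_pos (f0 f1 : ℝ) (N : ℕ)
    (h : ∀ n, n ≠ N → 0 < f0 * (cx n - cx N) + f1 * (cy n - cy N))
    (hci : 0 < f0 * (ci 0 - cx N) + f1 * (ci 1 - cy N)) :
    ∀ p ∈ Ch, p ≠ c N → 0 < f0 * (p 0 - cx N) + f1 * (p 1 - cy N) := by
  rintro p (hp | hp) hne
  · obtain ⟨n, hn⟩ := Set.mem_iUnion.1 hp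
    obtain ⟨s, t, hs, ht, hst, he, h0, h1⟩ := seg_coord hn
    rw [c_x, c_x] at h0
    rw [c_y, c_y] at h1
    have e : f0 * (p 0 - cx N) + f1 * (p 1 - cy N)
        = s * (f0 * (cx n - cx N) + f1 * (cy n - cy N))
          + t * (f0 * (cx (n + 1) - cx N) + f1 * (cy (n + 1) - cy N)) := by
      rw [h0, h1]
      linear_combination (f0 * cx N + f1 * cy N) * hst
    rw [e]
    by_cases h1 : n = N
    · subst h1
      have h2 := h (n + 1) (by omega)
      have ht' : 0 < t := by
        rcases eq_or_lt_of_le ht with h' | h'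
        · exfalso
          apply hne
          have : s = 1 := by linarith
          rw [he, this, ← h']
          simp
        · exact h'
      have e2 : f0 * (cx n - cx n) + f1 * (cy n - cy n) = 0 := by ring
      rw [e2]
      have := mul_pos ht' h2
      linarith
    · have h2 := h n h1
      by_cases h3 : n + 1 = N
      · subst h3
        have hs' : 0 < s := by
          rcases eq_or_lt_of_le hs with h' | h'
          · exfalso
            apply hne
            have : t = 1 := by linarith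
            rw [he, this, ← h']
            simp
          · exact h'
        have e2 : f0 * (cx (n + 1) - cx (n + 1)) + f1 * (cy (n + 1) - cy (n + 1)) = 0 := by ring
        rw [e2]
        have := mul_pos hs' h2
        linarith
      · have h4 := h (n + 1) h3
        rcases eq_or_lt_of_le hs with h' | h'
        · have : t = 1 := by linarith
          rw [← h', this]
          linarith
        · have := mul_pos h' h2
          have := mul_nonneg ht h4.le
          linarith
  · rw [Set.mem_singleton_iff] at hp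
    rw [hp]
    exact hci

theorem dot_pos {n N : ℕ} (h : N + 1 ≤ n) :
    0 < (wx (N + 1) - wx N) * wx n + (wy (N + 1) - wy N) * wy n := by
  have h1 := wx_lt N
  have h2 := wy_lt N
  have h3 := wx_mono.monotone h
  have h4 := wy_anti.antitone h
  have u1 := w_unit n
  have u2 := w_unit N
  have u3 := w_unit (N + 1)
  nlinarith [mul_nonneg (sub_nonneg.2 h3) (sub_pos.2 h1).le,
    mul_nonneg (sub_nonneg.2 h4) (sub_pos.2 h2).le, mul_pos (sub_pos.2 h1) (sub_pos.2 h1),
    mul_pos (sub_pos.2 h2) (sub_pos.2 h2)]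

theorem dot_neg {n N : ℕ} (h : n ≤ N) :
    (wx (N + 1) - wx N) * wx n + (wy (N + 1) - wy N) * wy n < 0 := by
  have h1 := wx_lt N
  have h2 := wy_lt N
  have h3 := wx_mono.monotone h
  have h4 := wy_anti.antitone h
  have u1 := w_unit n
  have u2 := w_unit N
  have u3 := w_unit (N + 1)
  nlinarith [mul_nonneg (sub_nonneg.2 h3) (sub_pos.2 h1).le,
    mul_nonneg (sub_nonneg.2 h4) (sub_pos.2 h2).le, mul_pos (sub_pos.2 h1) (sub_pos.2 h1),
    mul_pos (sub_pos.2 h2) (sub_pos.2 h2)]

/-- the values of the functional at the vertices -/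
noncomputable def gg (N n : ℕ) : ℝ :=
  (wx (N + 1) - wx N) * (cx n - cx (N + 1)) + (wy (N + 1) - wy N) * (cy n - cy (N + 1))

theorem gg_succ (N n : ℕ) : gg N (n + 1) = gg N n
    + el n * ((wx (N + 1) - wx N) * wx n + (wy (N + 1) - wy N) * wy n) := by
  unfold gg
  rw [cx_succ n, cy_succ n]
  ring

theorem gg_self (N : ℕ) : gg N (N + 1) = 0 := by unfold gg; ring

theorem gg_right (N k : ℕ) : 0 < gg N (N + 1 + (k + 1)) := by
  induction k with
  | zero =>
    have e : N + 1 + (0 + 1) = (N + 1) + 1 := by omega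
    rw [e, gg_succ, gg_self]
    have := mul_pos (el_pos (N + 1)) (dot_pos (le_refl (N + 1)))
    linarith
  | succ k ih =>
    rw [← add_assoc, gg_succ]
    have := mul_pos (el_pos (N + 1 + (k + 1))) (dot_pos (n := N + 1 + (k + 1)) (N := N) (by omega))
    linarith

theorem gg_left (N k : ℕ) : ∀ n, n + (k + 1) = N + 1 → 0 < gg N n := by
  induction k with
  | zero =>
    intro n hn
    have h1 : gg N (n + 1) = 0 := by
      rw [zero_add] at hn
      rw [hn, gg_self]
    rw [gg_succ] at h1
    have := mul_pos (el_pos n) (neg_pos.2 (dot_neg (n := n) (N := N) (by omega)))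
    linarith
  | succ k ih =>
    intro n hn
    have h1 := ih (n + 1) (by omega)
    rw [gg_succ] at h1
    have := mul_pos (el_pos n) (neg_pos.2 (dot_neg (n := n) (N := N) (by omega)))
    linarith

theorem gg_pos (N n : ℕ) (h : n ≠ N + 1) : 0 < gg N n := by
  rcases lt_or_gt_of_ne h with h' | h'
  · exact gg_left N (N - n) n (by omega)
  · obtain ⟨k, rfl⟩ := Nat.exists_eq_add_of_lt h'
    exact gg_right N k

theorem gg_ci (N : ℕ) : 0 < (wx (N + 1) - wx N) * (ci 0 - cx (N + 1))
    + (wy (N + 1) - wy N) * (ci 1 - cy (N + 1)) := by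
  have ht : Tendsto (gg N) atTop (𝓝 ((wx (N + 1) - wx N) * (ci 0 - cx (N + 1))
      + (wy (N + 1) - wy N) * (ci 1 - cy (N + 1)))) :=
    ((tendsto_cx.sub_const _).const_mul _).add ((tendsto_cy.sub_const _).const_mul _)
  have h1 : ∀ k, gg N (N + 1 + 1) ≤ gg N (N + 1 + 1 + k) := by
    intro k
    induction k with
    | zero => simp
    | succ k ih =>
      have e : gg N (N + 1 + 1 + (k + 1)) = _ := gg_succ N (N + 1 + 1 + k)
      rw [e]
      have := mul_pos (el_pos (N + 1 + 1 + k)) (dot_pos (n := N + 1 + 1 + k) (N := N) (by omega))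
      linarith
  have h2 : gg N (N + 1 + 1) ≤ _ := ge_of_tendsto ht (by
    filter_upwards [eventually_ge_atTop (N + 1 + 1)] with n hn
    obtain ⟨k, rfl⟩ := Nat.exists_eq_add_of_le hn
    exact h1 k)
  have h3 := gg_right N 0
  rw [zero_add] at h3
  linarith

theorem Ch_x {p : E2} (hp : p ∈ Ch) : 1 ≤ p 0 ∧ 1 ≤ p 1 ∧ p 0 ≤ 1 + 1 / 20 ∧ p 1 ≤ 1 + 1 / 20 := by
  have h := ci_le
  rcases hp with hp | hp
  · obtain ⟨n, hn⟩ := Set.mem_iUnion.1 hp
    obtain ⟨s, t, hs, ht, hst, he, h0, h1⟩ := seg_coord hn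
    rw [c_x, c_x] at h0
    rw [c_y, c_y] at h1
    have a1 := cx_ge n
    have a2 := cx_ge (n + 1)
    have a3 := cy_ge n
    have a4 := cy_ge (n + 1)
    have b1 := cx_lt_ci n
    have b2 := cx_lt_ci (n + 1)
    have b3 := cy_lt_ci n
    have b4 := cy_lt_ci (n + 1)
    have e : t = 1 - s := by linarith
    subst e
    rw [h0, h1]
    refine ⟨?_, ?_, ?_, ?_⟩ <;> nlinarith
  · rw [Set.mem_singleton_iff] at hp
    rw [hp]
    have h1 := cx_lt_ci 0
    have h2 := cy_lt_ci 0
    rw [cx_zero] at h1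
    rw [cy_zero] at h2
    exact ⟨h1.le, h2.le, h.1, h.2⟩

theorem SA_box {p : E2} (hp : p ∈ SA) : -1 ≤ p 0 ∧ p 0 ≤ 1 ∧ -1 ≤ p 1 ∧ p 1 ≤ 1 := by
  have h1 := sq3b
  have h2 := sq3_lt
  rcases hp with (((hp | hp) | hp) | hp) | hp <;>
  · obtain ⟨s, t, hs, ht, hst, he, h3, h4⟩ := seg_coord hp
    simp at h3 h4
    have e : t = 1 - s := by linarith
    subst e
    rw [h3, h4]
    refine ⟨?_, ?_, ?_, ?_⟩ <;> nlinarith

/-- The corner `z`. -/
theorem SA_near {p : E2} (hp : p ∈ SA) (hd : dist p !₂[1, 1] < 1 / 2) (hne : p ≠ !₂[1, 1]) :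
    p 1 < p 0 := by
  have h1 := sq3b
  have h2 := sq3_lt
  have hx := (abs_le.1 ((coord_le p !₂[1, 1] 0).trans hd.le)).1
  have hy := (abs_le.1 ((coord_le p !₂[1, 1] 1).trans hd.le)).1
  have hx' : -(1 / 2) ≤ p 0 - 1 := hx
  have hy' : -(1 / 2) ≤ p 1 - 1 := hy
  rcases hp with (((hp | hp) | hp) | hp) | hp
  · obtain ⟨s, t, hs, ht, hst, he, h3, h4⟩ := seg_coord hp
    simp at h3 h4
    nlinarith
  · obtain ⟨s, t, hs, ht, hst, he, h3, h4⟩ := seg_coord hp
    simp at h3 h4
    nlinarith
  · obtain ⟨s, t, hs, ht, hst, he, h3, h4⟩ := seg_coord hp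
    simp at h3 h4
    linarith
  · obtain ⟨s, t, hs, ht, hst, he, h3, h4⟩ := seg_coord hp
    simp at h3 h4
    rw [h3, h4]
    rcases eq_or_lt_of_le hs with h' | h'
    · exfalso
      apply hne
      have : t = 1 := by linarith
      rw [he, this, ← h']
      simp
    · nlinarith
  · obtain ⟨s, t, hs, ht, hst, he, h3, h4⟩ := seg_coord hp
    simp at h3 h4
    linarith

theorem ext2 {p : E2} {a b : ℝ} (h0 : p 0 = a) (h1 : p 1 = b) : p = !₂[a, b] := by
  ext i
  fin_cases i
  · exact h0
  · exact h1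

theorem corner_cond (a : E2) (ha : a ∈ AA) :
    ¬ ∃ x y : E2, x ≠ y ∧ segment ℝ x y ⊆ TA ∧ a ∈ openSegment ℝ x y := by
  rcases ha with (rfl | rfl | ha) | (rfl | ⟨n, rfl⟩)
  · refine no_seg 1 one_pos 1 (-1) ?_
    intro p hp _ hne
    change 0 < 1 * (p 0 - -1) + (-1) * (p 1 - 1)
    rcases hp with hp | hp
    · obtain ⟨b1, b2, b3, b4⟩ := SA_box hp
      by_contra hcon
      exact hne (ext2 (by linarith) (by linarith))
    · obtain ⟨b1, b2, b3, b4⟩ := Ch_x hp
      linarith
  · refine no_seg 1 one_pos (-1) 1 ?_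
    intro p hp _ hne
    change 0 < (-1) * (p 0 - 1) + 1 * (p 1 - -1)
    rcases hp with hp | hp
    · obtain ⟨b1, b2, b3, b4⟩ := SA_box hp
      by_contra hcon
      exact hne (ext2 (by linarith) (by linarith))
    · obtain ⟨b1, b2, b3, b4⟩ := Ch_x hp
      linarith
  · rw [Set.mem_singleton_iff] at ha
    subst ha
    refine no_seg 1 one_pos 1 1 ?_
    intro p hp _ hne
    change 0 < 1 * (p 0 - -1) + 1 * (p 1 - -1)
    rcases hp with hp | hp
    · obtain ⟨b1, b2, b3, b4⟩ := SA_box hp
      by_contra hcon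
      exact hne (ext2 (by linarith) (by linarith))
    · obtain ⟨b1, b2, b3, b4⟩ := Ch_x hp
      linarith
  · have h1 := cx_lt_ci 0
    rw [cx_zero] at h1
    refine no_seg (ci 0 - 1) (by linarith) (-1) (-1) ?_
    intro p hp hd hne
    rcases hp with hp | hp
    · exfalso
      have := (abs_le.1 (coord_le p ci 0)).1
      have h2 := (SA_box hp).2.1
      linarith
    · rcases hp with hp | hp
      · obtain ⟨n, hn⟩ := Set.mem_iUnion.1 hp
        obtain ⟨s, t, hs, ht, hst, he, h0, h1⟩ := seg_coord hn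
        rw [c_x, c_x] at h0
        rw [c_y, c_y] at h1
        have b1 := cx_lt_ci n
        have b2 := cx_lt_ci (n + 1)
        have b3 := cy_lt_ci n
        have b4 := cy_lt_ci (n + 1)
        have g1 : 0 < (ci 0 - cx n) + (ci 1 - cy n) := by linarith
        have g2 : 0 < (ci 0 - cx (n + 1)) + (ci 1 - cy (n + 1)) := by linarith
        have e : -1 * (p 0 - ci 0) + -1 * (p 1 - ci 1) = s * ((ci 0 - cx n) + (ci 1 - cy n))
            + t * ((ci 0 - cx (n + 1)) + (ci 1 - cy (n + 1))) := by
          rw [h0, h1]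
          linear_combination (-(ci 0 + ci 1)) * hst
        rw [e]
        rcases eq_or_lt_of_le hs with h' | h'
        · have : t = 1 := by linarith
          rw [← h', this]
          linarith
        · have := mul_pos h' g1
          have := mul_nonneg ht g2.le
          linarith
      · exact absurd hp hne
  · rcases n with _ | N
    · rw [c_zero]
      refine no_seg (1 / 2) (by norm_num) 1 (-1) ?_
      intro p hp hd hne
      change 0 < 1 * (p 0 - 1) + (-1) * (p 1 - 1)
      rcases hp with hp | hp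
      · have := SA_near hp hd hne
        linarith
      · have hmono : StrictMono (fun n => cx n - cy n) := strictMono_nat_of_lt_succ fun n => by
          rw [cx_succ, cy_succ]
          have h1 := wx_bd n
          have h2 := wy_bd n
          have := mul_pos (el_pos n) (show 0 < wx n - wy n by linarith [h1.1, h2.2])
          linarith
        have h1 := chain_pos 1 (-1) 0 (fun n hn => by
          have := hmono (Nat.pos_of_ne_zero hn)
          simp only at this
          linarith) (by
          have ht : Tendsto (fun n => cx n - cy n) atTop (𝓝 (ci 0 - ci 1)) :=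
            tendsto_cx.sub tendsto_cy
          have h2 := hmono.monotone.ge_of_tendsto ht 1
          have h3 := hmono (show 0 < 1 by norm_num)
          simp only at h2 h3
          linarith) p hp (by rw [c_zero]; exact hne)
        rw [cx_zero, cy_zero] at h1
        exact h1
    · have h1 : 1 < cx (N + 1) := by
        have := cx_strict (Nat.succ_pos N)
        rwa [cx_zero] at this
      refine no_seg (cx (N + 1) - 1) (by linarith) (wx (N + 1) - wx N) (wy (N + 1) - wy N) ?_
      intro p hp hd hne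
      rw [c_x, c_y]
      rcases hp with hp | hp
      · exfalso
        have := (abs_le.1 (coord_le p (c (N + 1)) 0)).1
        rw [c_x] at this
        have h2 := (SA_box hp).2.1
        linarith
      · exact chain_pos _ _ (N + 1) (fun n hn => gg_pos N n hn) (gg_ci N) p hp hne

theorem TA_ne_TB : TA ≠ TB := by
  have h1 := sq3b
  have h2 := sq3_lt
  intro h
  have hmem : (!₂[-(1 - √3 / 3), 0] : E2) ∈ TA :=
    Or.inl (Or.inl (Or.inl (Or.inl (Or.inl (right_mem_segment ℝ _ _)))))
  rw [h] at hmem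
  rcases hmem with hp | hp
  · rcases hp with (((hp | hp) | hp) | hp) | hp <;>
    · obtain ⟨s, t, hs, ht, hst, he, h3, h4⟩ := seg_coord hp
      simp at h3 h4
      nlinarith
  · have := (Ch_x hp).2.1
    simp at this
    linarith

end Pool.Agent.Q154.DD
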