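import Mathlib

set_option autoImplicit false

/-!
The iterated negative type inequality for maps of the discrete torus into a Hilbert space.
-/

namespace Pool.Agent.Q154.EqH

open Finset

variable {H : Type*} [NormedAddCommGroup H] [InnerProductSpace ℝ H]

/-- expansion of a double sum of squared distances -/
theorem sum_dist {Ω : Type*} [Fintype Ω] (g k : Ω → H) :
    ∑ a, ∑ b, ‖g a - k b‖ ^ 2 = Fintype.card Ω * ∑ a, ‖g a‖ ^ 2 + Fintype.card Ω * ∑ a, ‖k a‖ ^ 2
      - 2 * inner ℝ (∑ a, g a) (∑ b, k b) := by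
  have h1 : ∀ a b, ‖g a - k b‖ ^ 2 = ‖g a‖ ^ 2 - 2 * inner ℝ (g a) (k b) + ‖k b‖ ^ 2 := fun a b =>
    norm_sub_sq_real _ _
  simp only [h1, sum_add_distrib, sum_sub_distrib, sum_const, card_univ, nsmul_eq_mul, ← mul_sum]
  rw [sum_inner]
  simp only [inner_sum]
  ring

/-- The negative type inequality. -/
theorem neg_type {Ω : Type*} [Fintype Ω] (g k : Ω → H) :
    ∑ a, ∑ b, ‖g a - g b‖ ^ 2 + ∑ a, ∑ b, ‖k a - k b‖ ^ 2 ≤ 2 * ∑ a, ∑ b, ‖g a - k b‖ ^ 2 := by
  rw [sum_dist, sum_dist, sum_dist]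
  have h := norm_sub_sq_real (∑ a, g a) (∑ b, k b)
  have h1 := sq_nonneg ‖∑ a, g a - ∑ b, k b‖
  rw [real_inner_self_eq_norm_sq, real_inner_self_eq_norm_sq]
  linarith

section torus

variable {ι : Type} [Fintype ι] [DecidableEq ι] {m : ℕ} [NeZero m]

/-- The increment given by the letters `ω` on the coordinates in `S`. -/
def V {A : Type} (a : A → ℤ) (S : Finset ι) (ω : ι → A) : ι → ZMod m :=
  fun i => if i ∈ S then ((a (ω i) : ℤ) : ZMod m) else 0

/-- The total squared increment. -/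
noncomputable def T {A : Type} [Fintype A] (a : A → ℤ) (h : (ι → ZMod m) → H) (S : Finset ι) : ℝ :=
  ∑ ω : ι → A, ∑ x : ι → ZMod m, ‖h (x + V a S ω) - h x‖ ^ 2

theorem shift (h : (ι → ZMod m) → H) (u v : ι → ZMod m) :
    ∑ x : ι → ZMod m, ‖h (x + u) - h (x + v)‖ ^ 2 = ∑ x : ι → ZMod m, ‖h (x + (u - v)) - h x‖ ^ 2 := by
  rw [← Equiv.sum_comp (Equiv.addRight v) (fun x => ‖h (x + (u - v)) - h x‖ ^ 2)]
  refine sum_congr rfl fun x _ => ?_
  simp only [Equiv.coe_addRight]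
  congr 4
  abel

/-- swapping the coordinates in `S` of a pair of letter functions -/
def swapS {A : Type} (S : Finset ι) : (ι → A) × (ι → A) ≃ (ι → A) × (ι → A) where
  toFun p := (fun i => if i ∈ S then p.2 i else p.1 i, fun i => if i ∈ S then p.1 i else p.2 i)
  invFun p := (fun i => if i ∈ S then p.2 i else p.1 i, fun i => if i ∈ S then p.1 i else p.2 i)
  left_inv p := by
    ext i
    · by_cases h : i ∈ S <;> simp [h]
    · by_cases h : i ∈ S <;> simp [h]
  right_inv p := by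
    ext i
    · by_cases h : i ∈ S <;> simp [h]
    · by_cases h : i ∈ S <;> simp [h]

/-- The key inequality. -/
theorem key {A : Type} [Fintype A] (a : A → ℤ) (neg : A ≃ A) (hneg : ∀ p, a (neg p) = -a p)
    (h : (ι → ZMod m) → H) (S₁ S₂ : Finset ι) (hd : Disjoint S₁ S₂) :
    T (A := A × A) (fun p => a p.1 - a p.2) h S₁ + T (A := A × A) (fun p => a p.1 - a p.2) h S₂
      ≤ 2 * (Fintype.card (ι → A) * T a h (S₁ ∪ S₂)) := by
  classical
  -- the two terms on the left
  have hL : ∀ S : Finset ι, T (A := A × A) (fun p => a p.1 - a p.2) h S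
      = ∑ x : ι → ZMod m, ∑ ω : ι → A, ∑ ω' : ι → A,
        ‖h (x + V a S ω) - h (x + V a S ω')‖ ^ 2 := by
    intro S
    unfold T
    rw [← Equiv.sum_comp (Equiv.arrowProdEquivProdArrow ι (fun _ => A) (fun _ => A)).symm,
      Fintype.sum_prod_type]
    rw [Finset.sum_comm (s := (univ : Finset (ι → ZMod m)))]
    refine sum_congr rfl fun ω _ => ?_
    rw [Finset.sum_comm (s := (univ : Finset (ι → ZMod m)))]
    refine sum_congr rfl fun ω' _ => ?_
    rw [shift]
    refine sum_congr rfl fun x _ => ?_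
    congr 4
    ext i
    simp only [V, Pi.add_apply, Pi.sub_apply, Equiv.arrowProdEquivProdArrow]
    by_cases hi : i ∈ S
    · simp [hi]
    · simp [hi]
  -- the right hand side
  have hR : ∑ x : ι → ZMod m, ∑ ω : ι → A, ∑ ω' : ι → A,
        ‖h (x + V a S₁ ω) - h (x + V a S₂ ω')‖ ^ 2
      = Fintype.card (ι → A) * T a h (S₁ ∪ S₂) := by
    have e1 : ∑ x : ι → ZMod m, ∑ ω : ι → A, ∑ ω' : ι → A,
        ‖h (x + V a S₁ ω) - h (x + V a S₂ ω')‖ ^ 2
        = ∑ ω : ι → A, ∑ ω' : ι → A, ∑ x : ι → ZMod m,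
          ‖h (x + (V a S₁ ω - V a S₂ ω')) - h x‖ ^ 2 := by
      rw [Finset.sum_comm]
      refine sum_congr rfl fun ω _ => ?_
      rw [Finset.sum_comm]
      refine sum_congr rfl fun ω' _ => ?_
      rw [shift]
    have e2 : ∑ ω : ι → A, ∑ ω' : ι → A, ∑ x : ι → ZMod m,
          ‖h (x + (V a S₁ ω - V a S₂ ω')) - h x‖ ^ 2
        = ∑ ω : ι → A, ∑ ω' : ι → A, ∑ x : ι → ZMod m,
          ‖h (x + (V a S₁ ω + V a S₂ ω')) - h x‖ ^ 2 := by
      refine sum_congr rfl fun ω _ => ?_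
      rw [← Equiv.sum_comp (Equiv.arrowCongr (Equiv.refl ι) neg)]
      refine sum_congr rfl fun ω' _ => ?_
      refine sum_congr rfl fun x _ => ?_
      congr 4
      ext i
      simp only [V, Pi.add_apply, Pi.sub_apply, Equiv.arrowCongr_apply, Function.comp,
        Equiv.refl_symm, Equiv.refl_apply, hneg]
      by_cases hi : i ∈ S₂
      · simp [hi]
      · simp [hi]
    have e3 : ∑ ω : ι → A, ∑ ω' : ι → A, ∑ x : ι → ZMod m,
          ‖h (x + (V a S₁ ω + V a S₂ ω')) - h x‖ ^ 2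
        = ∑ ω : ι → A, ∑ _ω' : ι → A, ∑ x : ι → ZMod m,
          ‖h (x + V a (S₁ ∪ S₂) ω) - h x‖ ^ 2 := by
      rw [← Fintype.sum_prod_type' (f := fun ω ω' => ∑ x : ι → ZMod m,
          ‖h (x + (V a S₁ ω + V a S₂ ω')) - h x‖ ^ 2),
        ← Fintype.sum_prod_type' (f := fun ω _ => ∑ x : ι → ZMod m,
          ‖h (x + V a (S₁ ∪ S₂) ω) - h x‖ ^ 2)]
      rw [← Equiv.sum_comp (swapS S₂)]
      refine sum_congr rfl fun p _ => ?_
      refine sum_congr rfl fun x _ => ?_
      congr 4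
      ext i
      simp only [V, Pi.add_apply, swapS, Equiv.coe_fn_mk, mem_union]
      by_cases h2 : i ∈ S₂
      · have h1 : i ∉ S₁ := fun h' => Finset.disjoint_left.1 hd h' h2
        simp [h1, h2]
      · by_cases h1 : i ∈ S₁
        · simp [h1, h2]
        · simp [h1, h2]
    rw [e1, e2, e3]
    unfold T
    rw [mul_sum]
    refine sum_congr rfl fun ω _ => ?_
    rw [sum_const, card_univ, nsmul_eq_mul]
  rw [hL, hL, ← hR, ← sum_add_distrib, mul_sum]
  exact sum_le_sum fun x _ => neg_type _ _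

end torus

end Pool.Agent.Q154.EqH
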