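import Mathlib
import Pool.Agent.Q154.EqHTorus

set_option autoImplicit false

namespace Pool.Agent.Q154.EqH

open Finset

/-- iterated letters -/
def Lett : ℕ → Type
  | 0 => Bool
  | k + 1 => Lett k × Lett k

def fintypeLett : (k : ℕ) → Fintype (Lett k)
  | 0 => inferInstanceAs (Fintype Bool)
  | k + 1 => @instFintypeProd (Lett k) (Lett k) (fintypeLett k) (fintypeLett k)

instance (k : ℕ) : Fintype (Lett k) := fintypeLett k

def aL : (k : ℕ) → Lett k → ℤ
  | 0 => fun b : Bool => if b = true then 1 else -1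
  | k + 1 => fun p : Lett k × Lett k => aL k p.1 - aL k p.2

def negL : (k : ℕ) → (Lett k ≃ Lett k)
  | 0 => (Equiv.boolNot : Bool ≃ Bool)
  | k + 1 => (Equiv.prodComm (Lett k) (Lett k) : Lett k × Lett k ≃ Lett k × Lett k)

theorem aL_neg : ∀ (k : ℕ) (p : Lett k), aL k (negL k p) = -aL k p
  | 0 => fun b : Bool => by cases b <;> rfl
  | k + 1 => fun p : Lett k × Lett k => by
    change aL k p.2 - aL k p.1 = -(aL k p.1 - aL k p.2)
    ring

theorem exists_max : ∀ k : ℕ, ∃ p : Lett k, aL k p = 2 ^ k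
  | 0 => ⟨(true : Bool), rfl⟩
  | k + 1 => by
    obtain ⟨p, hp⟩ := exists_max k
    refine ⟨(p, negL k p), ?_⟩
    change aL k p - aL k (negL k p) = 2 ^ (k + 1)
    rw [aL_neg, hp]
    ring

instance (k : ℕ) : Nonempty (Lett k) := ⟨(exists_max k).choose⟩

theorem aL_zero (p : Lett 0) : aL 0 p = 1 ∨ aL 0 p = -1 := by
  revert p
  change ∀ b : Bool, _
  intro b
  cases b
  · right; rfl
  · left; rfl

variable {H : Type*} [NormedAddCommGroup H] [InnerProductSpace ℝ H]
variable {ι : Type} [Fintype ι] [DecidableEq ι] {m : ℕ} [NeZero m]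

/-- the normalised square increment -/
noncomputable def tk (k : ℕ) (h : (ι → ZMod m) → H) (S : Finset ι) : ℝ :=
  T (aL k) h S / (Fintype.card (ι → Lett k) * Fintype.card (ι → ZMod m))

theorem card_pos_aux (k : ℕ) : (0 : ℝ) < Fintype.card (ι → Lett k) := by
  exact_mod_cast Fintype.card_pos

theorem card_pos_aux' : (0 : ℝ) < Fintype.card (ι → ZMod m) := by
  exact_mod_cast Fintype.card_pos

theorem card_succ (k : ℕ) : (Fintype.card (ι → Lett (k + 1)) : ℝ)
    = Fintype.card (ι → Lett k) * Fintype.card (ι → Lett k) := by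
  have h : Fintype.card (ι → Lett (k + 1)) = Fintype.card (ι → Lett k) * Fintype.card (ι → Lett k) := by
    have h1 : Fintype.card (Lett (k + 1)) = Fintype.card (Lett k) * Fintype.card (Lett k) :=
      Fintype.card_prod (Lett k) (Lett k)
    rw [Fintype.card_fun, Fintype.card_fun, h1, mul_pow]
  exact_mod_cast h

theorem tk_step (k : ℕ) (h : (ι → ZMod m) → H) (S₁ S₂ : Finset ι) (hd : Disjoint S₁ S₂) :
    tk (k + 1) h S₁ + tk (k + 1) h S₂ ≤ 2 * tk k h (S₁ ∪ S₂) := by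
  have hk : T (aL (k + 1)) h S₁ + T (aL (k + 1)) h S₂
      ≤ 2 * (Fintype.card (ι → Lett k) * T (aL k) h (S₁ ∪ S₂)) :=
    key (aL k) (negL k) (aL_neg k) h S₁ S₂ hd
  unfold tk
  have p1 := card_pos_aux (ι := ι) k
  have p2 := card_pos_aux' (ι := ι) (m := m)
  rw [card_succ, ← add_div, div_le_iff₀ (by positivity)]
  refine hk.trans (le_of_eq ?_)
  field_simp

theorem descent (h : (ι → ZMod m) → H) (q : ℕ) : ∀ (j k : ℕ) (S : Finset ι),
    S.card = 2 ^ j * q → ∃ S' ⊆ S, S'.card = q ∧ tk (k + j) h S' ≤ tk k h S := by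
  intro j
  induction j with
  | zero =>
    intro k S hS
    exact ⟨S, Subset.rfl, by simpa using hS, le_rfl⟩
  | succ j ih =>
    intro k S hS
    obtain ⟨S₁, hS₁, hc₁⟩ := exists_subset_card_eq (s := S) (n := 2 ^ j * q) (by
      rw [hS, pow_succ]; nlinarith [Nat.zero_le (2 ^ j * q)])
    have hc₂ : (S \ S₁).card = 2 ^ j * q := by
      rw [card_sdiff_of_subset hS₁, hS, hc₁, pow_succ]
      have : 2 ^ j * 2 * q = 2 ^ j * q + 2 ^ j * q := by ring
      omega
    have hstep := tk_step k h S₁ (S \ S₁) disjoint_sdiff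
    rw [union_sdiff_of_subset hS₁] at hstep
    have e : k + (j + 1) = (k + 1) + j := by omega
    rw [e]
    rcases le_or_gt (tk (k + 1) h S₁) (tk k h S) with h1 | h1
    · obtain ⟨S', h2, h3, h4⟩ := ih (k + 1) S₁ hc₁
      exact ⟨S', h2.trans hS₁, h3, h4.trans h1⟩
    · obtain ⟨S', h2, h3, h4⟩ := ih (k + 1) (S \ S₁) hc₂
      exact ⟨S', h2.trans sdiff_subset, h3, h4.trans (by linarith)⟩

theorem tk_upper (h : (ι → ZMod m) → H) (S : Finset ι) (U : ℝ)
    (hU : ∀ x v : ι → ZMod m, (∀ i, v i = 0 ∨ v i = 1 ∨ v i = -1) → ‖h (x + v) - h x‖ ≤ U) :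
    tk 0 h S ≤ U ^ 2 := by
  have p1 := card_pos_aux (ι := ι) 0
  have p2 := card_pos_aux' (ι := ι) (m := m)
  unfold tk
  rw [div_le_iff₀ (by positivity)]
  unfold T
  have hb : ∀ ω : ι → Lett 0, ∀ x : ι → ZMod m, ‖h (x + V (aL 0) S ω) - h x‖ ^ 2 ≤ U ^ 2 := by
    intro ω x
    have h1 := hU x (V (aL 0) S ω) (fun i => by
      unfold V
      by_cases hi : i ∈ S
      · rw [if_pos hi]
        rcases aL_zero (ω i) with h' | h'
        · right; left; rw [h']; simp
        · right; right; rw [h']; simp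
      · left; rw [if_neg hi])
    exact pow_le_pow_left₀ (norm_nonneg _) h1 2
  calc ∑ ω : ι → Lett 0, ∑ x : ι → ZMod m, ‖h (x + V (aL 0) S ω) - h x‖ ^ 2
      ≤ ∑ _ω : ι → Lett 0, ∑ _x : ι → ZMod m, U ^ 2 :=
        sum_le_sum fun ω _ => sum_le_sum fun x _ => hb ω x
    _ = U ^ 2 * (Fintype.card (ι → Lett 0) * Fintype.card (ι → ZMod m)) := by
        rw [sum_const, sum_const, card_univ, card_univ, nsmul_eq_mul, nsmul_eq_mul]
        ring

/-- the words all of whose letters in `S` are not maximal -/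
theorem bad_card (k q : ℕ) (S : Finset ι) (hS : S.card = q)
    (hq : 2 * ((Fintype.card (Lett k) : ℝ) - 1) ^ q ≤ (Fintype.card (Lett k) : ℝ) ^ q) :
    2 * ((univ.filter fun ω : ι → Lett k => ∀ i ∈ S, aL k (ω i) ≠ 2 ^ k).card : ℝ)
      ≤ Fintype.card (ι → Lett k) := by
  classical
  obtain ⟨p, hp⟩ := exists_max k
  have hsub : (univ.filter fun ω : ι → Lett k => ∀ i ∈ S, aL k (ω i) ≠ 2 ^ k)
      ⊆ Fintype.piFinset (fun i => if i ∈ S then univ.erase p else univ) := by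
    intro ω hω
    rw [mem_filter] at hω
    rw [Fintype.mem_piFinset]
    intro i
    by_cases hi : i ∈ S
    · rw [if_pos hi, mem_erase]
      refine ⟨fun h' => ?_, mem_univ _⟩
      exact hω.2 i hi (by rw [h', hp])
    · rw [if_neg hi]; exact mem_univ _
  have h1 := card_le_card hsub
  rw [Fintype.card_piFinset] at h1
  have hN : 1 ≤ Fintype.card (Lett k) := Fintype.card_pos
  have h2 : ∏ i : ι, (if i ∈ S then univ.erase p else univ : Finset (Lett k)).card
      = (Fintype.card (Lett k) - 1) ^ q * Fintype.card (Lett k) ^ (Fintype.card ι - q) := by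
    have e : ∀ i : ι, (if i ∈ S then univ.erase p else univ : Finset (Lett k)).card
        = if i ∈ S then Fintype.card (Lett k) - 1 else Fintype.card (Lett k) := by
      intro i
      split_ifs
      · rw [card_erase_of_mem (mem_univ _), card_univ]
      · rw [card_univ]
    simp only [e]
    rw [prod_ite, prod_const, prod_const, filter_mem_eq_inter, univ_inter, hS]
    congr 2
    rw [filter_not, filter_mem_eq_inter, univ_inter, card_sdiff_of_subset (subset_univ _), hS,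
      card_univ]
  rw [h2] at h1
  have hqle : q ≤ Fintype.card ι := by rw [← hS, ← card_univ]; exact card_le_card (subset_univ _)
  have h3 : ((univ.filter fun ω : ι → Lett k => ∀ i ∈ S, aL k (ω i) ≠ 2 ^ k).card : ℝ)
      ≤ ((Fintype.card (Lett k) : ℝ) - 1) ^ q * (Fintype.card (Lett k) : ℝ) ^ (Fintype.card ι - q) := by
    have : (((Fintype.card (Lett k) - 1 : ℕ) : ℝ)) = (Fintype.card (Lett k) : ℝ) - 1 := by
      push_cast [hN]; ring
    rw [← this]
    exact_mod_cast h1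
  have h4 : (Fintype.card (ι → Lett k) : ℝ)
      = (Fintype.card (Lett k) : ℝ) ^ q * (Fintype.card (Lett k) : ℝ) ^ (Fintype.card ι - q) := by
    rw [← pow_add, Nat.add_sub_cancel' hqle, Fintype.card_fun]
    push_cast
    rfl
  rw [h4]
  have h5 : (0 : ℝ) ≤ (Fintype.card (Lett k) : ℝ) ^ (Fintype.card ι - q) := by positivity
  nlinarith [mul_le_mul_of_nonneg_right hq h5]

theorem tk_lower (k q : ℕ) (h : (ι → ZMod m) → H) (S : Finset ι) (hS : S.card = q)
    (hq : 2 * ((Fintype.card (Lett k) : ℝ) - 1) ^ q ≤ (Fintype.card (Lett k) : ℝ) ^ q)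
    (L : ℝ) (hL0 : 0 ≤ L)
    (hL : ∀ x v : ι → ZMod m, (∃ i, v i = ((2 ^ k : ℕ) : ZMod m)) → L ≤ ‖h (x + v) - h x‖) :
    L ^ 2 ≤ 2 * tk k h S := by
  classical
  have p1 := card_pos_aux (ι := ι) k
  have p2 := card_pos_aux' (ι := ι) (m := m)
  unfold tk
  rw [mul_div_assoc', le_div_iff₀ (by positivity)]
  have hbad := bad_card k q S hS hq
  set Bd := univ.filter fun ω : ι → Lett k => ∀ i ∈ S, aL k (ω i) ≠ 2 ^ k
  have hgood : ∀ ω ∈ univ \ Bd, (Fintype.card (ι → ZMod m) : ℝ) * L ^ 2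
      ≤ ∑ x : ι → ZMod m, ‖h (x + V (aL k) S ω) - h x‖ ^ 2 := by
    intro ω hω
    have h1 : ∃ i, V (m := m) (aL k) S ω i = ((2 ^ k : ℕ) : ZMod m) := by
      simp only [Bd, mem_sdiff, mem_univ, true_and, mem_filter, not_forall, not_not] at hω
      obtain ⟨i, hi, he⟩ := hω
      refine ⟨i, ?_⟩
      unfold V
      rw [if_pos hi, he]
      push_cast
      rfl
    calc (Fintype.card (ι → ZMod m) : ℝ) * L ^ 2 = ∑ _x : ι → ZMod m, L ^ 2 := by
          rw [sum_const, card_univ, nsmul_eq_mul]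
      _ ≤ _ := sum_le_sum fun x _ => pow_le_pow_left₀ hL0 (hL x _ h1) 2
  have h2 : ((univ \ Bd).card : ℝ) * ((Fintype.card (ι → ZMod m) : ℝ) * L ^ 2) ≤ T (aL k) h S := by
    unfold T
    calc ((univ \ Bd).card : ℝ) * ((Fintype.card (ι → ZMod m) : ℝ) * L ^ 2)
        = ∑ _ω ∈ univ \ Bd, (Fintype.card (ι → ZMod m) : ℝ) * L ^ 2 := by
          rw [sum_const, nsmul_eq_mul]
      _ ≤ ∑ ω ∈ univ \ Bd, ∑ x : ι → ZMod m, ‖h (x + V (aL k) S ω) - h x‖ ^ 2 :=
          sum_le_sum hgood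
      _ ≤ _ := sum_le_sum_of_subset_of_nonneg (subset_univ _) fun _ _ _ =>
          sum_nonneg fun _ _ => by positivity
  have h3 : ((univ \ Bd).card : ℝ) = Fintype.card (ι → Lett k) - Bd.card := by
    rw [card_sdiff_of_subset (subset_univ _), card_univ, Nat.cast_sub]
    rw [← card_univ]
    exact card_le_card (subset_univ _)
  rw [h3] at h2
  have h5 : 0 ≤ (Fintype.card (ι → ZMod m) : ℝ) * L ^ 2 := by positivity
  nlinarith [mul_le_mul_of_nonneg_right hbad h5]

theorem exists_q (k : ℕ) : ∃ q : ℕ,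
    2 * ((Fintype.card (Lett k) : ℝ) - 1) ^ q ≤ (Fintype.card (Lett k) : ℝ) ^ q := by
  have hN : (1 : ℝ) ≤ Fintype.card (Lett k) := by exact_mod_cast Fintype.card_pos
  set N : ℝ := (Fintype.card (Lett k) : ℝ)
  have h1 : (N - 1) / N < 1 := by
    rw [div_lt_one (by linarith)]; linarith
  obtain ⟨q, hq⟩ := exists_pow_lt_of_lt_one (show (0 : ℝ) < 1 / 2 by norm_num) h1
  refine ⟨q, ?_⟩
  rw [div_pow, div_lt_iff₀ (by positivity)] at hq
  linarith

/-- **Main estimate on the torus.** -/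
theorem torus_bound (k q : ℕ)
    (hq : 2 * ((Fintype.card (Lett k) : ℝ) - 1) ^ q ≤ (Fintype.card (Lett k) : ℝ) ^ q)
    (m : ℕ) [NeZero m] (h : (Fin (2 ^ k * q) → ZMod m) → H) (U L : ℝ) (hL0 : 0 ≤ L)
    (hU : ∀ x v : Fin (2 ^ k * q) → ZMod m, (∀ i, v i = 0 ∨ v i = 1 ∨ v i = -1) →
      ‖h (x + v) - h x‖ ≤ U)
    (hL : ∀ x v : Fin (2 ^ k * q) → ZMod m, (∃ i, v i = ((2 ^ k : ℕ) : ZMod m)) →
      L ≤ ‖h (x + v) - h x‖) :
    L ^ 2 ≤ 2 * U ^ 2 := by
  obtain ⟨S', -, h2, h3⟩ := descent h q k 0 (univ : Finset (Fin (2 ^ k * q))) (by simp)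
  have h4 := tk_lower (0 + k) q h S' h2 (by rw [zero_add]; exact hq) L hL0 (by
    rw [zero_add]; exact hL)
  have h5 := tk_upper h univ U hU
  linarith

end Pool.Agent.Q154.EqH
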