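import Mathlib
import Pool.Agent.Q154.EqHTorus2

set_option autoImplicit false

/-!
The metric fractal containing scaled copies of many discrete tori.
-/

namespace Pool.Agent.Q154.EqH

open Finset Topology Filter

/-- the dimension parameter -/
noncomputable def qq (k : ℕ) : ℕ := (exists_q k).choose

theorem qq_spec (k : ℕ) :
    2 * ((Fintype.card (Lett k) : ℝ) - 1) ^ qq k ≤ (Fintype.card (Lett k) : ℝ) ^ qq k :=
  (exists_q k).choose_spec

/-- the discrete torus -/
abbrev Tor (k : ℕ) : Type := Fin (2 ^ k * qq k) → ZMod (2 ^ (k + 2))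

instance (k : ℕ) : NeZero (2 ^ (k + 2)) := ⟨by positivity⟩

/-- the sup metric of the torus -/
noncomputable def dT (k : ℕ) (x y : Tor k) : ℕ :=
  univ.sup fun i => ((x i - y i).valMinAbs).natAbs

theorem dT_self (k : ℕ) (x : Tor k) : dT k x x = 0 := by
  unfold dT
  simp

theorem dT_comm (k : ℕ) (x y : Tor k) : dT k x y = dT k y x := by
  unfold dT
  congr 1
  ext i
  rw [← ZMod.natAbs_valMinAbs_neg, neg_sub]

theorem le_dT (k : ℕ) (x y : Tor k) (i : Fin (2 ^ k * qq k)) :
    ((x i - y i).valMinAbs).natAbs ≤ dT k x y :=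
  le_sup (f := fun i => ((x i - y i).valMinAbs).natAbs) (mem_univ i)

theorem dT_tri (k : ℕ) (x y z : Tor k) : dT k x z ≤ dT k x y + dT k y z := by
  unfold dT
  refine Finset.sup_le fun i _ => ?_
  have h1 := le_dT k x y i
  have h2 := le_dT k y z i
  have h3 := ZMod.natAbs_valMinAbs_add_le (x i - y i) (y i - z i)
  have e : x i - y i + (y i - z i) = x i - z i := by ring
  rw [e] at h3
  exact h3.trans ((Int.natAbs_add_le _ _).trans (add_le_add h1 h2))

theorem dT_pos (k : ℕ) {x y : Tor k} (h : x ≠ y) : 1 ≤ dT k x y := by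
  obtain ⟨i, hi⟩ := Function.ne_iff.1 h
  refine le_trans ?_ (le_dT k x y i)
  rw [Nat.one_le_iff_ne_zero, Ne, Int.natAbs_eq_zero, ZMod.valMinAbs_eq_zero, sub_eq_zero]
  exact hi

theorem dT_le (k : ℕ) (x y : Tor k) : dT k x y ≤ 2 ^ (k + 1) := by
  unfold dT
  refine Finset.sup_le fun i _ => ?_
  refine (ZMod.natAbs_valMinAbs_le _).trans ?_
  rw [pow_succ 2 (k + 1)]
  omega

theorem dT_small (k : ℕ) (x v : Tor k) (h : ∀ i, v i = 0 ∨ v i = 1 ∨ v i = -1) :
    dT k (x + v) x ≤ 1 := by
  unfold dT
  refine Finset.sup_le fun i _ => ?_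
  have e : (x + v) i - x i = v i := by simp
  rw [e]
  have h1 : ((1 : ZMod (2 ^ (k + 2))).valMinAbs).natAbs ≤ 1 := by
    have h2 : ((1 : ℕ) : ZMod (2 ^ (k + 2))).valMinAbs = (1 : ℕ) := by
      apply ZMod.valMinAbs_natCast_of_le_half
      rw [pow_succ]
      have := Nat.one_le_two_pow (n := k + 1)
      omega
    rw [Nat.cast_one] at h2
    rw [h2]
    norm_num
  rcases h i with h' | h' | h'
  · rw [h']; simp
  · rw [h']; exact h1
  · rw [h', ZMod.natAbs_valMinAbs_neg]; exact h1

theorem dT_large (k : ℕ) (x v : Tor k) (h : ∃ i, v i = ((2 ^ k : ℕ) : ZMod (2 ^ (k + 2)))) :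
    2 ^ k ≤ dT k (x + v) x := by
  obtain ⟨i, hi⟩ := h
  refine le_trans ?_ (le_dT k _ _ i)
  have e : (x + v) i - x i = v i := by simp
  rw [e, hi]
  have h2 : ((2 ^ k : ℕ) : ZMod (2 ^ (k + 2))).valMinAbs = (2 ^ k : ℕ) := by
    apply ZMod.valMinAbs_natCast_of_le_half
    rw [pow_succ, pow_succ]
    omega
  rw [h2]
  exact le_refl _

/-- the torus used at level `i` -/
def kk (i : ℕ) : ℕ := (Nat.unpair i).1

/-- the projection of level `i` to its torus -/
noncomputable def prj (i a : ℕ) : Tor (kk i) :=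
  (Fintype.equivFin (Tor (kk i))).symm ⟨a % Fintype.card (Tor (kk i)),
    Nat.mod_lt _ Fintype.card_pos⟩

/-- the integer metric of level `i` -/
noncomputable def dl (i a b : ℕ) : ℕ := if a = b then 0 else max 1 (dT (kk i) (prj i a) (prj i b))

/-- the diameter bound of level `i` -/
def Dl (i : ℕ) : ℕ := 2 ^ (kk i + 1)

theorem Dl_pos (i : ℕ) : 1 ≤ Dl i := Nat.one_le_two_pow

theorem dl_self (i a : ℕ) : dl i a a = 0 := by simp [dl]

theorem dl_comm (i a b : ℕ) : dl i a b = dl i b a := by
  unfold dl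
  by_cases h : a = b
  · simp [h]
  · rw [if_neg h, if_neg (Ne.symm h), dT_comm]

theorem dl_pos (i : ℕ) {a b : ℕ} (h : a ≠ b) : 1 ≤ dl i a b := by
  unfold dl; rw [if_neg h]; exact le_max_left _ _

theorem dl_le (i a b : ℕ) : dl i a b ≤ Dl i := by
  unfold dl Dl
  split_ifs
  · exact Nat.zero_le _
  · exact max_le Nat.one_le_two_pow (dT_le _ _ _)

theorem dl_tri (i a b c : ℕ) : dl i a c ≤ dl i a b + dl i b c := by
  by_cases h1 : a = b
  · subst h1; rw [dl_self, zero_add]
  by_cases h2 : b = c
  · subst h2; rw [dl_self, add_zero]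
  by_cases h3 : a = c
  · subst h3; rw [dl_self]; exact Nat.zero_le _
  unfold dl
  rw [if_neg h1, if_neg h2, if_neg h3]
  have h4 := dT_tri (kk i) (prj i a) (prj i b) (prj i c)
  apply max_le
  · have : 1 ≤ max 1 (dT (kk i) (prj i a) (prj i b)) := le_max_left _ _
    omega
  · have h5 : dT (kk i) (prj i a) (prj i b) ≤ max 1 (dT (kk i) (prj i a) (prj i b)) :=
      le_max_right _ _
    have h6 : dT (kk i) (prj i b) (prj i c) ≤ max 1 (dT (kk i) (prj i b) (prj i c)) :=
      le_max_right _ _
    omega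

/-- scales -/
noncomputable def sc : ℕ → ℝ
  | 0 => 1
  | i + 1 => sc i / (2 * Dl (i + 1))

/-- radii -/
noncomputable def rad (i : ℕ) : ℝ := sc i * Dl i

theorem sc_pos (i : ℕ) : 0 < sc i := by
  induction i with
  | zero => exact one_pos
  | succ i ih =>
    have : (0 : ℝ) < Dl (i + 1) := by exact_mod_cast Dl_pos (i + 1)
    rw [sc]; positivity

theorem rad_pos (i : ℕ) : 0 < rad i := by
  have : (0 : ℝ) < Dl i := by exact_mod_cast Dl_pos i
  exact mul_pos (sc_pos i) this

theorem rad_succ (i : ℕ) : rad (i + 1) = sc i / 2 := by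
  have : (0 : ℝ) < Dl (i + 1) := by exact_mod_cast Dl_pos (i + 1)
  unfold rad
  rw [sc]
  field_simp

theorem sc_le_rad (i : ℕ) : sc i ≤ rad i := by
  have h : (1 : ℝ) ≤ Dl i := by exact_mod_cast Dl_pos i
  have := sc_pos i
  unfold rad
  nlinarith

theorem rad_half (i : ℕ) : rad (i + 1) ≤ rad i / 2 := by
  rw [rad_succ]
  have := sc_le_rad i
  linarith

theorem rad_pow (i : ℕ) : rad i ≤ rad 0 * (1 / 2) ^ i := by
  induction i with
  | zero => simp
  | succ i ih =>
    have := rad_half i
    rw [pow_succ]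
    linarith

theorem rad_anti : Antitone rad := antitone_nat_of_succ_le fun i => by
  have := rad_half i
  have := rad_pos i
  linarith

/-- The underlying set of the fractal. -/
abbrev Pt : Type := {q : ℕ × ℕ // q.2 < 2 ^ q.1}

/-- The fractal: all points of all levels together with one limit point. -/
inductive KK : Type
  | inf : KK
  | pt : Pt → KK

/-- same level -/
def SL : KK → KK → Prop
  | .pt q, .pt q' => q.1.1 = q'.1.1
  | _, _ => False

/-- the radius of a point -/
noncomputable def ra : KK → ℝ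
  | .inf => 0
  | .pt q => rad q.1.1

open Classical in
/-- the distance -/
noncomputable def dK (x y : KK) : ℝ :=
  if SL x y then
    match x, y with
    | .pt q, .pt q' => sc q.1.1 * dl q.1.1 q.1.2 q'.1.2
    | _, _ => 0
  else max (ra x) (ra y)

theorem dK_SL {q q' : Pt} (h : q.1.1 = q'.1.1) :
    dK (.pt q) (.pt q') = sc q.1.1 * dl q.1.1 q.1.2 q'.1.2 := by
  unfold dK
  have : SL (.pt q) (.pt q') := h
  rw [if_pos this]

theorem dK_not {x y : KK} (h : ¬ SL x y) : dK x y = max (ra x) (ra y) := by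
  unfold dK; rw [if_neg h]

theorem ra_nonneg (x : KK) : 0 ≤ ra x := by
  rcases x with _ | q
  · exact le_rfl
  · exact (rad_pos _).le

theorem SL.symm {x y : KK} (h : SL x y) : SL y x := by
  rcases x with _ | q
  · exact h.elim
  rcases y with _ | q'
  · exact h.elim
  exact Eq.symm (α := ℕ) h

theorem SL.trans {x y z : KK} (h : SL x y) (h' : SL y z) : SL x z := by
  rcases x with _ | q
  · exact h.elim
  rcases y with _ | q'
  · exact h.elim
  rcases z with _ | q''
  · exact h'.elim
  exact Eq.trans (α := ℕ) h h'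

theorem SL.ra {x y : KK} (h : SL x y) : ra x = ra y := by
  rcases x with _ | q
  · exact h.elim
  rcases y with _ | q'
  · exact h.elim
  exact congrArg rad h

theorem dK_le (x y : KK) : dK x y ≤ max (ra x) (ra y) := by
  by_cases h : SL x y
  · rcases x with _ | q
    · exact h.elim
    rcases y with _ | q'
    · exact h.elim
    rw [dK_SL h]
    refine le_trans ?_ (le_max_left _ _)
    change _ ≤ sc q.1.1 * (Dl q.1.1 : ℝ)
    apply mul_le_mul_of_nonneg_left _ (sc_pos _).le
    exact_mod_cast dl_le _ _ _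
  · rw [dK_not h]

theorem dK_nonneg (x y : KK) : 0 ≤ dK x y := by
  by_cases h : SL x y
  · rcases x with _ | q
    · exact h.elim
    rcases y with _ | q'
    · exact h.elim
    rw [dK_SL h]
    exact mul_nonneg (sc_pos _).le (Nat.cast_nonneg _)
  · rw [dK_not h]
    exact (ra_nonneg x).trans (le_max_left _ _)

theorem dK_self (x : KK) : dK x x = 0 := by
  rcases x with _ | q
  · rw [dK_not (show ¬ SL .inf .inf from fun h => h)]
    exact max_self _
  · rw [dK_SL rfl, dl_self]
    simp

theorem dK_comm (x y : KK) : dK x y = dK y x := by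
  by_cases h : SL x y
  · rcases x with _ | q
    · exact h.elim
    rcases y with _ | q'
    · exact h.elim
    have h' : q.1.1 = q'.1.1 := h
    rw [dK_SL h', dK_SL h'.symm, ← h', dl_comm]
  · rw [dK_not h, dK_not (fun h' => h h'.symm), max_comm]

theorem dK_tri (x y z : KK) : dK x z ≤ dK x y + dK y z := by
  by_cases h : SL x z
  · by_cases h1 : SL x y
    · rcases x with _ | q
      · exact h.elim
      rcases y with _ | q'
      · exact h1.elim
      rcases z with _ | q''
      · exact h.elim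
      have e1 : q.1.1 = q'.1.1 := h1
      have e2 : q.1.1 = q''.1.1 := h
      rw [dK_SL e2, dK_SL e1, dK_SL (e1.symm.trans e2), ← e1, ← mul_add]
      apply mul_le_mul_of_nonneg_left _ (sc_pos _).le
      exact_mod_cast dl_tri _ _ _ _
    · have h2 := dK_le x z
      rw [h.ra, max_self] at h2
      rw [dK_not h1]
      have h3 := dK_nonneg y z
      have h4 : ra x ≤ max (ra x) (ra y) := le_max_left _ _
      rw [h.ra] at h4 ⊢
      linarith
  · rw [dK_not h]
    by_cases h1 : SL x y
    · have h2 : ¬ SL y z := fun h' => h (h1.trans h')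
      rw [dK_not h2, h1.ra]
      have := dK_nonneg x y
      linarith
    · rw [dK_not h1]
      by_cases h2 : SL y z
      · rw [h2.ra]
        have := dK_nonneg y z
        linarith
      · rw [dK_not h2]
        have a1 := ra_nonneg x
        have a2 := ra_nonneg y
        have a3 := ra_nonneg z
        apply max_le
        · have : ra x ≤ max (ra x) (ra y) := le_max_left _ _
          have : 0 ≤ max (ra y) (ra z) := a2.trans (le_max_left _ _)
          linarith
        · have : ra z ≤ max (ra y) (ra z) := le_max_right _ _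
          have : 0 ≤ max (ra x) (ra y) := a1.trans (le_max_left _ _)
          linarith

theorem dK_eq {x y : KK} (h : dK x y = 0) : x = y := by
  by_cases hs : SL x y
  · rcases x with _ | q
    · exact hs.elim
    rcases y with _ | q'
    · exact hs.elim
    have e : q.1.1 = q'.1.1 := hs
    rw [dK_SL e] at h
    by_cases hne : q.1.2 = q'.1.2
    · have : q = q' := Subtype.ext (Prod.ext e hne)
      rw [this]
    · exfalso
      have h1 : (1 : ℝ) ≤ dl q.1.1 q.1.2 q'.1.2 := by exact_mod_cast dl_pos _ hne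
      have h2 := sc_pos q.1.1
      nlinarith
  · rw [dK_not hs] at h
    have h1 : ra x ≤ 0 := h ▸ le_max_left _ _
    have h2 : ra y ≤ 0 := h ▸ le_max_right _ _
    rcases x with _ | q
    · rcases y with _ | q'
      · rfl
      · exact absurd (rad_pos _) (not_lt.2 h2)
    · exact absurd (rad_pos _) (not_lt.2 h1)

noncomputable instance : MetricSpace KK where
  dist := dK
  dist_self := dK_self
  dist_comm := dK_comm
  dist_triangle := dK_tri
  eq_of_dist_eq_zero := dK_eq

theorem dist_def (x y : KK) : dist x y = dK x y := rfl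

theorem tendsto_some : Tendsto (fun q : Pt => (.pt q : KK)) cofinite (𝓝 (.inf : KK)) := by
  rw [Metric.tendsto_nhds]
  intro ε hε
  have h0 := rad_pos 0
  obtain ⟨N, hN⟩ := exists_pow_lt_of_lt_one (show 0 < ε / rad 0 by positivity)
    (show (1 / 2 : ℝ) < 1 by norm_num)
  rw [lt_div_iff₀ h0] at hN
  rw [eventually_cofinite]
  have hsub : {q : Pt | ¬ dist (.pt q : KK) (.inf : KK) < ε} ⊆
      Subtype.val ⁻¹' (Finset.range N ×ˢ Finset.range (2 ^ N) : Finset (ℕ × ℕ)) := by
    intro q hq
    rw [Set.mem_preimage, mem_coe, mem_product, mem_range, mem_range]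
    have h1 : q.1.1 < N := by
      by_contra hcon
      rw [not_lt] at hcon
      apply hq
      rw [dist_def, dK_not (show ¬ SL (.pt q) .inf from fun h => h)]
      have h2 : max (ra (.pt q)) (ra .inf) = rad q.1.1 := max_eq_left (rad_pos _).le
      rw [h2]
      have h3 := rad_anti hcon
      have h4 := rad_pow N
      linarith
    refine ⟨h1, q.2.trans_le ?_⟩
    exact Nat.pow_le_pow_right (by norm_num) h1.le
  exact ((Finset.finite_toSet _).preimage Subtype.val_injective.injOn).subset hsub

instance : CompactSpace KK := by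
  constructor
  have h := tendsto_some.isCompact_insert_range_of_cofinite
  have e : insert (.inf : KK) (Set.range fun q : Pt => (.pt q : KK)) = Set.univ := by
    rw [Set.eq_univ_iff_forall]
    rintro (_ | q)
    · exact Or.inl rfl
    · exact Or.inr ⟨q, rfl⟩
  rwa [e] at h

/-- the contractions -/
def ff (b : Fin 2) : KK → KK
  | .inf => .inf
  | .pt q => .pt ⟨(q.1.1 + 1, 2 * q.1.2 + b), by
      have h1 := q.2
      have h2 := b.2
      simp only [pow_succ]
      omega⟩

/-- the constant map onto the point of level zero -/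
def fc : KK → KK := fun _ => .pt ⟨(0, 0), by norm_num⟩

theorem ra_ff (b : Fin 2) (x : KK) : ra (ff b x) ≤ ra x / 2 := by
  rcases x with _ | q
  · change (0 : ℝ) ≤ 0 / 2
    norm_num
  · exact rad_half q.1.1

theorem ff_lip (b : Fin 2) : LipschitzWith (1 / 2) (ff b) := by
  apply LipschitzWith.of_dist_le_mul
  intro x y
  have e2 : (((1 / 2 : NNReal)) : ℝ) = 1 / 2 := by norm_num
  rw [e2, dist_def, dist_def]
  by_cases hs : SL x y
  · rcases x with _ | q
    · exact hs.elim
    rcases y with _ | q'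
    · exact hs.elim
    have e : q.1.1 = q'.1.1 := hs
    by_cases hne : q.1.2 = q'.1.2
    · have : q = q' := Subtype.ext (Prod.ext e hne)
      rw [this, dK_self, dK_self]
      norm_num
    · have h1 : (1 : ℝ) ≤ dl q.1.1 q.1.2 q'.1.2 := by exact_mod_cast dl_pos _ hne
      have h2 := sc_pos q.1.1
      have h3 := dK_le (ff b (.pt q)) (ff b (.pt q'))
      have h4 : max (ra (ff b (.pt q))) (ra (ff b (.pt q'))) = rad (q.1.1 + 1) := by
        change max (rad (q.1.1 + 1)) (rad (q'.1.1 + 1)) = _
        rw [← e, max_self]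
      rw [h4, rad_succ] at h3
      rw [dK_SL e]
      nlinarith
  · rw [dK_not hs]
    refine (dK_le _ _).trans ?_
    have h1 := ra_ff b x
    have h2 := ra_ff b y
    have h3 : ra x ≤ max (ra x) (ra y) := le_max_left _ _
    have h4 : ra y ≤ max (ra x) (ra y) := le_max_right _ _
    apply max_le <;> linarith

theorem fc_lip : LipschitzWith 0 fc := LipschitzWith.const _

theorem cover (x : KK) : (∃ b y, ff b y = x) ∨ ∃ y, fc y = x := by
  rcases x with _ | ⟨⟨i, a⟩, h⟩
  · exact Or.inl ⟨0, .inf, rfl⟩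
  · rcases i with _ | i
    · right
      refine ⟨.inf, ?_⟩
      have : a = 0 := by simpa using h
      subst this
      rfl
    · left
      refine ⟨⟨a % 2, Nat.mod_lt _ (by norm_num)⟩, .pt ⟨(i, a / 2), ?_⟩, ?_⟩
      · simp only [pow_succ] at h ⊢
        omega
      · change (KK.pt _ : KK) = KK.pt _
        congr 2
        ext
        · rfl
        · simp only
          omega

/-- the copy of the torus in level `i` -/
noncomputable def emb (i : ℕ) (h : Fintype.card (Tor (kk i)) ≤ 2 ^ i) (x : Tor (kk i)) : KK :=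
  .pt ⟨(i, (Fintype.equivFin (Tor (kk i)) x : ℕ)), lt_of_lt_of_le (Fin.is_lt _) h⟩

theorem prj_emb (i : ℕ) (x : Tor (kk i)) : prj i (Fintype.equivFin (Tor (kk i)) x : ℕ) = x := by
  unfold prj
  have h : (Fintype.equivFin (Tor (kk i)) x : ℕ) % Fintype.card (Tor (kk i))
      = (Fintype.equivFin (Tor (kk i)) x : ℕ) := Nat.mod_eq_of_lt (Fin.is_lt _)
  simp only [h]
  exact (Fintype.equivFin (Tor (kk i))).symm_apply_apply x

theorem dist_emb (i : ℕ) (h : Fintype.card (Tor (kk i)) ≤ 2 ^ i) (x y : Tor (kk i)) :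
    dist (emb i h x) (emb i h y) = sc i * dT (kk i) x y := by
  rw [dist_def]
  unfold emb
  rw [dK_SL (rfl : i = i)]
  congr 2
  simp only
  unfold dl
  by_cases hxy : x = y
  · subst hxy
    rw [if_pos rfl, dT_self]
  · rw [if_neg, prj_emb, prj_emb, max_eq_right (dT_pos _ hxy)]
    intro h'
    exact hxy ((Fintype.equivFin (Tor (kk i))).injective (Fin.ext h'))

/-- **No equi-Hölder map into a Hilbert space.** -/
theorem no_holder {H : Type*} [NormedAddCommGroup H] [InnerProductSpace ℝ H] (h : KK → H)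
    (c C α : ℝ) (hc : 0 < c) (hC : 0 < C) (hα : 0 < α)
    (hh : ∀ x y, c * dist x y ^ α ≤ dist (h x) (h y) ∧ dist (h x) (h y) ≤ C * dist x y ^ α) :
    False := by
  have key : ∀ k : ℕ, (c * ((2 : ℝ) ^ α) ^ k) ^ 2 ≤ 2 * C ^ 2 := by
    intro k
    obtain ⟨i, hi, hcard⟩ : ∃ i, kk i = k ∧ Fintype.card (Tor k) ≤ 2 ^ i := by
      refine ⟨Nat.pair k (Fintype.card (Tor k)), ?_, ?_⟩
      · simp [kk]
      · exact (Nat.lt_two_pow_self).le.trans
          (Nat.pow_le_pow_right (by norm_num) (Nat.right_le_pair _ _))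
    subst hi
    have hs := sc_pos i
    have hsα : 0 < sc i ^ α := Real.rpow_pos_of_pos hs α
    have hb := torus_bound (H := H) (kk i) (qq (kk i)) (qq_spec (kk i)) (2 ^ (kk i + 2))
      (fun x => h (emb i hcard x)) (C * sc i ^ α) (c * sc i ^ α * ((2 : ℝ) ^ α) ^ (kk i))
      (by positivity) (by
        intro x v hv
        rw [← dist_eq_norm]
        refine (hh _ _).2.trans ?_
        rw [dist_emb, Real.mul_rpow hs.le (Nat.cast_nonneg _)]
        have h1 : (dT (kk i) (x + v) x : ℝ) ≤ 1 := by exact_mod_cast dT_small (kk i) x v hv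
        have h2 : (dT (kk i) (x + v) x : ℝ) ^ α ≤ 1 :=
          Real.rpow_le_one (Nat.cast_nonneg _) h1 hα.le
        have h3 : 0 ≤ C * sc i ^ α := by positivity
        nlinarith) (by
        intro x v hv
        rw [← dist_eq_norm]
        refine le_trans ?_ (hh _ _).1
        rw [dist_emb, Real.mul_rpow hs.le (Nat.cast_nonneg _)]
        have h1 : (2 : ℝ) ^ (kk i) ≤ (dT (kk i) (x + v) x : ℝ) := by
          exact_mod_cast dT_large (kk i) x v hv
        have h2 : ((2 : ℝ) ^ α) ^ (kk i) ≤ (dT (kk i) (x + v) x : ℝ) ^ α := by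
          have e : ((2 : ℝ) ^ α) ^ (kk i) = ((2 : ℝ) ^ (kk i)) ^ α := by
            rw [← Real.rpow_natCast, ← Real.rpow_natCast, ← Real.rpow_mul (by norm_num),
              ← Real.rpow_mul (by norm_num), mul_comm]
          rw [e]
          exact Real.rpow_le_rpow (by positivity) h1 hα.le
        have h3 : 0 ≤ c * sc i ^ α := by positivity
        nlinarith)
    have e1 : (c * sc i ^ α * ((2 : ℝ) ^ α) ^ (kk i)) ^ 2
        = (c * ((2 : ℝ) ^ α) ^ (kk i)) ^ 2 * (sc i ^ α) ^ 2 := by ring
    have e2 : 2 * (C * sc i ^ α) ^ 2 = 2 * C ^ 2 * (sc i ^ α) ^ 2 := by ring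
    rw [e1, e2] at hb
    exact le_of_mul_le_mul_right hb (by positivity)
  have h2α : 1 < (2 : ℝ) ^ α := Real.one_lt_rpow (by norm_num) hα
  obtain ⟨k, hk⟩ := pow_unbounded_of_one_lt (2 * C / c) h2α
  rw [div_lt_iff₀ hc] at hk
  have h3 := key k
  have h4 : (2 * C) ^ 2 < (c * ((2 : ℝ) ^ α) ^ k) ^ 2 := by
    apply pow_lt_pow_left₀ _ (by positivity) (by norm_num)
    linarith
  nlinarith [sq_nonneg C, pow_pos hC 2]

end Pool.Agent.Q154.EqH
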