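import Mathlib.Topology.Basic
import Mathlib.Data.Set.Finite.Lattice
import Mathlib.Data.Finset.Image
import Mathlib.Tactic

set_option autoImplicit false

/-!
Passing from a subset of a topological space to a relatively `F_σ` subset: extension of open
covers, and the heredity of `S_fin(Γ,Ω)` and `S_1(Γ,Ω)`.
-/

namespace Pool.Agent.Q154.FSigmaCovers

variable {α : Type*} [TopologicalSpace α]

/-- `𝒱` is an open `γ`-cover of `X`. -/
def IsGamma (X : Set α) (𝒱 : Set (Set α)) : Prop :=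
  (∀ U ∈ 𝒱, ∃ V : Set α, IsOpen V ∧ U = V ∩ X) ∧ X ∉ 𝒱 ∧
    X ⊆ ⋃₀ 𝒱 ∧ 𝒱.Infinite ∧ ∀ x ∈ X, {U ∈ 𝒱 | x ∉ U}.Finite

/-- Every finite subset of `X` lies in a member of `𝒲`, and `X` is not a member. -/
def IsOmega (X : Set α) (𝒲 : Set (Set α)) : Prop :=
  X ∉ 𝒲 ∧ X ⊆ ⋃₀ 𝒲 ∧ ∀ F : Finset α, (↑F : Set α) ⊆ X → ∃ U ∈ 𝒲, (↑F : Set α) ⊆ U

/-- The union of the first closed sets. -/
def C (K : ℕ → Set α) (n : ℕ) : Set α := ⋃ i ∈ Finset.range (n + 1), K i

theorem C_closed {K : ℕ → Set α} (hK : ∀ n, IsClosed (K n)) (n : ℕ) : IsClosed (C K n) :=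
  isClosed_biUnion_finset fun i _ => hK i

omit [TopologicalSpace α] in
theorem C_mono {K : ℕ → Set α} {m n : ℕ} (h : m ≤ n) : C K m ⊆ C K n := by
  intro x hx
  simp only [C, Set.mem_iUnion, Finset.mem_range] at hx ⊢
  obtain ⟨i, hi, hx⟩ := hx
  exact ⟨i, by omega, hx⟩

omit [TopologicalSpace α] in
theorem C_finite {K : ℕ → Set α} (F : Finset α) (hF : (↑F : Set α) ⊆ ⋃ n, K n) :
    ∃ N, (↑F : Set α) ⊆ C K N := by
  classical
  induction F using Finset.induction_on with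
  | empty => exact ⟨0, by simp⟩
  | insert a s _ ih =>
    obtain ⟨N, hN⟩ := ih (fun x hx => hF (by simpa using Or.inr hx))
    obtain ⟨m, hm⟩ := Set.mem_iUnion.1 (hF (show a ∈ (↑(insert a s) : Set α) by simp))
    refine ⟨max N m, ?_⟩
    intro x hx
    rcases Finset.mem_insert.1 (Finset.mem_coe.1 hx) with rfl | hx
    · refine C_mono (le_max_right N m) ?_
      simp only [C, Set.mem_iUnion, Finset.mem_range]
      exact ⟨m, by omega, hm⟩
    · exact C_mono (le_max_left N m) (hN hx)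

/-- The extension of a relatively open subset of `Y` to a relatively open subset of `X`. -/
def ext (X : Set α) (D : Set α) (O : Set α) : Set α := (O ∪ Dᶜ) ∩ X

/-- Extending a `γ`-cover of a relatively `F_σ` set. -/
theorem gamma_ext {X Y D : Set α} (hD : IsClosed D) (hDY : D ∩ X ⊆ Y)
    {𝒰 : Set (Set α)} (h𝒰 : IsGamma Y 𝒰) (op : Set α → Set α)
    (hop : ∀ U ∈ 𝒰, IsOpen (op U) ∧ U = op U ∩ Y)
    (hne : ∀ U ∈ 𝒰, ext X D (op U) ≠ X) :
    IsGamma X ((fun U => ext X D (op U)) '' 𝒰) := by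
  obtain ⟨h1, h2, h3, h4, h5⟩ := h𝒰
  have key : ∀ x ∈ X, ∀ U ∈ 𝒰, x ∉ ext X D (op U) → x ∈ Y ∧ x ∉ U := by
    intro x hx U hU hn
    have hxD : x ∈ D := by
      by_contra h
      exact hn ⟨Or.inr h, hx⟩
    have hxY : x ∈ Y := hDY ⟨hxD, hx⟩
    refine ⟨hxY, fun hxU => hn ⟨Or.inl ?_, hx⟩⟩
    rw [(hop U hU).2] at hxU
    exact hxU.1
  have hfin : ∀ x ∈ X, {U ∈ 𝒰 | x ∉ ext X D (op U)}.Finite := by
    intro x hx
    by_cases hxY : x ∈ Y
    · exact (h5 x hxY).subset fun U hU => ⟨hU.1, (key x hx U hU.1 hU.2).2⟩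
    · convert Set.finite_empty (α := Set α)
      ext U
      simp only [Set.mem_ofPred_eq, Set.mem_empty_iff_false, iff_false]
      rintro ⟨hU, hn⟩
      exact hxY (key x hx U hU hn).1
  refine ⟨?_, ?_, ?_, ?_, ?_⟩
  · rintro _ ⟨U, hU, rfl⟩
    exact ⟨op U ∪ Dᶜ, (hop U hU).1.union hD.isOpen_compl, rfl⟩
  · rintro ⟨U, hU, hUX⟩
    exact hne U hU hUX
  · intro x hx
    obtain ⟨U, hU, hUn⟩ := (h4.sdiff (hfin x hx)).nonempty
    refine ⟨_, ⟨U, hU, rfl⟩, ?_⟩
    by_contra h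
    exact hUn ⟨hU, h⟩
  · intro hf
    -- some value is attained infinitely often
    obtain ⟨W, hW, hWinf⟩ : ∃ W ∈ (fun U => ext X D (op U)) '' 𝒰,
        {U ∈ 𝒰 | ext X D (op U) = W}.Infinite := by
      by_contra hcon
      push Not at hcon
      apply h4
      have : 𝒰 ⊆ ⋃ W ∈ (fun U => ext X D (op U)) '' 𝒰, {U ∈ 𝒰 | ext X D (op U) = W} := by
        intro U hU
        simp only [Set.mem_iUnion]
        exact ⟨_, ⟨U, hU, rfl⟩, hU, rfl⟩
      refine (Set.Finite.biUnion hf fun W hW => ?_).subset this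
      exact hcon W hW
    obtain ⟨U, hU, rfl⟩ := hW
    apply hne U hU
    apply Set.Subset.antisymm (fun x hx => hx.2)
    intro x hx
    obtain ⟨U', hU', hn⟩ := (hWinf.sdiff (hfin x hx)).nonempty
    simp only [] at hU'
    rw [← hU'.2]
    by_contra h
    exact hn ⟨hU'.1, h⟩
  · intro x hx
    refine ((hfin x hx).image (fun U => ext X D (op U))).subset ?_
    rintro _ ⟨⟨U, hU, rfl⟩, hn⟩
    exact ⟨U, ⟨hU, hn⟩, rfl⟩

omit [TopologicalSpace α] in
/-- In an `ω`-cover which is a union of finite pieces, each finite set lies in members of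
arbitrarily late pieces. -/
theorem omega_late {X : Set α} {𝒢 : ℕ → Set (Set α)} (hfin : ∀ n, (𝒢 n).Finite)
    (hsub : ∀ n, ∀ W ∈ 𝒢 n, W ⊆ X) (hω : IsOmega X (⋃ n, 𝒢 n)) (F : Finset α)
    (hF : (↑F : Set α) ⊆ X) (M : ℕ) : ∃ n, M ≤ n ∧ ∃ W ∈ 𝒢 n, (↑F : Set α) ⊆ W := by
  classical
  by_contra hcon
  push Not at hcon
  have hbad : (⋃ n ∈ Finset.range M, 𝒢 n).Finite :=
    Set.Finite.biUnion (Finset.finite_toSet _) fun n _ => hfin n
  have hpt : ∀ W ∈ (⋃ n ∈ Finset.range M, 𝒢 n), ∃ x, x ∈ X ∧ x ∉ W := by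
    intro W hW
    simp only [Set.mem_iUnion] at hW
    obtain ⟨n, _, hWn⟩ := hW
    by_contra h
    push Not at h
    apply hω.1
    have : W = X := Set.Subset.antisymm (hsub n W hWn) h
    rw [← this]
    exact Set.mem_iUnion.2 ⟨n, hWn⟩
  have : Nonempty α := by
    by_contra h
    rw [not_nonempty_iff] at h
    obtain ⟨W, hW, _⟩ := hω.2.2 F hF
    exact hω.1 (by rwa [Subsingleton.elim X W])
  choose! pt hpt1 hpt2 using hpt
  obtain ⟨W, hW, hWF⟩ := hω.2.2 (F ∪ hbad.toFinset.image pt) (by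
    intro x hx
    rcases Finset.mem_union.1 (Finset.mem_coe.1 hx) with hx | hx
    · exact hF hx
    · obtain ⟨V, hV, rfl⟩ := Finset.mem_image.1 hx
      exact hpt1 V (hbad.mem_toFinset.1 hV))
  obtain ⟨n, hWn⟩ := Set.mem_iUnion.1 hW
  by_cases hn : M ≤ n
  · exact hcon n hn W hWn fun x hx => hWF (by simp [Finset.mem_coe.1 hx])
  · have hmem : W ∈ (⋃ n ∈ Finset.range M, 𝒢 n) := by
      simp only [Set.mem_iUnion]
      exact ⟨n, Finset.mem_range.2 (by omega), hWn⟩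
    apply hpt2 W hmem
    apply hWF
    rw [Finset.mem_coe, Finset.mem_union]
    right
    exact Finset.mem_image.2 ⟨W, hbad.mem_toFinset.2 hmem, rfl⟩

/-- The selection property `S_fin(Γ,Ω)`. -/
def SfinGO (X : Set α) : Prop :=
  ∀ 𝒰 : ℕ → Set (Set α), (∀ n, IsGamma X (𝒰 n)) →
    ∃ ℱ : ℕ → Set (Set α), (∀ n, (ℱ n).Finite ∧ ℱ n ⊆ 𝒰 n) ∧ IsOmega X (⋃ n, ℱ n)

/-- The selection property `S_1(Γ,Ω)`. -/
def S1GO (X : Set α) : Prop :=
  ∀ 𝒰 : ℕ → Set (Set α), (∀ n, IsGamma X (𝒰 n)) →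
    ∃ U : ℕ → Set α, (∀ n, U n ∈ 𝒰 n) ∧ IsOmega X (Set.range U)

/-- The common part: either infinitely many of the extended covers contain `X`, or all late ones
are `γ`-covers of `X`. -/
theorem dichotomy {X Y : Set α} {K : ℕ → Set α} (hK : ∀ n, IsClosed (K n))
    (hY : Y = X ∩ ⋃ n, K n) {𝒰 : ℕ → Set (Set α)} (h𝒰 : ∀ n, IsGamma Y (𝒰 n)) :
    (∃ I : Set ℕ, I.Infinite ∧ ∃ U : ℕ → Set α, ∀ n ∈ I, U n ∈ 𝒰 n ∧ Y ∩ C K n ⊆ U n) ∨
    (∃ N : ℕ, ∃ e : ℕ → Set α → Set α,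
      (∀ n, IsGamma X (e n '' 𝒰 (n + N))) ∧
      ∀ n, ∀ U ∈ 𝒰 (n + N), e n U ⊆ X ∧ Y ∩ C K (n + N) ∩ e n U ⊆ U) := by
  classical
  have hop : ∀ n, ∀ U ∈ 𝒰 n, ∃ V : Set α, IsOpen V ∧ U = V ∩ Y := fun n => (h𝒰 n).1
  choose! op hop using hop
  have hYX : Y ⊆ X := by rw [hY]; exact Set.inter_subset_left
  have hDY : ∀ n, C K n ∩ X ⊆ Y := by
    intro n x hx
    rw [hY]
    refine ⟨hx.2, ?_⟩
    have := hx.1
    simp only [C, Set.mem_iUnion] at this
    obtain ⟨i, _, hi⟩ := this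
    exact Set.mem_iUnion.2 ⟨i, hi⟩
  have hin : ∀ n, ∀ U ∈ 𝒰 n, Y ∩ C K n ∩ ext X (C K n) (op n U) ⊆ U := by
    intro n U hU x hx
    obtain ⟨⟨hxY, hxC⟩, hx1, hxX⟩ := hx
    rcases hx1 with hx1 | hx1
    · rw [(hop n U hU).2]
      exact ⟨hx1, hxY⟩
    · exact absurd hxC hx1
  by_cases hA : {n | ∃ U ∈ 𝒰 n, ext X (C K n) (op n U) = X}.Infinite
  · left
    refine ⟨_, hA, ?_⟩
    have : ∀ n ∈ {n | ∃ U ∈ 𝒰 n, ext X (C K n) (op n U) = X},
        ∃ U, U ∈ 𝒰 n ∧ Y ∩ C K n ⊆ U := by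
      rintro n ⟨U, hU, hUX⟩
      refine ⟨U, hU, fun x hx => hin n U hU ⟨hx, ?_⟩⟩
      rw [hUX]
      exact hYX hx.1
    choose! U hU using this
    exact ⟨U, hU⟩
  · right
    rw [Set.not_infinite] at hA
    obtain ⟨N, hN⟩ := hA.bddAbove
    refine ⟨N + 1, fun n U => ext X (C K (n + (N + 1))) (op (n + (N + 1)) U), ?_, ?_⟩
    · intro n
      refine gamma_ext (C_closed hK _) (hDY _) (h𝒰 _) _ (hop _) ?_
      intro U hU hUX
      have := hN (show (n + (N + 1)) ∈ {n | ∃ U ∈ 𝒰 n, ext X (C K n) (op n U) = X} from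
        ⟨U, hU, hUX⟩)
      omega
    · intro n U hU
      exact ⟨Set.inter_subset_right, hin _ U hU⟩

omit [TopologicalSpace α] in
/-- A family of proper subsets catching every finite set is an `ω`-cover. -/
theorem omega_mk {Y : Set α} {𝒲 : Set (Set α)} (h1 : Y ∉ 𝒲)
    (h2 : ∀ F : Finset α, (↑F : Set α) ⊆ Y → ∃ U ∈ 𝒲, (↑F : Set α) ⊆ U) : IsOmega Y 𝒲 := by
  classical
  refine ⟨h1, ?_, h2⟩
  intro x hx
  obtain ⟨U, hU, hxU⟩ := h2 {x} (by simpa using hx)
  exact ⟨U, hU, hxU (by simp)⟩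

/-- `S_fin(Γ,Ω)` is inherited by relatively `F_σ` subsets. -/
theorem sfin_hereditary {X Y : Set α} {K : ℕ → Set α} (hK : ∀ n, IsClosed (K n))
    (hY : Y = X ∩ ⋃ n, K n) (hX : SfinGO X) : SfinGO Y := by
  classical
  intro 𝒰 h𝒰
  have hYK : Y ⊆ ⋃ n, K n := by rw [hY]; exact Set.inter_subset_right
  have hYX : Y ⊆ X := by rw [hY]; exact Set.inter_subset_left
  rcases dichotomy hK hY h𝒰 with ⟨I, hI, U, hU⟩ | ⟨N, e, he, hin⟩
  · refine ⟨fun n => if n ∈ I then {U n} else ∅, ?_, ?_⟩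
    · intro n
      by_cases hn : n ∈ I
      · simp only [hn, if_true]
        exact ⟨Set.finite_singleton _, by simpa using (hU n hn).1⟩
      · simp [hn]
    · apply omega_mk
      · intro h
        obtain ⟨n, hn⟩ := Set.mem_iUnion.1 h
        by_cases hnI : n ∈ I
        · simp only [hnI, if_true, Set.mem_singleton_iff] at hn
          apply (h𝒰 n).2.1
          rw [hn]
          exact (hU n hnI).1
        · simp [hnI] at hn
      · intro F hF
        obtain ⟨M, hM⟩ := C_finite F (hF.trans hYK)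
        obtain ⟨n, hnI, hn⟩ := hI.exists_gt M
        refine ⟨U n, Set.mem_iUnion.2 ⟨n, by simp [hnI]⟩, ?_⟩
        intro x hx
        exact (hU n hnI).2 ⟨hF hx, C_mono hn.le (hM hx)⟩
  · obtain ⟨𝒢, h𝒢, hω⟩ := hX _ he
    have hg : ∀ n, ∀ W ∈ 𝒢 n, ∃ U, U ∈ 𝒰 (n + N) ∧ e n U = W := by
      intro n W hW
      obtain ⟨U, hU, hUW⟩ := (h𝒢 n).2 hW
      exact ⟨U, hU, hUW⟩
    choose! g hg using hg
    have hsub : ∀ n, ∀ W ∈ 𝒢 n, W ⊆ X := by
      intro n W hW
      rw [← (hg n W hW).2]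
      exact (hin n _ (hg n W hW).1).1
    refine ⟨fun n => if N ≤ n then g (n - N) '' 𝒢 (n - N) else ∅, ?_, ?_⟩
    · intro n
      by_cases hn : N ≤ n
      · simp only [hn, if_true]
        refine ⟨(h𝒢 _).1.image _, ?_⟩
        rintro _ ⟨W, hW, rfl⟩
        have := (hg (n - N) W hW).1
        rwa [Nat.sub_add_cancel hn] at this
      · simp [hn]
    · apply omega_mk
      · intro h
        obtain ⟨n, hn⟩ := Set.mem_iUnion.1 h
        by_cases hnN : N ≤ n
        · simp only [hnN, if_true] at hn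
          obtain ⟨W, hW, hWY⟩ := hn
          apply (h𝒰 n).2.1
          rw [← hWY]
          have := (hg (n - N) W hW).1
          rwa [Nat.sub_add_cancel hnN] at this
        · simp [hnN] at hn
      · intro F hF
        obtain ⟨M, hM⟩ := C_finite F (hF.trans hYK)
        obtain ⟨n, hn, W, hW, hFW⟩ :=
          omega_late (fun n => (h𝒢 n).1) hsub hω F (hF.trans hYX) M
        refine ⟨g n W, Set.mem_iUnion.2 ⟨n + N, ?_⟩, ?_⟩
        · simp only [Nat.le_add_left, if_true, Nat.add_sub_cancel]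
          exact ⟨W, hW, rfl⟩
        · intro x hx
          refine (hin n _ (hg n W hW).1).2 ⟨⟨hF hx, C_mono (by omega) (hM hx)⟩, ?_⟩
          rw [(hg n W hW).2]
          exact hFW hx

/-- `S_1(Γ,Ω)` is inherited by relatively `F_σ` subsets. -/
theorem s1_hereditary {X Y : Set α} {K : ℕ → Set α} (hK : ∀ n, IsClosed (K n))
    (hY : Y = X ∩ ⋃ n, K n) (hX : S1GO X) : S1GO Y := by
  classical
  intro 𝒰 h𝒰
  have hYK : Y ⊆ ⋃ n, K n := by rw [hY]; exact Set.inter_subset_right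
  have hYX : Y ⊆ X := by rw [hY]; exact Set.inter_subset_left
  have hdef : ∀ n, ∃ U, U ∈ 𝒰 n := fun n => (h𝒰 n).2.2.2.1.nonempty
  choose d hd using hdef
  rcases dichotomy hK hY h𝒰 with ⟨I, hI, U, hU⟩ | ⟨N, e, he, hin⟩
  · refine ⟨fun n => if n ∈ I then U n else d n, ?_, ?_⟩
    · intro n
      by_cases hn : n ∈ I
      · simp only [hn, if_true]
        exact (hU n hn).1
      · simp only [hn, if_false]
        exact hd n
    · apply omega_mk
      · rintro ⟨n, hn⟩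
        apply (h𝒰 n).2.1
        rw [← hn]
        by_cases hn : n ∈ I
        · simp only [hn, if_true]
          exact (hU n hn).1
        · simp only [hn, if_false]
          exact hd n
      · intro F hF
        obtain ⟨M, hM⟩ := C_finite F (hF.trans hYK)
        obtain ⟨n, hnI, hn⟩ := hI.exists_gt M
        refine ⟨U n, ⟨n, by simp [hnI]⟩, ?_⟩
        intro x hx
        exact (hU n hnI).2 ⟨hF hx, C_mono hn.le (hM hx)⟩
  · obtain ⟨G, hG, hω⟩ := hX _ he
    choose g hg using hG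
    have hω' : IsOmega X (⋃ n, ({G n} : Set (Set α))) := by
      have : (⋃ n, ({G n} : Set (Set α))) = Set.range G := by
        ext W; simp [eq_comm]
      rw [this]; exact hω
    have hsub : ∀ n, ∀ W ∈ ({G n} : Set (Set α)), W ⊆ X := by
      rintro n W rfl
      rw [← (hg n).2]
      exact (hin n _ (hg n).1).1
    have hmem : ∀ n, (if N ≤ n then g (n - N) else d n) ∈ 𝒰 n := by
      intro n
      by_cases hn : N ≤ n
      · simp only [hn, if_true]
        have := (hg (n - N)).1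
        rwa [Nat.sub_add_cancel hn] at this
      · simp only [hn, if_false]
        exact hd n
    refine ⟨fun n => if N ≤ n then g (n - N) else d n, hmem, ?_⟩
    apply omega_mk
    · rintro ⟨n, hn⟩
      apply (h𝒰 n).2.1
      rw [← hn]
      exact hmem n
    · intro F hF
      obtain ⟨M, hM⟩ := C_finite F (hF.trans hYK)
      obtain ⟨n, hn, W, hW, hFW⟩ :=
        omega_late (𝒢 := fun n => {G n}) (fun n => Set.finite_singleton _) hsub hω' F
          (hF.trans hYX) M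
      refine ⟨g n, ⟨n + N, by simp⟩, ?_⟩
      intro x hx
      refine (hin n _ (hg n).1).2 ⟨⟨hF hx, C_mono (by omega) (hM hx)⟩, ?_⟩
      rw [(hg n).2]
      rw [Set.mem_singleton_iff] at hW
      rw [← hW]
      exact hFW hx

end Pool.Agent.Q154.FSigmaCovers
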