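import Pool.Agent.Q154.GaussTheta

set_option autoImplicit false

/-!
The Fisher information functional is unbounded on unimodular lattices.
-/

open Real Set Filter Topology MeasureTheory

namespace Pool.Agent.Q154.GaussFisher

open GaussTheta

/-- Euclidean space. -/
abbrev E (d : ℕ) := EuclideanSpace ℝ (Fin d)

/-- The translated theta function of the lattice with basis `u`. -/
noncomputable def theta {d : ℕ} (u : Fin d → E d) (α : ℝ) (y : E d) : ℝ :=
  ∑' k : Fin d → ℤ, rexp (-π * α * ‖(∑ i, (k i : ℝ) • u i) + y‖ ^ 2)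

/-- The density. -/
noncomputable def Q {d : ℕ} (u : Fin d → E d) (α : ℝ) (y : E d) : ℝ :=
  ‖gradient (fun z => √(theta u α z)) y‖ ^ 2

/-- The functional. -/
noncomputable def F {d : ℕ} (α R : ℝ) (u : Fin d → E d) : ℝ :=
  ∫ y in Metric.closedBall (0 : E d) R, Q u α y

/-- Products of sums over the integers. -/
theorem hasSum_pi {d : ℕ} (f : Fin d → ℤ → ℝ) (hf : ∀ i n, 0 ≤ f i n)
    (hs : ∀ i, Summable (f i)) :
    HasSum (fun k : Fin d → ℤ => ∏ i, f i (k i)) (∏ i, ∑' n, f i n) := by
  induction d with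
  | zero =>
    simp only [Finset.univ_eq_empty, Finset.prod_empty]
    exact hasSum_unique (fun _ : Fin 0 → ℤ => (1 : ℝ))
  | succ d ih =>
    have h1 := ih (fun i => f i.succ) (fun i n => hf _ n) (fun i => hs _)
    have h2 : HasSum (fun x : ℤ × (Fin d → ℤ) => f 0 x.1 * ∏ i : Fin d, f i.succ (x.2 i))
        ((∑' n, f 0 n) * ∏ i : Fin d, ∑' n, f i.succ n) := by
      have h4 : Summable (fun k : Fin d → ℤ => ∏ i : Fin d, f i.succ (k i)) := h1.summable
      have h5 : Summable (fun x : ℤ × (Fin d → ℤ) => f 0 x.1 * ∏ i : Fin d, f i.succ (x.2 i)) :=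
        Summable.mul_of_nonneg (f := f 0) (g := fun k : Fin d → ℤ => ∏ i : Fin d, f i.succ (k i))
          (hs 0) h4 (fun n => hf 0 n) (fun k => Finset.prod_nonneg fun i _ => hf i.succ (k i))
      exact HasSum.mul (f := f 0) (g := fun k : Fin d → ℤ => ∏ i : Fin d, f i.succ (k i))
        (hs 0).hasSum h1 h5
    rw [Fin.prod_univ_succ]
    have h3 := (Fin.consEquiv (fun _ : Fin (d + 1) => ℤ)).hasSum_iff
      (f := fun k : Fin (d + 1) → ℤ => ∏ i, f i (k i))
      (a := (∑' n, f 0 n) * ∏ i : Fin d, ∑' n, f i.succ n)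
    refine h3.1 ?_
    refine h2.congr_fun ?_
    rintro ⟨n, k⟩
    simp [Fin.prod_univ_succ, Fin.consEquiv]

/-- The diagonal basis. -/
noncomputable def diag {d : ℕ} (t : Fin d → ℝ) (i : Fin d) : E d := EuclideanSpace.single i (t i)

theorem theta_diag {d : ℕ} {t : Fin d → ℝ} (ht : ∀ i, 0 < t i) {α : ℝ} (hα : 0 < α) (y : E d) :
    theta (diag t) α y = ∏ i, th α (t i) (y i) := by
  have h := hasSum_pi (fun i n => rexp (-π * α * (t i * n + y i) ^ 2)) (fun i n => (exp_pos _).le)
    (fun i => summable_th hα (ht i) (y i))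
  unfold theta th
  rw [← h.tsum_eq]
  refine tsum_congr fun k => ?_
  rw [← Real.exp_sum]
  congr 1
  rw [EuclideanSpace.real_norm_sq_eq, Finset.mul_sum]
  refine Finset.sum_congr rfl fun i _ => ?_
  congr 2
  simp only [diag, PiLp.add_apply]
  congr 1
  have key : (∑ j, (k j : ℝ) • EuclideanSpace.single j (t j) : E d) i = k i * t i := by
    simp only [WithLp.ofLp_sum, WithLp.ofLp_smul, Finset.sum_apply, Pi.smul_apply,
      PiLp.single_apply, smul_eq_mul]
    rw [Finset.sum_eq_single i]
    · rw [if_pos rfl]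
    · intro j _ hj
      rw [if_neg (Ne.symm hj), mul_zero]
    · intro h; exact absurd (Finset.mem_univ i) h
  rw [key, mul_comm]

theorem sqrt_theta {d : ℕ} {t : Fin d → ℝ} (ht : ∀ i, 0 < t i) {α : ℝ} (hα : 0 < α) :
    (fun y => √(theta (diag t) α y)) = fun y : E d => ∏ i, s α (t i) (y i) := by
  funext y
  rw [theta_diag ht hα]
  exact Real.sqrt_prod _ fun i _ => (th_pos hα (ht i) _).le

theorem contDiff_g {d : ℕ} {t : Fin d → ℝ} (ht : ∀ i, 0 < t i) {α : ℝ} (hα : 0 < α) :
    ContDiff ℝ 1 (fun y : E d => ∏ i, s α (t i) (y i)) := by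
  apply contDiff_prod
  intro i _
  exact (contDiff_s hα (ht i)).comp (by fun_prop)

theorem Q_eq {d : ℕ} {t : Fin d → ℝ} (ht : ∀ i, 0 < t i) {α : ℝ} (hα : 0 < α) (y : E d) :
    Q (diag t) α y = ‖fderiv ℝ (fun y : E d => ∏ i, s α (t i) (y i)) y‖ ^ 2 := by
  rw [Q, sqrt_theta ht hα, gradient, LinearIsometryEquiv.norm_map]

theorem Q_continuous {d : ℕ} {t : Fin d → ℝ} (ht : ∀ i, 0 < t i) {α : ℝ} (hα : 0 < α) :
    Continuous (Q (diag t) α) := by
  have h : Q (diag t) α = fun y => ‖fderiv ℝ (fun y : E d => ∏ i, s α (t i) (y i)) y‖ ^ 2 :=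
    funext (Q_eq ht hα)
  rw [h]
  exact (((contDiff_g ht hα).continuous_fderiv one_ne_zero).norm).pow 2

/-- The lower bound for the density by a partial derivative. -/
theorem Q_lower {d : ℕ} {t : Fin d → ℝ} (ht : ∀ i, 0 < t i) {α : ℝ} (hα : 0 < α) (y : E d)
    (j : Fin d) :
    (deriv (s α (t j)) (y j)) ^ 2 * ∏ i ∈ Finset.univ.erase j, th α (t i) (y i) ≤
      Q (diag t) α y := by
  rw [Q_eq ht hα]
  set g := fun y : E d => ∏ i, s α (t i) (y i) with hg
  set e : E d := EuclideanSpace.single j 1 with he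
  have hdiff : DifferentiableAt ℝ g y := (contDiff_g ht hα).differentiable one_ne_zero y
  have h1 : HasDerivAt (fun τ : ℝ => g (y + τ • e)) (fderiv ℝ g y e) 0 :=
    hdiff.hasFDerivAt.hasLineDerivAt e
  have h2 : (fun τ : ℝ => g (y + τ • e)) = fun τ => s α (t j) (y j + τ) *
      ∏ i ∈ Finset.univ.erase j, s α (t i) (y i) := by
    funext τ
    simp only [hg]
    rw [← Finset.mul_prod_erase _ _ (Finset.mem_univ j)]
    congr 1
    · simp [he]
    · refine Finset.prod_congr rfl fun i hi => ?_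
      have hij : i ≠ j := (Finset.mem_erase.1 hi).1
      simp [he, hij]
  have h3 : HasDerivAt (fun τ : ℝ => s α (t j) (y j + τ)) (deriv (s α (t j)) (y j)) 0 := by
    have hd : HasDerivAt (s α (t j)) (deriv (s α (t j)) (y j + 0)) (y j + 0) :=
      ((contDiff_s hα (ht j)).differentiable one_ne_zero _).hasDerivAt
    have h4 := hd.comp_const_add (y j) 0
    simpa using h4
  have h5 := h3.mul_const (∏ i ∈ Finset.univ.erase j, s α (t i) (y i))
  rw [h2] at h1
  have h6 := h1.unique h5
  have h7 : |fderiv ℝ g y e| ≤ ‖fderiv ℝ g y‖ := by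
    have := (fderiv ℝ g y).le_opNorm e
    rw [he, PiLp.norm_single, norm_one, mul_one, Real.norm_eq_abs] at this
    exact this
  have h8 : (∏ i ∈ Finset.univ.erase j, s α (t i) (y i)) ^ 2 =
      ∏ i ∈ Finset.univ.erase j, th α (t i) (y i) := by
    rw [← Finset.prod_pow]
    exact Finset.prod_congr rfl fun i _ => s_sq hα (ht i) _
  rw [← h8, ← mul_pow, ← h6, ← sq_abs]
  exact pow_le_pow_left₀ (abs_nonneg _) h7 2

/-- The one-dimensional energy estimate. -/
theorem energy {f : ℝ → ℝ} (hf : ContDiff ℝ 1 f) {ρ : ℝ} (hρ : 0 < ρ) :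
    (f 0 - f ρ) ^ 2 / ρ ≤ ∫ x in Icc (-ρ) ρ, (deriv f x) ^ 2 := by
  have hc : Continuous (deriv f) := hf.continuous_deriv le_rfl
  have hint : ∀ a b : ℝ, IntegrableOn (fun x => (deriv f x) ^ 2) (Icc a b) := fun a b =>
    (hc.pow 2).continuousOn.integrableOn_compact isCompact_Icc
  have h1 : ∫ x in Icc 0 ρ, (deriv f x) ^ 2 ≤ ∫ x in Icc (-ρ) ρ, (deriv f x) ^ 2 := by
    apply setIntegral_mono_set (hint _ _)
    · exact Eventually.of_forall fun x => sq_nonneg _
    · exact (Icc_subset_Icc_left (by linarith)).eventuallyLE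
  refine le_trans ?_ h1
  rw [integral_Icc_eq_integral_Ioc, ← intervalIntegral.integral_of_le hρ.le]
  set l : ℝ := (f ρ - f 0) / ρ with hl
  have h2 : ∫ x in (0 : ℝ)..ρ, (2 * l * deriv f x - l ^ 2) ≤ ∫ x in (0 : ℝ)..ρ, (deriv f x) ^ 2 := by
    apply intervalIntegral.integral_mono_on hρ.le
    · exact ((continuous_const.mul hc).sub continuous_const).intervalIntegrable _ _
    · exact (hc.pow 2).intervalIntegrable _ _
    · intro x _
      nlinarith [sq_nonneg (deriv f x - l)]
  refine le_trans (le_of_eq ?_) h2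
  rw [intervalIntegral.integral_sub, intervalIntegral.integral_const_mul,
    intervalIntegral.integral_deriv_eq_sub, intervalIntegral.integral_const]
  · rw [hl]
    simp only [smul_eq_mul, sub_zero]
    field_simp
    ring
  · intro x _
    exact (hf.differentiable one_ne_zero) x
  · exact hc.intervalIntegrable _ _
  · exact (continuous_const.mul hc).intervalIntegrable _ _
  · exact continuous_const.intervalIntegrable _ _

/-- The sequence of side lengths. -/
noncomputable def tt (m N : ℕ) (i : Fin (m + 2)) : ℝ :=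
  if i = 0 then 1 / (N + 1 : ℕ) else if i = 1 then (N + 1 : ℝ) else 1

theorem tt_pos (m N : ℕ) (i : Fin (m + 2)) : 0 < tt m N i := by
  unfold tt
  split_ifs <;> positivity

/-- The lower bound for the functional. -/
theorem F_lower {α R : ℝ} (hα : 0 < α) (hR : 0 < R) (m N : ℕ) {δ : ℝ}
    (hδ : δ ≤ (s α (N + 1 : ℝ) 0 - s α (N + 1 : ℝ) (R / (m + 2))) ^ 2 / (R / (m + 2)))
    (_hδ0 : 0 ≤ δ) :
    ((N + 1 : ℕ) : ℝ) * (rexp (-π * α * (1 + R) ^ 2)) ^ (m + 1) *
      (δ * (2 * (R / (m + 2))) ^ (m + 1)) ≤ F α R (diag (tt m N)) := by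
  set ρ : ℝ := R / (m + 2) with hρ
  have hρ0 : 0 < ρ := by positivity
  have hρR : ρ ≤ R := by
    rw [hρ, div_le_iff₀ (by positivity)]
    have : (0 : ℝ) ≤ m := Nat.cast_nonneg m
    nlinarith
  set c : ℝ := rexp (-π * α * (1 + R) ^ 2) with hc
  have hc0 : 0 < c := exp_pos _
  set K : ℝ := ((N + 1 : ℕ) : ℝ) * c ^ (m + 1) with hK
  have hK0 : 0 < K := by positivity
  have ht1 : tt m N 1 = (N + 1 : ℝ) := by
    unfold tt
    rw [if_neg (by simp), if_pos rfl]
  -- the comparison function
  let h : Fin (m + 2) → ℝ → ℝ := fun i => (Icc (-ρ) ρ).indicator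
    (fun x => if i = 1 then (deriv (s α (tt m N 1)) x) ^ 2 else 1)
  have hder : Continuous (deriv (s α (tt m N 1))) :=
    (contDiff_s hα (tt_pos m N 1)).continuous_deriv le_rfl
  have hhint : ∀ i, Integrable (h i) := by
    intro i
    rw [integrable_indicator_iff measurableSet_Icc]
    apply ContinuousOn.integrableOn_compact isCompact_Icc
    by_cases hi : i = 1
    · simp only [hi, if_true]
      exact (hder.pow 2).continuousOn
    · simp only [hi, if_false]
      exact continuousOn_const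
  have hh0 : ∀ i x, 0 ≤ h i x := by
    intro i x
    apply indicator_nonneg
    intro x _
    split_ifs
    · positivity
    · norm_num
  have hpi : ∫ y : E (m + 2), ∏ i, h i (y i) = ∏ i, ∫ x, h i x := by
    rw [← integral_fintype_prod_volume_eq_prod]
    have := (EuclideanSpace.volume_preserving_symm_measurableEquiv_toLp (Fin (m + 2))).integral_comp'
      (fun x : Fin (m + 2) → ℝ => ∏ i, h i (x i))
    exact this
  have hint : Integrable (fun y : E (m + 2) => ∏ i, h i (y i)) := by
    have h1 : Integrable (fun x : Fin (m + 2) → ℝ => ∏ i, h i (x i)) :=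
      Integrable.fintype_prod hhint
    exact ((EuclideanSpace.volume_preserving_symm_measurableEquiv_toLp
      (Fin (m + 2))).integrable_comp_emb (MeasurableEquiv.measurableEmbedding _)).2 h1
  have hi1 : ∀ i, i ≠ 1 → ∫ x, h i x = 2 * ρ := by
    intro i hi
    simp only [h, hi, if_false]
    rw [integral_indicator measurableSet_Icc, setIntegral_const]
    simp only [smul_eq_mul, mul_one]
    rw [Measure.real, Real.volume_Icc, ENNReal.toReal_ofReal (by linarith)]
    ring
  have hi2 : δ ≤ ∫ x, h 1 x := by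
    simp only [h, if_true]
    rw [integral_indicator measurableSet_Icc]
    refine hδ.trans ?_
    rw [ht1]
    exact energy (contDiff_s hα (by positivity)) hρ0
  have hprod : δ * (2 * ρ) ^ (m + 1) ≤ ∏ i, ∫ x, h i x := by
    rw [← Finset.mul_prod_erase _ _ (Finset.mem_univ (1 : Fin (m + 2)))]
    have h1 : ∏ i ∈ Finset.univ.erase (1 : Fin (m + 2)), ∫ x, h i x = (2 * ρ) ^ (m + 1) := by
      rw [Finset.prod_congr rfl fun i hi => hi1 i (Finset.mem_erase.1 hi).1, Finset.prod_const,
        Finset.card_erase_of_mem (Finset.mem_univ _), Finset.card_univ, Fintype.card_fin]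
      rfl
    rw [h1]
    exact mul_le_mul_of_nonneg_right hi2 (by positivity)
  have hmain : ∀ y : E (m + 2), K * ∏ i, h i (y i) ≤
      (Metric.closedBall (0 : E (m + 2)) R).indicator (Q (diag (tt m N)) α) y := by
    intro y
    by_cases hy : ∀ i, y i ∈ Icc (-ρ) ρ
    · have hyB : y ∈ Metric.closedBall (0 : E (m + 2)) R := by
        rw [mem_closedBall_zero_iff]
        have h1 : ‖y‖ ^ 2 ≤ R ^ 2 := by
          rw [EuclideanSpace.real_norm_sq_eq]
          calc ∑ i, (y i) ^ 2 ≤ ∑ _i : Fin (m + 2), ρ ^ 2 := by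
                refine Finset.sum_le_sum fun i _ => ?_
                rw [← sq_abs]
                exact pow_le_pow_left₀ (abs_nonneg _) (abs_le.2 (hy i)) 2
            _ = (m + 2) * ρ ^ 2 := by
                rw [Finset.sum_const, Finset.card_univ, Fintype.card_fin, nsmul_eq_mul]
                push_cast; ring
            _ ≤ R ^ 2 := by
                have e : (m + 2 : ℝ) * ρ = R := by rw [hρ]; field_simp
                calc (m + 2) * ρ ^ 2 = ((m + 2) * ρ) * ρ := by ring
                  _ = R * ρ := by rw [e]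
                  _ ≤ R ^ 2 := by nlinarith
        exact abs_le_of_sq_le_sq' h1 hR.le |>.2
      rw [indicator_of_mem hyB]
      refine le_trans ?_ (Q_lower (tt_pos m N) hα y 1)
      rw [← Finset.mul_prod_erase _ _ (Finset.mem_univ (1 : Fin (m + 2)))]
      have h1 : h 1 (y 1) = (deriv (s α (tt m N 1)) (y 1)) ^ 2 := by
        simp only [h, if_true]
        rw [indicator_of_mem (hy 1)]
      have h2 : ∏ i ∈ Finset.univ.erase (1 : Fin (m + 2)), h i (y i) = 1 := by
        refine Finset.prod_eq_one fun i hi => ?_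
        simp only [h]
        rw [indicator_of_mem (hy i), if_neg (Finset.mem_erase.1 hi).1]
      rw [h1, h2, mul_one, mul_comm]
      apply mul_le_mul_of_nonneg_left _ (sq_nonneg _)
      have h3 : K = ∏ i ∈ Finset.univ.erase (1 : Fin (m + 2)),
          (if i = 0 then ((N + 1 : ℕ) : ℝ) else 1) * c := by
        rw [Finset.prod_mul_distrib, Finset.prod_const,
          Finset.card_erase_of_mem (Finset.mem_univ _), Finset.card_univ, Fintype.card_fin,
          Finset.prod_ite_eq', if_pos (by simp)]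
        rfl
      rw [h3]
      refine Finset.prod_le_prod (fun i _ => ?_) fun i hi => ?_
      · split_ifs <;> positivity
      · have hyi : |y i| ≤ R := (abs_le.2 (hy i)).trans hρR
        by_cases hi0 : i = 0
        · subst hi0
          simp only [if_true]
          have e : tt m N 0 = 1 / ((N + 1 : ℕ) : ℝ) := by unfold tt; rw [if_pos rfl]
          rw [e]
          exact dense_bound hα (Nat.succ_pos N) hyi
        · rw [if_neg hi0, one_mul]
          exact one_bound hα (tt_pos m N i) hyi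
    · have h1 : ∏ i, h i (y i) = 0 := by
        push Not at hy
        obtain ⟨i, hi⟩ := hy
        exact Finset.prod_eq_zero (Finset.mem_univ i) (indicator_of_notMem hi _)
      rw [h1, mul_zero]
      exact indicator_nonneg (fun _ _ => sq_nonneg _) y
  have hQint : Integrable ((Metric.closedBall (0 : E (m + 2)) R).indicator
      (Q (diag (tt m N)) α)) := by
    rw [integrable_indicator_iff Metric.isClosed_closedBall.measurableSet]
    exact (Q_continuous (tt_pos m N) hα).continuousOn.integrableOn_compact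
      (isCompact_closedBall _ _)
  calc K * (δ * (2 * ρ) ^ (m + 1)) ≤ K * ∏ i, ∫ x, h i x :=
        mul_le_mul_of_nonneg_left hprod hK0.le
    _ = ∫ y : E (m + 2), K * ∏ i, h i (y i) := by rw [integral_const_mul, hpi]
    _ ≤ ∫ y, (Metric.closedBall (0 : E (m + 2)) R).indicator (Q (diag (tt m N)) α) y :=
        integral_mono (hint.const_mul K) hQint hmain
    _ = F α R (diag (tt m N)) := by
        rw [integral_indicator Metric.isClosed_closedBall.measurableSet]; rfl

/-- The functional is unbounded. -/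
theorem unbounded {α R : ℝ} (hα : 0 < α) (hR : 0 < R) (m : ℕ) (C : ℝ) :
    ∃ N : ℕ, C < F α R (diag (tt m N)) := by
  set ρ : ℝ := R / (m + 2) with hρ
  have hρ0 : 0 < ρ := by positivity
  have hlt : rexp (-π * α * ρ ^ 2) < 1 := by
    rw [Real.exp_lt_one_iff]
    have : 0 < π * α * ρ ^ 2 := by positivity
    linarith
  obtain ⟨κ, hκ1, hκ2⟩ := exists_between hlt
  have hκ0 : 0 < κ := (exp_pos _).trans hκ1
  have hsκ : √κ < 1 := by rw [Real.sqrt_lt' one_pos]; linarith
  set δ : ℝ := (1 - √κ) ^ 2 / ρ with hδ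
  have hδ0 : 0 < δ := by
    have : 0 < 1 - √κ := by linarith
    positivity
  set A : ℝ := (rexp (-π * α * (1 + R) ^ 2)) ^ (m + 1) * (δ * (2 * ρ) ^ (m + 1)) with hA
  have hA0 : 0 < A := by positivity
  have hev1 : ∀ᶠ N : ℕ in atTop, th α (N + 1 : ℝ) ρ < κ :=
    (sparse_limit hα hρ0).eventually_lt_const hκ1
  have hev2 : ∀ᶠ N : ℕ in atTop, C / A < (N : ℝ) :=
    tendsto_natCast_atTop_atTop.eventually_gt_atTop _
  obtain ⟨N, hN1, hN2⟩ := (hev1.and hev2).exists
  refine ⟨N, ?_⟩
  have hN0 : (0 : ℝ) < N + 1 := by positivity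
  have h1 : s α (N + 1 : ℝ) ρ ≤ √κ := Real.sqrt_le_sqrt hN1.le
  have h2 : 1 ≤ s α (N + 1 : ℝ) 0 := by
    unfold s
    rw [Real.one_le_sqrt]
    exact th_zero hα hN0
  have h3 : δ ≤ (s α (N + 1 : ℝ) 0 - s α (N + 1 : ℝ) (R / (m + 2))) ^ 2 / (R / (m + 2)) := by
    rw [hδ]
    apply div_le_div_of_nonneg_right _ hρ0.le
    apply pow_le_pow_left₀ (by linarith)
    linarith
  have h4 := F_lower hα hR m N h3 hδ0.le
  refine lt_of_lt_of_le ?_ h4
  rw [div_lt_iff₀ hA0] at hN2
  have h5 : ((N + 1 : ℕ) : ℝ) * (rexp (-π * α * (1 + R) ^ 2)) ^ (m + 1) *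
      (δ * (2 * (R / (m + 2))) ^ (m + 1)) = (N + 1) * A := by
    rw [hA]; push_cast; ring
  rw [h5]
  nlinarith

theorem prod_tt (m N : ℕ) : ∏ i, tt m N i = 1 := by
  have h : ∀ i : Fin m, tt m N i.succ.succ = 1 := by
    intro i
    unfold tt
    rw [if_neg (Fin.succ_ne_zero _), if_neg]
    intro h
    have := congrArg Fin.val h
    simp at this
  rw [Fin.prod_univ_succ, Fin.prod_univ_succ, Finset.prod_eq_one fun i _ => h i]
  have h0 : tt m N 0 = 1 / ((N + 1 : ℕ) : ℝ) := by unfold tt; rw [if_pos rfl]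
  have h1 : tt m N (Fin.succ 0) = (N + 1 : ℝ) := by
    have e : (Fin.succ 0 : Fin (m + 2)) = 1 := rfl
    unfold tt
    rw [if_neg (Fin.succ_ne_zero _), e]
    simp
  rw [h0, h1]
  push_cast
  field_simp

end Pool.Agent.Q154.GaussFisher
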