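import Mathlib.NumberTheory.ModularForms.JacobiTheta.TwoVariable
import Mathlib.Analysis.Calculus.Gradient.Basic
import Mathlib.Analysis.SpecialFunctions.Sqrt
import Mathlib.Analysis.Complex.RealDeriv
import Mathlib.Analysis.Complex.CauchyIntegral
import Mathlib.MeasureTheory.Integral.Pi
import Mathlib.MeasureTheory.Measure.Haar.InnerProductSpace
import Mathlib.MeasureTheory.Integral.IntervalIntegral.FundThmCalculus
import Mathlib.Analysis.InnerProductSpace.PiL2
import Mathlib.LinearAlgebra.Matrix.Determinant.Basic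
import Mathlib.Analysis.Normed.Group.Tannery
import Mathlib.Tactic

set_option autoImplicit false

/-!
One-dimensional Gaussian lattice sums.
-/

open Real Set Filter Topology

namespace Pool.Agent.Q154.GaussTheta

/-- The one-dimensional theta function. -/
noncomputable def th (α t x : ℝ) : ℝ := ∑' n : ℤ, rexp (-π * α * (t * n + x) ^ 2)

/-- The complex version. -/
noncomputable def G (α t : ℝ) (z : ℂ) : ℂ :=
  Complex.exp (-π * α * z ^ 2) * jacobiTheta₂ (Complex.I * α * t * z) (Complex.I * (α * t ^ 2 : ℝ))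

theorem im_pos {α t : ℝ} (hα : 0 < α) (ht : 0 < t) :
    0 < (Complex.I * ((α * t ^ 2 : ℝ) : ℂ)).im := by
  rw [Complex.I_mul_im, Complex.ofReal_re]
  positivity

theorem hasSum_G {α t : ℝ} (hα : 0 < α) (ht : 0 < t) (x : ℝ) :
    HasSum (fun n : ℤ => ((rexp (-π * α * (t * n + x) ^ 2) : ℝ) : ℂ)) (G α t x) := by
  have h := (hasSum_jacobiTheta₂_term (Complex.I * α * t * x) (im_pos hα ht)).mul_left
    (Complex.exp (-π * α * (x : ℂ) ^ 2))
  have e : (fun n : ℤ => ((rexp (-π * α * (t * n + x) ^ 2) : ℝ) : ℂ)) = fun n : ℤ =>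
      Complex.exp (-π * α * (x : ℂ) ^ 2) *
        jacobiTheta₂_term n (Complex.I * α * t * x) (Complex.I * ((α * t ^ 2 : ℝ) : ℂ)) := ?_
  · rw [e]; exact h
  funext n
  rw [jacobiTheta₂_term, ← Complex.exp_add, Complex.ofReal_exp]
  congr 1
  push_cast
  have hI : Complex.I ^ 2 = -1 := Complex.I_sq
  linear_combination (-(2 * π * n * α * t * x) - π * n ^ 2 * α * t ^ 2 : ℂ) * hI

theorem summable_th {α t : ℝ} (hα : 0 < α) (ht : 0 < t) (x : ℝ) :
    Summable (fun n : ℤ => rexp (-π * α * (t * n + x) ^ 2)) := by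
  have h := (hasSum_G hα ht x).summable
  exact Complex.summable_ofReal.1 h

theorem th_eq_G {α t : ℝ} (hα : 0 < α) (ht : 0 < t) (x : ℝ) : th α t x = (G α t x).re := by
  have h1 := (summable_th hα ht x).hasSum
  have h2 : HasSum (fun n : ℤ => ((rexp (-π * α * (t * n + x) ^ 2) : ℝ) : ℂ))
      ((th α t x : ℝ) : ℂ) := Complex.hasSum_ofReal.2 h1
  rw [(hasSum_G hα ht x).unique h2, Complex.ofReal_re]

theorem th_pos {α t : ℝ} (hα : 0 < α) (ht : 0 < t) (x : ℝ) : 0 < th α t x :=
  (summable_th hα ht x).tsum_pos (fun _ => (exp_pos _).le) 0 (exp_pos _)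

theorem le_th {α t : ℝ} (hα : 0 < α) (ht : 0 < t) (x : ℝ) (s : Finset ℤ) :
    ∑ n ∈ s, rexp (-π * α * (t * n + x) ^ 2) ≤ th α t x :=
  (summable_th hα ht x).sum_le_tsum s fun _ _ => (exp_pos _).le

theorem contDiff_th {α t : ℝ} (hα : 0 < α) (ht : 0 < t) : ContDiff ℝ 1 (th α t) := by
  have hG : Differentiable ℂ (G α t) := by
    intro z
    apply DifferentiableAt.mul
    · fun_prop
    · exact (differentiableAt_jacobiTheta₂_fst _ (im_pos hα ht)).comp z (by fun_prop)
  have h1 : ContDiff ℝ 1 fun x : ℝ => (G α t x).re := hG.contDiff.real_of_complex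
  have h2 : th α t = fun x : ℝ => (G α t x).re := funext fun x => th_eq_G hα ht x
  rw [h2]
  exact h1

/-- The square root. -/
noncomputable def s (α t x : ℝ) : ℝ := √(th α t x)

theorem contDiff_s {α t : ℝ} (hα : 0 < α) (ht : 0 < t) : ContDiff ℝ 1 (s α t) :=
  (contDiff_th hα ht).sqrt fun x => (th_pos hα ht x).ne'

theorem s_sq {α t : ℝ} (hα : 0 < α) (ht : 0 < t) (x : ℝ) : s α t x ^ 2 = th α t x :=
  Real.sq_sqrt (th_pos hα ht x).le

theorem s_pos {α t : ℝ} (hα : 0 < α) (ht : 0 < t) (x : ℝ) : 0 < s α t x :=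
  Real.sqrt_pos.2 (th_pos hα ht x)

/-- Lower bound in the dense direction. -/
theorem dense_bound {α : ℝ} (hα : 0 < α) {N : ℕ} (hN : 0 < N) {R x : ℝ} (hx : |x| ≤ R) :
    N * rexp (-π * α * (1 + R) ^ 2) ≤ th α (1 / N) x := by
  have hN' : (0 : ℝ) < N := by exact_mod_cast hN
  refine le_trans ?_ (le_th hα (by positivity : (0 : ℝ) < 1 / N) x
    ((Finset.range N).map Nat.castEmbedding))
  rw [Finset.sum_map]
  have h1 : (N : ℝ) * rexp (-π * α * (1 + R) ^ 2) =
      ∑ m ∈ Finset.range N, rexp (-π * α * (1 + R) ^ 2) := by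
    rw [Finset.sum_const, Finset.card_range, nsmul_eq_mul]
  rw [h1]
  refine Finset.sum_le_sum fun m hm => ?_
  apply Real.exp_le_exp.2
  rw [Finset.mem_range] at hm
  have hm' : (m : ℝ) ≤ N := by exact_mod_cast hm.le
  have h2 : |1 / (N : ℝ) * ((m : ℤ) : ℝ) + x| ≤ 1 + R := by
    refine (abs_add_le _ _).trans (add_le_add ?_ hx)
    push_cast
    rw [abs_of_nonneg (by positivity), one_div, inv_mul_le_iff₀ hN']
    linarith
  have h3 : (1 / (N : ℝ) * ((m : ℤ) : ℝ) + x) ^ 2 ≤ (1 + R) ^ 2 := by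
    rw [← sq_abs]
    exact pow_le_pow_left₀ (abs_nonneg _) h2 2
  have h4 : 0 < π * α := by positivity
  rw [Nat.castEmbedding_apply]
  nlinarith

/-- Lower bound for the lattice of step one. -/
theorem one_bound {α : ℝ} (hα : 0 < α) {t : ℝ} (ht : 0 < t) {R x : ℝ} (hx : |x| ≤ R) :
    rexp (-π * α * (1 + R) ^ 2) ≤ th α t x := by
  refine le_trans ?_ (le_th hα ht x {0})
  rw [Finset.sum_singleton]
  apply Real.exp_le_exp.2
  have h1 : x ^ 2 ≤ (1 + R) ^ 2 := by
    rw [← sq_abs]
    exact pow_le_pow_left₀ (abs_nonneg _) (by linarith) 2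
  have h4 : 0 < π * α := by positivity
  push_cast
  rw [mul_zero, zero_add]
  nlinarith

theorem th_zero {α : ℝ} (hα : 0 < α) {t : ℝ} (ht : 0 < t) : 1 ≤ th α t 0 := by
  refine le_trans ?_ (le_th hα ht 0 {0})
  rw [Finset.sum_singleton]
  simp

/-- The sparse direction. -/
theorem sparse_limit {α : ℝ} (hα : 0 < α) {ρ : ℝ} (hρ0 : 0 < ρ) :
    Tendsto (fun N : ℕ => th α (N + 1 : ℝ) ρ) atTop (𝓝 (rexp (-π * α * ρ ^ 2))) := by
  have hlim : ∑' n : ℤ, (if n = 0 then rexp (-π * α * ρ ^ 2) else 0) = rexp (-π * α * ρ ^ 2) :=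
    tsum_ite_eq 0 _
  rw [← hlim]
  -- the dominating function
  have hpa : 0 < π * α := by positivity
  let bound : ℤ → ℝ := fun n => rexp (π * α * ρ ^ 2) * rexp (-π * (α / 2) * (1 * n + 0) ^ 2)
  have hbound : Summable bound := (summable_th (half_pos hα) one_pos 0).mul_left _
  refine tendsto_tsum_of_dominated_convergence hbound (fun n => ?_) ?_
  · by_cases hn : n = 0
    · subst hn
      simp
    · rw [if_neg hn]
      have h1 : Tendsto (fun N : ℕ => π * α * (((N : ℝ) + 1) * n + ρ) ^ 2) atTop atTop := by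
        apply Tendsto.const_mul_atTop hpa
        have hn' : (n : ℝ) ≠ 0 := by exact_mod_cast hn
        have h2 : Tendsto (fun N : ℕ => |((N : ℝ) + 1) * n + ρ|) atTop atTop := by
          have h3 : Tendsto (fun N : ℕ => ((N : ℝ) + 1) * |(n : ℝ)| - ρ) atTop atTop := by
            apply tendsto_atTop_add_const_right
            apply Tendsto.atTop_mul_const (abs_pos.2 hn')
            exact tendsto_atTop_add_const_right _ _ tendsto_natCast_atTop_atTop
          refine tendsto_atTop_mono (fun N => ?_) h3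
          have h4 := abs_sub_abs_le_abs_sub (((N : ℝ) + 1) * n) (-ρ)
          rw [abs_neg, abs_of_pos hρ0, abs_mul, abs_of_pos (by positivity : (0 : ℝ) < N + 1),
            sub_neg_eq_add] at h4
          exact h4
        have h5 := h2.atTop_mul_atTop₀ h2
        refine h5.congr fun N => ?_
        rw [← sq, sq_abs]
      have h6 := Real.tendsto_exp_neg_atTop_nhds_zero.comp h1
      refine h6.congr fun N => ?_
      simp only [Function.comp]
      congr 1
      ring
  · filter_upwards with N n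
    rw [Real.norm_eq_abs, abs_of_pos (exp_pos _)]
    simp only [bound]
    rw [← Real.exp_add]
    apply Real.exp_le_exp.2
    have hN : (1 : ℝ) ≤ ((N : ℝ) + 1) ^ 2 := by
      have : (0 : ℝ) ≤ N := Nat.cast_nonneg N
      nlinarith
    have h1 : (1 / 2) * ((n : ℝ)) ^ 2 - ρ ^ 2 ≤ (((N : ℝ) + 1) * n + ρ) ^ 2 := by
      have h2 : (n : ℝ) ^ 2 ≤ (((N : ℝ) + 1) * n) ^ 2 := by
        rw [mul_pow]
        nlinarith [sq_nonneg (n : ℝ)]
      nlinarith [sq_nonneg ((((N : ℝ) + 1) * n) + 2 * ρ)]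
    nlinarith

end Pool.Agent.Q154.GaussTheta
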