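import Mathlib.Topology.Separation.Regular
import Mathlib.Topology.Compactification.OnePoint.Basic
import Mathlib.Topology.UnitInterval
import Mathlib.Topology.Bases
import Mathlib.Topology.Separation.Basic
import Mathlib.Tactic

set_option autoImplicit false
set_option linter.unusedSectionVars false

/-!
A Urysohn space in which every open cover has a finite subfamily with dense union, and which is
not weakly Scheepers in the sense of Kočinac.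
-/

open Set Topology

namespace Pool.Agent.Q154.HClosedExample

variable (K κ : Type) [TopologicalSpace K] [CompactSpace K] [T2Space K] [TopologicalSpace κ]
  [DiscreteTopology κ] (q : ℕ → K)

/-- The underlying set: `κ` copies of `K` and a point at infinity. -/
def Sp (_ : ℕ → K) : Type := Option (K × κ)

variable {K κ q}

/-- A point of a copy. -/
def pt (x : K) (i : κ) : Sp K κ q := some (x, i)

/-- The point at infinity. -/
def inf : Sp K κ q := none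

theorem sp_cases (p : Sp K κ q) : p = inf ∨ ∃ x i, p = pt x i := by
  rcases p with _ | ⟨x, i⟩
  · exact Or.inl rfl
  · exact Or.inr ⟨x, i, rfl⟩

theorem pt_inj {x y : K} {i j : κ} : (pt x i : Sp K κ q) = pt y j ↔ x = y ∧ i = j := by
  constructor
  · intro h
    exact Prod.mk.inj (Option.some.inj (h : (some (x, i) : Option (K × κ)) = some (y, j)))
  · rintro ⟨rfl, rfl⟩
    rfl

theorem inf_ne (x : K) (i : κ) : (inf : Sp K κ q) ≠ pt x i := fun h => by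
  unfold inf pt at h
  exact Option.some_ne_none _ h.symm

/-- The finite set of the first points of the sequence. -/
def D (q : ℕ → K) (n : ℕ) : Set K := q '' Iic n

theorem D_mono {m n : ℕ} (h : m ≤ n) : D q m ⊆ D q n := image_mono (Iic_subset_Iic.2 h)

theorem D_finite (n : ℕ) : (D q n).Finite := (finite_Iic n).image _

/-- The topology. -/
instance : TopologicalSpace (Sp K κ q) where
  IsOpen U := (∀ x i, pt x i ∈ U → ∃ O : Set K, IsOpen O ∧ x ∈ O ∧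
      (∀ y ∈ O, y ∈ range q → pt y i ∈ U) ∧ (x ∉ range q → ∀ y ∈ O, pt y i ∈ U)) ∧
    (inf ∈ U → ∃ (I : Set κ) (n : ℕ), I.Finite ∧ ∀ i ∉ I, ∀ x ∉ D q n, pt x i ∈ U)
  isOpen_univ := ⟨fun x i _ => ⟨univ, isOpen_univ, trivial, fun _ _ _ => trivial,
    fun _ _ _ => trivial⟩, fun _ => ⟨∅, 0, finite_empty, fun _ _ _ _ => trivial⟩⟩
  isOpen_inter := by
    rintro U V ⟨hU1, hU2⟩ ⟨hV1, hV2⟩
    refine ⟨fun x i hx => ?_, fun hi => ?_⟩
    · obtain ⟨O, hO, hxO, h1, h2⟩ := hU1 x i hx.1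
      obtain ⟨O', hO', hxO', h3, h4⟩ := hV1 x i hx.2
      exact ⟨O ∩ O', hO.inter hO', ⟨hxO, hxO'⟩, fun y hy hq => ⟨h1 y hy.1 hq, h3 y hy.2 hq⟩,
        fun hxq y hy => ⟨h2 hxq y hy.1, h4 hxq y hy.2⟩⟩
    · obtain ⟨I, n, hI, h1⟩ := hU2 hi.1
      obtain ⟨I', n', hI', h2⟩ := hV2 hi.2
      refine ⟨I ∪ I', max n n', hI.union hI', fun i hi x hx => ⟨?_, ?_⟩⟩
      · exact h1 i (fun h => hi (Or.inl h)) x (fun h => hx (D_mono (le_max_left _ _) h))
      · exact h2 i (fun h => hi (Or.inr h)) x (fun h => hx (D_mono (le_max_right _ _) h))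
  isOpen_sUnion := by
    intro 𝒰 h
    refine ⟨?_, ?_⟩
    · rintro x i ⟨U, hU, hx⟩
      obtain ⟨O, hO, hxO, h1, h2⟩ := (h U hU).1 x i hx
      exact ⟨O, hO, hxO, fun y hy hq => ⟨U, hU, h1 y hy hq⟩, fun hxq y hy => ⟨U, hU, h2 hxq y hy⟩⟩
    · rintro ⟨U, hU, hi⟩
      obtain ⟨I, n, hI, h1⟩ := (h U hU).2 hi
      exact ⟨I, n, hI, fun i hi x hx => ⟨U, hU, h1 i hi x hx⟩⟩

theorem isOpen_iff {U : Set (Sp K κ q)} : IsOpen U ↔
    (∀ x i, pt x i ∈ U → ∃ O : Set K, IsOpen O ∧ x ∈ O ∧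
      (∀ y ∈ O, y ∈ range q → pt y i ∈ U) ∧ (x ∉ range q → ∀ y ∈ O, pt y i ∈ U)) ∧
    (inf ∈ U → ∃ (I : Set κ) (n : ℕ), I.Finite ∧ ∀ i ∉ I, ∀ x ∉ D q n, pt x i ∈ U) := Iff.rfl

/-- The map to the one-point compactification. -/
def toOne (p : Sp K κ q) : OnePoint (K × κ) := p

theorem continuous_toOne : Continuous (toOne : Sp K κ q → OnePoint (K × κ)) := by
  refine ⟨fun U hU => ?_⟩
  rw [isOpen_iff]
  rw [OnePoint.isOpen_def] at hU
  constructor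
  · intro x i hx
    have hx' : (x, i) ∈ ((↑) : K × κ → OnePoint (K × κ)) ⁻¹' U := hx
    obtain ⟨O, hO, W, hW, hxO, hiW, hsub⟩ : ∃ O : Set K, IsOpen O ∧ ∃ W : Set κ, IsOpen W ∧
        x ∈ O ∧ i ∈ W ∧ O ×ˢ W ⊆ ((↑) : K × κ → OnePoint (K × κ)) ⁻¹' U := by
      obtain ⟨O, W, hO, hW, h1, h2, h3⟩ := isOpen_prod_iff.1 hU.2 x i hx'
      exact ⟨O, hO, W, hW, h1, h2, h3⟩
    exact ⟨O, hO, hxO, fun y hy _ => hsub ⟨hy, hiW⟩, fun _ y hy => hsub ⟨hy, hiW⟩⟩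
  · intro hi
    have hC : IsCompact (((↑) : K × κ → OnePoint (K × κ)) ⁻¹' U)ᶜ := hU.1 hi
    have hC2 := hC.image continuous_snd
    refine ⟨Prod.snd '' (((↑) : K × κ → OnePoint (K × κ)) ⁻¹' U)ᶜ, 0, hC2.finite_of_discrete, ?_⟩
    intro i hi x _
    by_contra h
    exact hi ⟨(x, i), h, rfl⟩

instance : T25Space (Sp K κ q) :=
  T25Space.of_injective_continuous (f := (toOne : Sp K κ q → OnePoint (K × κ)))
    (fun _ _ h => h) continuous_toOne

variable [Infinite κ] [∀ x : K, Filter.NeBot (𝓝[≠] x)]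

theorem dense_diff (hq : DenseRange q) (n : ℕ) : Dense (range q \ D q n) :=
  Dense.sdiff_finite hq (D_finite n)

/-- The key dense sets. -/
theorem dense_points [Nonempty K] (hq : DenseRange q) (n : ℕ) :
    Dense {p : Sp K κ q | ∃ x i, x ∈ range q ∧ x ∉ D q n ∧ p = pt x i} := by
  rw [dense_iff_inter_open]
  intro G hG hne
  rw [isOpen_iff] at hG
  obtain ⟨p, hp⟩ := hne
  rcases sp_cases p with rfl | ⟨x, i, rfl⟩
  · obtain ⟨I, m, hI, h⟩ := hG.2 hp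
    obtain ⟨i, hi⟩ := hI.infinite_compl.nonempty
    obtain ⟨x, hx⟩ := (dense_diff hq (max m n)).nonempty
    refine ⟨pt x i, h i hi x (fun h' => hx.2 (D_mono (le_max_left _ _) h')), x, i, hx.1, ?_, rfl⟩
    exact fun h' => hx.2 (D_mono (le_max_right _ _) h')
  · obtain ⟨O, hO, hxO, h, _⟩ := hG.1 x i hp
    obtain ⟨y, hy1, hy2⟩ := (dense_diff hq n).inter_open_nonempty O hO ⟨x, hxO⟩
    exact ⟨pt y i, h y hy1 hy2.1, y, i, hy2.1, hy2.2, rfl⟩

/-- Every open cover has a finite subfamily with dense union. -/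
theorem almost_compact [Nonempty K] (hq : DenseRange q) (𝒰 : Set (Set (Sp K κ q)))
    (hU : ∀ U ∈ 𝒰, IsOpen U) (hcov : ⋃₀ 𝒰 = univ) : ∃ 𝒱 ⊆ 𝒰, 𝒱.Finite ∧ Dense (⋃₀ 𝒱) := by
  classical
  have hmem : ∀ p : Sp K κ q, ∃ U ∈ 𝒰, p ∈ U := by
    intro p
    have : p ∈ ⋃₀ 𝒰 := by rw [hcov]; trivial
    exact this
  choose U hU𝒰 hpU using hmem
  obtain ⟨I, n, hI, h⟩ := (isOpen_iff.1 (hU _ (hU𝒰 inf))).2 (hpU inf)
  have hslice : ∀ i : κ, ∃ 𝒱 ⊆ 𝒰, 𝒱.Finite ∧ ∀ x ∈ range q, pt x i ∈ ⋃₀ 𝒱 := by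
    intro i
    have hO : ∀ x : K, ∃ O : Set K, IsOpen O ∧ x ∈ O ∧
        (∀ y ∈ O, y ∈ range q → pt y i ∈ U (pt x i)) := by
      intro x
      obtain ⟨O, h1, h2, h3, _⟩ := (isOpen_iff.1 (hU _ (hU𝒰 (pt x i)))).1 x i (hpU _)
      exact ⟨O, h1, h2, h3⟩
    choose O hO hxO hOU using hO
    obtain ⟨t, ht⟩ := isCompact_univ.elim_finite_subcover O hO
      (fun x _ => mem_iUnion.2 ⟨x, hxO x⟩)
    refine ⟨(fun x => U (pt x i)) '' (t : Set K), ?_, t.finite_toSet.image _, ?_⟩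
    · rintro _ ⟨x, _, rfl⟩
      exact hU𝒰 _
    · intro y hy
      obtain ⟨x, hx, hyx⟩ := mem_iUnion₂.1 (ht (mem_univ y))
      exact ⟨_, ⟨x, hx, rfl⟩, hOU x y hyx hy⟩
  choose 𝒱 h𝒱 hfin hmem using hslice
  refine ⟨insert (U inf) (⋃ i ∈ I, 𝒱 i), ?_, ?_, ?_⟩
  · rintro V (rfl | hV)
    · exact hU𝒰 _
    · obtain ⟨i, _, hi⟩ := mem_iUnion₂.1 hV
      exact h𝒱 i hi
  · exact (hI.biUnion fun i _ => hfin i).insert _
  · refine (dense_points (κ := κ) hq n).mono ?_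
    rintro _ ⟨x, i, hx, hxn, rfl⟩
    by_cases hi : i ∈ I
    · obtain ⟨V, hV, hxV⟩ := hmem i x hx
      exact ⟨V, Or.inr (mem_iUnion₂.2 ⟨i, hi, hV⟩), hxV⟩
    · exact ⟨_, Or.inl rfl, h i hi x hxn⟩

end Pool.Agent.Q154.HClosedExample
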