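import Mathlib
import Pool.Agent.Q154.Gen

set_option autoImplicit false

/-!
Laver type recursions under CH: dominating families with prescribed combinatorial properties.
-/

open Set Filter

namespace Pool.Agent.Q154.Lv

open Gen CHT

/-- codes for sequences of open sets -/
abbrev Code : Type := ℕ → Set (List ℕ)

/-- the set of indices of the open sets containing `y` -/
def g (C : Code) (y : ℕ → ℕ) : Set ℕ := {m | ∃ n, pre y n ∈ C m}

/-- legal extensions of `s` -/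
def Leg (s : List ℕ) (φ : List ℕ → ℕ) : Set (ℕ → ℕ) :=
  {y | pre y s.length = s ∧ ∀ i, s.length ≤ i → φ (pre y i) ≤ y i}

/-- indices which can be reached -/
def R (C : Code) (s : List ℕ) (φ : List ℕ → ℕ) : Set ℕ := {m | ∃ y ∈ Leg s φ, m ∈ g C y}

/-- the bounded alternative -/
def P (C : Code) (s : List ℕ) : Prop :=
  ∃ f : ℕ → ℕ, ∀ φ, ∀ᶠ n in atTop, ∃ m ∈ R C s φ, n ≤ m ∧ m < f n

theorem pre_congr {x y : ℕ → ℕ} {n : ℕ} (h : ∀ i < n, x i = y i) : pre x n = pre y n := by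
  unfold pre
  exact List.map_congr_left fun i hi => h i (List.mem_range.1 hi)

theorem eq_of_pre {x y : ℕ → ℕ} {n : ℕ} (h : pre x n = pre y n) : ∀ i < n, x i = y i := by
  intro i hi
  have := congrArg (fun l => l.getD i 0) h
  simp only [getD_pre x hi, getD_pre y hi] at this
  exact this

theorem pre_succ (x : ℕ → ℕ) (n : ℕ) : pre x (n + 1) = pre x n ++ [x n] := by
  simp [pre, List.range_succ]

theorem exists_leg (s : List ℕ) (φ : List ℕ → ℕ) : (Leg s φ).Nonempty := by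
  let step : (i : ℕ) → ((j : ℕ) → j < i → ℕ) → ℕ := fun i f =>
    if i < s.length then s.getD i 0 else φ (List.ofFn fun j : Fin i => f j j.2)
  let y : ℕ → ℕ := fun i => Nat.strongRec (motive := fun _ => ℕ) step i
  have hy : ∀ i, y i = step i (fun j _ => y j) := by
    intro i
    simp only [y]
    rw [Nat.strongRec]
  have hof : ∀ i, (List.ofFn fun j : Fin i => y j) = pre y i := by
    intro i
    apply List.ext_getElem
    · simp
    · intro k h1 h2
      simp [pre]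
  refine ⟨y, ?_, ?_⟩
  · apply List.ext_getElem
    · simp
    · intro k h1 h2
      have h3 : y k = s.getD k 0 := by
        rw [hy k]
        simp only [step, if_pos h2]
      simp [pre, h3, h2]
  · intro i hi
    rw [hy i]
    simp only [step, if_neg (not_lt.2 hi), hof]
    exact le_rfl

theorem Leg_anti {s : List ℕ} {φ φ' : List ℕ → ℕ} (h : ∀ t, φ t ≤ φ' t) : Leg s φ' ⊆ Leg s φ :=
  fun _ hy => ⟨hy.1, fun i hi => (h _).trans (hy.2 i hi)⟩

theorem R_anti {C : Code} {s : List ℕ} {φ φ' : List ℕ → ℕ} (h : ∀ t, φ t ≤ φ' t) :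
    R C s φ' ⊆ R C s φ := fun _ ⟨y, hy, hm⟩ => ⟨y, Leg_anti h hy, hm⟩

theorem Leg_pre {s : List ℕ} {φ : List ℕ → ℕ} {y : ℕ → ℕ} (hy : y ∈ Leg s φ) {l : ℕ}
    (hl : s.length ≤ l) : Leg (pre y l) φ ⊆ Leg s φ := by
  intro z hz
  have h1 : ∀ i < l, z i = y i := eq_of_pre (by simpa using hz.1)
  refine ⟨?_, fun i hi => ?_⟩
  · rw [pre_congr fun i hi => h1 i (lt_of_lt_of_le hi hl)]
    exact hy.1
  · by_cases hil : i < l
    · rw [h1 i hil, pre_congr fun j hj => h1 j (hj.trans hil)]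
      exact hy.2 i hi
    · exact hz.2 i (by simpa using hil)

theorem R_pre {C : Code} {s : List ℕ} {φ : List ℕ → ℕ} {y : ℕ → ℕ} (hy : y ∈ Leg s φ) {l : ℕ}
    (hl : s.length ≤ l) : R C (pre y l) φ ⊆ R C s φ := fun _ ⟨z, hz, hm⟩ =>
  ⟨z, Leg_pre hy hl hz, hm⟩

theorem R_snoc {C : Code} {t : List ℕ} {φ : List ℕ → ℕ} {v : ℕ} (hv : φ t ≤ v) :
    R C (t ++ [v]) φ ⊆ R C t φ := by
  rintro m ⟨z, hz, hm⟩
  refine ⟨z, ⟨?_, fun i hi => ?_⟩, hm⟩
  · have h1 : pre z (t.length + 1) = t ++ [v] := by simpa using hz.1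
    rw [pre_succ] at h1
    exact (List.append_inj h1 (by simp)).1
  · have h1 : pre z (t.length + 1) = t ++ [v] := by simpa using hz.1
    rw [pre_succ] at h1
    have h2 := List.append_inj h1 (by simp)
    rcases hi.lt_or_eq with h | h
    · exact hz.2 i (by simpa using h)
    · subst h
      rw [h2.1]
      have h3 : z t.length = v := by simpa using h2.2
      rw [h3]; exact hv

theorem P_of_dense {C : Code} {s : List ℕ}
    (h : ∀ φ, ∃ y ∈ Leg s φ, ∃ l, s.length ≤ l ∧ P C (pre y l)) : P C s := by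
  classical
  let F : {t : List ℕ // P C t} → ℕ → ℕ := fun t => t.2.choose
  have hF : ∀ t : {t : List ℕ // P C t}, ∀ φ, ∀ᶠ n in atTop, ∃ m ∈ R C t.1 φ, n ≤ m ∧ m < F t n :=
    fun t => t.2.choose_spec
  obtain ⟨f, hf⟩ := exists_dominating F
  refine ⟨f, fun φ => ?_⟩
  obtain ⟨y, hy, l, hl, hP⟩ := h φ
  filter_upwards [hF ⟨_, hP⟩ φ, hf ⟨_, hP⟩] with n ⟨m, hm1, hm2, hm3⟩ hn
  exact ⟨m, R_pre hy hl hm1, hm2, hm3.trans_le hn⟩

/-- unavoidable indices -/
def N (C : Code) (s : List ℕ) : Set ℕ := {m | ∀ φ, m ∈ R C s φ}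

theorem N_finite {C : Code} {t : List ℕ} (h : ¬ P C t) : (N C t).Finite := by
  by_contra hinf
  apply h
  have hinf' : (N C t).Infinite := hinf
  choose f hf1 hf2 using fun n => hinf'.exists_gt n
  refine ⟨fun n => f n + 1, fun φ => Eventually.of_forall fun n => ?_⟩
  exact ⟨f n, hf1 n φ, (hf2 n).le, Nat.lt_succ_self _⟩

theorem exists_v0 {C : Code} {t : List ℕ} (h : ¬ P C t) :
    ∃ v0, ∀ v, v0 ≤ v → N C (t ++ [v]) ⊆ N C t := by
  classical
  by_contra hcon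
  push Not at hcon
  apply h
  have hstep : ∀ n, ∃ v m, n ≤ v ∧ n ≤ m ∧ m ∈ N C (t ++ [v]) := by
    intro n
    let ψ : ℕ → List ℕ → ℕ := fun m => if h : ∃ φ, m ∉ R C t φ then h.choose else fun _ => 0
    obtain ⟨v, hv, hv2⟩ := hcon (n + ∑ m ∈ Finset.range n, ψ m t)
    obtain ⟨m, hm1, hm2⟩ := Set.not_subset.1 hv2
    refine ⟨v, m, (Nat.le_add_right _ _).trans hv, ?_, hm1⟩
    by_contra hmn
    rw [not_le] at hmn
    have hex : ∃ φ, m ∉ R C t φ := by
      by_contra hall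
      push Not at hall
      exact hm2 hall
    have hψ : m ∉ R C t (ψ m) := by
      simp only [ψ, dif_pos hex]
      exact hex.choose_spec
    apply hψ
    apply R_snoc _ (hm1 _)
    refine le_trans ?_ hv
    exact (Finset.single_le_sum (f := fun m => ψ m t) (fun _ _ => Nat.zero_le _)
      (Finset.mem_range.2 hmn)).trans (Nat.le_add_left _ _)
  choose v m h1 h2 h3 using hstep
  refine ⟨fun n => m n + 1, fun φ => ?_⟩
  filter_upwards [eventually_ge_atTop (φ t)] with n hn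
  exact ⟨m n, R_snoc (hn.trans (h1 n)) (h3 n _), h2 n, Nat.lt_succ_self _⟩

/-- **Dichotomy.** -/
theorem exists_finite_of_not_P {C : Code} {s : List ℕ} (h : ¬ P C s) :
    ∃ φ, (R C s φ).Finite := by
  classical
  have h1 : ∃ φ, ∀ y ∈ Leg s φ, ∀ l, s.length ≤ l → ¬ P C (pre y l) := by
    by_contra hcon
    push Not at hcon
    exact h (P_of_dense hcon)
  obtain ⟨φ, hφ⟩ := h1
  let v0 : List ℕ → ℕ := fun t => if h : ¬ P C t then (exists_v0 h).choose else 0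
  have hv0 : ∀ t, ¬ P C t → ∀ v, v0 t ≤ v → N C (t ++ [v]) ⊆ N C t := by
    intro t ht
    simp only [v0, dif_pos ht]
    exact (exists_v0 ht).choose_spec
  refine ⟨fun t => max (φ t) (v0 t), (N_finite h).subset ?_⟩
  rintro m ⟨y, hy, n, hn⟩
  have hy' : y ∈ Leg s φ := Leg_anti (fun t => le_max_left _ _) hy
  have hN : ∀ l, s.length ≤ l → N C (pre y l) ⊆ N C s := by
    intro l hl
    induction l, hl using Nat.le_induction with
    | base => rw [hy.1]
    | succ l hl ih =>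
      rw [pre_succ]
      refine (hv0 _ (hφ y hy' l hl) (y l) ?_).trans ih
      exact (le_max_right _ _).trans (hy.2 l hl)
  apply hN (max n s.length) (le_max_right _ _)
  intro φ'
  obtain ⟨z, hz⟩ := exists_leg (pre y (max n s.length)) φ'
  refine ⟨z, hz, n, ?_⟩
  have h2 : pre z (max n s.length) = pre y (max n s.length) := by simpa using hz.1
  rw [pre_congr fun i hi => eq_of_pre h2 i (hi.trans_le (le_max_left _ _))]
  exact hn

/-- conditions -/
structure Cd : Type where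
  x : ℕ → ℕ
  n : ℕ
  φ : List ℕ → ℕ

instance : Preorder Cd where
  le p q := p.n ≤ q.n ∧ (∀ j < p.n, q.x j = p.x j) ∧
    (∀ j, p.n ≤ j → j < q.n → p.φ (pre q.x j) ≤ q.x j) ∧ ∀ t, p.φ t ≤ q.φ t
  le_refl p := ⟨le_rfl, fun _ _ => rfl, fun j h1 h2 => absurd h2 (not_lt.2 h1), fun _ => le_rfl⟩
  le_trans p q r := by
    rintro ⟨h1, h2, h3, h4⟩ ⟨k1, k2, k3, k4⟩
    refine ⟨h1.trans k1, fun j hj => ?_, fun j hj1 hj2 => ?_, fun t => (h4 t).trans (k4 t)⟩
    · rw [k2 j (hj.trans_le h1), h2 j hj]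
    · by_cases h : j < q.n
      · rw [k2 j h, pre_congr fun i hi => k2 i (hi.trans h)]
        exact h3 j hj1 h
      · exact (h4 _).trans (k3 j (not_lt.1 h) hj2)

/-- the generic function -/
theorem lgeneric {κ ι : Type} [Countable κ] [Countable ι] (ψ : κ → List ℕ → ℕ) (C : ι → Code)
    (S : ι → Set ℕ) (hgood : ∀ i s, P (C i) s → ∀ φ, (R (C i) s φ ∩ S i).Infinite) :
    ∃ y : ℕ → ℕ, (∀ j, ∀ᶠ n in atTop, ψ j (pre y n) ≤ y n) ∧
      ∀ i, (g (C i) y).Finite ∨ (g (C i) y ∩ S i).Infinite := by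
  classical
  have : Encodable ((ι × ℕ) ⊕ (ℕ ⊕ κ)) := Encodable.ofCountable _
  have hlen : ∀ (l : ℕ) (p : Cd), ∃ q : Cd, p ≤ q ∧ l ≤ q.n := by
    intro l p
    obtain ⟨y, hy1, hy2⟩ := exists_leg (pre p.x p.n) p.φ
    rw [length_pre] at hy1 hy2
    exact ⟨⟨y, max l p.n, p.φ⟩, ⟨le_max_right _ _, eq_of_pre hy1, fun j hj _ => hy2 j hj,
      fun _ => le_rfl⟩, le_max_left _ _⟩
  let T : ι × ℕ → Set Cd := fun i =>
    {q | (∃ M, ∀ z ∈ Leg (pre q.x q.n) q.φ, ∀ m ∈ g (C i.1) z, m < M) ∨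
      ∃ m, i.2 ≤ m ∧ m ∈ S i.1 ∧ ∃ l ≤ q.n, pre q.x l ∈ C i.1 m}
  have hT : ∀ i p, ∃ q ∈ T i, p ≤ q := by
    rintro ⟨i, N0⟩ p
    by_cases hP : P (C i) (pre p.x p.n)
    · obtain ⟨m, ⟨⟨y, hy, l, hl⟩, hmS⟩, hm⟩ := (hgood i _ hP p.φ).exists_gt N0
      have hy1 := hy.1
      have hy2 := hy.2
      rw [length_pre] at hy1 hy2
      exact ⟨⟨y, max p.n l, p.φ⟩, Or.inr ⟨m, hm.le, hmS, l, le_max_right _ _, hl⟩,
        ⟨le_max_left _ _, eq_of_pre hy1, fun j hj _ => hy2 j hj, fun _ => le_rfl⟩⟩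
    · obtain ⟨φ', hφ'⟩ := exists_finite_of_not_P hP
      refine ⟨⟨p.x, p.n, fun t => max (p.φ t) (φ' t)⟩, Or.inl ?_,
        ⟨le_rfl, fun _ _ => rfl, fun j h1 h2 => absurd h2 (not_lt.2 h1), fun t => le_max_left _ _⟩⟩
      obtain ⟨M, hM⟩ := hφ'.bddAbove
      refine ⟨M + 1, fun z hz m hm => Nat.lt_succ_of_le (hM ?_)⟩
      exact ⟨z, Leg_anti (fun t => le_max_right _ _) hz, hm⟩
  let 𝒟 : (ι × ℕ) ⊕ (ℕ ⊕ κ) → Order.Cofinal Cd := fun s => match s with
    | Sum.inl i => ⟨T i, fun p => hT i p⟩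
    | Sum.inr (Sum.inl l) => ⟨{q | l ≤ q.n}, fun p => by
          obtain ⟨q, hq1, hq2⟩ := hlen l p
          exact ⟨q, hq2, hq1⟩⟩
    | Sum.inr (Sum.inr b) => ⟨{q | ∀ t, ψ b t ≤ q.φ t}, fun p =>
          ⟨⟨p.x, p.n, fun t => max (p.φ t) (ψ b t)⟩, fun t => le_max_right _ _,
            ⟨le_rfl, fun _ _ => rfl, fun j h1 h2 => absurd h2 (not_lt.2 h1),
              fun t => le_max_left _ _⟩⟩⟩
  let p0 : Cd := ⟨id, 0, fun _ => 0⟩
  let s : ℕ → Cd := Order.sequenceOfCofinals p0 𝒟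
  have hs : Monotone s := Order.sequenceOfCofinals.monotone p0 𝒟
  have hmem : ∀ t, s (Encodable.encode t + 1) ∈ 𝒟 t := fun t =>
    Order.sequenceOfCofinals.encode_mem p0 𝒟 t
  let kk : ℕ → ℕ := fun l => Encodable.encode (Sum.inr (Sum.inl l) : (ι × ℕ) ⊕ (ℕ ⊕ κ)) + 1
  have hkk : ∀ l, l ≤ (s (kk l)).n := fun l => hmem (Sum.inr (Sum.inl l))
  let z : ℕ → ℕ := fun j => (s (kk (j + 1))).x j
  have hz : ∀ k j, j < (s k).n → z j = (s k).x j := by
    intro k j hj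
    rcases le_total k (kk (j + 1)) with h | h
    · exact (hs h).2.1 j hj
    · exact ((hs h).2.1 j (hkk (j + 1))).symm
  have hzl : ∀ k, z ∈ Leg (pre (s k).x (s k).n) (s k).φ := by
    intro k
    refine ⟨?_, fun j hj => ?_⟩
    · rw [length_pre]
      exact pre_congr fun i hi => hz k i hi
    · rw [length_pre] at hj
      let k' := max k (kk (j + 1))
      have h1 : j < (s k').n := lt_of_lt_of_le (hkk (j + 1)) (hs (le_max_right _ _)).1
      rw [hz k' j h1, pre_congr fun i hi => hz k' i (hi.trans h1)]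
      exact (hs (le_max_left k _)).2.2.1 j hj h1
  refine ⟨z, ?_, ?_⟩
  · intro b
    have h1 := hmem (Sum.inr (Sum.inr b))
    have h2 := hzl (Encodable.encode (Sum.inr (Sum.inr b) : (ι × ℕ) ⊕ (ℕ ⊕ κ)) + 1)
    filter_upwards [eventually_ge_atTop
      (s (Encodable.encode (Sum.inr (Sum.inr b) : (ι × ℕ) ⊕ (ℕ ⊕ κ)) + 1)).n] with j hj
    exact (h1 _).trans (h2.2 j (by rw [length_pre]; exact hj))
  · intro i
    by_cases hex : ∃ N0, ∃ M, ∀ z' ∈ Leg (pre (s (Encodable.encode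
        (Sum.inl (i, N0) : (ι × ℕ) ⊕ (ℕ ⊕ κ)) + 1)).x (s (Encodable.encode
        (Sum.inl (i, N0) : (ι × ℕ) ⊕ (ℕ ⊕ κ)) + 1)).n) (s (Encodable.encode
        (Sum.inl (i, N0) : (ι × ℕ) ⊕ (ℕ ⊕ κ)) + 1)).φ, ∀ m ∈ g (C i) z', m < M
    · left
      obtain ⟨N0, M, hM⟩ := hex
      exact (Set.finite_Iio M).subset fun m hm => hM z (hzl _) m hm
    · right
      rw [Set.infinite_iff_exists_gt]
      intro N0
      rcases hmem (Sum.inl (i, N0 + 1)) with h | ⟨m, hm1, hm2, l, hl, hm3⟩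
      · exact absurd ⟨N0 + 1, h⟩ hex
      · refine ⟨m, ⟨⟨l, ?_⟩, hm2⟩, hm1⟩
        rw [pre_congr fun i hi => hz _ i (hi.trans_le hl)]
        exact hm3

end Pool.Agent.Q154.Lv
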