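import Mathlib
import Pool.Agent.Q154.Laver

set_option autoImplicit false

/-!
Under CH: a dominating family all of whose codes are hit by thick sets.
-/

open Set Filter

namespace Pool.Agent.Q154.Lv

open Gen CHT

/-- `T` contains infinitely many intervals `[n, f n)`. -/
def Thick (f : ℕ → ℕ) (T : Set ℕ) : Prop := ∀ N, ∃ n, N ≤ n ∧ ∀ m, n ≤ m → m < f n → m ∈ T

/-- stage values -/
structure V : Type where
  y : ℕ → ℕ
  f : ℕ → ℕ

instance : Nonempty V := ⟨⟨id, id⟩⟩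

theorem exists_f {C : Code} {B : Type} [Countable B] (G : B → Set ℕ) :
    ∃ f : ℕ → ℕ, ∀ T : Set ℕ, Thick f T →
      (∀ s, P C s → ∀ φ, (R C s φ ∩ T).Infinite) ∧ (∀ b, (G b).Infinite → (G b ∩ T).Infinite) := by
  classical
  let F : (List ℕ) ⊕ B → ℕ → ℕ := fun s => match s with
    | Sum.inl s => if h : P C s then h.choose else fun _ => 0
    | Sum.inr b => fun n => if h : ∃ m ∈ G b, n ≤ m then h.choose + 1 else 0
  obtain ⟨f, hf⟩ := exists_dominating F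
  refine ⟨f, fun T hT => ⟨fun s hs φ => ?_, fun b hb => ?_⟩⟩
  · rw [Set.infinite_iff_exists_gt]
    intro a
    have h1 : F (Sum.inl s) = hs.choose := dif_pos hs
    have h2 := hs.choose_spec φ
    obtain ⟨N0, hN0⟩ := eventually_atTop.1 (h2.and (hf (Sum.inl s)))
    obtain ⟨n, hn, hnT⟩ := hT (max N0 (a + 1))
    obtain ⟨⟨m, hm1, hm2, hm3⟩, hle⟩ := hN0 n ((le_max_left _ _).trans hn)
    rw [h1] at hle
    exact ⟨m, ⟨hm1, hnT m hm2 (hm3.trans_le hle)⟩,
      lt_of_lt_of_le (Nat.lt_succ_self a) (((le_max_right _ _).trans hn).trans hm2)⟩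
  · rw [Set.infinite_iff_exists_gt]
    intro a
    obtain ⟨N0, hN0⟩ := eventually_atTop.1 (hf (Sum.inr b))
    obtain ⟨n, hn, hnT⟩ := hT (max N0 (a + 1))
    have hex : ∃ m ∈ G b, n ≤ m := by
      obtain ⟨m, hm, hnm⟩ := hb.exists_gt n
      exact ⟨m, hm, hnm.le⟩
    have h1 : F (Sum.inr b) n = hex.choose + 1 := dif_pos hex
    have hle := hN0 n ((le_max_left _ _).trans hn)
    rw [h1] at hle
    refine ⟨hex.choose, ⟨hex.choose_spec.1, hnT _ hex.choose_spec.2 hle⟩,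
      lt_of_lt_of_le (Nat.lt_succ_self a) (((le_max_right _ _).trans hn).trans hex.choose_spec.2)⟩

/-- **Laver type recursion under CH.** -/
theorem laver (ch : CH) (D : Type) [Nonempty D] (hD : Cardinal.mk D ≤ Cardinal.continuum)
    (S : D → (ℕ → ℕ) → ℕ → Set ℕ) (hS : ∀ d f j, Thick f (S d f j)) :
    ∃ Y : Set (ℕ → ℕ), (∀ ψ : ℕ → ℕ, ∃ y ∈ Y, ∀ᶠ n in atTop, ψ n ≤ y n) ∧
      ∀ (C : Code) (d : D), (∀ y ∈ Y, (g C y).Infinite) →
        ∃ f : ℕ → ℕ, ∀ j, ∀ y ∈ Y, (g C y ∩ S d f j).Infinite := by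
  classical
  obtain ⟨e, he⟩ := exists_surj ch (Code × D)
    (mk_prod_le _ _ (mk_fun_le _ _ (mk_set_countable _)) hD)
  obtain ⟨ψ, hψ⟩ := exists_surj ch (List ℕ → ℕ) (mk_fun_nat _)
  let Q : W → (W → V) → V → Prop := fun α F v =>
    (∀ T : Set ℕ, Thick v.f T → (∀ s, P (e α).1 s → ∀ φ, (R (e α).1 s φ ∩ T).Infinite) ∧
      (∀ β < α, (g (e α).1 (F β).y).Infinite → (g (e α).1 (F β).y ∩ T).Infinite)) ∧
    (∀ ξ < α, ∀ᶠ n in atTop, ψ ξ (pre v.y n) ≤ v.y n) ∧
    (∀ i < α, ∀ j, (g (e i).1 v.y).Finite ∨ (g (e i).1 v.y ∩ S (e i).2 (F i).f j).Infinite) ∧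
    (∀ j, (g (e α).1 v.y).Finite ∨ (g (e α).1 v.y ∩ S (e α).2 v.f j).Infinite)
  obtain ⟨F, hF⟩ := exists_rec Q (by
      intro α F G v h hQ
      obtain ⟨h1, h2, h3, h4⟩ := hQ
      refine ⟨fun T hT => ⟨(h1 T hT).1, fun β hβ => ?_⟩, h2, fun i hi j => ?_, h4⟩
      · rw [← h β hβ]; exact (h1 T hT).2 β hβ
      · rw [← h i hi]; exact h3 i hi j) (by
      intro α F hF
      have : Countable (Iio α) := (countable_Iio α).to_subtype
      obtain ⟨f, hf⟩ := exists_f (C := (e α).1) (fun β : Iio α => g (e α).1 (F β).y)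
      obtain ⟨y, hy1, hy2⟩ := lgeneric (κ := Iio α) (ι := Option (Iio α) × ℕ)
        (fun ξ => ψ ξ) (fun i => match i.1 with
          | none => (e α).1
          | some i' => (e i').1)
        (fun i => match i.1 with
          | none => S (e α).2 f i.2
          | some i' => S (e i').2 (F i').f i.2) (by
          rintro ⟨i | i, j⟩ s hs φ
          · exact (hf _ (hS _ _ _)).1 s hs φ
          · exact ((hF i i.2).1 _ (hS _ _ _)).1 s hs φ)
      refine ⟨⟨y, f⟩, fun T hT => ⟨(hf T hT).1, fun β hβ => (hf T hT).2 ⟨β, hβ⟩⟩,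
        fun ξ hξ => hy1 ⟨ξ, hξ⟩, fun i hi j => ?_, fun j => ?_⟩
      · exact hy2 (some ⟨i, hi⟩, j)
      · exact hy2 (none, j))
  refine ⟨range fun α => (F α).y, ?_, ?_⟩
  · intro ψ0
    obtain ⟨ξ, hξ⟩ := hψ fun t => ψ0 t.length
    obtain ⟨α, hα⟩ := exists_gt ξ
    refine ⟨(F α).y, ⟨α, rfl⟩, ?_⟩
    filter_upwards [(hF α).2.1 ξ hα] with n hn
    rw [hξ] at hn
    simpa using hn
  · intro C d hC
    obtain ⟨i, hi⟩ := he (C, d)
    refine ⟨(F i).f, ?_⟩
    rintro j _ ⟨α, rfl⟩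
    have hinf := hC _ ⟨α, rfl⟩
    rcases lt_trichotomy i α with h | h | h
    · have := (hF α).2.2.1 i h j
      rw [hi] at this
      exact this.resolve_left hinf
    · subst h
      have := (hF i).2.2.2 j
      rw [hi] at this
      exact this.resolve_left hinf
    · have := ((hF i).1 (S d (F i).f j) (hS _ _ _)).2 α h
      rw [hi] at this
      exact this hinf

end Pool.Agent.Q154.Lv
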