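import Mathlib.Topology.MetricSpace.Ultra.Pi
import Mathlib.Topology.MetricSpace.Ultra.Basic
import Mathlib.Data.EReal.Basic
import Mathlib.Order.CompleteBooleanAlgebra
import Mathlib.CategoryTheory.Functor.Basic
import Mathlib.CategoryTheory.EqToHom
import Mathlib.Topology.ContinuousMap.Basic
import Mathlib.Order.Hom.WithTopBot
import Mathlib.Tactic

set_option autoImplicit false
set_option linter.unusedSectionVars false

/-!
Max-min measures of finite support on ultrametric spaces, the Kleisli category, and the symmetric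
power functors.
-/

open Metric Set CategoryTheory

namespace Pool.Agent.Q154.MaxMin

/-- Ultrametric spaces. -/
structure UMet : Type 1 where
  /-- The underlying set. -/
  carrier : Type
  [metric : MetricSpace carrier]
  [ultra : IsUltrametricDist carrier]

instance : CoeSort UMet Type := ⟨UMet.carrier⟩
instance (X : UMet) : MetricSpace X := X.metric
instance (X : UMet) : IsUltrametricDist X := X.ultra

/-- Nonexpanding maps. -/
@[ext] structure NE (X Y : UMet) where
  /-- The underlying map. -/
  toFun : X → Y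
  nonexp : ∀ x x', dist (toFun x) (toFun x') ≤ dist x x'

/-- The category `UMET`. -/
instance : Category UMet where
  Hom := NE
  id X := ⟨id, fun _ _ => le_rfl⟩
  comp f g := ⟨g.toFun ∘ f.toFun, fun x x' => (g.nonexp _ _).trans (f.nonexp _ _)⟩

/-- Max-min measures of finite support, given by their coefficients: `coef x` is the coefficient of
`δ_x`, equal to `⊥` outside the support. -/
@[ext] structure J (X : Type) where
  /-- The coefficients. -/
  coef : X → EReal
  finite_support : {x | coef x ≠ ⊥}.Finite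
  exists_top : ∃ x, coef x = ⊤

/-- The value of a max-min measure on a function. -/
noncomputable def J.eval {X : Type} (a : J X) (φ : X → ℝ) : EReal :=
  ⨆ x, min (a.coef x) (φ x : EReal)

section metric

variable {X : Type} [MetricSpace X]

/-- `φ` is constant on every open ball of radius `r`. -/
def ConstOnBalls (r : ℝ) (φ : X → ℝ) : Prop := ∀ c, ∀ x ∈ ball c r, ∀ y ∈ ball c r, φ x = φ y

/-- The distance of max-min measures. -/
noncomputable def dJ (a b : J X) : ℝ :=
  sInf {r : ℝ | 0 < r ∧ ∀ φ : X → ℝ, ConstOnBalls r φ → a.eval φ = b.eval φ}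

/-- Suprema over balls. -/
noncomputable def bs (r : ℝ) (a : X → EReal) (x : X) : EReal := ⨆ y ∈ ball x r, a y

variable [IsUltrametricDist X]

theorem bs_const {r : ℝ} {a : X → EReal} {x y : X} (h : dist x y < r) : bs r a x = bs r a y := by
  have : ball x r = ball y r := IsUltrametricDist.ball_eq_of_mem (by rwa [mem_ball, dist_comm])
  unfold bs
  rw [this]

theorem le_bs {r : ℝ} (hr : 0 < r) (a : X → EReal) (x : X) : a x ≤ bs r a x :=
  le_iSup₂_of_le x (mem_ball_self hr) le_rfl

/-- Replacing coefficients by suprema over balls. -/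
theorem sup_min {r : ℝ} (hr : 0 < r) (a G : X → EReal) (hG : ∀ x y, dist x y < r → G x = G y) :
    ⨆ x, min (a x) (G x) = ⨆ x, min (bs r a x) (G x) := by
  apply le_antisymm
  · exact iSup_mono fun x => min_le_min_right _ (le_bs hr a x)
  · refine iSup_le fun x => ?_
    have h : min (bs r a x) (G x) = ⨆ y ∈ ball x r, a y ⊓ G x := iSup₂_inf_eq _
    rw [h]
    refine iSup₂_le fun y hy => ?_
    rw [hG x y (by rwa [dist_comm])]
    exact le_iSup (fun x => min (a x) (G x)) y

theorem constOnBalls_iff {r : ℝ} (hr : 0 < r) {φ : X → ℝ} :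
    ConstOnBalls r φ ↔ ∀ x y, dist x y < r → φ x = φ y := by
  constructor
  · intro h x y hxy
    exact h x x (mem_ball_self hr) y (by rwa [mem_ball, dist_comm])
  · intro h c x hx y hy
    rw [h x c hx, h y c hy]

/-- Agreement on functions which are constant on balls. -/
theorem agree_iff {r : ℝ} (hr : 0 < r) (a b : J X) :
    (∀ φ : X → ℝ, ConstOnBalls r φ → a.eval φ = b.eval φ) ↔
      ∀ x, bs r a.coef x = bs r b.coef x := by
  constructor
  · have key : ∀ a b : J X, (∀ φ : X → ℝ, ConstOnBalls r φ → a.eval φ = b.eval φ) →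
        ∀ x, ¬ bs r a.coef x < bs r b.coef x := by
      intro a b h x hlt
      obtain ⟨c, hc1, hc2⟩ := EReal.lt_iff_exists_real_btwn.1 hlt
      classical
      let φ : X → ℝ := fun y => if dist y x < r then c else c - 1
      have hφ : ConstOnBalls r φ := by
        rw [constOnBalls_iff hr]
        intro y z hyz
        have : dist y x < r ↔ dist z x < r := by
          constructor
          · intro h1
            refine (IsUltrametricDist.dist_triangle_max z y x).trans_lt (max_lt ?_ h1)
            rwa [dist_comm]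
          · intro h1
            exact (IsUltrametricDist.dist_triangle_max y z x).trans_lt (max_lt hyz h1)
        simp only [φ, this]
      have h1 : a.eval φ < c := by
        have : a.eval φ ≤ max (bs r a.coef x) ((c - 1 : ℝ) : EReal) := by
          refine iSup_le fun y => ?_
          by_cases hy : dist y x < r
          · have h0 : a.coef y ≤ bs r a.coef x := le_iSup₂_of_le y hy le_rfl
            exact (min_le_left _ _).trans (h0.trans (le_max_left _ _))
          · refine (min_le_right _ _).trans ?_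
            simp only [φ, hy, if_false]
            exact le_max_right _ _
        refine this.trans_lt (max_lt hc1 ?_)
        exact EReal.coe_lt_coe_iff.2 (by linarith)
      have h2 : (c : EReal) ≤ b.eval φ := by
        have h3 : min (bs r b.coef x) (c : EReal) = ⨆ y ∈ ball x r, b.coef y ⊓ (c : EReal) :=
          iSup₂_inf_eq _
        rw [min_eq_right hc2.le] at h3
        rw [h3]
        refine iSup₂_le fun y hy => ?_
        refine le_iSup_of_le y ?_
        have : φ y = c := by
          simp only [φ]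
          exact if_pos hy
        rw [this]
      rw [h φ hφ] at h1
      exact absurd h1 (not_lt.2 h2)
    intro h x
    exact le_antisymm (not_lt.1 (key b a (fun φ hφ => (h φ hφ).symm) x)) (not_lt.1 (key a b h x))
  · intro h φ hφ
    rw [constOnBalls_iff hr] at hφ
    unfold J.eval
    rw [sup_min hr a.coef (fun x => (φ x : EReal)) (fun x y hxy => by rw [hφ x y hxy]),
      sup_min hr b.coef (fun x => (φ x : EReal)) (fun x y hxy => by rw [hφ x y hxy])]
    simp_rw [h]

theorem bs_bs {s r : ℝ} (hs : 0 < s) (hsr : s ≤ r) (a : X → EReal) (x : X) :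
    bs r a x = ⨆ y ∈ ball x r, bs s a y := by
  apply le_antisymm
  · exact iSup₂_mono fun y _ => le_bs hs a y
  · refine iSup₂_le fun y hy => iSup₂_le fun z hz => ?_
    refine le_iSup₂_of_le z ?_ le_rfl
    rw [mem_ball] at *
    exact (IsUltrametricDist.dist_triangle_max z y x).trans_lt (max_lt (hz.trans_le hsr) hy)

theorem bs_mono_radius {s r : ℝ} (hs : 0 < s) (hsr : s ≤ r) {a b : X → EReal}
    (h : ∀ x, bs s a x = bs s b x) (x : X) : bs r a x = bs r b x := by
  rw [bs_bs hs hsr, bs_bs hs hsr]
  simp_rw [h]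

theorem exists_radius (a b : J X) : ∃ r, 0 < r ∧ ∀ x, bs r a.coef x = bs r b.coef x := by
  classical
  obtain ⟨t, ht⟩ := a.exists_top
  obtain ⟨t', ht'⟩ := b.exists_top
  have hfin : ((fun x => dist x t) '' ({x | a.coef x ≠ ⊥} ∪ {x | b.coef x ≠ ⊥})).Finite :=
    (a.finite_support.union b.finite_support).image _
  obtain ⟨M, hM⟩ := hfin.bddAbove
  have ht'M : dist t' t ≤ M := hM ⟨t', Or.inr (by rw [mem_ofPred_eq, ht']; simp), rfl⟩
  have hM0 : 0 ≤ M := dist_nonneg.trans ht'M
  refine ⟨M + 1, by linarith, fun x => ?_⟩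
  by_cases hx : dist x t < M + 1
  · rw [bs_const hx, bs_const hx]
    have h1 : bs (M + 1) a.coef t = ⊤ := by
      rw [eq_top_iff, ← ht]
      exact le_bs (by linarith) _ _
    have h2 : bs (M + 1) b.coef t = ⊤ := by
      rw [eq_top_iff, ← ht']
      exact le_iSup₂_of_le t' (by rw [mem_ball]; linarith) le_rfl
    rw [h1, h2]
  · have key : ∀ c : J X, (∀ y, c.coef y ≠ ⊥ → dist y t ≤ M) → bs (M + 1) c.coef x = ⊥ := by
      intro c hc
      rw [eq_bot_iff]
      refine iSup₂_le fun y hy => ?_
      by_contra hne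
      have h1 := hc y (fun h => hne h.le)
      rw [mem_ball] at hy
      apply hx
      refine (IsUltrametricDist.dist_triangle_max x y t).trans_lt (max_lt ?_ (by linarith))
      rwa [dist_comm]
    rw [key a (fun y hy => hM ⟨y, Or.inl hy, rfl⟩), key b (fun y hy => hM ⟨y, Or.inr hy, rfl⟩)]

/-- The distance in terms of suprema over balls. -/
theorem dJ_le_iff (a b : J X) {d : ℝ} (hd : 0 ≤ d) :
    dJ a b ≤ d ↔ ∀ r, d < r → ∀ x, bs r a.coef x = bs r b.coef x := by
  have hbdd : BddBelow {r : ℝ | 0 < r ∧ ∀ φ : X → ℝ, ConstOnBalls r φ → a.eval φ = b.eval φ} :=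
    ⟨0, fun r hr => hr.1.le⟩
  constructor
  · intro h r hr
    obtain ⟨r₀, hr₀, h₀⟩ := exists_radius a b
    have hne : {r : ℝ | 0 < r ∧ ∀ φ : X → ℝ, ConstOnBalls r φ → a.eval φ = b.eval φ}.Nonempty :=
      ⟨r₀, hr₀, (agree_iff hr₀ a b).2 h₀⟩
    obtain ⟨s, ⟨hs0, hs⟩, hsr⟩ := exists_lt_of_csInf_lt hne (lt_of_le_of_lt h hr)
    exact bs_mono_radius hs0 hsr.le ((agree_iff hs0 a b).1 hs)
  · intro h
    refine le_of_forall_gt_imp_ge_of_dense fun r hr => ?_
    exact csInf_le hbdd ⟨hd.trans_lt hr, (agree_iff (hd.trans_lt hr) a b).2 (h r hr)⟩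

/-- Different coefficients give different functionals on the continuous functions. -/
theorem coding_injective (a b : J X) (h : ∀ φ : C(X, ℝ), a.eval φ = b.eval φ) : a = b := by
  classical
  have hbs : ∀ r, 0 < r → ∀ x, bs r a.coef x = bs r b.coef x := by
    intro r hr
    rw [← agree_iff hr]
    intro φ hφ
    rw [constOnBalls_iff hr] at hφ
    have hc : Continuous φ := by
      rw [continuous_iff_continuousAt]
      intro x
      refine ContinuousAt.congr (f := fun _ => φ x) continuousAt_const ?_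
      filter_upwards [ball_mem_nhds x hr] with y hy
      exact hφ x y (by rw [dist_comm]; exact hy)
    exact h ⟨φ, hc⟩
  apply J.ext
  funext x
  have hfin : ((fun y => dist y x) '' (({y | a.coef y ≠ ⊥} ∪ {y | b.coef y ≠ ⊥}) \ {x})).Finite :=
    ((a.finite_support.union b.finite_support).subset Set.sdiff_subset).image _
  obtain ⟨r, hr0, hr⟩ : ∃ r : ℝ, 0 < r ∧ ∀ y ≠ x, (a.coef y ≠ ⊥ ∨ b.coef y ≠ ⊥) → r ≤ dist y x := by
    have hev : ∀ᶠ r in nhdsWithin (0 : ℝ) (Ioi 0), ∀ d ∈ ((fun y => dist y x) ''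
        (({y | a.coef y ≠ ⊥} ∪ {y | b.coef y ≠ ⊥}) \ {x})), r ≤ d := by
      rw [Filter.eventually_all_finite hfin]
      rintro _ ⟨y, ⟨_, hyx⟩, rfl⟩
      have hpos : 0 < dist y x := dist_pos.2 hyx
      exact nhdsWithin_le_nhds (Iic_mem_nhds hpos)
    obtain ⟨r, hr1, hr2⟩ := (hev.and self_mem_nhdsWithin).exists
    refine ⟨r, hr2, fun y hy hy' => hr1 _ ⟨y, ⟨?_, hy⟩, rfl⟩⟩
    exact hy'
  have key : ∀ c : J X, (∀ y, c.coef y ≠ ⊥ → (a.coef y ≠ ⊥ ∨ b.coef y ≠ ⊥)) →
      bs r c.coef x = c.coef x := by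
    intro c hc
    apply le_antisymm
    · refine iSup₂_le fun y hy => ?_
      by_cases hyx : y = x
      · rw [hyx]
      · by_contra hle
        rw [not_le] at hle
        have h1 := hr y hyx (hc y (fun h0 => by rw [h0] at hle; exact not_lt_bot hle))
        rw [mem_ball] at hy
        linarith
    · exact le_bs hr0 _ _
  rw [← key a (fun y h => Or.inl h), ← key b (fun y h => Or.inr h)]
  exact hbs r hr0 x

end metric

/-- The Dirac measure. -/
noncomputable def delta {X : Type} (x : X) : J X where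
  coef y := by classical exact if y = x then ⊤ else ⊥
  finite_support := by
    classical
    refine (Set.finite_singleton x).subset fun y hy => ?_
    by_contra h
    exact hy (if_neg h)
  exists_top := ⟨x, if_pos rfl⟩

theorem delta_self {X : Type} (x : X) : (delta x).coef x = ⊤ := if_pos rfl

theorem delta_ne {X : Type} {x y : X} (h : y ≠ x) : (delta x).coef y = ⊥ := if_neg h

/-- The Kleisli extension. -/
noncomputable def bind {X Y : Type} (a : J X) (g : X → J Y) : J Y where
  coef z := ⨆ y, min (a.coef y) ((g y).coef z)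
  finite_support := by
    refine (a.finite_support.biUnion fun y _ => (g y).finite_support).subset fun z hz => ?_
    by_contra hcon
    apply hz
    rw [eq_bot_iff]
    refine iSup_le fun y => ?_
    simp only [mem_iUnion, mem_ofPred_eq, not_exists] at hcon
    by_cases hy : a.coef y = ⊥
    · rw [hy]; exact min_le_left _ _
    · have := hcon y hy
      rw [not_not] at this
      rw [this]; exact min_le_right _ _
  exists_top := by
    obtain ⟨y, hy⟩ := a.exists_top
    obtain ⟨z, hz⟩ := (g y).exists_top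
    refine ⟨z, ?_⟩
    rw [eq_top_iff]
    refine le_iSup_of_le y ?_
    rw [hy, hz, min_self]

theorem bind_coef {X Y : Type} (a : J X) (g : X → J Y) (z : Y) :
    (bind a g).coef z = ⨆ y, min (a.coef y) ((g y).coef z) := rfl

theorem delta_bind {X Y : Type} (x : X) (g : X → J Y) : bind (delta x) g = g x := by
  apply J.ext
  funext z
  rw [bind_coef]
  apply le_antisymm
  · refine iSup_le fun y => ?_
    by_cases h : y = x
    · rw [h]; exact min_le_right _ _
    · rw [delta_ne h]; exact (min_le_left _ _).trans bot_le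
  · refine le_iSup_of_le x ?_
    rw [delta_self]
    exact le_min le_top le_rfl

theorem bind_delta {X : Type} (a : J X) : bind a delta = a := by
  apply J.ext
  funext z
  rw [bind_coef]
  apply le_antisymm
  · refine iSup_le fun y => ?_
    by_cases h : z = y
    · rw [h]; exact min_le_left _ _
    · rw [delta_ne h]; exact (min_le_right _ _).trans bot_le
  · refine le_iSup_of_le z ?_
    rw [delta_self]
    exact le_min le_rfl le_top

theorem bind_assoc {X Y Z : Type} (a : J X) (g : X → J Y) (h : Y → J Z) :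
    bind (bind a g) h = bind a (fun x => bind (g x) h) := by
  apply J.ext
  funext z
  simp only [bind_coef]
  have h1 : ∀ y, min (⨆ x, min (a.coef x) ((g x).coef y)) ((h y).coef z) =
      ⨆ x, min (min (a.coef x) ((g x).coef y)) ((h y).coef z) := fun y => iSup_inf_eq _ _
  have h2 : ∀ x, min (a.coef x) (⨆ y, min ((g x).coef y) ((h y).coef z)) =
      ⨆ y, min (a.coef x) (min ((g x).coef y) ((h y).coef z)) := fun x => inf_iSup_eq _ _
  simp_rw [h1, h2]
  rw [iSup_comm]
  simp_rw [min_assoc]

section nonexp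

variable {X Y Z : Type} [MetricSpace X] [MetricSpace Y] [MetricSpace Z]
  [IsUltrametricDist X] [IsUltrametricDist Y] [IsUltrametricDist Z]

theorem bs_bind (r : ℝ) (a : J Y) (g : Y → J Z) (z : Z) :
    bs r (bind a g).coef z = ⨆ y, min (a.coef y) (bs r (g y).coef z) := by
  have h1 : ∀ y, min (a.coef y) (bs r (g y).coef z) =
      ⨆ w ∈ ball z r, min (a.coef y) ((g y).coef w) := fun y => inf_iSup₂_eq _
  simp_rw [h1]
  unfold bs
  simp_rw [bind_coef]
  apply le_antisymm
  · refine iSup₂_le fun w hw => iSup_le fun y => ?_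
    exact le_iSup_of_le y (le_iSup₂_of_le w hw le_rfl)
  · refine iSup_le fun y => iSup₂_le fun w hw => ?_
    exact le_iSup₂_of_le w hw (le_iSup_of_le y le_rfl)

theorem bind_nonexp {f : X → J Y} {g : Y → J Z} (hf : ∀ x x', dJ (f x) (f x') ≤ dist x x')
    (hg : ∀ y y', dJ (g y) (g y') ≤ dist y y') (x x' : X) :
    dJ (bind (f x) g) (bind (f x') g) ≤ dist x x' := by
  rw [dJ_le_iff _ _ dist_nonneg]
  intro r hr z
  have hr0 : 0 < r := dist_nonneg.trans_lt hr
  have h1 := (dJ_le_iff _ _ dist_nonneg).1 (hf x x') r hr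
  have hG : ∀ y y', dist y y' < r → bs r (g y).coef z = bs r (g y').coef z := fun y y' hy =>
    (dJ_le_iff _ _ dist_nonneg).1 (hg y y') r hy z
  rw [bs_bind, bs_bind, sup_min hr0 (f x).coef _ hG, sup_min hr0 (f x').coef _ hG]
  simp_rw [h1]

theorem delta_nonexp (x x' : X) : dJ (delta x) (delta x') ≤ dist x x' := by
  rw [dJ_le_iff _ _ dist_nonneg]
  intro r hr z
  have key : ∀ x x' : X, dist x x' < r → bs r (delta x).coef z ≤ bs r (delta x').coef z := by
    intro x x' h
    refine iSup₂_le fun y hy => ?_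
    by_cases hyx : y = x
    · refine le_iSup₂_of_le x' ?_ ?_
      · rw [mem_ball] at *
        rw [hyx] at hy
        refine (IsUltrametricDist.dist_triangle_max x' x z).trans_lt (max_lt ?_ hy)
        rwa [dist_comm]
      · rw [delta_self]; exact le_top
    · rw [delta_ne hyx]; exact bot_le
  exact le_antisymm (key x x' hr) (key x' x (by rwa [dist_comm]))

end nonexp

/-- Morphisms of the Kleisli category. -/
@[ext] structure KHom (X Y : UMet) where
  /-- The underlying map. -/
  toFun : X → J Y
  nonexp : ∀ x x', dJ (toFun x) (toFun x') ≤ dist x x'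

/-- The objects of the Kleisli category. -/
structure Kl : Type 1 where
  /-- The underlying ultrametric space. -/
  of : UMet

/-- The Kleisli category. -/
noncomputable instance : Category Kl where
  Hom X Y := KHom X.of Y.of
  id X := ⟨fun x => delta x, delta_nonexp⟩
  comp f g := ⟨fun x => bind (f.toFun x) g.toFun, bind_nonexp f.nonexp g.nonexp⟩
  id_comp f := KHom.ext (funext fun x => delta_bind x f.toFun)
  comp_id f := KHom.ext (funext fun x => bind_delta (f.toFun x))
  assoc f g h := KHom.ext (funext fun x => bind_assoc (f.toFun x) g.toFun h.toFun)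

/-- The functor from `UMET` to the Kleisli category. -/
noncomputable def Phi : UMet ⥤ Kl where
  obj X := ⟨X⟩
  map {X Y} f := ⟨fun x => delta (f.toFun x), fun x x' =>
    (delta_nonexp _ _).trans (f.nonexp x x')⟩
  map_id X := rfl
  map_comp f g := KHom.ext (funext fun x => (delta_bind (f.toFun x) fun y => delta (g.toFun y)).symm)

/-- The equivalence of tuples up to a permutation. -/
def spSetoid (n : ℕ) (X : Type) : Setoid (Fin n → X) where
  r x y := ∃ σ : Equiv.Perm (Fin n), y = x ∘ σ
  iseqv := {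
    refl := fun x => ⟨1, rfl⟩
    symm := by
      rintro x _ ⟨σ, rfl⟩
      exact ⟨σ⁻¹, by funext i; simp⟩
    trans := by
      rintro x _ _ ⟨σ, rfl⟩ ⟨τ, rfl⟩
      exact ⟨σ * τ, by funext i; simp⟩ }

/-- The symmetric power of a set. -/
def SP (n : ℕ) (X : Type) : Type := Quotient (spSetoid n X)

/-- The orbit of a tuple. -/
def orb {n : ℕ} {X : Type} (x : Fin n → X) : SP n X := Quotient.mk (spSetoid n X) x

theorem orb_eq {n : ℕ} {X : Type} {x y : Fin n → X} :
    orb x = orb y ↔ ∃ σ : Equiv.Perm (Fin n), y = x ∘ σ :=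
  ⟨fun h => Quotient.exact h, fun h => Quotient.sound h⟩

theorem orb_comp {n : ℕ} {X : Type} (x : Fin n → X) (σ : Equiv.Perm (Fin n)) :
    orb (x ∘ σ) = orb x := (orb_eq.2 ⟨σ, rfl⟩).symm

theorem orb_surj {n : ℕ} {X : Type} (q : SP n X) : ∃ x, orb x = q := Quotient.exists_rep q

section spmetric

variable {n : ℕ} {X : Type} [MetricSpace X]

theorem dist_comp_perm (x y : Fin n → X) (σ : Equiv.Perm (Fin n)) :
    dist (x ∘ σ) (y ∘ σ) = dist x y := by
  apply le_antisymm
  · rw [dist_pi_le_iff dist_nonneg]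
    intro i
    exact dist_le_pi_dist x y (σ i)
  · rw [dist_pi_le_iff dist_nonneg]
    intro i
    have := dist_le_pi_dist (x ∘ σ) (y ∘ σ) (σ⁻¹ i)
    simpa using this

/-- The minimum over all permutations of the maximal distance of the components. -/
noncomputable def spd (x y : Fin n → X) : ℝ := ⨅ σ : Equiv.Perm (Fin n), dist x (y ∘ σ)

theorem spd_le (x y : Fin n → X) (σ : Equiv.Perm (Fin n)) : spd x y ≤ dist x (y ∘ σ) :=
  ciInf_le (Set.finite_range _).bddBelow σ

theorem spd_attained (x y : Fin n → X) : ∃ σ : Equiv.Perm (Fin n), spd x y = dist x (y ∘ σ) := by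
  obtain ⟨σ, hσ⟩ := Finite.exists_min fun σ : Equiv.Perm (Fin n) => dist x (y ∘ σ)
  exact ⟨σ, le_antisymm (spd_le x y σ) (le_ciInf hσ)⟩

theorem spd_perm (x y : Fin n → X) (σ τ : Equiv.Perm (Fin n)) : spd (x ∘ σ) (y ∘ τ) = spd x y := by
  have key : ∀ (x y : Fin n → X) (σ τ : Equiv.Perm (Fin n)), spd (x ∘ σ) (y ∘ τ) ≤ spd x y := by
    intro x y σ τ
    obtain ⟨ρ, hρ⟩ := spd_attained x y
    rw [hρ, ← dist_comp_perm x (y ∘ ρ) σ]
    refine (spd_le _ _ (τ⁻¹ * ρ * σ)).trans (le_of_eq ?_)
    congr 1
    funext i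
    simp
  apply le_antisymm (key x y σ τ)
  have := key (x ∘ σ) (y ∘ τ) σ⁻¹ τ⁻¹
  have e1 : (x ∘ σ) ∘ (σ⁻¹ : Equiv.Perm (Fin n)) = x := by funext i; simp
  have e2 : (y ∘ τ) ∘ (τ⁻¹ : Equiv.Perm (Fin n)) = y := by funext i; simp
  rwa [e1, e2] at this

noncomputable instance : Dist (SP n X) where
  dist := Quotient.lift₂ spd (by
    rintro x y _ _ ⟨σ, rfl⟩ ⟨τ, rfl⟩
    exact (spd_perm x y σ τ).symm)

theorem dist_orb (x y : Fin n → X) : dist (orb x) (orb y) = spd x y := rfl

noncomputable instance : MetricSpace (SP n X) where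
  dist_self q := by
    obtain ⟨x, rfl⟩ := orb_surj q
    rw [dist_orb]
    apply le_antisymm
    · exact (spd_le x x 1).trans (by simp)
    · exact le_ciInf fun _ => dist_nonneg
  dist_comm q q' := by
    obtain ⟨x, rfl⟩ := orb_surj q
    obtain ⟨y, rfl⟩ := orb_surj q'
    have key : ∀ x y : Fin n → X, spd x y ≤ spd y x := by
      intro x y
      obtain ⟨σ, hσ⟩ := spd_attained y x
      rw [hσ, dist_comm, ← spd_perm x y σ 1]
      exact (spd_le _ _ 1)
    exact le_antisymm (key x y) (key y x)
  dist_triangle q q' q'' := by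
    obtain ⟨x, rfl⟩ := orb_surj q
    obtain ⟨y, rfl⟩ := orb_surj q'
    obtain ⟨z, rfl⟩ := orb_surj q''
    rw [dist_orb, dist_orb, dist_orb]
    obtain ⟨σ, hσ⟩ := spd_attained x y
    obtain ⟨τ, hτ⟩ := spd_attained y z
    rw [hσ, hτ, ← dist_comp_perm y (z ∘ τ) σ]
    refine (spd_le x z (τ * σ)).trans ?_
    exact dist_triangle x (y ∘ σ) ((z ∘ τ) ∘ σ)
  eq_of_dist_eq_zero {q q'} h := by
    obtain ⟨x, rfl⟩ := orb_surj q
    obtain ⟨y, rfl⟩ := orb_surj q'
    obtain ⟨σ, hσ⟩ := spd_attained x y
    rw [dist_orb, hσ] at h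
    rw [eq_of_dist_eq_zero h, orb_comp]

instance [IsUltrametricDist X] : IsUltrametricDist (SP n X) where
  dist_triangle_max q q' q'' := by
    obtain ⟨x, rfl⟩ := orb_surj q
    obtain ⟨y, rfl⟩ := orb_surj q'
    obtain ⟨z, rfl⟩ := orb_surj q''
    rw [dist_orb, dist_orb, dist_orb]
    obtain ⟨σ, hσ⟩ := spd_attained x y
    obtain ⟨τ, hτ⟩ := spd_attained y z
    rw [hσ, hτ, ← dist_comp_perm y (z ∘ τ) σ]
    refine (spd_le x z (τ * σ)).trans ?_
    exact IsUltrametricDist.dist_triangle_max x (y ∘ σ) ((z ∘ τ) ∘ σ)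

/-- Small distances of orbits are realized by representatives. -/
theorem dist_orb_lt {x y : Fin n → X} {r : ℝ} :
    dist (orb x) (orb y) < r ↔ ∃ σ : Equiv.Perm (Fin n), dist x (y ∘ σ) < r := by
  rw [dist_orb]
  constructor
  · intro h
    obtain ⟨σ, hσ⟩ := spd_attained x y
    exact ⟨σ, by rwa [← hσ]⟩
  · rintro ⟨σ, hσ⟩
    exact (spd_le x y σ).trans_lt hσ

end spmetric

/-- The symmetric power functor on `UMET`. -/
noncomputable def SPn (n : ℕ) : UMet ⥤ UMet where
  obj X := ⟨SP n X⟩
  map {X Y} f := ⟨Quotient.map (fun x => f.toFun ∘ x) (by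
      rintro x _ ⟨σ, rfl⟩
      exact ⟨σ, rfl⟩), by
    intro q q'
    obtain ⟨x, rfl⟩ := orb_surj q
    obtain ⟨y, rfl⟩ := orb_surj q'
    change dist (orb (f.toFun ∘ x)) (orb (f.toFun ∘ y)) ≤ dist (orb x) (orb y)
    rw [dist_orb, dist_orb]
    obtain ⟨σ, hσ⟩ := spd_attained x y
    rw [hσ]
    refine (spd_le _ _ σ).trans ?_
    rw [dist_pi_le_iff dist_nonneg]
    intro i
    exact (f.nonexp _ _).trans (dist_le_pi_dist x (y ∘ σ) i)⟩
  map_id X := by
    apply NE.ext
    funext q
    obtain ⟨x, rfl⟩ := orb_surj q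
    rfl
  map_comp f g := by
    apply NE.ext
    funext q
    obtain ⟨x, rfl⟩ := orb_surj q
    rfl

/-- The product of max-min measures, pushed to the symmetric power. -/
noncomputable def lam {n : ℕ} {Y : Type} (a : Fin n → J Y) : J (SP n Y) where
  coef q := ⨆ (y : Fin n → Y) (_ : orb y = q), ⨅ i, (a i).coef (y i)
  finite_support := by
    have hfin : (Set.pi univ fun i => {y | (a i).coef y ≠ ⊥}).Finite :=
      Set.Finite.pi fun i => (a i).finite_support
    refine (hfin.image orb).subset fun q hq => ?_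
    by_contra hcon
    apply hq
    rw [eq_bot_iff]
    refine iSup₂_le fun y hy => ?_
    by_contra hne
    apply hcon
    refine ⟨y, ?_, hy⟩
    intro i _ h
    apply hne
    rw [← h]
    exact iInf_le _ i
  exists_top := by
    choose y hy using fun i => (a i).exists_top
    refine ⟨orb y, ?_⟩
    rw [eq_top_iff]
    refine le_iSup₂_of_le y rfl ?_
    refine le_iInf fun i => ?_
    rw [hy i]

theorem lam_coef {n : ℕ} {Y : Type} (a : Fin n → J Y) (q : SP n Y) :
    (lam a).coef q = ⨆ (y : Fin n → Y) (_ : orb y = q), ⨅ i, (a i).coef (y i) := rfl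

theorem lam_perm {n : ℕ} {Y : Type} (a : Fin n → J Y) (σ : Equiv.Perm (Fin n)) :
    lam (a ∘ σ) = lam a := by
  have key : ∀ (a : Fin n → J Y) (σ : Equiv.Perm (Fin n)) (q : SP n Y),
      (lam (a ∘ σ)).coef q ≤ (lam a).coef q := by
    intro a σ q
    rw [lam_coef, lam_coef]
    refine iSup₂_le fun y hy => ?_
    refine le_iSup₂_of_le (y ∘ (σ⁻¹ : Equiv.Perm (Fin n))) (by rw [orb_comp]; exact hy) ?_
    refine le_iInf fun i => ?_
    refine (iInf_le _ (σ⁻¹ i)).trans (le_of_eq ?_)
    simp
  apply J.ext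
  funext q
  apply le_antisymm (key a σ q)
  have := key (a ∘ σ) σ⁻¹ q
  have e : (a ∘ σ) ∘ (σ⁻¹ : Equiv.Perm (Fin n)) = a := by funext i; simp
  rwa [e] at this

theorem lam_delta {n : ℕ} {Y : Type} (x : Fin n → Y) :
    lam (fun i => delta (x i)) = delta (orb x) := by
  apply J.ext
  funext q
  rw [lam_coef]
  by_cases hq : q = orb x
  · rw [hq, delta_self, eq_top_iff]
    refine le_iSup₂_of_le x rfl ?_
    refine le_iInf fun i => ?_
    rw [delta_self]
  · rw [delta_ne hq, eq_bot_iff]
    refine iSup₂_le fun y hy => ?_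
    have hne : ∃ i, y i ≠ x i := by
      by_contra h
      push Not at h
      exact hq (by rw [← hy, funext h])
    obtain ⟨i, hi⟩ := hne
    refine (iInf_le _ i).trans ?_
    rw [delta_ne hi]

/-- The extension on morphisms. -/
noncomputable def ext {n : ℕ} {X Y : Type} (f : X → J Y) (q : SP n X) : J (SP n Y) :=
  Quotient.lift (fun x : Fin n → X => lam (fun i => f (x i))) (by
    rintro x _ ⟨σ, rfl⟩
    exact (lam_perm (fun i => f (x i)) σ).symm) q

theorem ext_orb {n : ℕ} {X Y : Type} (f : X → J Y) (x : Fin n → X) :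
    ext f (orb x) = lam (fun i => f (x i)) := rfl

theorem lam_bind {n : ℕ} {Y Z : Type} (a : Fin n → J Y) (g : Y → J Z) :
    lam (fun i => bind (a i) g) = bind (lam a) (ext g) := by
  apply J.ext
  funext q
  rw [lam_coef, bind_coef]
  apply le_antisymm
  · refine iSup₂_le fun z hz => ?_
    simp_rw [bind_coef]
    rw [iInf_iSup_eq]
    refine iSup_le fun y => ?_
    refine le_iSup_of_le (orb y) ?_
    refine le_min ?_ ?_
    · rw [lam_coef]
      exact le_iSup₂_of_le y rfl (iInf_mono fun i => min_le_left _ _)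
    · rw [ext_orb, lam_coef]
      exact le_iSup₂_of_le z hz (iInf_mono fun i => min_le_right _ _)
  · refine iSup_le fun p => ?_
    have h1 : min ((lam a).coef p) ((ext g p).coef q) =
        ⨆ (y : Fin n → Y) (_ : orb y = p), (⨅ i, (a i).coef (y i)) ⊓ (ext g p).coef q :=
      iSup₂_inf_eq _
    rw [h1]
    refine iSup₂_le fun y hy => ?_
    rw [← hy, ext_orb, lam_coef]
    have h2 : (⨅ i, (a i).coef (y i)) ⊓
        (⨆ (z : Fin n → Z) (_ : orb z = q), ⨅ i, (g (y i)).coef (z i)) =
        ⨆ (z : Fin n → Z) (_ : orb z = q), (⨅ i, (a i).coef (y i)) ⊓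
          ⨅ i, (g (y i)).coef (z i) := inf_iSup₂_eq _
    rw [h2]
    refine iSup₂_le fun z hz => ?_
    refine le_iSup₂_of_le z hz ?_
    refine le_iInf fun i => ?_
    rw [bind_coef]
    refine le_iSup_of_le (y i) ?_
    exact le_min (inf_le_left.trans (iInf_le _ i)) (inf_le_right.trans (iInf_le _ i))

theorem lam_nonexp {n : ℕ} {Y : Type} [MetricSpace Y] [IsUltrametricDist Y] {r : ℝ} (hr : 0 < r)
    (a b : Fin n → J Y) (h : ∀ i y, bs r (a i).coef y = bs r (b i).coef y) (q : SP n Y) :
    bs r (lam a).coef q = bs r (lam b).coef q := by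
  have key : ∀ a b : Fin n → J Y, (∀ i y, bs r (a i).coef y = bs r (b i).coef y) →
      bs r (lam a).coef q ≤ bs r (lam b).coef q := by
    intro a b h
    refine iSup₂_le fun p hp => ?_
    rw [lam_coef]
    refine iSup₂_le fun y hy => ?_
    have h1 : ⨅ i, (a i).coef (y i) ≤ ⨅ i, ⨆ w : {w // w ∈ ball (y i) r}, (b i).coef w.1 := by
      refine iInf_mono fun i => ?_
      refine (le_bs hr _ _).trans ?_
      rw [h]
      unfold bs
      rw [iSup_subtype']
    refine h1.trans ?_
    rw [iInf_iSup_eq]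
    refine iSup_le fun w => ?_
    refine le_iSup₂_of_le (orb fun i => (w i).1) ?_ (le_iSup₂_of_le (fun i => (w i).1) rfl le_rfl)
    have h2 : dist (fun i => (w i).1) y < r := by
      rw [dist_pi_lt_iff hr]
      intro i
      exact (w i).2
    have h3 : dist (orb fun i => (w i).1) p < r := by
      rw [← hy]
      exact (spd_le _ _ 1).trans_lt h2
    rw [mem_ball] at hp ⊢
    exact (IsUltrametricDist.dist_triangle_max _ p _).trans_lt (max_lt h3 hp)
  exact le_antisymm (key a b h) (key b a fun i y => (h i y).symm)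

theorem ext_nonexp {n : ℕ} {X Y : Type} [MetricSpace X] [MetricSpace Y] [IsUltrametricDist X]
    [IsUltrametricDist Y] (f : X → J Y) (hf : ∀ x x', dJ (f x) (f x') ≤ dist x x')
    (q q' : SP n X) : dJ (ext f q) (ext f q') ≤ dist q q' := by
  obtain ⟨x, rfl⟩ := orb_surj q
  obtain ⟨x', rfl⟩ := orb_surj q'
  rw [dJ_le_iff _ _ dist_nonneg]
  intro r hr p
  have hr0 : 0 < r := dist_nonneg.trans_lt hr
  obtain ⟨σ, hσ⟩ := dist_orb_lt.1 hr
  rw [← orb_comp x' σ, ext_orb, ext_orb]
  refine lam_nonexp hr0 _ _ (fun i y => ?_) p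
  refine (dJ_le_iff _ _ dist_nonneg).1 (hf _ _) r ?_ y
  exact (dist_le_pi_dist x (x' ∘ σ) i).trans_lt hσ

/-- The standard extension of the symmetric power functor to the Kleisli category. -/
noncomputable def std (n : ℕ) : Kl ⥤ Kl where
  obj X := ⟨(SPn n).obj X.of⟩
  map {X Y} f := ⟨ext f.toFun, ext_nonexp f.toFun f.nonexp⟩
  map_id X := by
    apply KHom.ext
    funext q
    obtain ⟨x, rfl⟩ := orb_surj q
    exact lam_delta x
  map_comp f g := by
    apply KHom.ext
    funext q
    obtain ⟨x, rfl⟩ := orb_surj q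
    exact lam_bind (fun i => f.toFun (x i)) g.toFun

theorem std_extends (n : ℕ) : Phi ⋙ std n = SPn n ⋙ Phi := by
  refine CategoryTheory.Functor.hext (fun _ => rfl) fun X Y f => heq_of_eq ?_
  apply KHom.ext
  funext q
  obtain ⟨x, rfl⟩ := orb_surj q
  exact lam_delta fun i => f.toFun (x i)

/-- A twist of a max-min measure by an order automorphism of the extended reals. -/
noncomputable def twist (φ : EReal ≃o EReal) {X : Type} (a : J X) : J X where
  coef x := φ (a.coef x)
  finite_support := by
    refine a.finite_support.subset fun x hx h => hx ?_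
    rw [h, OrderIso.map_bot]
  exists_top := by
    obtain ⟨x, hx⟩ := a.exists_top
    exact ⟨x, by rw [hx, OrderIso.map_top]⟩

theorem twist_coef (φ : EReal ≃o EReal) {X : Type} (a : J X) (x : X) :
    (twist φ a).coef x = φ (a.coef x) := rfl

theorem twist_delta (φ : EReal ≃o EReal) {X : Type} (x : X) : twist φ (delta x) = delta x := by
  apply J.ext
  funext y
  rw [twist_coef]
  by_cases h : y = x
  · rw [h, delta_self, OrderIso.map_top]
  · rw [delta_ne h, OrderIso.map_bot]

theorem twist_bind (φ : EReal ≃o EReal) {X Y : Type} (a : J X) (g : X → J Y) :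
    twist φ (bind a g) = bind (twist φ a) fun x => twist φ (g x) := by
  apply J.ext
  funext y
  rw [twist_coef, bind_coef, bind_coef, OrderIso.map_iSup]
  refine iSup_congr fun x => ?_
  exact OrderIso.map_inf φ _ _

theorem twist_nonexp (φ : EReal ≃o EReal) {X Y : Type} [MetricSpace X] [MetricSpace Y]
    [IsUltrametricDist X] [IsUltrametricDist Y] (f : X → J Y)
    (hf : ∀ x x', dJ (f x) (f x') ≤ dist x x') (x x' : X) :
    dJ (twist φ (f x)) (twist φ (f x')) ≤ dist x x' := by
  rw [dJ_le_iff _ _ dist_nonneg]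
  intro r hr y
  have h := (dJ_le_iff _ _ dist_nonneg).1 (hf x x') r hr y
  have key : ∀ a : J Y, bs r (twist φ a).coef y = φ (bs r a.coef y) := by
    intro a
    unfold bs
    simp_rw [OrderIso.map_iSup]
    rfl
  rw [key, key, h]

/-- The functor of the Kleisli category given by a twist. -/
noncomputable def Tw (φ : EReal ≃o EReal) : Kl ⥤ Kl where
  obj X := X
  map {X Y} f := ⟨fun x => twist φ (f.toFun x), twist_nonexp φ f.toFun f.nonexp⟩
  map_id X := by
    apply KHom.ext
    funext x
    exact twist_delta φ x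
  map_comp f g := by
    apply KHom.ext
    funext x
    exact twist_bind φ _ _

theorem Phi_Tw (φ : EReal ≃o EReal) : Phi ⋙ Tw φ = Phi := by
  refine CategoryTheory.Functor.hext (fun _ => rfl) fun X Y f => heq_of_eq ?_
  apply KHom.ext
  funext x
  exact twist_delta φ _

/-- The translation of the extended reals by one. -/
noncomputable def shift : EReal ≃o EReal :=
  OrderIso.withBotCongr (OrderIso.withTopCongr (OrderIso.addRight (1 : ℝ)))

theorem shift_zero : shift 0 ≠ 0 := by
  have h : shift 0 = ((1 : ℝ) : EReal) := by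
    show (((0 : ℝ) + 1 : ℝ) : EReal) = _
    norm_num
  rw [h]
  norm_num

end Pool.Agent.Q154.MaxMin
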