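import Mathlib

set_option autoImplicit false

/-!
Random sets in cyclic groups: for every `p` and all large `B` there is a set `J ⊆ ℤ/B` of density at
most `1/(48 p)` such that `K + J` has density at least `1/100` whenever `K` has at least `p` elements.
-/

open Finset

namespace Pool.Agent.Q154.NA

/-- the number of maps which are constant on a set -/
theorem card_const {B m : ℕ} [NeZero B] (W : Finset (ZMod B)) (i : Fin m) :
    (univ.filter fun c : ZMod B → Fin m => ∀ z ∈ W, c z = i).card = m ^ (B - W.card) := by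
  classical
  have h : (univ.filter fun c : ZMod B → Fin m => ∀ z ∈ W, c z = i) =
      Fintype.piFinset fun z => if z ∈ W then {i} else univ := by
    ext c
    simp only [mem_filter, mem_univ, true_and, Fintype.mem_piFinset]
    constructor
    · intro h z
      by_cases hz : z ∈ W
      · simp [hz, h z hz]
      · simp [hz]
    · intro h z hz
      have := h z
      simpa [hz] using this
  rw [h, Fintype.card_piFinset]
  have h2 : ∀ z : ZMod B, (if z ∈ W then ({i} : Finset (Fin m)) else univ).card =
      if z ∈ W then 1 else m := by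
    intro z
    split_ifs <;> simp
  simp only [h2]
  rw [prod_ite]
  simp only [prod_const_one, one_mul, prod_const]
  congr 1
  have h3 : (univ.filter fun z : ZMod B => ¬ z ∈ W) = univ \ W := by ext; simp
  rw [h3, card_sdiff_of_subset (subset_univ _), card_univ, ZMod.card]

/-- an independent set of shifts -/
theorem exists_indep {B : ℕ} [NeZero B] (Z : Finset (ZMod B)) {h : ZMod B} (h0 : h ≠ 0) (r : ℕ)
    (hZ : 3 * r < Z.card) :
    ∃ Z' ⊆ Z, Z'.card = r ∧ ∀ z ∈ Z', z + h ∉ Z' := by
  classical
  -- a maximal set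
  obtain ⟨M, hM1, hM2⟩ : ∃ M ∈ Z.powerset.filter (fun M => ∀ z ∈ M, z + h ∉ M),
      ∀ M' ∈ Z.powerset.filter (fun M => ∀ z ∈ M, z + h ∉ M), M'.card ≤ M.card :=
    exists_max_image _ _ ⟨∅, by simp⟩
  simp only [mem_filter, mem_powerset] at hM1 hM2
  have hcov : Z ⊆ M ∪ (M.image (· + h)) ∪ (M.image (· - h)) := by
    intro z hz
    by_contra hcon
    simp only [mem_union, mem_image, not_or, not_exists, not_and] at hcon
    obtain ⟨⟨hzM, hz1⟩, hz2⟩ := hcon
    have := hM2 (insert z M) ⟨insert_subset hz hM1.1, ?_⟩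
    · rw [card_insert_of_notMem hzM] at this
      omega
    · intro w hw
      rw [mem_insert] at hw
      rw [mem_insert, not_or]
      rcases hw with rfl | hw
      · refine ⟨?_, ?_⟩
        · intro e
          exact h0 (by simpa using e)
        · intro hwM
          exact hz2 (w + h) hwM (by ring)
      · refine ⟨?_, hM1.2 w hw⟩
        intro e
        exact hz1 w hw e
  have hc : Z.card ≤ 3 * M.card := by
    refine (card_le_card hcov).trans ?_
    refine (card_union_le _ _).trans ?_
    have h1 := card_union_le M (M.image (· + h))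
    have h2 : (M.image (· + h)).card ≤ M.card := card_image_le
    have h3 : (M.image (· - h)).card ≤ M.card := card_image_le
    omega
  obtain ⟨Z', hZ'1, hZ'2⟩ := exists_subset_card_eq (s := M) (n := r) (by omega)
  exact ⟨Z', hZ'1.trans hM1.1, hZ'2, fun z hz hz' => hM1.2 z (hZ'1 hz) (hZ'1 hz')⟩

/-- a colouring all of whose classes have small correlations -/
theorem exists_coloring {m B r : ℕ} [NeZero B]
    (hcount : m * B * B.choose r * m ^ (B - 2 * r) < m ^ B) :
    ∃ c : ZMod B → Fin m, ∀ i, ∀ h : ZMod B, h ≠ 0 →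
      (univ.filter fun z => c z = i ∧ c (z + h) = i).card ≤ 3 * r := by
  classical
  by_contra hcon
  push Not at hcon
  -- the bad sets
  let Wf : ZMod B → Finset (ZMod B) → Finset (ZMod B) := fun h Z => Z ∪ Z.image (· + h)
  have key : (univ : Finset (ZMod B → Fin m)) ⊆
      ((univ : Finset (Fin m × ZMod B)) ×ˢ powersetCard r (univ : Finset (ZMod B))).biUnion
        fun t => if (Wf t.1.2 t.2).card = 2 * r then
          (univ.filter fun c : ZMod B → Fin m => ∀ z ∈ Wf t.1.2 t.2, c z = t.1.1) else ∅ := by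
    intro c _
    obtain ⟨i, h, h0, hc⟩ := hcon c
    obtain ⟨Z', hZ1, hZ2, hZ3⟩ := exists_indep _ h0 r hc
    rw [mem_biUnion]
    refine ⟨((i, h), Z'), ?_, ?_⟩
    · rw [mem_product]
      exact ⟨mem_univ _, by rw [mem_powersetCard]; exact ⟨subset_univ _, hZ2⟩⟩
    · have hcard : (Wf h Z').card = 2 * r := by
        show (Z' ∪ Z'.image (· + h)).card = 2 * r
        rw [card_union_of_disjoint, card_image_of_injective _ (add_left_injective h), hZ2]
        · ring
        · rw [disjoint_right]
          intro z hz hz'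
          obtain ⟨w, hw, rfl⟩ := mem_image.1 hz
          exact hZ3 w hw hz'
      simp only [hcard, if_true, mem_filter, mem_univ, true_and]
      intro z hz
      rcases mem_union.1 hz with hz | hz
      · exact (mem_filter.1 (hZ1 hz)).2.1
      · obtain ⟨w, hw, rfl⟩ := mem_image.1 hz
        exact (mem_filter.1 (hZ1 hw)).2.2
  have h1 := card_le_card key
  rw [card_univ, Fintype.card_fun, Fintype.card_fin, ZMod.card] at h1
  have h2 : (((univ : Finset (Fin m × ZMod B)) ×ˢ powersetCard r (univ : Finset (ZMod B))).biUnion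
        fun t => if (Wf t.1.2 t.2).card = 2 * r then
          (univ.filter fun c : ZMod B → Fin m => ∀ z ∈ Wf t.1.2 t.2, c z = t.1.1) else ∅).card ≤
      (((univ : Finset (Fin m × ZMod B)) ×ˢ powersetCard r (univ : Finset (ZMod B)))).card *
        m ^ (B - 2 * r) := by
    apply card_biUnion_le_card_mul
    intro t _
    split_ifs with ht
    · rw [card_const, ht]
    · simp
  rw [card_product, card_univ, Fintype.card_prod, Fintype.card_fin, ZMod.card, card_powersetCard,
    card_univ, ZMod.card] at h2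
  omega

/-- the union bound holds for large moduli -/
theorem count_ok {m B r : ℕ} (hm : 0 < m) (hr0 : 0 < r) (h1 : 6 * B ≤ r * m ^ 2)
    (h2 : m * B < 2 ^ r) (h3 : 2 * r ≤ B) :
    m * B * B.choose r * m ^ (B - 2 * r) < m ^ B := by
  have hB : 0 < B := by omega
  have key : (B.choose r : ℝ) * 2 ^ r ≤ (m : ℝ) ^ (2 * r) := by
    have hr' : (0:ℝ) < r := by exact_mod_cast hr0
    have h4 : (B.choose r : ℝ) ≤ (B : ℝ) ^ r / (r.factorial : ℝ) := Nat.choose_le_pow_div r B
    have h5 : (r : ℝ) ^ r / (r.factorial : ℝ) ≤ Real.exp r :=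
      Real.pow_div_factorial_le_exp _ hr'.le r
    have h6 : (B : ℝ) ^ r / (r.factorial : ℝ) ≤ ((B : ℝ) / r * Real.exp 1) ^ r := by
      have h7 : (B : ℝ) ^ r / (r.factorial : ℝ) = ((B : ℝ) / r) ^ r * ((r : ℝ) ^ r / (r.factorial : ℝ)) := by
        rw [div_pow]
        field_simp
      rw [h7, mul_pow]
      refine mul_le_mul_of_nonneg_left ?_ (by positivity)
      rw [← Real.exp_nat_mul, mul_one]
      exact h5
    calc (B.choose r : ℝ) * 2 ^ r ≤ ((B : ℝ) / r * Real.exp 1) ^ r * 2 ^ r :=
          mul_le_mul_of_nonneg_right (h4.trans h6) (by positivity)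
      _ = ((B : ℝ) / r * Real.exp 1 * 2) ^ r := by rw [mul_pow _ 2]
      _ ≤ ((m : ℝ) ^ 2) ^ r := by
          refine pow_le_pow_left₀ (by positivity) ?_ r
          have he : Real.exp 1 < 3 := by
            have := Real.exp_one_lt_d9
            linarith
          rw [div_mul_eq_mul_div, div_mul_eq_mul_div, div_le_iff₀ hr']
          have h1' : (6:ℝ) * B ≤ r * (m:ℝ) ^ 2 := by exact_mod_cast h1
          have hBp : (0:ℝ) < B := by exact_mod_cast hB
          nlinarith [Real.exp_pos 1]
      _ = (m : ℝ) ^ (2 * r) := by rw [← pow_mul]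
  have key' : B.choose r * 2 ^ r ≤ m ^ (2 * r) := by exact_mod_cast key
  have hmB : m ^ B = m ^ (2 * r) * m ^ (B - 2 * r) := by rw [← pow_add]; congr 1; omega
  rw [hmB]
  have hpos : 0 < m ^ (B - 2 * r) := by positivity
  refine Nat.mul_lt_mul_of_pos_right ?_ hpos
  have hch : 0 < B.choose r := Nat.choose_pos (by omega)
  calc m * B * B.choose r < 2 ^ r * B.choose r := Nat.mul_lt_mul_of_pos_right h2 hch
    _ = B.choose r * 2 ^ r := mul_comm _ _
    _ ≤ m ^ (2 * r) := key'

/-- the sum of a set with `k` elements and a set with small correlations is large -/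
theorem card_add_ge {B : ℕ} [NeZero B] (J : Finset (ZMod B)) (s T p : ℕ) (hs : s ≤ J.card)
    (hT : ∀ h : ZMod B, h ≠ 0 → (J.filter fun z => z + h ∈ J).card ≤ T) (hpT : p * T ≤ s) :
    ∀ K : Finset (ZMod B), K.card ≤ p →
      K.card * (s - p * T) ≤ (K.biUnion fun κ => J.image (· + κ)).card := by
  classical
  intro K
  induction K using Finset.induction_on with
  | empty => simp
  | insert κ K hκ ih =>
    intro hcard
    rw [card_insert_of_notMem hκ] at hcard ⊢
    have ih' := ih (by omega)
    rw [biUnion_insert, union_comm]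
    have h1 : (((K.biUnion fun κ => J.image (· + κ))) ∪ J.image (· + κ)).card +
        (((K.biUnion fun κ => J.image (· + κ))) ∩ J.image (· + κ)).card =
        (K.biUnion fun κ => J.image (· + κ)).card + (J.image (· + κ)).card :=
      card_union_add_card_inter _ _
    have h2 : (J.image (· + κ)).card = J.card :=
      card_image_of_injective _ (add_left_injective κ)
    have h3 : (((K.biUnion fun κ => J.image (· + κ))) ∩ J.image (· + κ)).card ≤ K.card * T := by
      have h4 : ((K.biUnion fun κ => J.image (· + κ))) ∩ J.image (· + κ) ⊆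
          K.biUnion fun κ' => (J.image (· + κ')) ∩ J.image (· + κ) := by
        intro z hz
        rw [mem_inter, mem_biUnion] at hz
        obtain ⟨⟨κ', hκ', hz1⟩, hz2⟩ := hz
        rw [mem_biUnion]
        exact ⟨κ', hκ', mem_inter.2 ⟨hz1, hz2⟩⟩
      refine (card_le_card h4).trans ?_
      apply card_biUnion_le_card_mul
      intro κ' hκ'
      have hne : κ - κ' ≠ 0 := by
        intro e
        have : κ = κ' := by linear_combination e
        exact hκ (this ▸ hκ')
      refine le_trans ?_ (hT (κ - κ') hne)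
      have h5 : (J.image (· + κ')) ∩ J.image (· + κ) ⊆
          (J.filter fun z => z + (κ - κ') ∈ J).image (· + κ) := by
        intro z hz
        rw [mem_inter, mem_image, mem_image] at hz
        obtain ⟨⟨a, ha, hza⟩, b, hb, hzb⟩ := hz
        rw [mem_image]
        refine ⟨b, mem_filter.2 ⟨hb, ?_⟩, hzb⟩
        have : b + (κ - κ') = a := by
          have h := hza.trans hzb.symm
          linear_combination -h
        rw [this]
        exact ha
      exact (card_le_card h5).trans card_image_le
    have h6 : K.card * T ≤ p * T := Nat.mul_le_mul_right _ (by omega)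
    have h7 : (K.card + 1) * (s - p * T) = K.card * (s - p * T) + (s - p * T) := by ring
    rw [h7]
    omega

/-- the random set -/
theorem exists_set (p : ℕ) (hp : 0 < p) : ∃ B₀ : ℕ, ∀ B : ℕ, B₀ ≤ B → ∀ [NeZero B],
    ∃ J : Finset (ZMod B), 48 * p * J.card ≤ B ∧ ∀ K : Finset (ZMod B), p ≤ K.card →
      B ≤ 100 * (K.biUnion fun κ => J.image (· + κ)).card := by
  classical
  set m := 48 * p with hm
  have hm0 : 0 < m := by positivity
  -- r = ⌊8 B / m²⌋
  have hexp : ∀ᶠ r : ℕ in Filter.atTop, m * (m ^ 2 * (r + 1)) < 2 ^ r := by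
    have h := tendsto_pow_const_div_const_pow_of_one_lt 1 (r := (2:ℝ)) (by norm_num)
    have h2 : Filter.Tendsto (fun n : ℕ => ((n:ℝ)^1 / 2 ^ n) * (2 * (m:ℝ) ^ 3)) Filter.atTop
        (nhds (0 * (2 * (m:ℝ)^3))) := h.mul_const _
    rw [zero_mul] at h2
    filter_upwards [h2.eventually (gt_mem_nhds (show (0:ℝ) < 1 by norm_num)),
      Filter.eventually_ge_atTop 1] with r hr h1
    have h2r : (0:ℝ) < 2 ^ r := by positivity
    rw [pow_one, div_mul_eq_mul_div, div_lt_one h2r] at hr
    have h4 : (m:ℝ) * ((m:ℝ)^2 * (r + 1)) < 2 ^ r := by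
      have h1' : (1:ℝ) ≤ r := by exact_mod_cast h1
      have h5 : (m:ℝ) * ((m:ℝ)^2 * (r + 1)) = (m:ℝ)^3 * (r+1) := by ring
      rw [h5]
      have hm3 : (0:ℝ) ≤ (m:ℝ)^3 := by positivity
      nlinarith
    exact_mod_cast h4
  obtain ⟨R, hR⟩ := Filter.eventually_atTop.1 hexp
  refine ⟨m ^ 2 * (R + 4) + 9600 * p + m, fun B hB _ => ?_⟩
  set r := 8 * B / m ^ 2 with hr
  have hm2 : 0 < m ^ 2 := by positivity
  have hr1 : r * m ^ 2 ≤ 8 * B := Nat.div_mul_le_self _ _
  have hr2 : 8 * B < (r + 1) * m ^ 2 := by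
    have := Nat.lt_mul_div_succ (8 * B) hm2
    rw [← hr] at this
    linarith [mul_comm (m ^ 2) (r + 1)]
  have hRr : R + 4 ≤ r := by
    rw [hr, Nat.le_div_iff_mul_le hm2]
    nlinarith
  have h1 : 6 * B ≤ r * m ^ 2 := by nlinarith
  have h2 : m * B < 2 ^ r := by
    have := hR r (by omega)
    have h3 : m * B ≤ m * (m ^ 2 * (r + 1)) := Nat.mul_le_mul_left _ (by nlinarith)
    omega
  have hm48 : 48 ≤ m := by omega
  have hmm : 48 * m ≤ m ^ 2 := by nlinarith
  have h3 : 2 * r ≤ B := by nlinarith
  obtain ⟨c, hc⟩ := exists_coloring (count_ok hm0 (by omega) h1 h2 h3)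
  -- a large colour class
  set s := B / m with hs
  have hs1 : m * s ≤ B := Nat.mul_div_le _ _
  have hs2 : B < m * (s + 1) := Nat.lt_mul_div_succ _ hm0
  have hcard : Fintype.card (Fin m) * s ≤ Fintype.card (ZMod B) := by
    rw [Fintype.card_fin, ZMod.card]; exact hs1
  have : Nonempty (Fin m) := ⟨⟨0, hm0⟩⟩
  obtain ⟨i, hi⟩ := Fintype.exists_le_card_fiber_of_mul_le_card c hcard
  obtain ⟨J, hJ1, hJ2⟩ := exists_subset_card_eq hi
  refine ⟨J, by rw [hJ2]; exact hs1, fun K hK => ?_⟩
  obtain ⟨K', hK'1, hK'2⟩ := exists_subset_card_eq hK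
  have hq : p * (3 * r) * (2 * m) ≤ B := by
    have h4 : p * (3 * r) * (2 * m) * m ≤ B * m := by
      calc p * (3 * r) * (2 * m) * m = 6 * p * (r * m ^ 2) := by ring
        _ ≤ 6 * p * (8 * B) := Nat.mul_le_mul_left _ hr1
        _ = B * m := by rw [hm]; ring
    exact Nat.le_of_mul_le_mul_right h4 hm0
  have hqs : p * (3 * r) ≤ s := by
    have h5 : p * (3 * r) * m < (s + 1) * m := by
      have h6 : m + m ≤ B := by omega
      nlinarith
    have := Nat.lt_of_mul_lt_mul_right h5
    omega
  have hmain := card_add_ge J s (3 * r) p hJ2.ge (fun h h0 => ?_) hqs K' hK'2.le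
  · rw [hK'2] at hmain
    have hle : (K'.biUnion fun κ => J.image (· + κ)).card ≤ (K.biUnion fun κ => J.image (· + κ)).card :=
      card_le_card (biUnion_subset_biUnion_of_subset_left _ hK'1)
    obtain ⟨d, hd⟩ : ∃ d, s = p * (3 * r) + d := ⟨s - p * (3 * r), by omega⟩
    have hd' : s - p * (3 * r) = d := by omega
    rw [hd'] at hmain
    have h7 : B ≤ 100 * (p * d) := by
      have h8 : B < m * (p * (3 * r)) + m * d + m := by
        calc B < m * (s + 1) := hs2
          _ = _ := by rw [hd]; ring
      have h9 : m * (p * (3 * r)) * 2 ≤ B := by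
        calc m * (p * (3 * r)) * 2 = p * (3 * r) * (2 * m) := by ring
          _ ≤ B := hq
      have h10 : m * d = 48 * (p * d) := by rw [hm]; ring
      have h11 : 9600 * p ≤ B := by omega
      omega
    omega
  · refine le_trans (card_le_card ?_) (hc i h h0)
    intro z hz
    rw [mem_filter] at hz ⊢
    have h1 := hJ1 hz.1
    have h2 := hJ1 hz.2
    rw [mem_filter] at h1 h2
    exact ⟨mem_univ _, h1.2, h2.2⟩

end Pool.Agent.Q154.NA
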