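import Mathlib
import Pool.Agent.Q154.NAdd1

set_option autoImplicit false

/-!
Null-additive sets of reals are captured by slaloms along digits in windows.
-/

open MeasureTheory Set Filter
open scoped ENNReal Pointwise

namespace Pool.Agent.Q154.NA

/-- the digit of `x` at the window from level `M` to level `M * B` -/
noncomputable def dig (M B : ℕ) (x : ℝ) : ZMod B := ((⌊((M * B : ℕ) : ℝ) * x⌋ : ℤ) : ZMod B)

/-- the part of a cell of level `M` with a given digit has length at most `1 / (M B)` -/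
theorem vol_cell (M B : ℕ) [NeZero B] (hM : 0 < M) (j : ℤ) (r : ZMod B) :
    volume {t : ℝ | ⌊(M : ℝ) * t⌋ = j ∧ dig M B t = r} ≤ ENNReal.ofReal (1 / ((M * B : ℕ) : ℝ)) := by
  have hB : 0 < B := Nat.pos_of_ne_zero (NeZero.ne B)
  have hMB : (0:ℝ) < ((M * B : ℕ) : ℝ) := by exact_mod_cast Nat.mul_pos hM hB
  set c : ℤ := j * B + r.val with hc
  have hsub : {t : ℝ | ⌊(M : ℝ) * t⌋ = j ∧ dig M B t = r} ⊆
      Ico ((c : ℝ) / ((M * B : ℕ) : ℝ)) (((c : ℝ) + 1) / ((M * B : ℕ) : ℝ)) := by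
    intro t ht
    obtain ⟨h1, h2⟩ := ht
    have h3 : ⌊((M * B : ℕ) : ℝ) * t⌋ = c := by
      set l := ⌊((M * B : ℕ) : ℝ) * t⌋ with hl
      have h4 : l / (B : ℤ) = j := by
        rw [hl, ← h1]
        have h5 : ((M * B : ℕ) : ℝ) * t = (M : ℝ) * t * B := by push_cast; ring
        rw [h5]
        have h6 : ⌊(M:ℝ) * t * B / (B:ℝ)⌋ = ⌊(M:ℝ) * t * B⌋ / (B:ℤ) := by
          exact Int.floor_div_natCast _ _
        rw [← h6]
        congr 1
        have : (B:ℝ) ≠ 0 := by exact_mod_cast hB.ne'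
        field_simp
      have h7 : l % (B:ℤ) = r.val := by
        have h8 : ((l : ℤ) : ZMod B) = r := h2
        rw [← h8, ZMod.val_intCast]
      rw [hc, ← h4, ← h7]
      rw [mul_comm]
      exact (Int.mul_ediv_add_emod l B).symm
    rw [Int.floor_eq_iff] at h3
    constructor
    · rw [div_le_iff₀ hMB]
      linarith [mul_comm t ((M * B : ℕ) : ℝ)]
    · rw [lt_div_iff₀ hMB]
      linarith [mul_comm t ((M * B : ℕ) : ℝ)]
  refine (measure_mono hsub).trans ?_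
  rw [Real.volume_Ico]
  apply ENNReal.ofReal_le_ofReal
  apply le_of_eq
  field_simp
  ring

theorem vol_cell_finset (M B : ℕ) [NeZero B] (hM : 0 < M) (j : ℤ) (L : Finset (ZMod B)) :
    volume {t : ℝ | ⌊(M : ℝ) * t⌋ = j ∧ dig M B t ∈ L} ≤
      ENNReal.ofReal ((L.card : ℝ) / ((M * B : ℕ) : ℝ)) := by
  have hsub : {t : ℝ | ⌊(M : ℝ) * t⌋ = j ∧ dig M B t ∈ L} ⊆
      ⋃ r ∈ L, {t : ℝ | ⌊(M : ℝ) * t⌋ = j ∧ dig M B t = r} := by
    intro t ht
    rw [mem_iUnion₂]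
    exact ⟨dig M B t, ht.2, ht.1, rfl⟩
  refine (measure_mono hsub).trans ?_
  refine (measure_biUnion_finset_le L _).trans ?_
  refine (Finset.sum_le_sum fun r _ => vol_cell M B hM j r).trans ?_
  rw [Finset.sum_const, nsmul_eq_mul, ← ENNReal.ofReal_natCast, ← ENNReal.ofReal_mul (by positivity)]
  apply ENNReal.ofReal_le_ofReal
  apply le_of_eq
  ring

/-- the part of a unit interval with digits in a given set -/
theorem vol_unit (M B : ℕ) [NeZero B] (hM : 0 < M) (k : ℤ) (L : Finset (ZMod B)) :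
    volume {t : ℝ | ⌊t⌋ = k ∧ dig M B t ∈ L} ≤ ENNReal.ofReal ((L.card : ℝ) / (B : ℝ)) := by
  have hB : 0 < B := Nat.pos_of_ne_zero (NeZero.ne B)
  have hsub : {t : ℝ | ⌊t⌋ = k ∧ dig M B t ∈ L} ⊆
      ⋃ j ∈ Finset.Ico (k * M) ((k + 1) * M), {t : ℝ | ⌊(M : ℝ) * t⌋ = j ∧ dig M B t ∈ L} := by
    intro t ht
    rw [mem_iUnion₂]
    refine ⟨⌊(M : ℝ) * t⌋, ?_, rfl, ht.2⟩
    have h1 := ht.1
    rw [Int.floor_eq_iff] at h1
    have hMr : (0:ℝ) < M := by exact_mod_cast hM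
    rw [Finset.mem_Ico]
    constructor
    · rw [Int.le_floor]
      push_cast
      nlinarith
    · rw [Int.floor_lt]
      push_cast
      nlinarith
  refine (measure_mono hsub).trans ?_
  refine (measure_biUnion_finset_le _ _).trans ?_
  refine (Finset.sum_le_sum fun r _ => vol_cell_finset M B hM r L).trans ?_
  rw [Finset.sum_const, nsmul_eq_mul, ← ENNReal.ofReal_natCast, ← ENNReal.ofReal_mul (by positivity)]
  apply ENNReal.ofReal_le_ofReal
  apply le_of_eq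
  rw [Int.card_Ico]
  have h2 : ((k + 1) * M - k * M : ℤ).toNat = M := by
    have : ((k + 1) * M - k * M : ℤ) = M := by ring
    rw [this]; simp
  rw [h2]
  have : (M:ℝ) ≠ 0 := by exact_mod_cast hM.ne'
  have : (B:ℝ) ≠ 0 := by exact_mod_cast hB.ne'
  push_cast
  field_simp

/-- digits of a difference -/
theorem near_diff (M B : ℕ) (x z : ℝ) :
    |((M * B : ℕ) : ℝ) * (z - x) - ((⌊((M * B : ℕ) : ℝ) * z⌋ - ⌊((M * B : ℕ) : ℝ) * x⌋ : ℤ) : ℝ)| < 1 := by
  have h1 := Int.floor_le (((M * B : ℕ) : ℝ) * z)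
  have h2 := Int.lt_floor_add_one (((M * B : ℕ) : ℝ) * z)
  have h3 := Int.floor_le (((M * B : ℕ) : ℝ) * x)
  have h4 := Int.lt_floor_add_one (((M * B : ℕ) : ℝ) * x)
  rw [abs_lt]
  push_cast at *
  constructor <;> nlinarith

/-- the open set of reals which are near to a digit from `J` -/
def opn (M B : ℕ) (J : Finset (ZMod B)) : Set ℝ :=
  {y | ∃ l : ℤ, ((l : ℤ) : ZMod B) ∈ J ∧ |((M * B : ℕ) : ℝ) * y - l| < 1}

theorem isOpen_opn (M B : ℕ) (J : Finset (ZMod B)) : IsOpen (opn M B J) := by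
  have : opn M B J = ⋃ l : {l : ℤ // ((l : ℤ) : ZMod B) ∈ J},
      {y : ℝ | |((M * B : ℕ) : ℝ) * y - (l : ℤ)| < 1} := by
    ext y
    simp only [opn, mem_ofPred_eq, mem_iUnion]
    constructor
    · rintro ⟨l, h1, h2⟩
      exact ⟨⟨l, h1⟩, h2⟩
    · rintro ⟨⟨l, h1⟩, h2⟩
      exact ⟨l, h1, h2⟩
  rw [this]
  exact isOpen_iUnion fun l => isOpen_lt (by fun_prop) continuous_const

theorem opn_subset (M B : ℕ) [NeZero B] (J : Finset (ZMod B)) :
    opn M B J ⊆ {y | dig M B y ∈ J ∪ J.image (· - 1)} := by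
  rintro y ⟨l, h1, h2⟩
  rw [abs_lt] at h2
  have h3 : ⌊((M * B : ℕ) : ℝ) * y⌋ = l ∨ ⌊((M * B : ℕ) : ℝ) * y⌋ = l - 1 := by
    have h4 : ⌊((M * B : ℕ) : ℝ) * y⌋ < l + 1 := by
      rw [Int.floor_lt]; push_cast at h2 ⊢; linarith
    have h5 : l - 1 ≤ ⌊((M * B : ℕ) : ℝ) * y⌋ := by
      rw [Int.le_floor]; push_cast at h2 ⊢; linarith
    omega
  show dig M B y ∈ J ∪ J.image (· - 1)
  rw [Finset.mem_union, Finset.mem_image]
  rcases h3 with h3 | h3
  · left
    unfold dig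
    rw [h3]; exact h1
  · right
    refine ⟨(l : ZMod B), h1, ?_⟩
    unfold dig
    rw [h3]; push_cast; ring

/-- the limsup of the open sets is null -/
theorem null_limsup (M B : ℕ → ℕ) [∀ n, NeZero (B n)] (hM : ∀ n, 0 < M n)
    (J : ∀ n, Finset (ZMod (B n))) (hJ : ∀ n, 48 * 2 ^ n * (J n).card ≤ B n) :
    volume {y : ℝ | ∃ᶠ n in atTop, y ∈ opn (M n) (B n) (J n)} = 0 := by
  have hcov : {y : ℝ | ∃ᶠ n in atTop, y ∈ opn (M n) (B n) (J n)} ⊆
      ⋃ k : ℤ, {y : ℝ | ∃ᶠ n in atTop, ⌊y⌋ = k ∧ dig (M n) (B n) y ∈ J n ∪ (J n).image (· - 1)} := by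
    intro y hy
    rw [mem_iUnion]
    exact ⟨⌊y⌋, hy.mono fun n hn => ⟨rfl, opn_subset _ _ _ hn⟩⟩
  refine measure_mono_null hcov ?_
  rw [measure_iUnion_null_iff]
  intro k
  apply measure_setOfPred_frequently_eq_zero
  have hbd : ∀ n, volume {y : ℝ | ⌊y⌋ = k ∧ dig (M n) (B n) y ∈ J n ∪ (J n).image (· - 1)} ≤
      ENNReal.ofReal ((1/2) ^ n) := by
    intro n
    refine (vol_unit (M n) (B n) (hM n) k _).trans ?_
    apply ENNReal.ofReal_le_ofReal
    have hB : (0:ℝ) < B n := by exact_mod_cast Nat.pos_of_ne_zero (NeZero.ne (B n))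
    rw [div_le_iff₀ hB]
    have h1 : (J n ∪ (J n).image (· - 1)).card ≤ 2 * (J n).card := by
      refine (Finset.card_union_le _ _).trans ?_
      have := Finset.card_image_le (s := J n) (f := (· - 1))
      omega
    have h1' : ((J n ∪ (J n).image (· - 1)).card : ℝ) ≤ 2 * (J n).card := by exact_mod_cast h1
    have h2 : (48:ℝ) * 2 ^ n * (J n).card ≤ B n := by exact_mod_cast hJ n
    have h3 : (0:ℝ) < 2 ^ n := by positivity
    rw [one_div, inv_pow, inv_mul_eq_div, le_div_iff₀ h3]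
    have h4 : (0:ℝ) ≤ (J n).card := by positivity
    nlinarith
  refine ne_top_of_le_ne_top ?_ (ENNReal.tsum_le_tsum hbd)
  have hs : Summable fun n : ℕ => ((1:ℝ)/2) ^ n := summable_geometric_of_lt_one (by norm_num) (by norm_num)
  rw [← ENNReal.ofReal_tsum_of_nonneg (fun n => by positivity) hs]
  exact ENNReal.ofReal_ne_top

/-- a compact set avoiding a null set, all of whose nonempty open pieces have positive measure -/
theorem exists_compact {Z : Set ℝ} (hZ : volume Z = 0) :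
    ∃ T : Set ℝ, IsCompact T ∧ T.Nonempty ∧ Disjoint T Z ∧
      ∀ U ∈ TopologicalSpace.countableBasis ℝ, (T ∩ U).Nonempty → volume (T ∩ U) ≠ 0 := by
  set Z' := toMeasurable volume Z with hZ'
  have hZ'0 : volume Z' = 0 := by rw [hZ', measure_toMeasurable]; exact hZ
  have hZ'm : MeasurableSet Z' := measurableSet_toMeasurable _ _
  have hpos : 0 < volume (Icc (0:ℝ) 1 \ Z') := by
    rw [measure_sdiff_null hZ'0, Real.volume_Icc]
    norm_num
  obtain ⟨T0, hT0, hT0c, hT0p⟩ := (measurableSet_Icc.diff hZ'm).exists_lt_isCompact hpos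
  set bad := {U ∈ TopologicalSpace.countableBasis ℝ | volume (T0 ∩ U) = 0} with hbad
  have hbadc : bad.Countable := (TopologicalSpace.countable_countableBasis ℝ).mono (fun _ h => h.1)
  have hnull : volume (T0 ∩ ⋃ U ∈ bad, U) = 0 := by
    rw [inter_iUnion₂]
    rw [measure_biUnion_null_iff hbadc]
    exact fun U hU => hU.2
  have hopen : IsOpen (⋃ U ∈ bad, U) :=
    isOpen_biUnion fun U hU => TopologicalSpace.isOpen_of_mem_countableBasis hU.1
  refine ⟨T0 \ ⋃ U ∈ bad, U, hT0c.diff hopen, ?_, ?_, ?_⟩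
  · rw [nonempty_iff_ne_empty]
    intro h
    have : T0 ⊆ T0 ∩ ⋃ U ∈ bad, U := fun t ht => ⟨ht, by
      by_contra hcon
      have : t ∈ T0 \ ⋃ U ∈ bad, U := ⟨ht, hcon⟩
      rw [h] at this
      exact this⟩
    exact absurd (measure_mono_null this hnull) hT0p.ne'
  · rw [disjoint_left]
    intro t ht htZ
    exact (hT0 ht.1).2 (subset_toMeasurable _ _ htZ)
  · intro U hU hne hzero
    obtain ⟨t, ⟨ht1, ht2⟩, ht3⟩ := hne
    apply ht2
    rw [mem_iUnion₂]
    refine ⟨U, ⟨hU, ?_⟩, ht3⟩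
    have hsub : T0 ∩ U ⊆ ((T0 \ ⋃ U ∈ bad, U) ∩ U) ∪ (T0 ∩ ⋃ U ∈ bad, U) := by
      intro s hs
      by_cases h : s ∈ ⋃ U ∈ bad, U
      · exact Or.inr ⟨hs.1, h⟩
      · exact Or.inl ⟨⟨hs.1, h⟩, hs.2⟩
    exact measure_mono_null hsub (measure_union_null hzero hnull)

/-- Baire category in a compact set -/
theorem baire_piece {T : Set ℝ} (hT : IsCompact T) (hTn : T.Nonempty) (O : ℕ → Set ℝ)
    (hO : ∀ m, IsOpen (O m)) (hemp : ∀ t ∈ T, ∃ m, t ∉ O m) :
    ∃ U ∈ TopologicalSpace.countableBasis ℝ, ∃ m : ℕ, (T ∩ U).Nonempty ∧ Disjoint (T ∩ U) (O m) := by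
  have : CompactSpace T := isCompact_iff_compactSpace.1 hT
  have : Nonempty T := hTn.to_subtype
  by_contra hcon
  push Not at hcon
  have hd : ∀ m, Dense ((fun t : T => (t : ℝ)) ⁻¹' (O m)) := by
    intro m
    rw [dense_iff_inter_open]
    intro W hW hWn
    obtain ⟨V, hV, rfl⟩ := isOpen_induced_iff.1 hW
    obtain ⟨t, ht⟩ := hWn
    obtain ⟨U, hU, htU, hUV⟩ := (TopologicalSpace.isBasis_countableBasis ℝ).exists_subset_of_mem_open
      (show (t : ℝ) ∈ V from ht) hV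
    have h := hcon U hU m ⟨t, t.2, htU⟩
    rw [not_disjoint_iff] at h
    obtain ⟨s, hs1, hs2⟩ := h
    exact ⟨⟨s, hs1.1⟩, hUV hs1.2, hs2⟩
  have := dense_iInter_of_isOpen_nat (fun m => (hO m).preimage continuous_subtype_val) hd
  obtain ⟨t, ht⟩ := this.nonempty
  obtain ⟨m, hm⟩ := hemp t t.2
  exact hm (mem_iInter.1 ht m)

/-- Lebesgue density along aligned cells -/
theorem density_cell (S : Set ℝ) (hS : volume S ≠ 0) (M : ℕ → ℕ) (hM : ∀ n, 0 < M n)
    (hMt : Tendsto M atTop atTop) : ∀ᶠ n in atTop, ∃ j : ℤ,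
      ENNReal.ofReal ((99/100) / M n) < volume (S ∩ {t : ℝ | ⌊(M n : ℝ) * t⌋ = j}) := by
  have h := IsUnifLocDoublingMeasure.ae_tendsto_measure_inter_div (volume : Measure ℝ) S 1
  have hne : (ae (volume.restrict S)).NeBot := by
    rw [ae_neBot, Ne, Measure.restrict_eq_zero]
    exact hS
  obtain ⟨x, hx⟩ := h.exists
  have hδ : Tendsto (fun n => 1 / (2 * (M n : ℝ))) atTop (nhdsWithin 0 (Ioi 0)) := by
    rw [tendsto_nhdsWithin_iff]
    constructor
    · have h1 : Tendsto (fun n => 2 * (M n : ℝ)) atTop atTop :=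
        (tendsto_natCast_atTop_atTop.comp hMt).const_mul_atTop (by norm_num)
      simpa using h1.const_div_atTop 1
    · filter_upwards with n
      have : (0:ℝ) < M n := by exact_mod_cast hM n
      show (0:ℝ) < 1 / (2 * (M n : ℝ))
      positivity
  have hxm : ∀ᶠ n in atTop, x ∈ Metric.closedBall (((⌊(M n : ℝ) * x⌋ : ℝ) + 1/2) / M n) (1 * (1 / (2 * (M n : ℝ)))) := by
    filter_upwards with n
    have hMp : (0:ℝ) < M n := by exact_mod_cast hM n
    rw [Metric.mem_closedBall, Real.dist_eq, one_mul]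
    have h1 := Int.floor_le ((M n : ℝ) * x)
    have h2 := Int.lt_floor_add_one ((M n : ℝ) * x)
    have h3 : x - ((⌊(M n : ℝ) * x⌋ : ℝ) + 1/2) / M n = ((M n : ℝ) * x - ((⌊(M n : ℝ) * x⌋ : ℝ) + 1/2)) / M n := by
      field_simp
    rw [h3, abs_div, abs_of_pos hMp, div_le_div_iff₀ hMp (by positivity)]
    have h4 : |(M n : ℝ) * x - ((⌊(M n : ℝ) * x⌋ : ℝ) + 1/2)| ≤ 1/2 := by
      rw [abs_le]; constructor <;> linarith
    nlinarith
  have hlim := hx (fun n => ((⌊(M n : ℝ) * x⌋ : ℝ) + 1/2) / M n) (fun n => 1 / (2 * (M n : ℝ))) hδ hxm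
  have hev := hlim.eventually (lt_mem_nhds (show ENNReal.ofReal (99/100) < 1 by
    rw [ENNReal.ofReal_lt_one]; norm_num))
  filter_upwards [hev] with n hn
  have hMp : (0:ℝ) < M n := by exact_mod_cast hM n
  refine ⟨⌊(M n : ℝ) * x⌋, ?_⟩
  rw [Real.volume_closedBall] at hn
  have h5 : (2:ℝ) * (1 / (2 * (M n : ℝ))) = 1 / M n := by field_simp
  rw [h5] at hn
  have h6 : ENNReal.ofReal (1 / (M n : ℝ)) ≠ 0 := by
    rw [Ne, ENNReal.ofReal_eq_zero, not_le]; positivity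
  have hn' := (ENNReal.lt_div_iff_mul_lt (Or.inl h6) (Or.inl ENNReal.ofReal_ne_top)).1 hn
  rw [← ENNReal.ofReal_mul (by norm_num)] at hn'
  have h7 : (99/100 : ℝ) * (1 / M n) = (99/100) / M n := by ring
  rw [h7] at hn'
  refine lt_of_lt_of_le hn' ?_
  have hsub : S ∩ Metric.closedBall (((⌊(M n : ℝ) * x⌋ : ℝ) + 1/2) / M n) (1 / (2 * (M n : ℝ))) ⊆
      (S ∩ {t : ℝ | ⌊(M n : ℝ) * t⌋ = ⌊(M n : ℝ) * x⌋}) ∪ {((⌊(M n : ℝ) * x⌋ : ℝ) + 1) / M n} := by
    rintro t ⟨ht1, ht2⟩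
    rw [Real.closedBall_eq_Icc, mem_Icc] at ht2
    obtain ⟨h8, h9⟩ := ht2
    have h10 : (⌊(M n : ℝ) * x⌋ : ℝ) ≤ (M n : ℝ) * t := by
      have : ((⌊(M n : ℝ) * x⌋ : ℝ) + 1/2) / M n - 1 / (2 * (M n : ℝ)) = (⌊(M n : ℝ) * x⌋ : ℝ) / M n := by
        field_simp; ring
      rw [this, div_le_iff₀ hMp] at h8
      linarith [mul_comm t (M n : ℝ)]
    have h11 : t ≤ ((⌊(M n : ℝ) * x⌋ : ℝ) + 1) / M n := by
      have : ((⌊(M n : ℝ) * x⌋ : ℝ) + 1/2) / M n + 1 / (2 * (M n : ℝ)) = ((⌊(M n : ℝ) * x⌋ : ℝ) + 1) / M n := by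
        field_simp; ring
      linarith
    rcases h11.eq_or_lt with h12 | h12
    · right; exact h12
    · left
      refine ⟨ht1, ?_⟩
      show ⌊(M n : ℝ) * t⌋ = ⌊(M n : ℝ) * x⌋
      rw [lt_div_iff₀ hMp] at h12
      rw [Int.floor_eq_iff]
      exact ⟨h10, by linarith [mul_comm t (M n : ℝ)]⟩
  refine (measure_mono hsub).trans ?_
  refine (measure_union_le _ _).trans ?_
  rw [Real.volume_singleton, add_zero]

/-- a piece has few digits -/
theorem piece_small (M B : ℕ → ℕ) [∀ n, NeZero (B n)] (hM : ∀ n, 0 < M n)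
    (hMt : Tendsto M atTop atTop) (J : ∀ n, Finset (ZMod (B n)))
    (hJ : ∀ n, ∀ K : Finset (ZMod (B n)), 2 ^ n ≤ K.card →
      B n ≤ 100 * (K.biUnion fun κ => (J n).image (· + κ)).card)
    (S : Set ℝ) (hS : volume S ≠ 0) (P : Set ℝ) (m : ℕ)
    (hP : ∀ x ∈ P, ∀ z ∈ S, ∀ n, m ≤ n → z - x ∉ opn (M n) (B n) (J n)) :
    ∀ᶠ n in atTop, ((dig (M n) (B n)) '' P).ncard ≤ 2 ^ n := by
  classical
  filter_upwards [density_cell S hS M hM hMt, eventually_ge_atTop m] with n hn hm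
  obtain ⟨j, hj⟩ := hn
  by_contra hcon
  push Not at hcon
  have hfin : ((dig (M n) (B n)) '' P).Finite := Set.toFinite _
  set K := hfin.toFinset with hK
  have hKc : 2 ^ n ≤ K.card := by
    rw [hK, ← ncard_eq_toFinset_card _ hfin]
    exact hcon.le
  have h1 := hJ n K hKc
  set L := K.biUnion fun κ => (J n).image (· + κ) with hL
  have hsub : S ∩ {t : ℝ | ⌊(M n : ℝ) * t⌋ = j} ⊆ {t : ℝ | ⌊(M n : ℝ) * t⌋ = j ∧ dig (M n) (B n) t ∈ Lᶜ} := by
    rintro t ⟨ht1, ht2⟩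
    refine ⟨ht2, ?_⟩
    rw [Finset.mem_compl]
    intro ht
    rw [hL, Finset.mem_biUnion] at ht
    obtain ⟨κ, hκ, ht⟩ := ht
    rw [Finset.mem_image] at ht
    obtain ⟨a, ha, hat⟩ := ht
    rw [hK, Finite.mem_toFinset] at hκ
    obtain ⟨x, hx, hxκ⟩ := hκ
    refine hP x hx t ht1 n hm ⟨_, ?_, near_diff (M n) (B n) x t⟩
    push_cast
    have h2 : ((⌊((M n * B n : ℕ) : ℝ) * t⌋ : ℤ) : ZMod (B n)) = dig (M n) (B n) t := rfl
    have h3 : ((⌊((M n * B n : ℕ) : ℝ) * x⌋ : ℤ) : ZMod (B n)) = dig (M n) (B n) x := rfl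
    push_cast at h2 h3
    rw [h2, h3, hxκ, ← hat]
    simpa using ha
  have h4 := (measure_mono hsub).trans (vol_cell_finset (M n) (B n) (hM n) j Lᶜ)
  have h5 := lt_of_lt_of_le hj h4
  rw [ENNReal.ofReal_lt_ofReal_iff_of_nonneg (by positivity)] at h5
  have hB : 0 < B n := Nat.pos_of_ne_zero (NeZero.ne (B n))
  have hBr : (0:ℝ) < B n := by exact_mod_cast hB
  have hMp : (0:ℝ) < M n := by exact_mod_cast hM n
  have h6 : Lᶜ.card + L.card = B n := by
    rw [Finset.card_compl_add_card, ZMod.card]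
  have h6' : (Lᶜ.card : ℝ) + L.card = B n := by exact_mod_cast h6
  have h1' : (B n : ℝ) ≤ 100 * L.card := by exact_mod_cast h1
  rw [div_lt_div_iff₀ hMp (by push_cast; positivity)] at h5
  push_cast at h5
  nlinarith [mul_pos hMp hBr]

/-- null-additive sets are captured by slaloms -/
theorem slalom (X : Set ℝ) (hX : ∀ N : Set ℝ, volume N = 0 → volume (X + N) = 0)
    (M B : ℕ → ℕ) [∀ n, NeZero (B n)] (hM : ∀ n, 0 < M n) (hMt : Tendsto M atTop atTop)
    (hJ : ∀ n, ∃ J : Finset (ZMod (B n)), 48 * 2 ^ n * J.card ≤ B n ∧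
      ∀ K : Finset (ZMod (B n)), 2 ^ n ≤ K.card →
        B n ≤ 100 * (K.biUnion fun κ => J.image (· + κ)).card) :
    ∃ I : ∀ n, Finset (ZMod (B n)), (∀ n, (I n).card ≤ (n + 1) * 2 ^ n) ∧
      ∀ x ∈ X, ∀ᶠ n in atTop, dig (M n) (B n) x ∈ I n := by
  classical
  choose J hJ1 hJ2 using hJ
  obtain ⟨T, hTc, hTn, hTd, hTp⟩ := exists_compact (hX _ (null_limsup M B hM J hJ1))
  obtain ⟨U, hU⟩ := (TopologicalSpace.countable_countableBasis ℝ).exists_eq_range
    (by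
      obtain ⟨V, hV, _⟩ := (TopologicalSpace.isBasis_countableBasis ℝ).exists_subset_of_mem_open
        (mem_univ (0:ℝ)) isOpen_univ
      exact ⟨V, hV⟩)
  let P : ℕ → Set ℝ := fun j => {x ∈ X | (T ∩ U j.unpair.1).Nonempty ∧
    ∀ n, j.unpair.2 ≤ n → ∀ z ∈ T ∩ U j.unpair.1, z - x ∉ opn (M n) (B n) (J n)}
  have hev : ∀ j, ∀ᶠ n in atTop, ((dig (M n) (B n)) '' P j).ncard ≤ 2 ^ n := by
    intro j
    by_cases hne : (T ∩ U j.unpair.1).Nonempty
    · exact piece_small M B hM hMt J hJ2 (T ∩ U j.unpair.1)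
        (hTp _ (by rw [hU]; exact mem_range_self _) hne) (P j) j.unpair.2
        (fun x hx z hz n hn => hx.2.2 n hn z hz)
    · have : P j = ∅ := by
        ext x
        simp only [mem_empty_iff_false, iff_false]
        exact fun hx => hne hx.2.1
      rw [this]
      simp
  choose N hN using fun j => eventually_atTop.1 (hev j)
  have hfin : ∀ n j, ((dig (M n) (B n)) '' P j).Finite := fun n j => Set.toFinite _
  refine ⟨fun n => ((Finset.range (n + 1)).filter fun j => N j ≤ n).biUnion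
    fun j => (hfin n j).toFinset, ?_, ?_⟩
  · intro n
    refine (Finset.card_biUnion_le_card_mul _ _ (2 ^ n) ?_).trans ?_
    · intro j hj
      rw [Finset.mem_filter] at hj
      rw [← ncard_eq_toFinset_card _ (hfin n j)]
      exact hN j n hj.2
    · refine Nat.mul_le_mul_right _ ((Finset.card_filter_le _ _).trans ?_)
      rw [Finset.card_range]
  · intro x hx
    obtain ⟨V, hV, m, hne, hdis⟩ := baire_piece hTc hTn
      (fun m => {t : ℝ | ∃ n, m ≤ n ∧ t - x ∈ opn (M n) (B n) (J n)})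
      (fun m => by
        have : {t : ℝ | ∃ n, m ≤ n ∧ t - x ∈ opn (M n) (B n) (J n)} =
            ⋃ n, ⋃ _ : m ≤ n, (fun t : ℝ => t - x) ⁻¹' (opn (M n) (B n) (J n)) := by
          ext t; simp
        rw [this]
        exact isOpen_iUnion fun n => isOpen_iUnion fun _ =>
          (isOpen_opn _ _ _).preimage (by fun_prop))
      (fun t ht => by
        have h1 : t - x ∉ {y : ℝ | ∃ᶠ n in atTop, y ∈ opn (M n) (B n) (J n)} := by
          intro h
          exact (disjoint_left.1 hTd) ht ⟨x, hx, t - x, h, by ring⟩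
        have h2 : ∀ᶠ n in atTop, t - x ∉ opn (M n) (B n) (J n) := by
          simpa [Filter.not_frequently] using h1
        obtain ⟨m, hm⟩ := eventually_atTop.1 h2
        exact ⟨m, fun ⟨n, hn, h3⟩ => hm n hn h3⟩)
    rw [hU] at hV
    obtain ⟨i, rfl⟩ := hV
    have hxP : x ∈ P (Nat.pair i m) := by
      refine ⟨hx, ?_, ?_⟩
      · rw [Nat.unpair_pair]; exact hne
      · intro n hn z hz h
        rw [Nat.unpair_pair] at hn hz
        exact (disjoint_left.1 hdis) hz ⟨n, hn, h⟩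
    filter_upwards [eventually_ge_atTop (Nat.pair i m), eventually_ge_atTop (N (Nat.pair i m))]
      with n hn1 hn2
    rw [Finset.mem_biUnion]
    refine ⟨Nat.pair i m, ?_, ?_⟩
    · rw [Finset.mem_filter, Finset.mem_range]
      exact ⟨by omega, hn2⟩
    · rw [Finite.mem_toFinset]
      exact ⟨x, hxP, rfl⟩

end Pool.Agent.Q154.NA
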