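import Mathlib
import Pool.Agent.Q154.NAdd2

set_option autoImplicit false

/-!
Covers of planar null sets by windows of dyadic digits.
-/

open MeasureTheory Set Filter
open scoped ENNReal Pointwise

namespace Pool.Agent.Q154.NA

/-- the index of the dyadic square of level `a` containing `z` -/
noncomputable def idx (a : ℕ) (z : ℝ × ℝ) : ℤ × ℤ :=
  (⌊((2 ^ a : ℕ) : ℝ) * z.1⌋, ⌊((2 ^ a : ℕ) : ℝ) * z.2⌋)

/-- the dyadic square of level `a` -/
def cell (a : ℕ) (j : ℤ × ℤ) : Set (ℝ × ℝ) := {w | idx a w = j}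

theorem floor_level {a b : ℕ} (hab : b ≤ a) (t : ℝ) :
    ⌊((2 ^ b : ℕ) : ℝ) * t⌋ = ⌊((2 ^ a : ℕ) : ℝ) * t⌋ / ((2 ^ (a - b) : ℕ) : ℤ) := by
  rw [← Int.floor_div_natCast]
  congr 1
  have h : (2:ℝ) ^ a = 2 ^ b * 2 ^ (a - b) := by rw [← pow_add]; congr 1; omega
  push_cast
  rw [h]
  field_simp

theorem idx_level {a b : ℕ} (hab : b ≤ a) {z w : ℝ × ℝ} (h : idx a z = idx a w) :
    idx b z = idx b w := by
  unfold idx at *
  rw [Prod.mk.injEq] at *
  rw [floor_level hab z.1, floor_level hab z.2, floor_level hab w.1, floor_level hab w.2, h.1, h.2]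
  exact ⟨rfl, rfl⟩

theorem cell_eq (a : ℕ) (j : ℤ × ℤ) : cell a j =
    {t : ℝ | ⌊((2 ^ a : ℕ) : ℝ) * t⌋ = j.1} ×ˢ {t : ℝ | ⌊((2 ^ a : ℕ) : ℝ) * t⌋ = j.2} := by
  ext w
  simp only [cell, idx, mem_ofPred_eq, mem_prod]
  rw [Prod.ext_iff]

theorem interval_eq (a : ℕ) (j : ℤ) : {t : ℝ | ⌊((2 ^ a : ℕ) : ℝ) * t⌋ = j} =
    Ico ((j : ℝ) / 2 ^ a) (((j : ℝ) + 1) / 2 ^ a) := by
  ext t
  have h : (0:ℝ) < 2 ^ a := by positivity
  rw [mem_ofPred_eq, Int.floor_eq_iff, mem_Ico, div_le_iff₀ h, lt_div_iff₀ h]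
  push_cast
  rw [mul_comm t]

theorem measurable_cell (a : ℕ) (j : ℤ × ℤ) : MeasurableSet (cell a j) := by
  rw [cell_eq, interval_eq, interval_eq]
  exact measurableSet_Ico.prod measurableSet_Ico

theorem volume_cell (a : ℕ) (j : ℤ × ℤ) : volume (cell a j) = ENNReal.ofReal ((1/4) ^ a) := by
  rw [cell_eq, interval_eq, interval_eq, Measure.volume_eq_prod, Measure.prod_prod, Real.volume_Ico,
    Real.volume_Ico, ← ENNReal.ofReal_mul]
  · congr 1
    have h : (0:ℝ) < 2 ^ a := by positivity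
    have h4 : ((1:ℝ)/4) ^ a = 1 / 2 ^ a * (1 / 2 ^ a) := by
      rw [← one_div_pow, ← mul_pow]; norm_num
    rw [h4]
    field_simp
    ring
  · have h : (0:ℝ) < 2 ^ a := by positivity
    rw [sub_nonneg]
    exact div_le_div_of_nonneg_right (by linarith) h.le

/-- the points whose first dyadic square inside `V` has level `a` -/
def first (V : Set (ℝ × ℝ)) (a : ℕ) : Set (ℝ × ℝ) :=
  {z | cell a (idx a z) ⊆ V ∧ ∀ b < a, ¬ cell b (idx b z) ⊆ V}

theorem first_level {V : Set (ℝ × ℝ)} {a : ℕ} {z w : ℝ × ℝ} (hz : z ∈ first V a)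
    (h : idx a w = idx a z) : w ∈ first V a := by
  refine ⟨?_, fun b hb => ?_⟩
  · rw [h]; exact hz.1
  · rw [idx_level hb.le h]; exact hz.2 b hb

theorem measurable_first (V : Set (ℝ × ℝ)) (a : ℕ) : MeasurableSet (first V a) := by
  have : first V a = ⋃ j ∈ {j : ℤ × ℤ | cell a j ⊆ first V a}, cell a j := by
    ext z
    rw [mem_iUnion₂]
    constructor
    · intro hz
      exact ⟨idx a z, fun w hw => first_level hz hw, rfl⟩
    · rintro ⟨j, hj, hz⟩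
      exact hj hz
  rw [this]
  exact MeasurableSet.biUnion (Set.to_countable _) fun j _ => measurable_cell a j

theorem tsum_first (V : Set (ℝ × ℝ)) : ∑' a, volume (first V a) ≤ volume V := by
  refine (tsum_meas_le_meas_iUnion_of_disjoint volume (fun a => measurable_first V a) ?_).trans
    (measure_mono ?_)
  · intro a b hab
    rw [Function.onFun, disjoint_left]
    intro z hz1 hz2
    rcases lt_or_gt_of_ne hab with h | h
    · exact hz2.2 a h hz1.1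
    · exact hz1.2 b h hz2.1
  · intro z hz
    obtain ⟨a, ha⟩ := mem_iUnion.1 hz
    exact ha.1 rfl

theorem exists_first {V : Set (ℝ × ℝ)} (hV : IsOpen V) {z : ℝ × ℝ} (hz : z ∈ V) :
    ∃ a, z ∈ first V a := by
  classical
  have hex : ∃ a, cell a (idx a z) ⊆ V := by
    obtain ⟨ε, hε, hball⟩ := Metric.isOpen_iff.1 hV z hz
    obtain ⟨a, ha⟩ := exists_pow_lt_of_lt_one hε (show (1/2:ℝ) < 1 by norm_num)
    refine ⟨a, fun w hw => hball ?_⟩
    have h2 : (0:ℝ) < 2 ^ a := by positivity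
    have key : ∀ s t : ℝ, ⌊((2 ^ a : ℕ) : ℝ) * s⌋ = ⌊((2 ^ a : ℕ) : ℝ) * t⌋ → dist s t < ε := by
      intro s t h
      have h1 := Int.abs_sub_lt_one_of_floor_eq_floor h
      rw [← mul_sub, abs_mul] at h1
      push_cast at h1
      rw [abs_of_pos h2] at h1
      rw [Real.dist_eq]
      refine lt_trans ?_ ha
      rw [one_div_pow, lt_div_iff₀ h2]
      linarith
    have hw' : idx a w = idx a z := hw
    unfold idx at hw'
    rw [Prod.mk.injEq] at hw'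
    rw [Metric.mem_ball, Prod.dist_eq, max_lt_iff]
    exact ⟨key _ _ hw'.1, key _ _ hw'.2⟩
  exact ⟨Nat.find hex, Nat.find_spec hex, fun b hb => Nat.find_min hex hb⟩

theorem level_bound {V : Set (ℝ × ℝ)} {a a₀ : ℕ} {z : ℝ × ℝ} (hz : z ∈ first V a)
    (hV : volume V < ENNReal.ofReal ((1/4) ^ a₀)) : a₀ < a := by
  have h1 : ENNReal.ofReal ((1/4) ^ a) ≤ volume V := by
    rw [← volume_cell a (idx a z)]
    exact measure_mono hz.1
  have h2 := lt_of_le_of_lt h1 hV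
  rw [ENNReal.ofReal_lt_ofReal_iff (by positivity)] at h2
  by_contra hcon
  push Not at hcon
  exact absurd h2 (not_lt.2 (pow_le_pow_of_le_one (by norm_num) (by norm_num) hcon))

/-- the level sets of a planar null set -/
theorem exists_levels {N : Set (ℝ × ℝ)} (hN : volume N = 0) :
    ∃ G : ℕ → Set (ℝ × ℝ), (∀ a, MeasurableSet (G a)) ∧
      (∀ a z w, z ∈ G a → idx a w = idx a z → w ∈ G a) ∧
      ∑' a, volume (G a) ≠ ∞ ∧ ∀ z ∈ N, ∀ a₀, ∃ a, a₀ ≤ a ∧ z ∈ G a := by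
  have hV : ∀ i : ℕ, ∃ V ⊇ N, IsOpen V ∧ volume V < ENNReal.ofReal ((1/4) ^ i) := by
    intro i
    apply Set.exists_isOpen_lt_of_lt
    rw [hN, ENNReal.ofReal_pos]
    positivity
  choose V hV1 hV2 hV3 using hV
  refine ⟨fun a => ⋃ i, first (V i) a, ?_, ?_, ?_, ?_⟩
  · exact fun a => MeasurableSet.iUnion fun i => measurable_first _ _
  · intro a z w hz h
    obtain ⟨i, hi⟩ := mem_iUnion.1 hz
    exact mem_iUnion.2 ⟨i, first_level hi h⟩
  · have h1 : ∑' a, volume (⋃ i, first (V i) a) ≤ ∑' a, ∑' i, volume (first (V i) a) :=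
      ENNReal.tsum_le_tsum fun a => measure_iUnion_le _
    have h2 : ∑' a, ∑' i, volume (first (V i) a) ≤ ∑' i : ℕ, ENNReal.ofReal ((1/4) ^ i) := by
      rw [ENNReal.tsum_comm]
      exact ENNReal.tsum_le_tsum fun i => (tsum_first _).trans (hV3 i).le
    refine ne_top_of_le_ne_top ?_ (h1.trans h2)
    have hs : Summable fun n : ℕ => ((1:ℝ)/4) ^ n :=
      summable_geometric_of_lt_one (by norm_num) (by norm_num)
    rw [← ENNReal.ofReal_tsum_of_nonneg (fun n => by positivity) hs]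
    exact ENNReal.ofReal_ne_top
  · intro z hz a₀
    obtain ⟨a, ha⟩ := exists_first (hV2 a₀) (hV1 a₀ hz)
    exact ⟨a, (level_bound ha (hV3 a₀)).le, mem_iUnion.2 ⟨a₀, ha⟩⟩

/-- the window sequence -/
theorem exists_windows (v : ℕ → ℝ≥0∞) (hv : ∑' a, v a ≠ ∞) (L : ℕ → ℕ) :
    ∃ k : ℕ → ℕ, StrictMono k ∧ (∀ n, L n ≤ 2 ^ (k (n + 1) - k n)) ∧
      ∀ n, ∑' a, v (a + k (n + 1)) ≤
        ENNReal.ofReal (1 / (4 * ((n:ℝ) + 1) ^ 2 * 8 ^ n) * (1/4) ^ (k n)) := by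
  have hstep : ∀ n k : ℕ, ∃ k', k < k' ∧ L n ≤ 2 ^ (k' - k) ∧ ∑' a, v (a + k') ≤
      ENNReal.ofReal (1 / (4 * ((n:ℝ) + 1) ^ 2 * 8 ^ n) * (1/4) ^ k) := by
    intro n k
    have hpos : (0:ℝ) < 1 / (4 * ((n:ℝ) + 1) ^ 2 * 8 ^ n) * (1/4) ^ k := by positivity
    have h1 := (ENNReal.tendsto_sum_nat_add v hv).eventually
      (gt_mem_nhds (ENNReal.ofReal_pos.2 hpos))
    obtain ⟨k', hk1, hk2, hk3⟩ := (h1.and ((eventually_gt_atTop k).and
      (eventually_ge_atTop (k + L n)))).exists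
    refine ⟨k', hk2, ?_, hk1.le⟩
    calc L n ≤ 2 ^ (L n) := Nat.lt_two_pow_self.le
      _ ≤ 2 ^ (k' - k) := Nat.pow_le_pow_right (by norm_num) (by omega)
  choose f hf using hstep
  let k : ℕ → ℕ := fun n => Nat.rec 0 (fun n k => f n k) n
  have hk : ∀ n, k (n + 1) = f n (k n) := fun n => rfl
  refine ⟨k, strictMono_nat_of_lt_succ fun n => ?_, fun n => ?_, fun n => ?_⟩
  · rw [hk]; exact (hf n (k n)).1
  · rw [hk]; exact (hf n (k n)).2.1
  · rw [hk]; exact (hf n (k n)).2.2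

/-- digits from indices -/
theorem dig_of_idx {k l : ℕ} (hkl : k ≤ l) {z w : ℝ × ℝ} (h : idx l w = idx l z) :
    dig (2 ^ k) (2 ^ (l - k)) w.1 = dig (2 ^ k) (2 ^ (l - k)) z.1 ∧
    dig (2 ^ k) (2 ^ (l - k)) w.2 = dig (2 ^ k) (2 ^ (l - k)) z.2 := by
  have h1 : 2 ^ k * 2 ^ (l - k) = 2 ^ l := by rw [← pow_add]; congr 1; omega
  unfold idx at h
  rw [Prod.mk.injEq] at h
  unfold dig
  rw [h1, h.1, h.2]
  exact ⟨rfl, rfl⟩

/-- the set of residues of a window -/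
theorem residues_card {k l : ℕ} (hkl : k ≤ l) (D : Set (ℝ × ℝ)) (hD : ∀ z w, z ∈ D → idx l w = idx l z → w ∈ D)
    (S : Finset (ZMod (2 ^ (l - k)) × ZMod (2 ^ (l - k))))
    (hS : ∀ s ∈ S, ∃ z ∈ D, dig (2 ^ k) (2 ^ (l - k)) z.1 = s.1 ∧ dig (2 ^ k) (2 ^ (l - k)) z.2 = s.2) :
    ENNReal.ofReal (S.card * (1/4) ^ l) ≤ volume D := by
  classical
  choose! z hzD hz using hS
  have hsub : (⋃ s ∈ S, cell l (idx l (z s))) ⊆ D := by
    intro w hw
    obtain ⟨s, hs, hw⟩ := mem_iUnion₂.1 hw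
    exact hD (z s) w (hzD s hs) hw
  refine le_trans ?_ (measure_mono hsub)
  rw [measure_biUnion_finset ?_ fun s _ => measurable_cell _ _]
  · simp only [volume_cell, Finset.sum_const, nsmul_eq_mul]
    rw [← ENNReal.ofReal_natCast, ← ENNReal.ofReal_mul (by positivity)]
  · intro s hs t ht hst
    rw [Function.onFun, disjoint_left]
    intro w hw1 hw2
    apply hst
    have h1 := dig_of_idx hkl (show idx l w = idx l (z s) from hw1)
    have h2 := dig_of_idx hkl (show idx l w = idx l (z t) from hw2)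
    have h3 := hz s hs
    have h4 := hz t ht
    rw [Prod.ext_iff]
    exact ⟨by rw [← h3.1, ← h4.1, ← h1.1, ← h2.1], by rw [← h3.2, ← h4.2, ← h1.2, ← h2.2]⟩

/-- the residues of a planar set in a unit square -/
theorem vol_square (M B : ℕ) [NeZero B] (hM : 0 < M) (i j : ℤ) (P : Finset (ZMod B × ZMod B)) :
    volume {w : ℝ × ℝ | ⌊w.1⌋ = i ∧ ⌊w.2⌋ = j ∧ (dig M B w.1, dig M B w.2) ∈ P} ≤
      ENNReal.ofReal (P.card * (1 / (B:ℝ)) ^ 2) := by
  have hsub : {w : ℝ × ℝ | ⌊w.1⌋ = i ∧ ⌊w.2⌋ = j ∧ (dig M B w.1, dig M B w.2) ∈ P} ⊆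
      ⋃ s ∈ P, {t : ℝ | ⌊t⌋ = i ∧ dig M B t ∈ ({s.1} : Finset (ZMod B))} ×ˢ
        {t : ℝ | ⌊t⌋ = j ∧ dig M B t ∈ ({s.2} : Finset (ZMod B))} := by
    rintro w ⟨h1, h2, h3⟩
    rw [mem_iUnion₂]
    exact ⟨_, h3, ⟨h1, Finset.mem_singleton_self _⟩, ⟨h2, Finset.mem_singleton_self _⟩⟩
  refine (measure_mono hsub).trans ((measure_biUnion_finset_le _ _).trans ?_)
  have hbd : ∀ s ∈ P, volume ({t : ℝ | ⌊t⌋ = i ∧ dig M B t ∈ ({s.1} : Finset (ZMod B))} ×ˢ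
        {t : ℝ | ⌊t⌋ = j ∧ dig M B t ∈ ({s.2} : Finset (ZMod B))}) ≤
        ENNReal.ofReal ((1 / (B:ℝ)) ^ 2) := by
    intro s _
    rw [Measure.volume_eq_prod, Measure.prod_prod]
    refine (mul_le_mul' (vol_unit M B hM i _) (vol_unit M B hM j _)).trans ?_
    rw [← ENNReal.ofReal_mul (by positivity)]
    apply ENNReal.ofReal_le_ofReal
    simp only [Finset.card_singleton, Nat.cast_one]
    rw [sq]
  refine (Finset.sum_le_sum hbd).trans ?_
  rw [Finset.sum_const, nsmul_eq_mul, ← ENNReal.ofReal_natCast, ← ENNReal.ofReal_mul (by positivity)]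

/-- the digit of a sum -/
theorem dig_add (M B : ℕ) (x z : ℝ) : ∃ e ∈ ({0, 1} : Finset (ZMod B)),
    dig M B (x + z) = dig M B x + dig M B z + e := by
  have h1 : ⌊((M * B : ℕ) : ℝ) * (x + z)⌋ = ⌊((M * B : ℕ) : ℝ) * x⌋ + ⌊((M * B : ℕ) : ℝ) * z⌋ ∨
      ⌊((M * B : ℕ) : ℝ) * (x + z)⌋ = ⌊((M * B : ℕ) : ℝ) * x⌋ + ⌊((M * B : ℕ) : ℝ) * z⌋ + 1 := by
    rw [mul_add]
    have h2 := Int.le_floor_add (((M * B : ℕ) : ℝ) * x) (((M * B : ℕ) : ℝ) * z)
    have h3 := Int.le_floor_add_floor (((M * B : ℕ) : ℝ) * x) (((M * B : ℕ) : ℝ) * z)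
    omega
  rcases h1 with h1 | h1
  · refine ⟨0, by simp, ?_⟩
    unfold dig
    rw [h1]
    push_cast
    ring
  · refine ⟨1, by simp, ?_⟩
    unfold dig
    rw [h1]
    push_cast
    ring

end Pool.Agent.Q154.NA
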