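import Mathlib
import Pool.Agent.Q154.NAdd3

set_option autoImplicit false

/-!
The product of two null-additive sets of reals is null-additive in the plane.
-/

open MeasureTheory Set Filter
open scoped ENNReal Pointwise

namespace Pool.Agent.Q154.NA

theorem product_null (X Y : Set ℝ) (hX : ∀ N : Set ℝ, volume N = 0 → volume (X + N) = 0)
    (hY : ∀ N : Set ℝ, volume N = 0 → volume (Y + N) = 0)
    (N : Set (ℝ × ℝ)) (hN : volume N = 0) : volume ((X ×ˢ Y) + N) = 0 := by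
  classical
  choose B₀ hB₀ using fun n : ℕ => exists_set (2 ^ n) (by positivity)
  obtain ⟨G, hGm, hGl, hGs, hGN⟩ := exists_levels hN
  obtain ⟨k, hk, hkL, hkG⟩ := exists_windows (fun a => volume (G a)) hGs B₀
  have hk2 : ∀ n, k n ≤ k (n + 2) := fun n => (hk (by omega : n < n + 2)).le
  let M : ℕ → ℕ := fun n => 2 ^ (k n)
  let B : ℕ → ℕ := fun n => 2 ^ (k (n + 2) - k n)
  have instB : ∀ n, NeZero (B n) := fun n => ⟨by positivity⟩
  have hM : ∀ n, 0 < M n := fun n => by positivity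
  have hMt : Tendsto M atTop atTop :=
    (tendsto_pow_atTop_atTop_of_one_lt (one_lt_two : (1:ℕ) < 2)).comp hk.tendsto_atTop
  have hJ : ∀ n, ∃ J : Finset (ZMod (B n)), 48 * 2 ^ n * J.card ≤ B n ∧
      ∀ K : Finset (ZMod (B n)), 2 ^ n ≤ K.card →
        B n ≤ 100 * (K.biUnion fun κ => J.image (· + κ)).card := by
    intro n
    apply hB₀ n (B n)
    refine (hkL n).trans (Nat.pow_le_pow_right (by norm_num) ?_)
    have := (hk (by omega : n + 1 < n + 2)).le
    omega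
  obtain ⟨I, hI1, hI2⟩ := slalom X hX M B hM hMt hJ
  obtain ⟨I', hI'1, hI'2⟩ := slalom Y hY M B hM hMt hJ
  -- the residues
  let D : ℕ → Set (ℝ × ℝ) := fun n => {z | ∃ a, k (n + 1) ≤ a ∧ a < k (n + 2) ∧ z ∈ G a}
  let S : ∀ n, Finset (ZMod (B n) × ZMod (B n)) := fun n => Finset.univ.filter fun s =>
    ∃ z ∈ D n, dig (M n) (B n) z.1 = s.1 ∧ dig (M n) (B n) z.2 = s.2
  have hSc : ∀ n, ((S n).card : ℝ) ≤ 1 / (4 * ((n:ℝ) + 1) ^ 2 * 8 ^ n) * (B n : ℝ) ^ 2 := by
    intro n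
    have h1 := residues_card (hk2 n) (D n) (fun z w ⟨a, ha1, ha2, ha3⟩ h =>
      ⟨a, ha1, ha2, hGl a z w ha3 (idx_level ha2.le h)⟩) (S n)
      (fun s hs => (Finset.mem_filter.1 hs).2)
    have h2 : volume (D n) ≤ ∑' a, volume (G (a + k (n + 1))) := by
      have hsub : D n ⊆ ⋃ a, G (a + k (n + 1)) := by
        rintro z ⟨a, ha1, _, ha3⟩
        rw [mem_iUnion]
        exact ⟨a - k (n + 1), by rwa [Nat.sub_add_cancel ha1]⟩
      exact (measure_mono hsub).trans (measure_iUnion_le _)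
    have h3 := h1.trans (h2.trans (hkG n))
    rw [ENNReal.ofReal_le_ofReal_iff (by positivity)] at h3
    have h4 : (B n : ℝ) ^ 2 = (4:ℝ) ^ (k (n + 2) - k n) := by
      show (((2:ℕ) ^ (k (n + 2) - k n) : ℕ) : ℝ) ^ 2 = _
      push_cast
      rw [← pow_mul, mul_comm, pow_mul]
      norm_num
    have h5 : ((1:ℝ)/4) ^ (k n) = (1/4) ^ (k (n + 2)) * (4:ℝ) ^ (k (n + 2) - k n) := by
      have h6 : k (n + 2) = k n + (k (n + 2) - k n) := by have := hk2 n; omega
      conv_rhs => rw [h6]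
      rw [pow_add]
      simp only [Nat.add_sub_cancel_left]
      rw [mul_assoc, ← mul_pow]
      norm_num
    rw [h5, ← mul_assoc, mul_right_comm] at h3
    rw [h4]
    exact le_of_mul_le_mul_right h3 (by positivity)
  -- the residues of sums
  let P : ∀ n, Finset (ZMod (B n) × ZMod (B n)) := fun n =>
    (((I n ×ˢ I' n) ×ˢ (S n)) ×ˢ (({0, 1} : Finset (ZMod (B n))) ×ˢ ({0, 1} : Finset (ZMod (B n))))).image
      fun q => (q.1.1.1 + q.1.2.1 + q.2.1, q.1.1.2 + q.1.2.2 + q.2.2)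
  have hPc : ∀ n, ((P n).card : ℝ) * (1 / (B n : ℝ)) ^ 2 ≤ (1/2) ^ n := by
    intro n
    have h1 : (P n).card ≤ (((n + 1) * 2 ^ n) * ((n + 1) * 2 ^ n)) * (S n).card * 4 := by
      refine Finset.card_image_le.trans ?_
      rw [Finset.card_product, Finset.card_product, Finset.card_product, Finset.card_product]
      refine Nat.mul_le_mul (Nat.mul_le_mul_right _ (Nat.mul_le_mul (hI1 n) (hI'1 n))) ?_
      have h2 : ({0, 1} : Finset (ZMod (B n))).card ≤ 2 := Finset.card_le_two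
      nlinarith
    have h1' : ((P n).card : ℝ) ≤ ((((n:ℝ) + 1) * 2 ^ n) * (((n:ℝ) + 1) * 2 ^ n)) * (S n).card * 4 := by
      exact_mod_cast h1
    have hB : (0:ℝ) < B n := by exact_mod_cast Nat.pos_of_ne_zero (NeZero.ne (B n))
    rw [one_div_pow, mul_one_div, div_le_iff₀ (by positivity)]
    refine h1'.trans ?_
    have h3 := hSc n
    have h4 : (0:ℝ) ≤ (((n:ℝ) + 1) * 2 ^ n) * (((n:ℝ) + 1) * 2 ^ n) * 4 := by positivity
    calc ((((n:ℝ) + 1) * 2 ^ n) * (((n:ℝ) + 1) * 2 ^ n)) * (S n).card * 4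
        = ((((n:ℝ) + 1) * 2 ^ n) * (((n:ℝ) + 1) * 2 ^ n) * 4) * (S n).card := by ring
      _ ≤ ((((n:ℝ) + 1) * 2 ^ n) * (((n:ℝ) + 1) * 2 ^ n) * 4) *
          (1 / (4 * ((n:ℝ) + 1) ^ 2 * 8 ^ n) * (B n : ℝ) ^ 2) := mul_le_mul_of_nonneg_left h3 h4
      _ = (1/2) ^ n * (B n : ℝ) ^ 2 := by
        have h8 : (8:ℝ) ^ n = 2 ^ n * 2 ^ n * 2 ^ n := by
          rw [← mul_pow, ← mul_pow]; norm_num
        rw [h8, one_div_pow]
        have h2 : (0:ℝ) < 2 ^ n := by positivity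
        have hn : (0:ℝ) < (n:ℝ) + 1 := by positivity
        field_simp
  -- the sum is in the limsup
  have hcov : (X ×ˢ Y) + N ⊆ ⋃ ij : ℤ × ℤ, {w : ℝ × ℝ | ∃ᶠ n in atTop, ⌊w.1⌋ = ij.1 ∧ ⌊w.2⌋ = ij.2 ∧
      (dig (M n) (B n) w.1, dig (M n) (B n) w.2) ∈ P n} := by
    rintro w ⟨xy, ⟨hx, hy⟩, z, hz, rfl⟩
    rw [mem_iUnion]
    refine ⟨(⌊(xy + z).1⌋, ⌊(xy + z).2⌋), ?_⟩
    have hfreq : ∃ᶠ n in atTop, z ∈ D n := by
      rw [frequently_atTop]
      intro n₀
      obtain ⟨a, ha1, ha2⟩ := hGN z hz (k (n₀ + 1))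
      have hex : ∃ m, a < k m := by
        obtain ⟨m, hm⟩ := (hk.tendsto_atTop.eventually (eventually_gt_atTop a)).exists
        exact ⟨m, hm⟩
      have hm1 := Nat.find_spec hex
      have hm2 : n₀ + 2 ≤ Nat.find hex := by
        by_contra hcon
        push Not at hcon
        have : k (Nat.find hex) ≤ k (n₀ + 1) := hk.monotone (by omega)
        omega
      have hm3 := Nat.find_min hex (m := Nat.find hex - 1) (by omega)
      refine ⟨Nat.find hex - 2, by omega, a, ?_, ?_, ha2⟩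
      · have : Nat.find hex - 2 + 1 = Nat.find hex - 1 := by omega
        rw [this]
        omega
      · have : Nat.find hex - 2 + 2 = Nat.find hex := by omega
        rw [this]
        exact hm1
    refine (hfreq.and_eventually ((hI2 _ hx).and (hI'2 _ hy))).mono ?_
    rintro n ⟨hn1, hn2, hn3⟩
    refine ⟨rfl, rfl, ?_⟩
    obtain ⟨e, he, h1⟩ := dig_add (M n) (B n) xy.1 z.1
    obtain ⟨e', he', h1'⟩ := dig_add (M n) (B n) xy.2 z.2
    show _ ∈ Finset.image _ _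
    rw [Finset.mem_image]
    refine ⟨(((dig (M n) (B n) xy.1, dig (M n) (B n) xy.2), (dig (M n) (B n) z.1, dig (M n) (B n) z.2)),
      (e, e')), ?_, ?_⟩
    · simp only [Finset.mem_product]
      exact ⟨⟨⟨hn2, hn3⟩, Finset.mem_filter.2 ⟨Finset.mem_univ _, z, hn1, rfl, rfl⟩⟩, he, he'⟩
    · rw [Prod.ext_iff]
      exact ⟨h1.symm, h1'.symm⟩
  refine measure_mono_null hcov ?_
  rw [measure_iUnion_null_iff]
  intro ij
  apply measure_setOfPred_frequently_eq_zero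
  refine ne_top_of_le_ne_top ?_ (ENNReal.tsum_le_tsum fun n =>
    (vol_square (M n) (B n) (hM n) ij.1 ij.2 (P n)).trans (ENNReal.ofReal_le_ofReal (hPc n)))
  have hs : Summable fun n : ℕ => ((1:ℝ)/2) ^ n := summable_geometric_of_lt_one (by norm_num) (by norm_num)
  rw [← ENNReal.ofReal_tsum_of_nonneg (fun n => by positivity) hs]
  exact ENNReal.ofReal_ne_top

end Pool.Agent.Q154.NA
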