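import Mathlib.Analysis.Real.Cardinality
import Mathlib.SetTheory.Cardinal.Finsupp
import Mathlib.Topology.MetricSpace.Perfect
import Mathlib.Topology.Order.IntermediateValue
import Mathlib.LinearAlgebra.Finsupp.LinearCombination
import Mathlib.Topology.Algebra.Order.Field
import Mathlib.Tactic

set_option autoImplicit false

/-!
Non-expansive maps of the `ℓ₁` plane which are locally of the form `± x + h` off a small set.
-/

open Set Cardinal Topology

namespace Pool.Agent.Q154.Plastic

/-- Sets of cardinality less than the continuum. -/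
def Small {α : Type} (s : Set α) : Prop := #s < 𝔠

theorem Small.mono {α : Type} {s t : Set α} (ht : Small t) (h : s ⊆ t) : Small s :=
  (Cardinal.mk_le_mk_of_subset h).trans_lt ht

theorem Small.of_countable {α : Type} {s : Set α} (h : s.Countable) : Small s :=
  (Cardinal.le_aleph0_iff_set_countable.2 h).trans_lt Cardinal.aleph0_lt_continuum

theorem Small.union {α : Type} {s t : Set α} (hs : Small s) (ht : Small t) : Small (s ∪ t) :=
  (Cardinal.mk_union_le s t).trans_lt (Cardinal.add_lt_of_lt Cardinal.aleph0_le_continuum hs ht)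

theorem Small.image {α β : Type} {s : Set α} (hs : Small s) (f : α → β) : Small (f '' s) :=
  Cardinal.mk_image_le.trans_lt hs

theorem Small.biUnion {ι α : Type} {I : Set ι} (hI : Small I) (f : ι → Set α)
    (hf : ∀ i ∈ I, (f i).Countable) : Small (⋃ i ∈ I, f i) := by
  refine (Cardinal.mk_biUnion_le f I).trans_lt ?_
  refine lt_of_le_of_lt (b := #I * ℵ₀) ?_ ?_
  · refine mul_le_mul_right ?_ _
    refine ciSup_le' fun i => ?_
    exact Cardinal.le_aleph0_iff_set_countable.2 (hf i.1 i.2)
  · exact Cardinal.mul_lt_of_lt Cardinal.aleph0_le_continuum hI Cardinal.aleph0_lt_continuum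

theorem Small.image2 {α β γ : Type} {s : Set α} {t : Set β} (hs : Small s) (ht : Small t)
    (f : α → β → γ) : Small (Set.image2 f s t) := by
  have h1 : Small (s ×ˢ t) := by
    unfold Small
    rw [Cardinal.mk_setProd]
    exact Cardinal.mul_lt_of_lt Cardinal.aleph0_le_continuum hs ht
  rw [← Set.image_prod]
  exact h1.image _

theorem not_small_Icc {a b : ℝ} (h : a < b) : ¬ Small (Icc a b) := by
  unfold Small
  rw [Cardinal.mk_Icc_real h]
  exact lt_irrefl _

theorem not_small_univ : ¬ Small (univ : Set ℝ) := fun h =>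
  not_small_Icc one_pos (h.mono (subset_univ (Icc (0 : ℝ) 1)))

/-- A continuous function on the line with few values is constant. -/
theorem const_of_small {φ : ℝ → ℝ} (hφ : Continuous φ) (h : Small (range φ)) (x y : ℝ) :
    φ x = φ y := by
  by_contra hne
  have hpre : IsPreconnected (range φ) := isPreconnected_range hφ
  have key : ∀ x y, ¬ φ x < φ y := by
    intro x y hlt
    exact not_small_Icc hlt (h.mono (hpre.Icc_subset ⟨x, rfl⟩ ⟨y, rfl⟩))
  rcases lt_or_gt_of_ne hne with h1 | h1
  · exact key _ _ h1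
  · exact key _ _ h1

/-- The complement of a small set is dense. -/
theorem dense_compl {s : Set ℝ} (hs : Small s) : Dense sᶜ := by
  rw [dense_iff_exists_between]
  intro a b hab
  by_contra hcon
  push Not at hcon
  obtain ⟨c, hc1, hc2⟩ := exists_between hab
  obtain ⟨d, hd1, hd2⟩ := exists_between hc2
  refine not_small_Icc hd1 (hs.mono fun x hx => ?_)
  by_contra hxs
  exact absurd (hcon x hxs (hc1.trans_le hx.1)) (not_le.2 (hx.2.trans_lt hd2))

/-- The `ℓ₁` distance. -/
def d1 (u v : ℝ × ℝ) : ℝ := |u.1 - v.1| + |u.2 - v.2|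

theorem continuous_of_d1 {F : ℝ × ℝ → ℝ × ℝ} (hF : ∀ u v, d1 (F u) (F v) ≤ d1 u v) :
    Continuous F := by
  have hL : LipschitzWith 2 F := by
    apply LipschitzWith.of_dist_le_mul
    intro u v
    have h1 := hF u v
    unfold d1 at h1
    rw [Prod.dist_eq, Prod.dist_eq, Real.dist_eq, Real.dist_eq, Real.dist_eq, Real.dist_eq]
    have h2 : |u.1 - v.1| ≤ max |u.1 - v.1| |u.2 - v.2| := le_max_left _ _
    have h3 : |u.2 - v.2| ≤ max |u.1 - v.1| |u.2 - v.2| := le_max_right _ _
    have h4 := abs_nonneg ((F u).1 - (F v).1)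
    have h5 := abs_nonneg ((F u).2 - (F v).2)
    apply max_le
    · push_cast; linarith
    · push_cast; linarith
  exact hL.continuous

/-- The geometric core. -/
theorem isometry_of_small {F : ℝ × ℝ → ℝ × ℝ} (hF : ∀ u v, d1 (F u) (F v) ≤ d1 u v)
    {S H : Set (ℝ × ℝ)} (hS : Small S) (hH : Small H)
    (hmain : ∀ x ∉ S, (∃ h ∈ H, F x = x + h) ∨ (∃ h ∈ H, F x = -x + h)) :
    ∀ u v, d1 (F u) (F v) = d1 u v := by
  have hc := continuous_of_d1 hF
  have hS1 : Small (Prod.fst '' S) := hS.image _
  have hS2 : Small (Prod.snd '' S) := hS.image _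
  have hH1 : Small (Prod.fst '' H) := hH.image _
  have hH2 : Small (Prod.snd '' H) := hH.image _
  -- vertical lines go to vertical lines
  have hvert : ∀ a t, (F (a, t)).1 = (F (a, 0)).1 := by
    intro a t
    have hgood : ∀ a ∉ Prod.fst '' S, (F (a, t)).1 = (F (a, 0)).1 := by
      intro a ha
      refine const_of_small (φ := fun t => (F (a, t)).1) (by fun_prop) ?_ t 0
      refine ((hH1.image fun z => a + z).union (hH1.image fun z => -a + z)).mono ?_
      rintro _ ⟨t, rfl⟩
      rcases hmain (a, t) (fun h => ha ⟨_, h, rfl⟩) with ⟨h, hh, he⟩ | ⟨h, hh, he⟩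
      · left
        refine ⟨h.1, ⟨h, hh, rfl⟩, ?_⟩
        simp only [he]
        rfl
      · right
        refine ⟨h.1, ⟨h, hh, rfl⟩, ?_⟩
        simp only [he]
        rfl
    have hd := dense_compl hS1
    have hclosed : IsClosed {a : ℝ | (F (a, t)).1 = (F (a, 0)).1} :=
      isClosed_eq (by fun_prop) (by fun_prop)
    have : closure (Prod.fst '' S)ᶜ ⊆ {a : ℝ | (F (a, t)).1 = (F (a, 0)).1} :=
      closure_minimal (fun a ha => hgood a ha) hclosed
    exact this (hd a)
  have hhor : ∀ a t, (F (a, t)).2 = (F (0, t)).2 := by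
    intro a t
    have hgood : ∀ t ∉ Prod.snd '' S, (F (a, t)).2 = (F (0, t)).2 := by
      intro t ht
      refine const_of_small (φ := fun a => (F (a, t)).2) (by fun_prop) ?_ a 0
      refine ((hH2.image fun z => t + z).union (hH2.image fun z => -t + z)).mono ?_
      rintro _ ⟨a, rfl⟩
      rcases hmain (a, t) (fun h => ht ⟨_, h, rfl⟩) with ⟨h, hh, he⟩ | ⟨h, hh, he⟩
      · left
        refine ⟨h.2, ⟨h, hh, rfl⟩, ?_⟩
        simp only [he]
        rfl
      · right
        refine ⟨h.2, ⟨h, hh, rfl⟩, ?_⟩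
        simp only [he]
        rfl
    have hd := dense_compl hS2
    have hclosed : IsClosed {t : ℝ | (F (a, t)).2 = (F (0, t)).2} :=
      isClosed_eq (by fun_prop) (by fun_prop)
    have : closure (Prod.snd '' S)ᶜ ⊆ {t : ℝ | (F (a, t)).2 = (F (0, t)).2} :=
      closure_minimal (fun t ht => hgood t ht) hclosed
    exact this (hd t)
  set p : ℝ → ℝ := fun a => (F (a, 0)).1 with hp
  set q : ℝ → ℝ := fun t => (F (0, t)).2 with hq
  have hpc : Continuous p := by simp only [hp]; fun_prop
  have hqc : Continuous q := by simp only [hq]; fun_prop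
  have hsign : ∀ a t, (a, t) ∉ S → (p a - a ∈ Prod.fst '' H ∧ q t - t ∈ Prod.snd '' H) ∨
      (p a + a ∈ Prod.fst '' H ∧ q t + t ∈ Prod.snd '' H) := by
    intro a t hat
    rcases hmain (a, t) hat with ⟨h, hh, he⟩ | ⟨h, hh, he⟩
    · left
      constructor
      · refine ⟨h, hh, ?_⟩
        have := hvert a t
        rw [he] at this
        simp only [hp]
        rw [← this]
        simp
      · refine ⟨h, hh, ?_⟩
        have := hhor a t
        rw [he] at this
        simp only [hq]
        rw [← this]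
        simp
    · right
      constructor
      · refine ⟨h, hh, ?_⟩
        have := hvert a t
        rw [he] at this
        simp only [hp]
        rw [← this]
        simp
      · refine ⟨h, hh, ?_⟩
        have := hhor a t
        rw [he] at this
        simp only [hq]
        rw [← this]
        simp
  have hFpq : ∀ u : ℝ × ℝ, F u = (p u.1, q u.2) := fun u =>
    Prod.ext (hvert u.1 u.2) (hhor u.1 u.2)
  -- constancy of `p a - a` etc.
  have hconst : ∀ {φ : ℝ → ℝ} (_ : Continuous φ) {T B : Set ℝ} (_ : Small T) (_ : Small B)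
      (_ : ∀ a ∉ B, φ a ∈ T), ∀ a, φ a = φ 0 := by
    intro φ hφ T B hT hB h a
    refine const_of_small hφ ?_ a 0
    refine (hT.union (hB.image φ)).mono ?_
    rintro _ ⟨b, rfl⟩
    by_cases hb : b ∈ B
    · exact Or.inr ⟨b, hb, rfl⟩
    · exact Or.inl (h b hb)
  have hex : ∀ B : Set ℝ, Small B → ∃ a, a ∉ B := by
    intro B hB
    by_contra hcon
    push Not at hcon
    exact not_small_univ (hB.mono fun a _ => hcon a)
  -- the conclusion in the two cases
  have hplus : (∀ a, p a - a = p 0 - 0) → (∀ t, q t - t = q 0 - 0) →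
      ∀ u v, d1 (F u) (F v) = d1 u v := by
    intro h1 h2 u v
    rw [hFpq, hFpq]
    unfold d1
    have e1 : p u.1 - p v.1 = u.1 - v.1 := by linarith [h1 u.1, h1 v.1]
    have e2 : q u.2 - q v.2 = u.2 - v.2 := by linarith [h2 u.2, h2 v.2]
    simp only [e1, e2]
  have hminus : (∀ a, p a + a = p 0 + 0) → (∀ t, q t + t = q 0 + 0) →
      ∀ u v, d1 (F u) (F v) = d1 u v := by
    intro h1 h2 u v
    rw [hFpq, hFpq]
    unfold d1
    have e1 : p u.1 - p v.1 = -(u.1 - v.1) := by linarith [h1 u.1, h1 v.1]
    have e2 : q u.2 - q v.2 = -(u.2 - v.2) := by linarith [h2 u.2, h2 v.2]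
    simp only [e1, e2, abs_neg]
  by_cases hP : ∀ a ∉ Prod.fst '' S, p a - a ∈ Prod.fst '' H
  · by_cases hQ : ∀ t ∉ Prod.snd '' S, q t - t ∈ Prod.snd '' H
    · exact hplus (hconst (φ := fun a => p a - a) (by fun_prop) hH1 hS1 hP)
        (hconst (φ := fun t => q t - t) (by fun_prop) hH2 hS2 hQ)
    · push Not at hQ
      obtain ⟨t₀, ht₀, ht₀'⟩ := hQ
      -- all `a` satisfy the minus condition
      have hPm : ∀ a, p a + a ∈ Prod.fst '' H := by
        intro a
        rcases hsign a t₀ (fun h => ht₀ ⟨_, h, rfl⟩) with h | h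
        · exact absurd h.2 ht₀'
        · exact h.1
      have hp1 := hconst (φ := fun a => p a + a) (by fun_prop) hH1 (B := ∅)
        (Small.of_countable countable_empty) (fun a _ => hPm a)
      -- then some good `a` fails the plus condition
      obtain ⟨a₀, ha₀⟩ := hex (Prod.fst '' S ∪ (fun z => (p 0 - z) / 2) '' (Prod.fst '' H))
        (hS1.union (hH1.image _))
      exfalso
      apply ha₀
      right
      refine ⟨p a₀ - a₀, hP a₀ (fun h => ha₀ (Or.inl h)), ?_⟩
      have := hp1 a₀
      simp only at this ⊢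
      linarith
  · push Not at hP
    obtain ⟨a₀, ha₀, ha₀'⟩ := hP
    have hQm : ∀ t, q t + t ∈ Prod.snd '' H := by
      intro t
      rcases hsign a₀ t (fun h => ha₀ ⟨_, h, rfl⟩) with h | h
      · exact absurd h.1 ha₀'
      · exact h.2
    have hq1 := hconst (φ := fun t => q t + t) (by fun_prop) hH2 (B := ∅)
      (Small.of_countable countable_empty) (fun t _ => hQm t)
    obtain ⟨t₀, ht₀⟩ := hex (Prod.snd '' S ∪ (fun z => (q 0 - z) / 2) '' (Prod.snd '' H))
      (hS2.union (hH2.image _))
    have ht₀' : q t₀ - t₀ ∉ Prod.snd '' H := by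
      intro h
      apply ht₀
      right
      refine ⟨q t₀ - t₀, h, ?_⟩
      have := hq1 t₀
      simp only at this ⊢
      linarith
    have hPm : ∀ a, p a + a ∈ Prod.fst '' H := by
      intro a
      rcases hsign a t₀ (fun h => ht₀ (Or.inl ⟨_, h, rfl⟩)) with h | h
      · exact absurd h.2 ht₀'
      · exact h.1
    have hp1 := hconst (φ := fun a => p a + a) (by fun_prop) hH1 (B := ∅)
      (Small.of_countable countable_empty) (fun a _ => hPm a)
    exact hminus (fun a => by simpa using hp1 a) (fun t => by simpa using hq1 t)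

end Pool.Agent.Q154.Plastic
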