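import Pool.Agent.Q154.PlasticGeom

set_option autoImplicit false

/-!
The killing step and the transfinite recursion.
-/

open Set Cardinal Topology

namespace Pool.Agent.Q154.Plastic

/-- The generated subgroup. -/
abbrev cl (A : Set (ℝ × ℝ)) : AddSubgroup (ℝ × ℝ) := AddSubgroup.closure A

theorem small_cl {A : Set (ℝ × ℝ)} (hA : Small A) : Small (cl A : Set (ℝ × ℝ)) := by
  by_cases hne : A.Nonempty
  · have hne' : Nonempty A := hne.to_subtype
    let g : (A →₀ ℤ) → ℝ × ℝ := fun l => Finsupp.linearCombination ℤ (fun a : A => (a : ℝ × ℝ)) l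
    have h1 : (cl A : Set (ℝ × ℝ)) ⊆ range g := by
      intro x hx
      have h2 : x ∈ Submodule.span ℤ A := by
        rw [← Submodule.mem_toAddSubgroup, Submodule.span_int_eq_addSubgroupClosure]
        exact hx
      rw [← Subtype.range_coe (s := A), ← Finsupp.range_linearCombination] at h2
      obtain ⟨l, hl⟩ := h2
      exact ⟨l, hl⟩
    refine ((Cardinal.mk_le_mk_of_subset h1).trans Cardinal.mk_range_le).trans_lt ?_
    rw [Cardinal.mk_finsupp_of_infinite']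
    refine max_lt hA ?_
    rw [Cardinal.mk_int]
    exact Cardinal.aleph0_lt_continuum
  · rw [not_nonempty_iff_eq_empty] at hne
    rw [hne]
    apply Small.of_countable
    simp

/-- The compatibility condition. -/
def Comp (A B : Set (ℝ × ℝ)) : Prop := ∀ x ∈ cl A, x ∉ B

theorem mem_cl_insert {A : Set (ℝ × ℝ)} {x y : ℝ × ℝ} :
    y ∈ cl (A ∪ {x}) ↔ ∃ n : ℤ, ∃ h ∈ cl A, y = n • x + h := by
  unfold cl
  rw [AddSubgroup.closure_union, AddSubgroup.mem_sup]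
  constructor
  · rintro ⟨h, hh, z, hz, rfl⟩
    rw [AddSubgroup.mem_closure_singleton] at hz
    obtain ⟨n, rfl⟩ := hz
    exact ⟨n, h, hh, add_comm _ _⟩
  · rintro ⟨n, h, hh, rfl⟩
    refine ⟨h, hh, n • x, ?_, add_comm _ _⟩
    rw [AddSubgroup.mem_closure_singleton]
    exact ⟨n, rfl⟩

/-- The points which cannot be added. -/
def Bad (A B : Set (ℝ × ℝ)) : Set (ℝ × ℝ) := {x | ∃ n : ℤ, n ≠ 0 ∧ ∃ h ∈ cl A, n • x + h ∈ B}

theorem small_bad {A B : Set (ℝ × ℝ)} (hA : Small A) (hB : Small B) : Small (Bad A B) := by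
  have h1 : Small (Set.image2 (fun b h : ℝ × ℝ => b - h) B (cl A : Set (ℝ × ℝ))) :=
    hB.image2 (small_cl hA) _
  have h2 : Small (Set.image2 (fun (n : ℤ) (z : ℝ × ℝ) => ((n : ℝ)⁻¹) • z) (univ : Set ℤ)
      (Set.image2 (fun b h : ℝ × ℝ => b - h) B (cl A : Set (ℝ × ℝ)))) :=
    (Small.of_countable (countable_univ)).image2 h1 _
  refine h2.mono ?_
  rintro x ⟨n, hn, h, hh, hb⟩
  refine ⟨n, trivial, n • x + h - h, ⟨_, hb, h, hh, rfl⟩, ?_⟩
  have hn' : (n : ℝ) ≠ 0 := by exact_mod_cast hn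
  have : n • x + h - h = (n : ℝ) • x := by
    rw [add_sub_cancel_right, Int.cast_smul_eq_zsmul]
  simp only [this, smul_smul, inv_mul_cancel₀ hn', one_smul]

theorem comp_insert {A B : Set (ℝ × ℝ)} (h : Comp A B) {x : ℝ × ℝ} (hx : x ∉ Bad A B) :
    Comp (A ∪ {x}) B := by
  intro y hy hyB
  obtain ⟨n, g, hg, rfl⟩ := mem_cl_insert.1 hy
  by_cases hn : n = 0
  · subst hn
    rw [zero_smul, zero_add] at hyB
    exact h g hg hyB
  · exact hx ⟨n, hn, g, hg, hyB⟩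

/-- The map `F` is killed by the pair `(A, B)`. -/
def Kill (F : ℝ × ℝ → ℝ × ℝ) (A B : Set (ℝ × ℝ)) : Prop :=
  (∃ x ∈ cl A, F x ∈ B) ∨ (∃ x ∈ cl A, ∃ y ∈ cl A, x ≠ y ∧ F x = F y)

theorem Kill.mono {F : ℝ × ℝ → ℝ × ℝ} {A B A' B' : Set (ℝ × ℝ)} (h : Kill F A B) (hA : A ⊆ A')
    (hB : B ⊆ B') : Kill F A' B' := by
  have hcl : cl A ≤ cl A' := AddSubgroup.closure_mono hA
  rcases h with ⟨x, hx, hxB⟩ | ⟨x, hx, y, hy, hxy⟩
  · exact Or.inl ⟨x, hcl hx, hB hxB⟩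
  · exact Or.inr ⟨x, hcl hx, y, hcl hy, hxy⟩

theorem countable_of_closed_small {E : Set (ℝ × ℝ)} (hE : IsClosed E) (hs : Small E) :
    E.Countable := by
  by_contra hc
  obtain ⟨f, hf1, _, hf3⟩ := hE.exists_nat_bool_injection_of_not_countable hc
  have h1 : #(ℕ → Bool) ≤ #E :=
    Cardinal.mk_le_of_injective (f := fun b => (⟨f b, hf1 ⟨b, rfl⟩⟩ : E)) fun a b h =>
      hf3 (congrArg (fun x : E => (x : ℝ × ℝ)) h)
  have h2 : #(ℕ → Bool) = 𝔠 := by simp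
  rw [h2] at h1
  exact absurd hs (not_lt.2 h1)

theorem d1_smul (n : ℤ) (x y h : ℝ × ℝ) : d1 (n • x + h) (n • y + h) = |(n : ℝ)| * d1 x y := by
  unfold d1
  rw [← Int.cast_smul_eq_zsmul ℝ n x, ← Int.cast_smul_eq_zsmul ℝ n y]
  have e1 : ((n : ℝ) • x + h).1 - ((n : ℝ) • y + h).1 = n * (x.1 - y.1) := by
    simp only [Prod.fst_add, Prod.smul_fst, smul_eq_mul]; ring
  have e2 : ((n : ℝ) • x + h).2 - ((n : ℝ) • y + h).2 = n * (x.2 - y.2) := by
    simp only [Prod.snd_add, Prod.smul_snd, smul_eq_mul]; ring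
  rw [e1, e2, abs_mul, abs_mul]
  ring

theorem eq_of_d1 {x y : ℝ × ℝ} (h : d1 x y ≤ 0) : x = y := by
  unfold d1 at h
  have h1 := abs_nonneg (x.1 - y.1)
  have h2 := abs_nonneg (x.2 - y.2)
  have h3 : |x.1 - y.1| = 0 := by linarith
  have h4 : |x.2 - y.2| = 0 := by linarith
  exact Prod.ext (sub_eq_zero.1 (abs_eq_zero.1 h3)) (sub_eq_zero.1 (abs_eq_zero.1 h4))

theorem d1_nonneg (x y : ℝ × ℝ) : 0 ≤ d1 x y := by unfold d1; positivity

/-- The killing step. -/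
theorem step {F : ℝ × ℝ → ℝ × ℝ} (hF : ∀ u v, d1 (F u) (F v) ≤ d1 u v)
    (hni : ¬ ∀ u v, d1 (F u) (F v) = d1 u v) {A B : Set (ℝ × ℝ)} (hA : Small A) (hB : Small B)
    (hc : Comp A B) :
    ∃ a b : Set (ℝ × ℝ), a.Countable ∧ b.Countable ∧ Comp (A ∪ a) (B ∪ b) ∧
      Kill F (A ∪ a) (B ∪ b) := by
  have hFc := continuous_of_d1 hF
  by_cases h2 : ∃ h ∈ cl A, F h ∉ cl A
  · obtain ⟨h, hh, hFh⟩ := h2
    refine ⟨∅, {F h}, countable_empty, countable_singleton _, ?_, ?_⟩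
    · rw [union_empty]
      rintro x hx (hxB | hxF)
      · exact hc x hx hxB
      · rw [mem_singleton_iff] at hxF
        rw [hxF] at hx
        exact hFh hx
    · left
      refine ⟨h, ?_, Or.inr rfl⟩
      rw [union_empty]
      exact hh
  by_cases h3 : ∃ x ∉ Bad A B, F x ∉ cl (A ∪ {x})
  · obtain ⟨x, hx, hFx⟩ := h3
    refine ⟨{x}, {F x}, countable_singleton _, countable_singleton _, ?_, ?_⟩
    · rintro y hy (hyB | hyF)
      · exact comp_insert hc hx y hy hyB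
      · rw [mem_singleton_iff] at hyF
        rw [hyF] at hy
        exact hFx hy
    · exact Or.inl ⟨x, AddSubgroup.subset_closure (Or.inr rfl), Or.inr rfl⟩
  by_cases h4 : ∃ h ∈ cl A, ¬ Small (F ⁻¹' {h})
  · obtain ⟨h, hh, hns⟩ := h4
    obtain ⟨x, hxE, hxB⟩ : ∃ x ∈ F ⁻¹' {h}, x ∉ Bad A B := by
      by_contra hcon
      push Not at hcon
      exact hns ((small_bad hA hB).mono fun x hx => hcon x hx)
    have hA1 : Small (A ∪ {x}) := hA.union (Small.of_countable (countable_singleton _))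
    obtain ⟨y, hyE, hyB⟩ : ∃ y ∈ F ⁻¹' {h}, y ∉ Bad (A ∪ {x}) B ∪ {x} := by
      by_contra hcon
      push Not at hcon
      exact hns (((small_bad hA1 hB).union (Small.of_countable (countable_singleton x))).mono
        fun x hx => hcon x hx)
    have hc1 := comp_insert hc hxB
    have hc2 := comp_insert hc1 (fun h' => hyB (Or.inl h'))
    refine ⟨{x} ∪ {y}, ∅, (countable_singleton _).union (countable_singleton _),
      countable_empty, ?_, ?_⟩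
    · rw [union_empty, ← union_assoc]
      exact hc2
    · right
      rw [← union_assoc]
      refine ⟨x, AddSubgroup.subset_closure (Or.inl (Or.inr rfl)), y,
        AddSubgroup.subset_closure (Or.inr rfl), ?_, ?_⟩
      · intro hxy
        exact hyB (Or.inr hxy.symm)
      · rw [mem_preimage, mem_singleton_iff] at hxE hyE
        rw [hxE, hyE]
  exfalso
  push Not at h2 h3 h4
  apply hni
  have hcl := small_cl hA
  -- the exceptional set
  have hS1 : Small (⋃ h ∈ (cl A : Set (ℝ × ℝ)), F ⁻¹' {h}) :=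
    hcl.biUnion _ fun h hh => countable_of_closed_small
      ((isClosed_singleton).preimage hFc) (h4 h hh)
  have hidx : Small (Set.image2 (fun (n : ℤ) (h : ℝ × ℝ) => (n, h)) (univ : Set ℤ)
      (cl A : Set (ℝ × ℝ))) := (Small.of_countable countable_univ).image2 hcl _
  have hS2 : Small (⋃ i ∈ (Set.image2 (fun (n : ℤ) (h : ℝ × ℝ) => (n, h)) (univ : Set ℤ)
      (cl A : Set (ℝ × ℝ))), {x : ℝ × ℝ | 2 ≤ |(i.1 : ℝ)| ∧ F x = i.1 • x + i.2}) := by
    refine hidx.biUnion _ fun i _ => ?_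
    apply Set.Subsingleton.countable
    rintro x ⟨hi, hx⟩ y ⟨_, hy⟩
    have h5 := hF x y
    rw [hx, hy, d1_smul] at h5
    apply eq_of_d1
    nlinarith [d1_nonneg x y]
  refine isometry_of_small hF ((small_bad hA hB).union (hS1.union hS2)) hcl fun x hx => ?_
  rw [mem_union, mem_union, not_or, not_or] at hx
  obtain ⟨hx1, hx2, hx3⟩ := hx
  obtain ⟨n, h, hh, he⟩ := mem_cl_insert.1 (h3 x hx1)
  have hn0 : n ≠ 0 := by
    rintro rfl
    rw [zero_smul, zero_add] at he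
    exact hx2 (mem_iUnion₂.2 ⟨h, hh, he⟩)
  have hn2 : ¬ 2 ≤ |(n : ℝ)| := fun h' =>
    hx3 (mem_iUnion₂.2 ⟨(n, h), ⟨n, trivial, h, hh, rfl⟩, h', he⟩)
  have hn3 : |n| < 2 := by
    by_contra h'
    rw [not_lt] at h'
    exact hn2 (by exact_mod_cast h')
  have hn4 : n = 1 ∨ n = -1 := by
    obtain ⟨h5, h6⟩ := abs_lt.1 hn3
    omega
  rcases hn4 with rfl | rfl
  · left
    exact ⟨h, hh, by rw [he, one_smul]⟩
  · right
    exact ⟨h, hh, by rw [he, neg_smul, one_smul]⟩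

section recursion

variable {I : Type} [LinearOrder I] [WellFoundedLT I]

/-- The directed union of compatible pairs. -/
theorem comp_iUnion (A₀ : Set (ℝ × ℝ)) (a b : I → Set (ℝ × ℝ)) (J : Set I)
    (h : ∀ j ∈ J, Comp (A₀ ∪ ⋃ k ∈ Iic j, a k) (⋃ k ∈ Iic j, b k)) :
    Comp (A₀ ∪ ⋃ k ∈ J, a k) (⋃ k ∈ J, b k) := by
  intro x hx hxB
  obtain ⟨j₀, hj₀, hxj₀⟩ := mem_iUnion₂.1 hxB
  have hne : Nonempty J := ⟨⟨j₀, hj₀⟩⟩
  have hmono : ∀ j k : I, j ≤ k → A₀ ∪ ⋃ l ∈ Iic j, a l ⊆ A₀ ∪ ⋃ l ∈ Iic k, a l := by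
    intro j k hjk
    refine union_subset_union_right _ (biUnion_subset_biUnion_left (Iic_subset_Iic.2 hjk))
  have hdir : Directed (· ≤ ·) (fun j : J => cl (A₀ ∪ ⋃ l ∈ Iic (j : I), a l)) := by
    intro j k
    rcases le_total (j : I) k with hjk | hjk
    · exact ⟨k, AddSubgroup.closure_mono (hmono _ _ hjk), le_rfl⟩
    · exact ⟨j, le_rfl, AddSubgroup.closure_mono (hmono _ _ hjk)⟩
  have hle : cl (A₀ ∪ ⋃ k ∈ J, a k) ≤ ⨆ j : J, cl (A₀ ∪ ⋃ l ∈ Iic (j : I), a l) := by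
    rw [AddSubgroup.closure_le]
    rintro y (hy | hy)
    · exact (AddSubgroup.mem_iSup_of_directed hdir).2
        ⟨⟨j₀, hj₀⟩, AddSubgroup.subset_closure (Or.inl hy)⟩
    · obtain ⟨k, hk, hyk⟩ := mem_iUnion₂.1 hy
      exact (AddSubgroup.mem_iSup_of_directed hdir).2
        ⟨⟨k, hk⟩, AddSubgroup.subset_closure (Or.inr (mem_iUnion₂.2 ⟨k, le_rfl, hyk⟩))⟩
  obtain ⟨⟨j₁, hj₁⟩, hxj₁⟩ := (AddSubgroup.mem_iSup_of_directed hdir).1 (hle hx)
  rcases le_total j₀ j₁ with hjj | hjj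
  · exact h j₁ hj₁ x hxj₁ (mem_iUnion₂.2 ⟨j₀, hjj, hxj₀⟩)
  · exact h j₀ hj₀ x (AddSubgroup.closure_mono (hmono _ _ hjj) hxj₁)
      (mem_iUnion₂.2 ⟨j₀, le_rfl, hxj₀⟩)

/-- The transfinite recursion. -/
theorem recursion (hI : ∀ i : I, #(Iio i) < 𝔠) (A₀ : Set (ℝ × ℝ)) (hA₀ : A₀.Countable)
    (P : I → Set (ℝ × ℝ) → Set (ℝ × ℝ) → Prop)
    (hstep : ∀ i A B, Small A → Small B → Comp A B →
      ∃ a b : Set (ℝ × ℝ), a.Countable ∧ b.Countable ∧ Comp (A ∪ a) (B ∪ b) ∧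
        P i (A ∪ a) (B ∪ b)) :
    ∃ A B : Set (ℝ × ℝ), A₀ ⊆ A ∧ Comp A B ∧ ∀ i, ∃ A' ⊆ A, ∃ B' ⊆ B, P i A' B' := by
  classical
  -- the step as a function
  have hch : ∀ (i : I) (A B : Set (ℝ × ℝ)), ∃ ab : Set (ℝ × ℝ) × Set (ℝ × ℝ),
      ab.1.Countable ∧ ab.2.Countable ∧ (Small A → Small B → Comp A B →
        Comp (A ∪ ab.1) (B ∪ ab.2) ∧ P i (A ∪ ab.1) (B ∪ ab.2)) := by
    intro i A B
    by_cases h : Small A ∧ Small B ∧ Comp A B
    · obtain ⟨a, b, ha, hb, hc, hP⟩ := hstep i A B h.1 h.2.1 h.2.2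
      exact ⟨(a, b), ha, hb, fun _ _ _ => ⟨hc, hP⟩⟩
    · exact ⟨(∅, ∅), countable_empty, countable_empty, fun h1 h2 h3 => absurd ⟨h1, h2, h3⟩ h⟩
  choose S hS1 hS2 hS3 using hch
  let G : (i : I) → ((j : I) → j < i → Set (ℝ × ℝ) × Set (ℝ × ℝ)) → Set (ℝ × ℝ) × Set (ℝ × ℝ) :=
    fun i ih => S i (A₀ ∪ ⋃ (j : I) (h : j < i), (ih j h).1) (⋃ (j : I) (h : j < i), (ih j h).2)
  let f : I → Set (ℝ × ℝ) × Set (ℝ × ℝ) := (wellFounded_lt (α := I)).fix G
  have hf : ∀ i, f i = S i (A₀ ∪ ⋃ j ∈ Iio i, (f j).1) (⋃ j ∈ Iio i, (f j).2) := by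
    intro i
    exact (wellFounded_lt (α := I)).fix_eq G i
  have hf1 : ∀ i, (f i).1.Countable := fun i => by rw [hf i]; exact hS1 _ _ _
  have hf2 : ∀ i, (f i).2.Countable := fun i => by rw [hf i]; exact hS2 _ _ _
  have hsm1 : ∀ i : I, Small (A₀ ∪ ⋃ j ∈ Iio i, (f j).1) := fun i =>
    (Small.of_countable hA₀).union (Small.biUnion (I := Iio i) (hI i) _ fun j _ => hf1 j)
  have hsm2 : ∀ i : I, Small (⋃ j ∈ Iio i, (f j).2) := fun i =>
    Small.biUnion (I := Iio i) (hI i) _ fun j _ => hf2 j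
  have hIic : ∀ (i : I) (g : I → Set (ℝ × ℝ)), (⋃ k ∈ Iic i, g k) = (⋃ k ∈ Iio i, g k) ∪ g i := by
    intro i g
    rw [← Iio_union_right, biUnion_union, biUnion_singleton]
  have hcomp : ∀ i, Comp (A₀ ∪ ⋃ k ∈ Iic i, (f k).1) (⋃ k ∈ Iic i, (f k).2) ∧
      P i (A₀ ∪ ⋃ k ∈ Iic i, (f k).1) (⋃ k ∈ Iic i, (f k).2) := by
    intro i
    induction i using WellFoundedLT.induction with
    | ind i ih =>
      have h1 := comp_iUnion A₀ (fun k => (f k).1) (fun k => (f k).2) (Iio i)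
        (fun j hj => (ih j hj).1)
      have h2 := hS3 i _ _ (hsm1 i) (hsm2 i) h1
      rw [← hf i] at h2
      rw [hIic, hIic, ← union_assoc]
      exact h2
  refine ⟨A₀ ∪ ⋃ k ∈ (univ : Set I), (f k).1, ⋃ k ∈ (univ : Set I), (f k).2,
    subset_union_left, ?_, ?_⟩
  · exact comp_iUnion A₀ (fun k => (f k).1) (fun k => (f k).2) univ fun j _ => (hcomp j).1
  · intro i
    refine ⟨_, ?_, _, ?_, (hcomp i).2⟩
    · exact union_subset_union_right _ (biUnion_subset_biUnion_left (subset_univ _))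
    · exact biUnion_subset_biUnion_left (subset_univ _)

end recursion

end Pool.Agent.Q154.Plastic
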