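import Mathlib

set_option autoImplicit false

/-!
The least cardinal `κ` with `2 ^ κ > 𝔠`, as a well ordered type, and the ideal of tiny subsets
of it (nonstationary sets, described through closure points of countably many functions).
-/

namespace Pool.Agent.Q154.SelAlg

open Cardinal Set

/-- The properties of the well-ordered type used in the construction. -/
structure Good (T : Type) [LinearOrder T] : Prop where
  big : 𝔠 < #(Set T)
  le : #T ≤ 𝔠
  seg : ∀ x : T, #(Set (Iio x)) ≤ 𝔠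

theorem exists_good : ∃ (T : Type) (_ : LinearOrder T) (_ : WellFoundedLT T), Good T := by
  classical
  let K : Set Cardinal.{0} := {κ | 𝔠 < 2 ^ κ}
  have hK : K.Nonempty := ⟨𝔠, cantor 𝔠⟩
  let κ := sInf K
  have hκ : 𝔠 < 2 ^ κ := csInf_mem hK
  refine ⟨κ.ord.ToType, inferInstance, inferInstance, ?_, ?_, ?_⟩
  · rw [mk_set, mk_ord_toType]
    exact hκ
  · rw [mk_ord_toType]
    exact csInf_le' (cantor 𝔠)
  · intro x
    rw [mk_set]
    have h1 : #(Iio x) < κ := mk_Iio_toType_ord_lt x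
    by_contra h2
    exact absurd (csInf_le' (show #(Iio x) ∈ K from not_le.1 h2)) (not_le.2 h1)

variable {T : Type} [LinearOrder T] [WellFoundedLT T]

theorem Good.iic (hT : Good T) (x : T) : #(Set (Iic x)) ≤ 𝔠 := by
  classical
  have h1 : #(Set (Iic x)) ≤ #(Set (Iio x) × Prop) := by
    refine mk_le_of_injective (f := fun A : Set (Iic x) =>
      (({y : Iio x | (⟨y.1, le_of_lt y.2⟩ : Iic x) ∈ A} : Set (Iio x)),
        (⟨x, le_rfl⟩ : Iic x) ∈ A)) ?_
    intro A B hAB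
    simp only [Prod.mk.injEq] at hAB
    obtain ⟨h1, h2⟩ := hAB
    ext ⟨y, hy⟩
    rcases lt_or_eq_of_le (show y ≤ x from hy) with h3 | h3
    · have := Set.ext_iff.1 h1 ⟨y, h3⟩
      simpa using this
    · subst h3
      exact (iff_of_eq h2)
  refine h1.trans ?_
  rw [mk_prod, lift_id, lift_id]
  have h2 : #(Prop) ≤ 𝔠 := by
    rw [mk_Prop]
    exact (nat_lt_continuum 2).le
  calc #(Set (Iio x)) * #Prop ≤ 𝔠 * 𝔠 := mul_le_mul' (hT.seg x) h2
    _ = 𝔠 := continuum_mul_self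

/-- Functions from index sets `J` with `𝔠 ^ #J ≤ 𝔠` to `T` are bounded. -/
theorem Good.bounded (hT : Good T) {J : Type} (hJ : (𝔠 : Cardinal.{0}) ^ #J ≤ 𝔠) (u : J → T) :
    ∃ z, ∀ j, u j < z := by
  classical
  by_contra hcon
  push Not at hcon
  refine absurd hT.big (not_lt.2 ?_)
  have h1 : #(Set T) ≤ #((j : J) → Set (Iic (u j))) := by
    refine mk_le_of_injective (f := fun A : Set T => fun j => {y : Iic (u j) | y.1 ∈ A}) ?_
    intro A B hAB
    ext z
    obtain ⟨j, hj⟩ := hcon z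
    have h2 := congrFun hAB j
    have h3 := Set.ext_iff.1 h2 ⟨z, hj⟩
    simpa using h3
  refine h1.trans ?_
  rw [mk_pi]
  calc prod (fun j => #(Set (Iic (u j)))) ≤ prod (fun _ : J => 𝔠) :=
        prod_le_prod _ _ fun j => hT.iic (u j)
    _ = 𝔠 ^ #J := by rw [prod_const, lift_id, lift_id]
    _ ≤ 𝔠 := hJ

theorem Good.bounded_seg (hT : Good T) (x : T) (u : Iio x × ℕ → T) :
    ∃ z, ∀ j, u j < z := by
  refine hT.bounded ?_ u
  rw [mk_prod, lift_id, lift_id]
  have h1 : (2 : Cardinal.{0}) ^ #(Iio x) ≤ 𝔠 := by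
    rw [← mk_set]
    exact hT.seg x
  calc (𝔠 : Cardinal.{0}) ^ (#(Iio x) * #ℕ) = (𝔠 ^ #ℕ) ^ #(Iio x) := by
        rw [mul_comm, power_mul]
    _ = 𝔠 ^ #(Iio x) := by rw [mk_nat, continuum_power_aleph0]
    _ = (2 ^ ℵ₀) ^ #(Iio x) := by rw [two_power_aleph0]
    _ = (2 ^ #(Iio x)) ^ ℵ₀ := by rw [← power_mul, ← power_mul, mul_comm]
    _ ≤ 𝔠 ^ ℵ₀ := power_le_power_right h1
    _ = 𝔠 := continuum_power_aleph0

theorem Good.bounded_nat (hT : Good T) (u : ℕ → T) : ∃ z, ∀ j, u j < z := by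
  refine hT.bounded ?_ u
  rw [mk_nat, continuum_power_aleph0]

/-- `α` is a closure point of the functions `h n`. -/
def Closed (h : ℕ → T → T) (α : T) : Prop :=
  (∃ γ, γ < α) ∧ ∀ n, ∀ γ, γ < α → h n γ < α

theorem Good.exists_closed (hT : Good T) (h : ℕ → T → T) : ∃ α, Closed h α := by
  classical
  have hne : Nonempty T := by
    by_contra hne
    rw [not_nonempty_iff] at hne
    have := hT.big
    rw [mk_set, mk_eq_zero, power_zero] at this
    exact absurd this (not_lt.2 (by exact_mod_cast (nat_lt_continuum 1).le))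
  have hstep : ∀ a : T, ∃ b, a < b ∧ ∀ n, ∀ γ, γ < a → h n γ < b := by
    intro a
    obtain ⟨z1, hz1⟩ := hT.bounded_seg a fun p => h p.2 p.1
    obtain ⟨z2, hz2⟩ := hT.bounded_nat fun _ => a
    refine ⟨max z1 z2, lt_max_of_lt_right (hz2 0), fun n γ hγ => lt_max_of_lt_left ?_⟩
    exact hz1 (⟨γ, hγ⟩, n)
  choose b hb1 hb2 using hstep
  let a : ℕ → T := fun n => Nat.rec (Classical.arbitrary T) (fun _ x => b x) n
  have ha : ∀ n, a (n + 1) = b (a n) := fun n => rfl
  have hb : ∃ z, ∀ n, a n < z := hT.bounded_nat a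
  let S : Set T := {z | ∀ n, a n < z}
  let α := wellFounded_lt.min S hb
  have hα : ∀ n, a n < α := wellFounded_lt.min_mem S hb
  refine ⟨α, ⟨a 0, hα 0⟩, ?_⟩
  intro n γ hγ
  have h1 : γ ∉ S := fun hS => wellFounded_lt.not_lt_min S hS hγ
  have h2 : ∃ k, γ ≤ a k :=
    Classical.by_contradiction fun hcon => h1 fun n => not_le.1 fun hle => hcon ⟨n, hle⟩
  obtain ⟨k, hk⟩ := h2
  have h3 : γ < a (k + 1) := by
    rw [ha]
    exact lt_of_le_of_lt hk (hb1 _)
  have h4 : h n γ < a (k + 2) := by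
    rw [show a (k + 2) = b (a (k + 1)) from rfl]
    exact hb2 _ n γ h3
  exact h4.trans (hα (k + 2))

/-- Tiny sets. -/
def Tiny (J : Set T) : Prop := ∃ h : ℕ → T → T, ∀ α ∈ J, ¬ Closed h α

theorem Tiny.mono {J J' : Set T} (h : Tiny J') (hs : J ⊆ J') : Tiny J := by
  obtain ⟨f, hf⟩ := h
  exact ⟨f, fun α hα => hf α (hs hα)⟩

theorem Tiny.iUnion {J : ℕ → Set T} (h : ∀ n, Tiny (J n)) : Tiny (⋃ n, J n) := by
  choose f hf using h
  refine ⟨fun k => f (Nat.unpair k).1 (Nat.unpair k).2, ?_⟩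
  intro α hα hcl
  obtain ⟨m, hm⟩ := mem_iUnion.1 hα
  refine hf m α hm ⟨hcl.1, fun n γ hγ => ?_⟩
  have := hcl.2 (Nat.pair m n) γ hγ
  simpa using this

theorem Tiny.empty : Tiny (∅ : Set T) := ⟨fun _ x => x, fun _ h => absurd h (notMem_empty _)⟩

/-- The set of points above a given point is not small. -/
theorem Good.not_tiny_Ioi (hT : Good T) (δ : T) : ¬ Tiny (Ioi δ) := by
  rintro ⟨h, hh⟩
  obtain ⟨α, hα⟩ := hT.exists_closed (fun n => if n = 0 then (fun _ => δ) else h (n - 1))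
  obtain ⟨γ, hγ⟩ := hα.1
  have h1 : δ < α := by
    have := hα.2 0 γ hγ
    simpa using this
  refine hh α h1 ⟨⟨γ, hγ⟩, fun n γ' hγ' => ?_⟩
  have := hα.2 (n + 1) γ' hγ'
  simpa using this

end Pool.Agent.Q154.SelAlg
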