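import Mathlib
import Pool.Agent.Q154.CHTools

set_option autoImplicit false

/-!
Null subsets and the choice of the set `Z` for the Sierpiński set problem.
-/

open Set MeasureTheory Filter Topology

namespace Pool.Agent.Q154.Sierp

/-- interleaving with a fixed sequence -/
def ilv (z w : ℕ → Bool) : ℕ → Bool := fun n => if n % 2 = 0 then z (n / 2) else w (n / 2)

theorem ilv_even (z w : ℕ → Bool) (n : ℕ) : ilv z w (2 * n) = z n := by
  simp [ilv]

theorem ilv_inj (z : ℕ → Bool) : Function.Injective (ilv z) := by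
  intro w w' h
  funext n
  have := congrFun h (2 * n + 1)
  have e1 : (2 * n + 1) % 2 ≠ 0 := by omega
  have e2 : (2 * n + 1) / 2 = n := by omega
  simp only [ilv, e1, if_false, e2] at this
  exact this

theorem uncountable_bool : ¬ (univ : Set (ℕ → Bool)).Countable := by
  rw [← Cardinal.le_aleph0_iff_set_countable, Cardinal.mk_univ, not_le]
  simpa using Cardinal.cantor Cardinal.aleph0

/-- A closed set of positive measure contains an uncountable null set. -/
theorem exists_null_uncountable {K : Set ℝ} (hK : IsClosed K) (hpos : 0 < volume K) :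
    ∃ N ⊆ K, volume N = 0 ∧ ¬ N.Countable := by
  have hunc : ¬ K.Countable := fun h => hpos.ne' (h.measure_zero volume)
  obtain ⟨D, hD, hne, hDK⟩ := exists_perfect_nonempty_of_isClosed_of_not_countable hK hunc
  obtain ⟨f, hf1, hf2, hf3⟩ := hD.exists_nat_bool_injection hne
  let A : (ℕ → Bool) → Set ℝ := fun z => f '' {x : ℕ → Bool | ∀ n, x (2 * n) = z n}
  have hcl : ∀ z : ℕ → Bool, IsClosed {x : ℕ → Bool | ∀ n, x (2 * n) = z n} := by
    intro z
    have : {x : ℕ → Bool | ∀ n, x (2 * n) = z n} = ⋂ n, {x : ℕ → Bool | x (2 * n) = z n} := by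
      ext x; simp
    rw [this]
    exact isClosed_iInter fun n => isClosed_eq (continuous_apply _) continuous_const
  have hmeas : ∀ z, MeasurableSet (A z) := fun z =>
    ((hcl z).isCompact.image hf2).isClosed.measurableSet
  have hdisj : Pairwise (Function.onFun Disjoint A) := by
    intro z z' hzz
    rw [Function.onFun, Set.disjoint_left]
    rintro _ ⟨x, hx, rfl⟩ ⟨x', hx', he⟩
    have := hf3 he
    subst this
    exact hzz (funext fun n => (hx n).symm.trans (hx' n))
  have hcount := Measure.countable_meas_pos_of_disjoint_iUnion (μ := volume) hmeas hdisj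
  have hex : ∃ z, z ∉ {z | 0 < volume (A z)} := by
    by_contra hcon
    push Not at hcon
    exact uncountable_bool (hcount.mono fun z _ => hcon z)
  obtain ⟨z, hz⟩ := hex
  refine ⟨A z, ?_, ?_, ?_⟩
  · rintro _ ⟨x, -, rfl⟩
    exact hDK (hf1 ⟨x, rfl⟩)
  · simpa using hz
  · intro hc
    have h1 : (f ∘ ilv z) '' univ ⊆ A z := by
      rintro _ ⟨w, -, rfl⟩
      exact ⟨ilv z w, fun n => ilv_even z w n, rfl⟩
    have h2 := (hc.mono h1)
    exact uncountable_bool (Set.countable_of_injective_of_countable_image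
      (hf3.comp (ilv_inj z)).injOn h2)

/-- every null set is contained in a null intersection of open sets -/
theorem exists_gdelta_null {N : Set ℝ} (hN : volume N = 0) :
    ∃ U : ℕ → Set ℝ, (∀ n, IsOpen (U n)) ∧ N ⊆ ⋂ n, U n ∧ volume (⋂ n, U n) = 0 := by
  have h : ∀ n : ℕ, ∃ U ⊇ N, IsOpen U ∧ volume U < ENNReal.ofReal ((1 / 2 : ℝ) ^ n) := fun n =>
    Set.exists_isOpen_lt_of_lt N _ (by rw [hN]; exact ENNReal.ofReal_pos.2 (by positivity))
  choose U hU1 hU2 hU3 using h
  refine ⟨U, hU2, subset_iInter hU1, ?_⟩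
  have h1 : ∀ n, volume (⋂ n, U n) ≤ ENNReal.ofReal ((1 / 2 : ℝ) ^ n) := fun n =>
    (measure_mono (iInter_subset _ n)).trans (hU3 n).le
  have h2 : Tendsto (fun n : ℕ => ENNReal.ofReal ((1 / 2 : ℝ) ^ n)) atTop (𝓝 0) := by
    have := ENNReal.tendsto_ofReal
      (tendsto_pow_atTop_nhds_zero_of_lt_one (r := (1 / 2 : ℝ)) (by norm_num) (by norm_num))
    simpa using this
  exact le_antisymm (ge_of_tendsto' h2 h1) bot_le

/-- Sierpiński sets -/
def IsSierpinski (S : Set ℝ) : Prop :=
  ¬ S.Countable ∧ ∀ N : Set ℝ, volume N = 0 → (S ∩ N).Countable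

/-- **The set Z.** Under CH, for every Sierpiński set `S` there is a Sierpiński-like set disjoint
from `S` which meets every closed set of positive measure. -/
theorem exists_Z (ch : CHT.CH) {S : Set ℝ} (hS : IsSierpinski S) :
    ∃ Z : Set ℝ, Disjoint Z S ∧ (∀ N : Set ℝ, volume N = 0 → (Z ∩ N).Countable) ∧
      ∀ K : Set ℝ, IsClosed K → K ∩ Z = ∅ → volume K = 0 := by
  classical
  obtain ⟨B, hB⟩ := TopologicalSpace.exists_seq_basis ℝ
  have hopen : ∀ A : Set ℕ, IsOpen (⋃ n ∈ A, B n) := fun A =>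
    isOpen_biUnion fun n _ => hB.isOpen ⟨n, rfl⟩
  have hcode : ∀ U : Set ℝ, IsOpen U → ∃ A : Set ℕ, ⋃ n ∈ A, B n = U := by
    intro U hU
    refine ⟨{n | B n ⊆ U}, subset_antisymm (iUnion₂_subset fun n hn => hn) ?_⟩
    intro x hx
    obtain ⟨_, ⟨n, rfl⟩, hxn, hn⟩ := hB.exists_subset_of_mem_open hx hU
    exact mem_iUnion₂.2 ⟨n, hn, hxn⟩
  obtain ⟨e1, he1⟩ := CHT.exists_surj ch (Set ℕ) (CHT.mk_set_countable ℕ)
  obtain ⟨e2, he2⟩ := CHT.exists_surj ch (ℕ → Set ℕ)
    (CHT.mk_fun_le ℕ (Set ℕ) (CHT.mk_set_countable ℕ))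
  let G : CHT.W → Set ℝ := fun i => ⋂ k, ⋃ n ∈ e2 i k, B n
  let N : CHT.W → Set ℝ := fun i => if volume (G i) = 0 then G i else ∅
  let P : CHT.W → Set ℝ := fun i => (⋃ n ∈ e1 i, B n)ᶜ
  have hGm : ∀ i, MeasurableSet (G i) := fun i =>
    MeasurableSet.iInter fun k => (hopen _).measurableSet
  have hNm : ∀ i, MeasurableSet (N i) := fun i => by
    simp only [N]; split_ifs
    · exact hGm i
    · exact MeasurableSet.empty
  have hN0 : ∀ i, volume (N i) = 0 := fun i => by
    simp only [N]; split_ifs with h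
    · exact h
    · exact measure_empty
  have hPc : ∀ i, IsClosed (P i) := fun i => (hopen _).isClosed_compl
  -- the choice
  have key : ∀ i : CHT.W, 0 < volume (P i) → ∃ z, z ∈ P i ∧ z ∉ S ∧ ∀ j ≤ i, z ∉ N j := by
    intro i hi
    by_contra hcon
    push Not at hcon
    let M : Set ℝ := ⋃ j ∈ Iic i, N j
    have hM : volume M = 0 := (measure_biUnion_null_iff (CHT.countable_Iic i)).2 fun j _ => hN0 j
    have hMm : MeasurableSet M := MeasurableSet.biUnion (CHT.countable_Iic i) fun j _ => hNm j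
    have hpos : 0 < volume (P i \ M) := by
      rw [measure_sdiff_null hM]; exact hi
    have hsub : P i \ M ⊆ S := by
      rintro z ⟨hz1, hz2⟩
      by_contra hzS
      obtain ⟨j, hj, hz⟩ := hcon z hz1 hzS
      exact hz2 (mem_iUnion₂.2 ⟨j, hj, hz⟩)
    obtain ⟨K, hKsub, hKc, hKpos⟩ :=
      MeasurableSet.exists_lt_isCompact ((hPc i).measurableSet.diff hMm) hpos
    obtain ⟨N', hN', hN'0, hN'c⟩ := exists_null_uncountable hKc.isClosed hKpos
    apply hN'c
    have h1 := hS.2 N' hN'0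
    rwa [inter_eq_self_of_subset_right ((hN'.trans hKsub).trans hsub)] at h1
  let zc : CHT.W → ℝ := fun i => if h : 0 < volume (P i) then (key i h).choose else 0
  have hzc : ∀ i, 0 < volume (P i) → zc i ∈ P i ∧ zc i ∉ S ∧ ∀ j ≤ i, zc i ∉ N j := by
    intro i hi
    simp only [zc, dif_pos hi]
    exact (key i hi).choose_spec
  refine ⟨{z | ∃ i, 0 < volume (P i) ∧ z = zc i}, ?_, ?_, ?_⟩
  · rw [Set.disjoint_left]
    rintro _ ⟨i, hi, rfl⟩
    exact (hzc i hi).2.1
  · intro N' hN'
    obtain ⟨U, hU1, hU2, hU3⟩ := exists_gdelta_null hN'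
    choose c hc using fun k => hcode (U k) (hU1 k)
    obtain ⟨j, hj⟩ := he2 c
    have hG : G j = ⋂ k, U k := by
      simp only [G, hj]
      exact iInter_congr fun k => hc k
    have hNj : N' ⊆ N j := by
      simp only [N, hG, hU3, if_true]
      exact hU2
    refine ((CHT.countable_Iio j).image zc).mono ?_
    rintro _ ⟨⟨i, hi, rfl⟩, hz⟩
    refine ⟨i, ?_, rfl⟩
    by_contra hij
    exact (hzc i hi).2.2 j (not_lt.1 hij) (hNj hz)
  · intro K hK hKZ
    by_contra hne
    obtain ⟨A, hA⟩ := hcode Kᶜ hK.isOpen_compl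
    obtain ⟨i, hi⟩ := he1 A
    have hP : P i = K := by
      simp only [P, hi, hA, compl_compl]
    have hpos : 0 < volume (P i) := by
      rw [hP]; exact pos_iff_ne_zero.2 hne
    have h1 : zc i ∈ K ∩ {z | ∃ i, 0 < volume (P i) ∧ z = zc i} := by
      refine ⟨?_, i, hpos, rfl⟩
      rw [← hP]
      exact (hzc i hpos).1
    rw [hKZ] at h1
    exact h1

end Pool.Agent.Q154.Sierp
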