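import Mathlib
import Pool.Agent.Q154.SierpNull

set_option autoImplicit false

/-!
The Michael type space `Z ∪ S` in which the points of `S` are isolated.
-/

open Set MeasureTheory Filter Topology

namespace Pool.Agent.Q154.Sierp

/-- The Hurewicz property. -/
def IsHurewicz (X : Type) [TopologicalSpace X] : Prop :=
  ∀ U : ℕ → Set (Set X), (∀ n, (∀ u ∈ U n, IsOpen u) ∧ ⋃₀ U n = univ) →
    ∃ F : ℕ → Set (Set X), (∀ n, F n ⊆ U n ∧ (F n).Finite) ∧ ∀ x, ∀ᶠ n in atTop, x ∈ ⋃₀ F n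

/-- The underlying set `Z ∪ S`. -/
def MY (Z S : Set ℝ) : Type := {x : ℝ // x ∈ Z ∪ S}

/-- the inclusion into the line -/
def MY.val {Z S : Set ℝ} (x : MY Z S) : ℝ := Subtype.val x

instance (Z S : Set ℝ) : TopologicalSpace (MY Z S) where
  IsOpen U := ∀ y ∈ U, y.val ∈ Z → ∃ V : Set ℝ, IsOpen V ∧ y.val ∈ V ∧ MY.val ⁻¹' V ⊆ U
  isOpen_univ := fun y _ _ => ⟨univ, isOpen_univ, mem_univ _, subset_univ _⟩
  isOpen_inter := by
    rintro U U' h h' y ⟨hy, hy'⟩ hyZ
    obtain ⟨V, hV, hyV, hVU⟩ := h y hy hyZ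
    obtain ⟨V', hV', hyV', hVU'⟩ := h' y hy' hyZ
    exact ⟨V ∩ V', hV.inter hV', ⟨hyV, hyV'⟩, fun z hz => ⟨hVU hz.1, hVU' hz.2⟩⟩
  isOpen_sUnion := by
    rintro 𝒰 h y ⟨U, hU, hy⟩ hyZ
    obtain ⟨V, hV, hyV, hVU⟩ := h U hU y hy hyZ
    exact ⟨V, hV, hyV, hVU.trans (subset_sUnion_of_mem hU)⟩

theorem isOpen_MY {Z S : Set ℝ} {U : Set (MY Z S)} :
    IsOpen U ↔ ∀ y ∈ U, y.val ∈ Z → ∃ V : Set ℝ, IsOpen V ∧ y.val ∈ V ∧ MY.val ⁻¹' V ⊆ U :=
  Iff.rfl

theorem continuous_val (Z S : Set ℝ) : Continuous (MY.val : MY Z S → ℝ) :=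
  continuous_def.2 fun V hV y hy _ => ⟨V, hV, hy, Subset.rfl⟩

theorem val_injective (Z S : Set ℝ) : Function.Injective (MY.val : MY Z S → ℝ) :=
  Subtype.val_injective

theorem isOpen_singleton_MY {Z S : Set ℝ} {y : MY Z S} (h : y.val ∉ Z) :
    IsOpen ({y} : Set (MY Z S)) := by
  intro z hz hzZ
  rw [mem_singleton_iff] at hz
  subst hz
  exact absurd hzZ h

instance (Z S : Set ℝ) : T1Space (MY Z S) :=
  ⟨fun x => by
    have h : ({x} : Set (MY Z S)) = MY.val ⁻¹' {x.val} := by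
      ext y
      simp only [mem_singleton_iff, mem_preimage]
      exact ⟨fun h => by rw [h], fun h => val_injective Z S h⟩
    rw [h]
    exact isClosed_singleton.preimage (continuous_val Z S)⟩

instance (Z S : Set ℝ) : CompletelyRegularSpace (MY Z S) := by
  constructor
  intro x K hK hxK
  by_cases hx : x.val ∈ Z
  · obtain ⟨V, hV, hxV, hVK⟩ := isOpen_MY.1 hK.isOpen_compl x hxK hx
    obtain ⟨f, hf, hfx, hf1⟩ := CompletelyRegularSpace.completely_regular x.val Vᶜ
      hV.isClosed_compl (fun h => h hxV)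
    refine ⟨fun y => f y.val, hf.comp (continuous_val Z S), hfx, ?_⟩
    intro y hy
    apply hf1
    intro hyV
    exact hVK hyV hy
  · have ho := isOpen_singleton_MY hx
    have hc : IsClosed ({x} : Set (MY Z S)) := isClosed_singleton
    classical
    refine ⟨fun y => if y = x then 0 else 1, ?_, by simp, ?_⟩
    · have hcl : IsClopen ({x} : Set (MY Z S)) := ⟨hc, ho⟩
      refine Continuous.if ?_ continuous_const continuous_const
      intro a ha
      have h1 : frontier {y : MY Z S | y = x} = ∅ := hcl.frontier_eq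
      rw [h1] at ha
      exact ha.elim
    · intro y hy
      have : y ≠ x := fun h => hxK (h ▸ hy)
      simp [this]

/-- The product with `S` is not Hurewicz. -/
theorem not_hurewicz_prod {Z S : Set ℝ} (hd : Disjoint Z S) (hS : ¬ S.Countable) :
    ¬ IsHurewicz (S × MY Z S) := by
  intro h
  let D : Set (S × MY Z S) := {p | (p.1 : ℝ) = p.2.val}
  have hD : IsClosed D :=
    isClosed_eq (continuous_subtype_val.comp continuous_fst) ((continuous_val Z S).comp continuous_snd)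
  let em : S → MY Z S := fun s => ⟨s.1, Or.inr s.2⟩
  have hem : ∀ s : S, (em s).val = s.1 := fun s => rfl
  have hemZ : ∀ s : S, (em s).val ∉ Z := fun s hs => Set.disjoint_left.1 hd hs s.2
  let u : S → Set (S × MY Z S) := fun s => Prod.snd ⁻¹' {em s}
  have hu : ∀ s, IsOpen (u s) := fun s => (isOpen_singleton_MY (hemZ s)).preimage continuous_snd
  have hmem : ∀ s s' : S, (s, em s) ∈ u s' ↔ s = s' := by
    intro s s'
    constructor
    · intro hs
      have h1 : em s = em s' := hs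
      have h2 := congrArg MY.val h1
      rw [hem, hem] at h2
      exact Subtype.ext h2
    · rintro rfl
      exact rfl
  have hDmem : ∀ s : S, (s, em s) ∈ D := fun s => rfl
  obtain ⟨F, hF, hcov⟩ := h (fun _ => insert Dᶜ (range u)) (by
    intro n
    refine ⟨?_, ?_⟩
    · rintro v (rfl | ⟨s, rfl⟩)
      · exact hD.isOpen_compl
      · exact hu s
    · rw [eq_univ_iff_forall]
      rintro ⟨s, y⟩
      by_cases hy : (s, y) ∈ D
      · refine ⟨u s, Or.inr ⟨s, rfl⟩, ?_⟩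
        change y = em s
        apply val_injective Z S
        rw [hem]
        exact (hy : (s : ℝ) = y.val).symm
      · exact ⟨Dᶜ, Or.inl rfl, hy⟩)
  apply hS
  have hinj : Function.Injective u := by
    intro s s' hss
    have h1 : (s, em s) ∈ u s' := by rw [← hss]; exact (hmem s s).2 rfl
    exact (hmem s s').1 h1
  have hc : (⋃ n, u ⁻¹' (F n)).Countable :=
    countable_iUnion fun n => ((hF n).2.preimage hinj.injOn).countable
  have hall : (⋃ n, u ⁻¹' (F n)) = univ := by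
    rw [eq_univ_iff_forall]
    intro s
    obtain ⟨n, v, hv, hsv⟩ := (hcov (s, em s)).exists
    rw [mem_iUnion]
    refine ⟨n, ?_⟩
    rcases (hF n).1 hv with rfl | ⟨s', rfl⟩
    · exact absurd (hDmem s) hsv
    · have := (hmem s s').1 hsv
      subst this
      exact hv
  rw [hall] at hc
  have h2 : (Subtype.val '' (univ : Set S)).Countable := hc.image _
  rwa [image_univ, Subtype.range_coe] at h2

/-- `Z ∪ S` is Hurewicz. -/
theorem hurewicz_MY {Z S : Set ℝ} (hZ : ∀ N : Set ℝ, volume N = 0 → (Z ∩ N).Countable)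
    (hS : ∀ N : Set ℝ, volume N = 0 → (S ∩ N).Countable)
    (hfull : ∀ K : Set ℝ, IsClosed K → K ∩ Z = ∅ → volume K = 0) : IsHurewicz (MY Z S) := by
  classical
  intro U hU
  -- Euclidean open sets inside the members
  let O : ℕ → Set (Set ℝ) := fun n => {V | IsOpen V ∧ ∃ u ∈ U n, MY.val ⁻¹' V ⊆ u}
  have hO : ∀ n, volume (⋃₀ O n)ᶜ = 0 := by
    intro n
    apply hfull
    · exact (isOpen_sUnion fun V hV => hV.1).isClosed_compl
    · rw [eq_empty_iff_forall_notMem]
      rintro z ⟨hz1, hz2⟩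
      apply hz1
      have h1 : (⟨z, Or.inl hz2⟩ : MY Z S) ∈ ⋃₀ U n := by rw [(hU n).2]; trivial
      obtain ⟨u, hu, hzu⟩ := h1
      obtain ⟨V, hV, hzV, hVu⟩ := isOpen_MY.1 ((hU n).1 u hu) _ hzu hz2
      exact ⟨V, ⟨hV, u, hu, hVu⟩, hzV⟩
  have hfin : ∀ n : ℕ, ∃ G : Set (Set ℝ), G ⊆ O n ∧ G.Finite ∧
      volume (Icc (-(n : ℝ)) n \ ⋃₀ G) ≤ (2⁻¹ : ENNReal) ^ n := by
    intro n
    obtain ⟨T, hTc, hTsub, hTeq⟩ := TopologicalSpace.isOpen_sUnion_countable (O n)
      (fun V hV => hV.1)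
    rcases T.eq_empty_or_nonempty with hT | hT
    · refine ⟨∅, empty_subset _, finite_empty, ?_⟩
      refine le_trans (measure_mono ?_) ((hO n).le.trans bot_le)
      rw [← hTeq, hT, sUnion_empty, compl_empty]
      exact subset_univ _
    · obtain ⟨f, hf⟩ := hTc.exists_eq_range hT
      let s : ℕ → Set ℝ := fun m => Icc (-(n : ℝ)) n \ ⋃ k ∈ Iio m, f k
      have hfo : ∀ k, IsOpen (f k) := fun k => (hTsub (by rw [hf]; exact ⟨k, rfl⟩)).1
      have hs : ∀ m, NullMeasurableSet (s m) volume := fun m =>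
        (measurableSet_Icc.diff (isOpen_biUnion fun k _ => hfo k).measurableSet).nullMeasurableSet
      have hanti : Antitone s := by
        intro m m' hmm x hx
        refine ⟨hx.1, fun h => hx.2 ?_⟩
        obtain ⟨k, hk, hxk⟩ := mem_iUnion₂.1 h
        exact mem_iUnion₂.2 ⟨k, lt_of_lt_of_le hk hmm, hxk⟩
      have hlim := tendsto_measure_iInter_atTop hs hanti
        ⟨0, ((measure_mono diff_subset).trans_lt measure_Icc_lt_top).ne⟩
      have h0 : volume (⋂ m, s m) = 0 := by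
        refine measure_mono_null ?_ (hO n)
        intro x hx hxU
        rw [← hTeq, hf] at hxU
        obtain ⟨_, ⟨k, rfl⟩, hxk⟩ := hxU
        have := (mem_iInter.1 hx (k + 1)).2
        exact this (mem_iUnion₂.2 ⟨k, Nat.lt_succ_self k, hxk⟩)
      rw [h0] at hlim
      have hev := (tendsto_order.1 hlim).2 ((2⁻¹ : ENNReal) ^ n) (by
        exact pos_iff_ne_zero.2 (pow_ne_zero _ (by simp)))
      obtain ⟨m, hm⟩ := hev.exists
      refine ⟨f '' Iio m, ?_, (finite_Iio m).image f, ?_⟩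
      · rintro _ ⟨k, -, rfl⟩
        exact hTsub (by rw [hf]; exact ⟨k, rfl⟩)
      · rw [sUnion_image]
        exact hm.le
  choose G hG1 hG2 hG3 using hfin
  -- the exceptional null set
  let E : Set ℝ := limsup (fun n : ℕ => Icc (-(n : ℝ)) n \ ⋃₀ G n) atTop
  have hE : volume E = 0 := by
    apply measure_limsup_atTop_eq_zero
    have h1 : ∑' n : ℕ, volume (Icc (-(n : ℝ)) n \ ⋃₀ G n) ≤ ∑' n : ℕ, (2⁻¹ : ENNReal) ^ n :=
      ENNReal.tsum_le_tsum hG3
    have h2 : ∑' n : ℕ, (2⁻¹ : ENNReal) ^ n ≠ ⊤ := by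
      rw [ENNReal.tsum_geometric, ENNReal.one_sub_inv_two, inv_inv]
      exact ENNReal.ofNat_ne_top
    exact ne_top_of_le_ne_top h2 h1
  have hEc : {y : MY Z S | y.val ∈ E}.Countable := by
    have h1 : ((Z ∩ E) ∪ (S ∩ E)).Countable := (hZ E hE).union (hS E hE)
    refine (h1.preimage (val_injective Z S)).mono ?_
    intro y hy
    rcases y.2 with h | h
    · exact Or.inl ⟨h, hy⟩
    · exact Or.inr ⟨h, hy⟩
  obtain ⟨g, hg⟩ := countable_iff_exists_injOn.1 hEc
  have hmem : ∀ n (y : MY Z S), ∃ u ∈ U n, y ∈ u := fun n y => by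
    have : y ∈ ⋃₀ U n := by rw [(hU n).2]; trivial
    exact this
  choose m1 hm1 hm2 using hmem
  have hmem2 : ∀ n (V : Set ℝ), V ∈ O n → ∃ u ∈ U n, MY.val ⁻¹' V ⊆ u := fun n V hV => hV.2
  choose! m2 hm3 hm4 using hmem2
  refine ⟨fun n => m2 n '' G n ∪ m1 n '' {y | y.val ∈ E ∧ g y ≤ n}, fun n => ⟨?_, ?_⟩, ?_⟩
  · rintro _ (⟨V, hV, rfl⟩ | ⟨y, -, rfl⟩)
    · exact hm3 n V (hG1 n hV)
    · exact hm1 n y
  · refine ((hG2 n).image _).union (Set.Finite.image _ ?_)
    have h1 : (g '' {y : MY Z S | y.val ∈ E ∧ g y ≤ n}).Finite :=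
      (finite_Iic n).subset (by rintro _ ⟨y, hy, rfl⟩; exact hy.2)
    exact h1.of_finite_image (hg.mono fun y hy => hy.1)
  · intro y
    by_cases hy : y.val ∈ E
    · filter_upwards [eventually_ge_atTop (g y)] with n hn
      exact ⟨m1 n y, Or.inr ⟨y, ⟨hy, hn⟩, rfl⟩, hm2 n y⟩
    · have h1 : ∀ᶠ n : ℕ in atTop, y.val ∉ Icc (-(n : ℝ)) n \ ⋃₀ G n := by
        rw [mem_limsup_iff_frequently_mem, not_frequently] at hy
        exact hy
      have h2 : ∀ᶠ n : ℕ in atTop, y.val ∈ Icc (-(n : ℝ)) n := by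
        obtain ⟨N, hN⟩ := exists_nat_ge |y.val|
        filter_upwards [eventually_ge_atTop N] with n hn
        have h3 : |y.val| ≤ n := hN.trans (by exact_mod_cast hn)
        exact abs_le.1 h3
      filter_upwards [h1, h2] with n h3 h4
      have h5 : y.val ∈ ⋃₀ G n := by
        by_contra h6
        exact h3 ⟨h4, h6⟩
      obtain ⟨V, hV, hyV⟩ := h5
      exact ⟨m2 n V, Or.inl ⟨V, hV, rfl⟩, hm4 n V (hG1 n hV) hyV⟩

end Pool.Agent.Q154.Sierp
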