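import Mathlib
import Pool.Agent.Q154.LaverCH

set_option autoImplicit false

/-!
Split(Λ,Λ), the Menger property and products with compact spaces.
-/

open Set Filter Topology

namespace Pool.Agent.Q154.Sp

/-- large open covers -/
def IsLarge {Z : Type} [TopologicalSpace Z] (𝒰 : Set (Set Z)) : Prop :=
  (∀ u ∈ 𝒰, IsOpen u ∧ u ≠ univ) ∧ ⋃₀ 𝒰 = univ ∧ ∀ z, {u ∈ 𝒰 | z ∈ u}.Infinite

/-- the property Split(Λ,Λ) -/
def Split (Z : Type) [TopologicalSpace Z] : Prop :=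
  ∀ 𝒰 : Set (Set Z), IsLarge 𝒰 → ∃ 𝒱 𝒲 : Set (Set Z), Disjoint 𝒱 𝒲 ∧ 𝒱 ∪ 𝒲 = 𝒰 ∧
    (∃ 𝒱' ⊆ 𝒱, IsLarge 𝒱') ∧ ∃ 𝒲' ⊆ 𝒲, IsLarge 𝒲'

/-- the Menger property -/
def Menger (Z : Type) [TopologicalSpace Z] : Prop :=
  ∀ U : ℕ → Set (Set Z), (∀ n, (∀ u ∈ U n, IsOpen u) ∧ ⋃₀ U n = univ) →
    ∃ F : ℕ → Set (Set Z), (∀ n, F n ⊆ U n ∧ (F n).Finite) ∧ ∀ z, ∃ n, z ∈ ⋃₀ F n

theorem isLarge_of {Z : Type} [TopologicalSpace Z] {𝒰 : Set (Set Z)}
    (h1 : ∀ u ∈ 𝒰, IsOpen u ∧ u ≠ univ) (h2 : ∀ z, {u ∈ 𝒰 | z ∈ u}.Infinite) : IsLarge 𝒰 := by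
  refine ⟨h1, ?_, h2⟩
  rw [eq_univ_iff_forall]
  intro z
  obtain ⟨u, hu, hz⟩ := (h2 z).nonempty
  exact ⟨u, hu, hz⟩

theorem exists_countable_large {Z : Type} [TopologicalSpace Z] [SecondCountableTopology Z]
    {𝒰 : Set (Set Z)} (h : IsLarge 𝒰) : ∃ 𝒰' ⊆ 𝒰, 𝒰'.Countable ∧ IsLarge 𝒰' := by
  classical
  have hT : ∀ B : Set Z, ∃ T ⊆ {u ∈ 𝒰 | B ⊆ u}, T.Countable ∧
      ({u ∈ 𝒰 | B ⊆ u}.Infinite → T.Infinite) ∧
      ({u ∈ 𝒰 | B ⊆ u}.Finite → T = {u ∈ 𝒰 | B ⊆ u}) := by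
    intro B
    by_cases hB : {u ∈ 𝒰 | B ⊆ u}.Finite
    · exact ⟨_, Subset.rfl, hB.countable, fun h => absurd hB h, fun _ => rfl⟩
    · have hB' : {u ∈ 𝒰 | B ⊆ u}.Infinite := hB
      refine ⟨range fun n => (Set.Infinite.natEmbedding _ hB' n : Set Z), ?_, countable_range _, ?_,
        fun h => absurd h hB⟩
      · rintro _ ⟨n, rfl⟩
        exact (Set.Infinite.natEmbedding _ hB' n).2
      · intro _
        exact infinite_range_of_injective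
          (Subtype.val_injective.comp (Set.Infinite.natEmbedding _ hB').injective)
  choose T hT1 hT2 hT3 hT4 using hT
  refine ⟨⋃ B ∈ TopologicalSpace.countableBasis Z, T B, ?_, ?_, ?_⟩
  · exact iUnion₂_subset fun B _ u hu => (hT1 B hu).1
  · exact (TopologicalSpace.countable_countableBasis Z).biUnion fun B _ => hT2 B
  · have hbase := TopologicalSpace.isBasis_countableBasis Z
    refine isLarge_of (fun u hu => ?_) (fun z => ?_)
    · obtain ⟨B, -, hB⟩ := mem_iUnion₂.1 hu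
      exact h.1 u (hT1 B hB).1
    · by_cases hex : ∃ B ∈ TopologicalSpace.countableBasis Z, z ∈ B ∧ {u ∈ 𝒰 | B ⊆ u}.Infinite
      · obtain ⟨B, hB, hzB, hinf⟩ := hex
        refine (hT3 B hinf).mono fun u hu => ⟨mem_iUnion₂.2 ⟨B, hB, hu⟩, (hT1 B hu).2 hzB⟩
      · refine (h.2.2 z).mono fun u hu => ⟨?_, hu.2⟩
        obtain ⟨B, hB, hzB, hBu⟩ := hbase.exists_subset_of_mem_open hu.2 (h.1 u hu.1).1
        have hfin : {u ∈ 𝒰 | B ⊆ u}.Finite := by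
          by_contra hinf
          exact hex ⟨B, hB, hzB, hinf⟩
        refine mem_iUnion₂.2 ⟨B, hB, ?_⟩
        rw [hT4 B hfin]
        exact ⟨hu.1, hBu⟩

/-- a large cover contains an injectively indexed sequence which is a large cover -/
theorem exists_seq_large {Z : Type} [TopologicalSpace Z] [SecondCountableTopology Z] [Nonempty Z]
    {𝒰 : Set (Set Z)} (h : IsLarge 𝒰) : ∃ u : ℕ → Set Z, Function.Injective u ∧
      (∀ n, u n ∈ 𝒰) ∧ ∀ z, {n | z ∈ u n}.Infinite := by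
  obtain ⟨𝒰', hsub, hc, hl⟩ := exists_countable_large h
  have hinf : 𝒰'.Infinite := by
    intro hfin
    exact hl.2.2 (Classical.arbitrary Z) (hfin.subset fun u hu => hu.1)
  have : Infinite 𝒰' := hinf.to_subtype
  have : Countable 𝒰' := hc.to_subtype
  obtain ⟨e⟩ : Nonempty (ℕ ≃ 𝒰') := by
    obtain ⟨d⟩ := nonempty_denumerable 𝒰'
    exact ⟨(Denumerable.eqv 𝒰').symm⟩
  refine ⟨fun n => (e n).1, Subtype.val_injective.comp e.injective, fun n => hsub (e n).2, ?_⟩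
  intro z
  have h1 : {u ∈ 𝒰' | z ∈ u} ⊆ (fun n => (e n).1) '' {n | z ∈ (e n).1} := by
    rintro u ⟨hu, hz⟩
    refine ⟨e.symm ⟨u, hu⟩, ?_, ?_⟩
    · simp only [mem_ofPred_eq, e.apply_symm_apply]
      exact hz
    · simp only [e.apply_symm_apply]
  exact Set.Infinite.of_image _ ((hl.2.2 z).mono h1)

theorem split_of_index {Z : Type} [TopologicalSpace Z] {𝒰 : Set (Set Z)} (h : IsLarge 𝒰)
    {u : ℕ → Set Z} (hu1 : Function.Injective u) (hu2 : ∀ n, u n ∈ 𝒰) {A : Set ℕ}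
    (hA1 : ∀ z, ({n | z ∈ u n} ∩ A).Infinite) (hA2 : ∀ z, ({n | z ∈ u n} \ A).Infinite) :
    ∃ 𝒱 𝒲 : Set (Set Z), Disjoint 𝒱 𝒲 ∧ 𝒱 ∪ 𝒲 = 𝒰 ∧
      (∃ 𝒱' ⊆ 𝒱, IsLarge 𝒱') ∧ ∃ 𝒲' ⊆ 𝒲, IsLarge 𝒲' := by
  refine ⟨u '' A, 𝒰 \ (u '' A), disjoint_sdiff_right, ?_, ⟨_, Subset.rfl, ?_⟩, ⟨_, Subset.rfl, ?_⟩⟩
  · apply union_sdiff_cancel
    rintro _ ⟨n, -, rfl⟩
    exact hu2 n
  · refine isLarge_of ?_ fun z => ?_
    · rintro _ ⟨n, -, rfl⟩
      exact h.1 _ (hu2 n)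
    · refine ((hA1 z).image hu1.injOn).mono ?_
      rintro _ ⟨n, ⟨hn1, hn2⟩, rfl⟩
      exact ⟨⟨n, hn2, rfl⟩, hn1⟩
  · refine isLarge_of (fun v hv => h.1 v hv.1) fun z => ?_
    refine ((hA2 z).image hu1.injOn).mono ?_
    rintro _ ⟨n, ⟨hn1, hn2⟩, rfl⟩
    refine ⟨⟨hu2 n, ?_⟩, hn1⟩
    rintro ⟨n', hn', heq⟩
    exact hn2 (hu1 heq ▸ hn')

/-- block endpoints -/
def aa (f : ℕ → ℕ) : ℕ → ℕ
  | 0 => 0
  | k + 1 => max (aa f k + 1) (f (aa f k))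

theorem aa_strictMono (f : ℕ → ℕ) : StrictMono (aa f) :=
  strictMono_nat_of_lt_succ fun k => lt_of_lt_of_le (Nat.lt_succ_self _) (le_max_left _ _)

/-- union of the even blocks -/
def EE (f : ℕ → ℕ) : Set ℕ := {m | ∃ k, aa f (2 * k) ≤ m ∧ m < aa f (2 * k + 1)}

theorem block_unique {a : ℕ → ℕ} (ha : StrictMono a) {j k m : ℕ} (h1 : a j ≤ m)
    (h2 : m < a (j + 1)) (h3 : a k ≤ m) (h4 : m < a (k + 1)) : j = k := by
  have h5 := ha.lt_iff_lt.1 (h1.trans_lt h4)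
  have h6 := ha.lt_iff_lt.1 (h3.trans_lt h2)
  omega

theorem thick_EE (f : ℕ → ℕ) : Lv.Thick f (EE f) := by
  intro N
  have h := (aa_strictMono f).le_apply (x := 2 * N)
  refine ⟨aa f (2 * N), by omega, fun m h1 h2 => ⟨N, h1, h2.trans_le ?_⟩⟩
  exact le_max_right _ _

theorem thick_EE_compl (f : ℕ → ℕ) : Lv.Thick f (EE f)ᶜ := by
  intro N
  have h := (aa_strictMono f).le_apply (x := 2 * N + 1)
  refine ⟨aa f (2 * N + 1), by omega, fun m h1 h2 => ?_⟩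
  rintro ⟨k, hk1, hk2⟩
  have h3 : m < aa f (2 * N + 1 + 1) := h2.trans_le (le_max_right _ _)
  have := block_unique (aa_strictMono f) h1 h3 hk1 hk2
  omega

/-- countably many infinite sets can be split -/
theorem exists_split_countable {B : Type} [Countable B] (G : B → Set ℕ)
    (hG : ∀ b, (G b).Infinite) : ∃ S : Set ℕ, ∀ b, (G b ∩ S).Infinite ∧ (G b \ S).Infinite := by
  obtain ⟨f, hf⟩ := Lv.exists_f (C := fun _ => ∅) G
  exact ⟨EE f, fun b => ⟨(hf _ (thick_EE f)).2 b (hG b), (hf _ (thick_EE_compl f)).2 b (hG b)⟩⟩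

/-- the indexed form of Split(Λ,Λ) -/
theorem split_indexed {Y : Type} [TopologicalSpace Y] [T1Space Y] (h : Split Y) (V : ℕ → Set Y)
    (hV : ∀ k, IsOpen (V k)) (hinf : ∀ y, {k | y ∈ V k}.Infinite) :
    ∃ S : Set ℕ, ∀ y, ({k | y ∈ V k} ∩ S).Infinite ∧ ({k | y ∈ V k} \ S).Infinite := by
  classical
  rcases finite_or_infinite Y with hY | hY
  · exact exists_split_countable (fun y => {k | y ∈ V k}) hinf
  let q : ℕ ↪ Y := Infinite.natEmbedding Y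
  choose nx hnx1 hnx2 using fun i n => (hinf (q i)).exists_gt n
  -- block endpoints
  let g : ℕ → ℕ := fun j => Nat.rec 0 (fun j gj => gj + 1 + ∑ i ∈ Finset.range (j + 1), nx i gj) j
  have hg : ∀ j, g (j + 1) = g j + 1 + ∑ i ∈ Finset.range (j + 1), nx i (g j) := fun j => rfl
  have hgm : StrictMono g := strictMono_nat_of_lt_succ fun j => by rw [hg]; omega
  let V' : ℕ → Set Y := fun j => (⋃ k ∈ Ico (g j) (g (j + 1)), V k) \ {q j}
  have hV'o : ∀ j, IsOpen (V' j) := fun j =>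
    (isOpen_biUnion fun k _ => hV k).sdiff isClosed_singleton
  have hq : ∀ i j, i < j → q i ∈ V' j := by
    intro i j hij
    refine ⟨mem_iUnion₂.2 ⟨nx i (g j), ⟨(hnx2 i (g j)).le, ?_⟩, hnx1 i (g j)⟩, fun h => ?_⟩
    · rw [hg]
      have : nx i (g j) ≤ ∑ i ∈ Finset.range (j + 1), nx i (g j) :=
        Finset.single_le_sum (f := fun i => nx i (g j)) (fun _ _ => Nat.zero_le _)
          (Finset.mem_range.2 (by omega))
      omega
    · exact hij.ne (q.injective h)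
  have hq' : ∀ j, q j ∉ V' j := fun j h => h.2 rfl
  have hinj : Function.Injective V' := by
    intro i j hij
    rcases lt_trichotomy i j with h | h | h
    · exact absurd (hij ▸ hq i j h) (hq' i)
    · exact h
    · exact absurd (hij ▸ hq j i h) (hq' j)
  have hlarge : IsLarge (range V') := by
    refine isLarge_of ?_ fun y => ?_
    · rintro _ ⟨j, rfl⟩
      exact ⟨hV'o j, fun h => hq' j (by rw [h]; trivial)⟩
    · have hJ : {j | y ∈ V' j}.Infinite := by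
        rw [Set.infinite_iff_exists_gt]
        intro a
        -- the index beyond which `y` is not removed
        obtain ⟨b, hb⟩ : ∃ b, ∀ j, b ≤ j → q j ≠ y := by
          by_cases hy : ∃ j, q j = y
          · obtain ⟨j0, rfl⟩ := hy
            exact ⟨j0 + 1, fun j hj h => by have := q.injective h; omega⟩
          · push Not at hy
            exact ⟨0, fun j _ => hy j⟩
        obtain ⟨k, hk, hak⟩ := (hinf y).exists_gt (g (max (a + 1) b))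
        obtain ⟨j, hj⟩ : ∃ j, g j ≤ k ∧ k < g (j + 1) := by
          have hex : ∃ j, k < g (j + 1) := ⟨k, lt_of_lt_of_le (Nat.lt_succ_self k) hgm.le_apply⟩
          refine ⟨Nat.find hex, ?_, Nat.find_spec hex⟩
          rcases Nat.eq_zero_or_pos (Nat.find hex) with h0 | h0
          · rw [h0]; exact Nat.zero_le _
          · have := Nat.find_min hex (Nat.sub_lt h0 one_pos)
            rw [not_lt, show Nat.find hex - 1 + 1 = Nat.find hex by omega] at this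
            exact this
        have hjm : max (a + 1) b ≤ j := by
          by_contra hlt
          rw [not_le] at hlt
          have := hgm.monotone (show j + 1 ≤ max (a + 1) b from hlt)
          omega
        refine ⟨j, ⟨mem_iUnion₂.2 ⟨k, hj, hk⟩, fun h => ?_⟩, by
          have := (le_max_left (a + 1) b).trans hjm; omega⟩
        exact hb j ((le_max_right _ _).trans hjm) h.symm
      refine (hJ.image hinj.injOn).mono ?_
      rintro _ ⟨j, hj, rfl⟩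
      exact ⟨⟨j, rfl⟩, hj⟩
  obtain ⟨𝒱, 𝒲, hd, hun, ⟨𝒱', hv1, hv2⟩, ⟨𝒲', hw1, hw2⟩⟩ := h _ hlarge
  have key : ∀ (𝒯 𝒯' : Set (Set Y)), 𝒯' ⊆ 𝒯 → 𝒯 ⊆ range V' → IsLarge 𝒯' → ∀ y,
      {k | y ∈ V k ∧ ∃ j, V' j ∈ 𝒯 ∧ g j ≤ k ∧ k < g (j + 1)}.Infinite := by
    intro 𝒯 𝒯' h1 h2 h3 y
    have hJ : {j | V' j ∈ 𝒯 ∧ y ∈ V' j}.Infinite := by
      apply Set.Infinite.of_image V'
      refine (h3.2.2 y).mono ?_
      rintro v ⟨hv, hyv⟩
      obtain ⟨j, rfl⟩ := h2 (h1 hv)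
      exact ⟨j, ⟨h1 hv, hyv⟩, rfl⟩
    rw [Set.infinite_iff_exists_gt]
    intro a
    obtain ⟨j, ⟨hj1, hj2⟩, haj⟩ := hJ.exists_gt a
    obtain ⟨k, hk, hyk⟩ := mem_iUnion₂.1 hj2.1
    exact ⟨k, ⟨hyk, j, hj1, hk.1, hk.2⟩, (haj.trans_le hgm.le_apply).trans_le hk.1⟩
  refine ⟨{k | ∃ j, V' j ∈ 𝒱 ∧ g j ≤ k ∧ k < g (j + 1)}, fun y => ⟨?_, ?_⟩⟩
  · exact (key 𝒱 𝒱' hv1 (hun ▸ subset_union_left) hv2 y).mono fun k hk => hk
  · refine (key 𝒲 𝒲' hw1 (hun ▸ subset_union_right) hw2 y).mono ?_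
    rintro k ⟨hk1, j, hj, hj1, hj2⟩
    refine ⟨hk1, ?_⟩
    rintro ⟨j', hj', hj1', hj2'⟩
    have := block_unique hgm hj1 hj2 hj1' hj2'
    subst this
    exact Set.disjoint_left.1 hd hj' hj

/-- Menger spaces: infinitely often selection from increasing covers -/
theorem Menger.exists_bound {Y : Type} [TopologicalSpace Y] (h : Menger Y) (O : ℕ → ℕ → Set Y)
    (hO : ∀ n k, IsOpen (O n k)) (hm : ∀ n, Monotone (O n)) (hc : ∀ n y, ∃ k, y ∈ O n k) :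
    ∃ H : ℕ → ℕ, ∀ y, ∀ N, ∃ n, N ≤ n ∧ y ∈ O n (H n) := by
  classical
  have h1 : ∀ N, ∃ H : ℕ → ℕ, ∀ y, ∃ n, N ≤ n ∧ y ∈ O n (H n) := by
    intro N
    obtain ⟨F, hF1, hF2⟩ := h (fun n => range (O (N + n))) (fun n => ⟨by
      rintro _ ⟨k, rfl⟩; exact hO _ k, by
      rw [eq_univ_iff_forall]
      intro y
      obtain ⟨k, hk⟩ := hc (N + n) y
      exact ⟨_, ⟨k, rfl⟩, hk⟩⟩)
    have hK : ∀ n, ∃ K, ⋃₀ F n ⊆ O (N + n) K := by
      intro n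
      have h2 : ∀ v ∈ F n, ∃ k, O (N + n) k = v := fun v hv => (hF1 n).1 hv
      choose! ki hki using h2
      obtain ⟨K, hK⟩ := ((hF1 n).2.image ki).bddAbove
      refine ⟨K, ?_⟩
      rintro y ⟨v, hv, hy⟩
      rw [← hki v hv] at hy
      exact hm _ (hK ⟨v, hv, rfl⟩) hy
    choose K hK using hK
    refine ⟨fun n => K (n - N), fun y => ?_⟩
    obtain ⟨n, hn⟩ := hF2 y
    refine ⟨N + n, Nat.le_add_right _ _, ?_⟩
    beta_reduce
    rw [Nat.add_sub_cancel_left]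
    exact hK n hn
  choose H hH using h1
  refine ⟨fun n => ∑ i ∈ Finset.range (n + 1), H i n, fun y N => ?_⟩
  obtain ⟨n, hn, hy⟩ := hH N y
  exact ⟨n, hn, hm n (Finset.single_le_sum (f := fun i => H i n) (fun _ _ => Nat.zero_le _)
    (Finset.mem_range.2 (Nat.lt_succ_of_le hn))) hy⟩

end Pool.Agent.Q154.Sp
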