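import Mathlib
import Pool.Agent.Q154.SplitLam

set_option autoImplicit false

/-!
Split(Λ,Λ) and products with compact spaces.
-/

open Set Filter Topology

namespace Pool.Agent.Q154.Sp

theorem split_of_isEmpty {Z : Type} [TopologicalSpace Z] [IsEmpty Z] : Split Z := by
  intro 𝒰 h
  have he : IsLarge (∅ : Set (Set Z)) := isLarge_of (by simp) (fun z => isEmptyElim z)
  exact ⟨∅, 𝒰, empty_disjoint _, empty_union _, ⟨∅, Subset.rfl, he⟩, ⟨∅, empty_subset _, he⟩⟩

/-- **Menger spaces with Split(Λ,Λ): products with compact spaces.** -/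
theorem prod_split {X Y : Type} [TopologicalSpace X] [CompactSpace X] [SecondCountableTopology X]
    [TopologicalSpace Y] [SecondCountableTopology Y] [T1Space Y] (hM : Menger Y) (hS : Split Y) :
    Split (X × Y) := by
  classical
  rcases isEmpty_or_nonempty (X × Y) with hE | hE
  · exact split_of_isEmpty
  intro 𝒰 hU
  obtain ⟨u, hu1, hu2, hu3⟩ := exists_seq_large hU
  let G : ℕ → ℕ → Set (X × Y) := fun n M => ⋃ k ∈ Ico n M, u k
  have hGo : ∀ n M, IsOpen (G n M) := fun n M => isOpen_biUnion fun k _ => (hU.1 _ (hu2 k)).1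
  let W : ℕ → ℕ → Set Y := fun n M => {y | ∀ x, (x, y) ∈ G n M}
  have hWo : ∀ n M, IsOpen (W n M) := by
    intro n M
    have h1 : W n M = (Prod.snd '' (G n M)ᶜ)ᶜ := by
      ext y
      constructor
      · rintro h ⟨⟨x, y'⟩, hxy, rfl⟩
        exact hxy (h x)
      · intro h x
        by_contra hx
        exact h ⟨(x, y), hx, rfl⟩
    rw [h1]
    exact (isClosedMap_snd_of_compactSpace _ (hGo n M).isClosed_compl).isOpen_compl
  have hGm : ∀ {n n' M M'}, n' ≤ n → M ≤ M' → G n M ⊆ G n' M' := by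
    intro n n' M M' h1 h2 p hp
    obtain ⟨k, hk, hpk⟩ := mem_iUnion₂.1 hp
    exact mem_iUnion₂.2 ⟨k, ⟨h1.trans hk.1, hk.2.trans_le h2⟩, hpk⟩
  have hWm : ∀ {n n' M M'}, n' ≤ n → M ≤ M' → W n M ⊆ W n' M' := by
    intro n n' M M' h1 h2 y hy x
    exact hGm h1 h2 (hy x)
  have hWc : ∀ n y, ∃ M, y ∈ W n M := by
    intro n y
    obtain ⟨t, ht⟩ := isCompact_univ.elim_finite_subcover
      (fun k : ℕ => {x : X | n ≤ k ∧ (x, y) ∈ u k}) (fun k => by
        by_cases hk : n ≤ k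
        · have : {x : X | n ≤ k ∧ (x, y) ∈ u k} = (fun x => (x, y)) ⁻¹' (u k) := by
            ext x; simp [hk]
          rw [this]
          exact (hU.1 _ (hu2 k)).1.preimage (by fun_prop)
        · have : {x : X | n ≤ k ∧ (x, y) ∈ u k} = ∅ := by
            ext x; simp [hk]
          rw [this]
          exact isOpen_empty) (by
        intro x _
        obtain ⟨k, hk, hnk⟩ := (hu3 (x, y)).exists_gt n
        exact mem_iUnion.2 ⟨k, hnk.le, hk⟩)
    refine ⟨t.sup id + 1, fun x => ?_⟩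
    obtain ⟨k, hk, hxk⟩ := mem_iUnion₂.1 (ht (mem_univ x))
    exact mem_iUnion₂.2 ⟨k, ⟨hxk.1, Nat.lt_succ_of_le (Finset.le_sup (f := id) hk)⟩, hxk.2⟩
  let O : ℕ → ℕ → Set Y := fun n M => ⋃ M', W n M' ∩ W M' M
  obtain ⟨H, hH⟩ := hM.exists_bound O (fun n k => isOpen_iUnion fun M' => (hWo _ _).inter (hWo _ _))
    (fun n k k' hk y hy => by
      obtain ⟨M', h1, h2⟩ := mem_iUnion.1 hy
      exact mem_iUnion.2 ⟨M', h1, hWm le_rfl hk h2⟩)
    (fun n y => by
      obtain ⟨M', h1⟩ := hWc n y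
      obtain ⟨M, h2⟩ := hWc M' y
      exact ⟨M, mem_iUnion.2 ⟨M', h1, h2⟩⟩)
  let H' : ℕ → ℕ := fun n => n + 1 + ∑ i ∈ Finset.range (n + 1), H i
  have hH' : ∀ i n, i ≤ n → H i ≤ H' n := fun i n hin =>
    (Finset.single_le_sum (f := H) (fun _ _ => Nat.zero_le _)
      (Finset.mem_range.2 (Nat.lt_succ_of_le hin))).trans (Nat.le_add_left _ _)
  let g : ℕ → ℕ := fun k => Nat.rec 0 (fun _ gk => H' gk) k
  have hg : ∀ k, g (k + 1) = H' (g k) := fun k => rfl
  have hgm : StrictMono g := strictMono_nat_of_lt_succ fun k => by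
    rw [hg]
    simp only [H']
    omega
  have hblock : ∀ n, ∃ k, g k ≤ n ∧ n < g (k + 1) := by
    intro n
    have hex : ∃ j, n < g (j + 1) := ⟨n, lt_of_lt_of_le (Nat.lt_succ_self n) hgm.le_apply⟩
    refine ⟨Nat.find hex, ?_, Nat.find_spec hex⟩
    rcases Nat.eq_zero_or_pos (Nat.find hex) with h0 | h0
    · rw [h0]; exact Nat.zero_le _
    · have := Nat.find_min hex (Nat.sub_lt h0 one_pos)
      rw [not_lt, show Nat.find hex - 1 + 1 = Nat.find hex by omega] at this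
      exact this
  have hD : ∀ y, {k | y ∈ W (g k) (g (k + 1))}.Infinite := by
    intro y
    rw [Set.infinite_iff_exists_gt]
    intro a
    obtain ⟨n, hn, hy⟩ := hH y (g (a + 1))
    obtain ⟨k, hk1, hk2⟩ := hblock n
    have hak : a < k := by
      have h0 : g (a + 1) < g (k + 1) := lt_of_le_of_lt hn hk2
      by_contra hcon
      have := hgm.monotone (show k + 1 ≤ a + 1 by omega)
      omega
    obtain ⟨M', h1, h2⟩ := mem_iUnion.1 hy
    by_cases hM' : M' ≤ g (k + 1)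
    · exact ⟨k, hWm hk1 hM' h1, hak⟩
    · refine ⟨k + 1, hWm (not_le.1 hM').le ?_ h2, by omega⟩
      rw [hg (k + 1)]
      exact hH' n _ hk2.le
  obtain ⟨S, hS'⟩ := split_indexed hS (fun k => W (g k) (g (k + 1))) (fun k => hWo _ _) hD
  refine split_of_index hU hu1 hu2 (A := {n | ∃ k ∈ S, g k ≤ n ∧ n < g (k + 1)}) ?_ ?_
  · rintro ⟨x, y⟩
    rw [Set.infinite_iff_exists_gt]
    intro a
    obtain ⟨k, ⟨hk1, hk2⟩, hak⟩ := (hS' y).1.exists_gt a
    obtain ⟨n, hn, hxn⟩ := mem_iUnion₂.1 (hk1 x)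
    exact ⟨n, ⟨hxn, k, hk2, hn.1, hn.2⟩, (hak.trans_le hgm.le_apply).trans_le hn.1⟩
  · rintro ⟨x, y⟩
    rw [Set.infinite_iff_exists_gt]
    intro a
    obtain ⟨k, ⟨hk1, hk2⟩, hak⟩ := (hS' y).2.exists_gt a
    obtain ⟨n, hn, hxn⟩ := mem_iUnion₂.1 (hk1 x)
    refine ⟨n, ⟨hxn, ?_⟩, (hak.trans_le hgm.le_apply).trans_le hn.1⟩
    rintro ⟨k', hk', h3, h4⟩
    have := block_unique hgm hn.1 hn.2 h3 h4
    subst this
    exact hk2 hk'

/-- **If the product with the Cantor space has Split(Λ,Λ), the space is Menger.** -/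
theorem menger_of_split {Y : Type} [TopologicalSpace Y] [SecondCountableTopology Y]
    (h : Split ((ℕ → Bool) × Y)) : Menger Y := by
  classical
  rcases isEmpty_or_nonempty Y with hE | hE
  · exact fun U hU => ⟨fun _ => ∅, fun n => ⟨empty_subset _, finite_empty⟩, fun z => isEmptyElim z⟩
  intro U hU
  by_contra hno
  -- countable subcovers
  have hv : ∀ n, ∃ v : ℕ → Set Y, (∀ i, v i ∈ U n) ∧ ∀ y, ∃ i, y ∈ v i := by
    intro n
    obtain ⟨T, hTc, hTs, hTe⟩ := TopologicalSpace.isOpen_sUnion_countable (U n) (hU n).1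
    have hTu : ⋃₀ T = univ := hTe.trans (hU n).2
    have hTne : T.Nonempty := by
      obtain ⟨y⟩ := hE
      have : y ∈ ⋃₀ T := by rw [hTu]; trivial
      obtain ⟨t, ht, -⟩ := this
      exact ⟨t, ht⟩
    obtain ⟨v, hv⟩ := hTc.exists_eq_range hTne
    refine ⟨v, fun i => hTs (by rw [hv]; exact ⟨i, rfl⟩), fun y => ?_⟩
    have : y ∈ ⋃₀ T := by rw [hTu]; trivial
    rw [hv] at this
    obtain ⟨_, ⟨i, rfl⟩, hi⟩ := this
    exact ⟨i, hi⟩
  choose v hv1 hv2 using hv
  let O : ℕ → ℕ → Set Y := fun n k => ⋃ i ∈ Iio k, v n i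
  have hOo : ∀ n k, IsOpen (O n k) := fun n k => isOpen_biUnion fun i _ => (hU n).1 _ (hv1 n i)
  have hOm : ∀ n {k k'}, k ≤ k' → O n k ⊆ O n k' := by
    intro n k k' hk y hy
    obtain ⟨i, hi, hyi⟩ := mem_iUnion₂.1 hy
    exact mem_iUnion₂.2 ⟨i, lt_of_lt_of_le hi hk, hyi⟩
  have hOc : ∀ n y, ∃ k, y ∈ O n k := by
    intro n y
    obtain ⟨i, hi⟩ := hv2 n y
    exact ⟨i + 1, mem_iUnion₂.2 ⟨i, Nat.lt_succ_self i, hi⟩⟩
  have hesc : ∀ H : ℕ → ℕ, ∃ y, ∀ n, y ∉ O n (H n) := by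
    intro H
    by_contra hcon
    push Not at hcon
    apply hno
    refine ⟨fun n => v n '' Iio (H n), fun n => ⟨?_, (finite_Iio _).image _⟩, fun y => ?_⟩
    · rintro _ ⟨i, -, rfl⟩
      exact hv1 n i
    · obtain ⟨n, hn⟩ := hcon y
      obtain ⟨i, hi, hyi⟩ := mem_iUnion₂.1 hn
      exact ⟨n, _, ⟨i, hi, rfl⟩, hyi⟩
  -- the large cover of the product
  let Um : ℕ → Set ((ℕ → Bool) × Y) := fun m => {p | p.1 m = true} ∪
    ⋃ k, ((fun p => p.2) ⁻¹' (O m k) ∩ ⋂ i ∈ Ico m (m + 2 + k), {p | p.1 i = false})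
  have hc : ∀ (i : ℕ) (b : Bool), IsOpen {p : (ℕ → Bool) × Y | p.1 i = b} := fun i b => by
    have h1 : Continuous fun p : (ℕ → Bool) × Y => p.1 i := by fun_prop
    exact (isOpen_discrete ({b} : Set Bool)).preimage h1
  have hUo : ∀ m, IsOpen (Um m) := fun m => (hc m true).union (isOpen_iUnion fun k =>
    ((hOo m k).preimage continuous_snd).inter
      ((finite_Ico m (m + 2 + k)).isOpen_biInter fun i _ => hc i false))
  have hnotmem : ∀ m (t : ℕ → Bool) (y : Y), t m = false →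
      (∀ k, y ∈ O m k → ∃ i, m ≤ i ∧ i < m + 2 + k ∧ t i = true) → (t, y) ∉ Um m := by
    rintro m t y ht h1 (h2 | h2)
    · rw [mem_ofPred_eq] at h2
      simp [ht] at h2
    · obtain ⟨k, hk1, hk2⟩ := mem_iUnion.1 h2
      obtain ⟨i, hi1, hi2, hi3⟩ := h1 k hk1
      have := mem_iInter₂.1 hk2 i ⟨hi1, hi2⟩
      rw [mem_ofPred_eq] at this
      simp [hi3] at this
  obtain ⟨y0⟩ := id hE
  have hsep : ∀ m, ∃ t : ℕ → Bool, (t, y0) ∉ Um m ∧ ∀ m', m' ≠ m → (t, y0) ∈ Um m' := by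
    intro m
    refine ⟨fun i => decide (i ≠ m), hnotmem m _ _ (by simp) fun k _ => ⟨m + 1, by omega,
      by omega, by simp⟩, fun m' hm' => Or.inl ?_⟩
    rw [mem_ofPred_eq]
    simpa using hm'
  have hinj : Function.Injective Um := by
    intro m m' hmm
    by_contra hne
    obtain ⟨t, ht1, ht2⟩ := hsep m
    exact ht1 (hmm ▸ ht2 m' (Ne.symm hne))
  have hlarge : IsLarge (range Um) := by
    refine isLarge_of ?_ ?_
    · rintro _ ⟨m, rfl⟩
      obtain ⟨t, ht1, -⟩ := hsep m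
      exact ⟨hUo m, fun h => ht1 (by rw [h]; trivial)⟩
    · rintro ⟨t, y⟩
      have hI : {m | (t, y) ∈ Um m}.Infinite := by
        by_cases ht : {m | t m = true}.Infinite
        · exact ht.mono fun m hm => Or.inl hm
        · rw [Set.not_infinite] at ht
          obtain ⟨M, hM⟩ := ht.bddAbove
          have hz : ∀ i, M < i → t i = false := fun i hi => by
            by_contra hcon
            exact absurd (hM (show t i = true by simpa using hcon)) (not_le.2 hi)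
          refine (Set.Ioi_infinite M).mono fun m hm => Or.inr ?_
          obtain ⟨k, hk⟩ := hOc m y
          refine mem_iUnion.2 ⟨k, hk, mem_iInter₂.2 fun i hi => ?_⟩
          exact hz i (lt_of_lt_of_le hm hi.1)
      refine (hI.image hinj.injOn).mono ?_
      rintro _ ⟨m, hm, rfl⟩
      exact ⟨⟨m, rfl⟩, hm⟩
  obtain ⟨𝒱, 𝒲, hd, hun, ⟨𝒱', hv1', hv2'⟩, ⟨𝒲', hw1', hw2'⟩⟩ := h _ hlarge
  let A : Set ℕ := {m | Um m ∈ 𝒱}
  have hAinf : A.Infinite := by
    obtain ⟨z⟩ : Nonempty ((ℕ → Bool) × Y) := ⟨(fun _ => true, y0)⟩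
    apply Set.Infinite.of_image Um
    refine (hv2'.2.2 z).mono ?_
    rintro w ⟨hw, -⟩
    have h1 : w ∈ range Um := by rw [← hun]; exact Or.inl (hv1' hw)
    obtain ⟨m, rfl⟩ := h1
    exact ⟨m, hv1' hw, rfl⟩
  choose nx hnx1 hnx2 using fun n => hAinf.exists_gt n
  obtain ⟨y, hy⟩ := hesc fun n => nx n
  have hcov : ((fun i => decide (i ∈ A)), y) ∈ ⋃₀ 𝒲' := by rw [hw2'.2.1]; trivial
  obtain ⟨w, hw, hyw⟩ := hcov
  have h1 : w ∈ range Um := by rw [← hun]; exact Or.inr (hw1' hw)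
  obtain ⟨m, rfl⟩ := h1
  have hmA : m ∉ A := fun hm => Set.disjoint_left.1 hd hm (hw1' hw)
  refine hnotmem m _ _ (by simpa using hmA) (fun k hk => ?_) hyw
  refine ⟨nx m, (hnx2 m).le, ?_, by simpa using hnx1 m⟩
  by_contra hlt
  exact hy m (hOm m (by omega) hk)

/-- **Under CH there is a non-Menger set of reals with Split(Λ,Λ).** -/
theorem exists_split_not_menger (ch : CHT.CH) : ∃ Y : Set (ℕ → ℕ), Split Y ∧ ¬ Menger Y := by
  classical
  obtain ⟨Y, hY1, hY2⟩ := Lv.laver ch Unit (CHT.mk_countable_le _)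
    (fun _ f j => if j = 0 then EE f else (EE f)ᶜ) (by
      intro _ f j
      by_cases hj : j = 0
      · simp only [hj, if_true]; exact thick_EE f
      · simp only [hj, if_false]; exact thick_EE_compl f)
  have hne : Nonempty Y := by
    obtain ⟨y, hy, -⟩ := hY1 fun _ => 0
    exact ⟨⟨y, hy⟩⟩
  refine ⟨Y, ?_, ?_⟩
  · intro 𝒰 hU
    obtain ⟨u, hu1, hu2, hu3⟩ := exists_seq_large hU
    let C : Lv.Code := fun m => {σ | ∀ y : Y, y.1 ∈ Gen.cyl σ → y ∈ u m}
    have hC : ∀ y : Y, Lv.g C y.1 = {m | y ∈ u m} := by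
      intro y
      ext m
      constructor
      · rintro ⟨n, hn⟩
        exact hn y (Gen.mem_cyl_pre.2 fun _ _ => rfl)
      · intro hm
        obtain ⟨V, hV, hVu⟩ := isOpen_induced_iff.1 (hU.1 _ (hu2 m)).1
        have hyV : y.1 ∈ V := by
          have : y ∈ Subtype.val ⁻¹' V := by rw [hVu]; exact hm
          exact this
        obtain ⟨n, hn⟩ := Gen.exists_cyl_subset hV hyV
        refine ⟨n, fun z hz => ?_⟩
        rw [← hVu]
        exact hn hz
    obtain ⟨f, hf⟩ := hY2 C () (fun y hy => by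
      rw [hC ⟨y, hy⟩]; exact hu3 _)
    refine split_of_index hU hu1 hu2 (A := EE f) (fun y => ?_) (fun y => ?_)
    · have := hf 0 y.1 y.2
      rw [hC y, if_pos rfl] at this
      exact this
    · have := hf 1 y.1 y.2
      rw [hC y, if_neg one_ne_zero] at this
      exact this
  · intro hM
    obtain ⟨H, hH⟩ := hM.exists_bound (fun n k => {y : Y | y.1 n ≤ k})
      (fun n k => by
        have hcn : Continuous fun y : Y => y.1 n := (continuous_apply n).comp continuous_subtype_val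
        exact (isOpen_discrete (Iic k)).preimage hcn)
      (fun n k k' hk y hy => le_trans hy hk) (fun n y => ⟨y.1 n, le_refl (y.1 n)⟩)
    obtain ⟨y, hy, hdom⟩ := hY1 fun n => H n + 1
    obtain ⟨N, hN⟩ := eventually_atTop.1 hdom
    obtain ⟨n, hn, hle⟩ := hH ⟨y, hy⟩ N
    have h1 := hN n hn
    have h2 : y n ≤ H n := hle
    omega

end Pool.Agent.Q154.Sp
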