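import Mathlib.MeasureTheory.Measure.Lebesgue.EqHaar
import Mathlib.MeasureTheory.Measure.Haar.InnerProductSpace
import Mathlib.MeasureTheory.Measure.Prod
import Mathlib.Analysis.InnerProductSpace.PiL2
import Mathlib.Topology.MetricSpace.HausdorffDistance
import Mathlib.Tactic

set_option autoImplicit false

/-!
Steiner symmetrization of compact sets.
-/

open Set Topology MeasureTheory Metric Filter
open scoped ENNReal RealInnerProductSpace

namespace Pool.Agent.Q154.Steiner

variable {n : ℕ}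

/-- Euclidean space. -/
abbrev V (n : ℕ) := EuclideanSpace ℝ (Fin n)

/-- The fibre. -/
def fib (u : V n) (E : Set (V n)) (y : V n) : Set ℝ := {t : ℝ | y + t • u ∈ E}

/-- The length of the fibre. -/
noncomputable def len (u : V n) (E : Set (V n)) (y : V n) : ℝ := (volume (fib u E y)).toReal

/-- The orthogonal projection to `u^⊥`. -/
noncomputable def proj (u : V n) (x : V n) : V n := x - ⟪u, x⟫ • u

/-- The Steiner symmetrization. -/
def steiner (u : V n) (E : Set (V n)) : Set (V n) :=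
  {y | ∃ x' ∈ proj u '' E, ∃ t : ℝ, |t| ≤ len u E x' / 2 ∧ y = x' + t • u}

theorem fib_add (u : V n) (E : Set (V n)) (y : V n) (s : ℝ) :
    fib u E (y + s • u) = (fun t => s + t) ⁻¹' fib u E y := by
  ext t
  simp only [fib, mem_ofPred_eq, mem_preimage]
  rw [add_smul, add_assoc]

theorem vol_fib_add (u : V n) (E : Set (V n)) (y : V n) (s : ℝ) :
    volume (fib u E (y + s • u)) = volume (fib u E y) := by
  rw [fib_add, measure_preimage_add]

theorem proj_eq (u : V n) (y : V n) : proj u y = y + (-⟪u, y⟫) • u := by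
  rw [proj, neg_smul, sub_eq_add_neg]

theorem inner_proj {u : V n} (hu : ‖u‖ = 1) (y : V n) : ⟪u, proj u y⟫ = 0 := by
  rw [proj, inner_sub_right, real_inner_smul_right, real_inner_self_eq_norm_sq, hu]
  ring

/-- A direct description of the Steiner symmetrization. -/
theorem mem_steiner {u : V n} (hu : ‖u‖ = 1) {E : Set (V n)} {y : V n} :
    y ∈ steiner u E ↔ (fib u E y).Nonempty ∧ |⟪u, y⟫| ≤ len u E y / 2 := by
  constructor
  · rintro ⟨_, ⟨x, hx, rfl⟩, t, ht, rfl⟩
    have h1 : ⟪u, proj u x + t • u⟫ = t := by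
      rw [inner_add_right, inner_proj hu, real_inner_smul_right, real_inner_self_eq_norm_sq, hu]
      ring
    refine ⟨⟨⟪u, x⟫ - t, ?_⟩, ?_⟩
    · show proj u x + t • u + (⟪u, x⟫ - t) • u ∈ E
      have : proj u x + t • u + (⟪u, x⟫ - t) • u = x := by
        rw [proj, sub_smul]; abel
      rwa [this]
    · rw [h1, len, vol_fib_add]
      exact ht
  · rintro ⟨⟨t, ht⟩, h⟩
    have ht' : y + t • u ∈ E := ht
    have h1 : proj u (y + t • u) = proj u y := by
      rw [proj, proj, inner_add_right, real_inner_smul_right, real_inner_self_eq_norm_sq, hu,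
        add_smul]
      simp
    refine ⟨proj u y, ⟨_, ht', h1⟩, ⟪u, y⟫, ?_, ?_⟩
    · rw [len, proj_eq, vol_fib_add]
      exact h
    · rw [proj]; abel

theorem fib_closed {u : V n} {E : Set (V n)} (hE : IsClosed E) (y : V n) : IsClosed (fib u E y) :=
  hE.preimage (by fun_prop : Continuous fun t : ℝ => y + t • u)

theorem fib_bdd {u : V n} (hu : ‖u‖ = 1) {E : Set (V n)} {R : ℝ} (hE : E ⊆ closedBall 0 R)
    {y : V n} {t : ℝ} (ht : t ∈ fib u E y) : |t| ≤ ‖y‖ + R := by
  have h1 : y + t • u ∈ closedBall (0 : V n) R := hE ht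
  rw [mem_closedBall, dist_zero_right] at h1
  have h2 : ‖t • u‖ = |t| := by rw [norm_smul, hu, mul_one, Real.norm_eq_abs]
  have h3 : t • u = (y + t • u) - y := by abel
  have h4 := norm_sub_le (y + t • u) y
  rw [← h3, h2] at h4
  linarith

theorem fib_lt_top {u : V n} (hu : ‖u‖ = 1) {E : Set (V n)} {R : ℝ} (hE : E ⊆ closedBall 0 R)
    (y : V n) : volume (fib u E y) < ∞ := by
  have h1 : fib u E y ⊆ Icc (-(‖y‖ + R)) (‖y‖ + R) := fun t ht => abs_le.1 (fib_bdd hu hE ht)
  exact (measure_mono h1).trans_lt (by rw [Real.volume_Icc]; exact ENNReal.ofReal_lt_top)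

/-- Semicontinuity of the fibres. -/
theorem fib_eventually {u : V n} (hu : ‖u‖ = 1) {E : Set (V n)} {R : ℝ}
    (hE : E ⊆ closedBall 0 R) (hEc : IsClosed E) {y₀ : V n} {U : Set ℝ} (hU : IsOpen U)
    (h : fib u E y₀ ⊆ U) : ∀ᶠ y in 𝓝 y₀, fib u E y ⊆ U := by
  set M : ℝ := ‖y₀‖ + 1 + R with hM
  have hQ : IsCompact (Icc (-M) M \ U) := isCompact_Icc.diff hU
  have h1 : ∀ᶠ y in 𝓝 y₀, ∀ t ∈ Icc (-M) M \ U, y + t • u ∉ E := by
    apply hQ.eventually_forall_of_forall_eventually (P := fun (y : V n) (t : ℝ) => y + t • u ∉ E)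
    intro t ht
    have hc : Continuous fun z : V n × ℝ => z.1 + z.2 • u := by fun_prop
    have ho : IsOpen ((fun z : V n × ℝ => z.1 + z.2 • u) ⁻¹' Eᶜ) :=
      hEc.isOpen_compl.preimage hc
    exact ho.mem_nhds (fun ht' => ht.2 (h ht'))
  have h2 : ∀ᶠ y in 𝓝 y₀, ‖y‖ < ‖y₀‖ + 1 :=
    continuous_norm.continuousAt.eventually_lt continuousAt_const (by simp)
  filter_upwards [h1, h2] with y hy1 hy2 t ht
  by_contra htU
  refine hy1 t ⟨abs_le.1 ?_, htU⟩ ht
  have := fib_bdd hu hE ht
  linarith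

theorem vol_fib_eventually {u : V n} (hu : ‖u‖ = 1) {E : Set (V n)} {R : ℝ}
    (hE : E ⊆ closedBall 0 R) (hEc : IsClosed E) {y₀ : V n} {c : ℝ≥0∞}
    (h : volume (fib u E y₀) < c) : ∀ᶠ y in 𝓝 y₀, volume (fib u E y) < c := by
  obtain ⟨U, hU1, hU2, hU3⟩ := Set.exists_isOpen_lt_of_lt _ _ h
  filter_upwards [fib_eventually hu hE hEc hU2 hU1] with y hy
  exact (measure_mono hy).trans_lt hU3

theorem steiner_eq {u : V n} (hu : ‖u‖ = 1) {E : Set (V n)} {R : ℝ} (hE : E ⊆ closedBall 0 R) :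
    steiner u E = {y | (fib u E y).Nonempty ∧
      ENNReal.ofReal (2 * |⟪u, y⟫|) ≤ volume (fib u E y)} := by
  ext y
  rw [mem_steiner hu, mem_ofPred_eq]
  have hfin := (fib_lt_top hu hE y).ne
  rw [ENNReal.ofReal_le_iff_le_toReal hfin]
  constructor
  · rintro ⟨h1, h2⟩
    exact ⟨h1, by unfold len at h2; linarith⟩
  · rintro ⟨h1, h2⟩
    exact ⟨h1, by unfold len; linarith⟩

theorem steiner_closed {u : V n} (hu : ‖u‖ = 1) {E : Set (V n)} {R : ℝ}
    (hE : E ⊆ closedBall 0 R) (hEc : IsClosed E) : IsClosed (steiner u E) := by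
  rw [steiner_eq hu hE, ← isOpen_compl_iff, isOpen_iff_mem_nhds]
  intro y hy
  simp only [mem_compl_iff, mem_ofPred_eq, not_and, not_le] at hy
  by_cases hne : (fib u E y).Nonempty
  · have h1 := hy hne
    obtain ⟨c, hc1, hc2⟩ := exists_between h1
    have h2 := vol_fib_eventually hu hE hEc hc1
    have hcont : Continuous fun z : V n => ENNReal.ofReal (2 * |⟪u, z⟫|) :=
      ENNReal.continuous_ofReal.comp (by fun_prop)
    have h3 : ∀ᶠ z in 𝓝 y, c < ENNReal.ofReal (2 * |⟪u, z⟫|) :=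
      continuousAt_const.eventually_lt hcont.continuousAt hc2
    filter_upwards [h2, h3] with z hz1 hz2 hz3
    exact absurd hz3.2 (not_le.2 (hz1.trans hz2))
  · rw [not_nonempty_iff_eq_empty] at hne
    have h1 := fib_eventually hu hE hEc isOpen_empty (y₀ := y) (by rw [hne])
    filter_upwards [h1] with z hz1 hz2
    obtain ⟨t, ht⟩ := hz2.1
    exact hz1 ht

/-- Centred balls stay. -/
theorem steiner_sub_ball {u : V n} (hu : ‖u‖ = 1) {E : Set (V n)} {R : ℝ}
    (hE : E ⊆ closedBall 0 R) : steiner u E ⊆ closedBall 0 R := by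
  intro y hy
  obtain ⟨⟨t₀, ht₀⟩, hlen⟩ := (mem_steiner hu).1 hy
  have hR : 0 ≤ R := by
    have := hE ht₀
    rw [mem_closedBall, dist_zero_right] at this
    exact (norm_nonneg _).trans this
  -- the norm decomposition
  have hnorm : ∀ t : ℝ, ‖y + t • u‖ ^ 2 = ‖proj u y‖ ^ 2 + (⟪u, y⟫ + t) ^ 2 := by
    intro t
    have h1 : y + t • u = proj u y + (⟪u, y⟫ + t) • u := by
      rw [proj, add_smul]; abel
    have h2 : ⟪proj u y, u⟫ = 0 := by rw [real_inner_comm]; exact inner_proj hu y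
    rw [h1, norm_add_sq_real, real_inner_smul_right, h2, norm_smul, hu,
      mul_one, Real.norm_eq_abs, sq_abs]
    ring
  have hp : ‖proj u y‖ ^ 2 ≤ R ^ 2 := by
    have h1 := hE ht₀
    rw [mem_closedBall, dist_zero_right] at h1
    have h2 := hnorm t₀
    have h3 : ‖y + t₀ • u‖ ^ 2 ≤ R ^ 2 := pow_le_pow_left₀ (norm_nonneg _) h1 2
    nlinarith [sq_nonneg (⟪u, y⟫ + t₀)]
  set c : ℝ := Real.sqrt (R ^ 2 - ‖proj u y‖ ^ 2) with hc
  have hc0 : 0 ≤ c := Real.sqrt_nonneg _
  have hc2 : c ^ 2 = R ^ 2 - ‖proj u y‖ ^ 2 := Real.sq_sqrt (by linarith)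
  have hsub : fib u E y ⊆ Icc (-⟪u, y⟫ - c) (-⟪u, y⟫ + c) := by
    intro t ht
    have h1 := hE ht
    rw [mem_closedBall, dist_zero_right] at h1
    have h2 := hnorm t
    have h3 : ‖y + t • u‖ ^ 2 ≤ R ^ 2 := pow_le_pow_left₀ (norm_nonneg _) h1 2
    have h4 : (⟪u, y⟫ + t) ^ 2 ≤ c ^ 2 := by rw [hc2]; linarith
    have h5 := abs_le_of_sq_le_sq' h4 hc0
    constructor <;> linarith [h5.1, h5.2]
  have hl : len u E y ≤ 2 * c := by
    have h1 := measure_mono (μ := volume) hsub
    rw [Real.volume_Icc] at h1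
    have h2 := ENNReal.toReal_mono ENNReal.ofReal_ne_top h1
    rw [ENNReal.toReal_ofReal (by linarith)] at h2
    unfold len
    linarith
  have h0 : ‖y‖ ^ 2 = ‖proj u y‖ ^ 2 + ⟪u, y⟫ ^ 2 := by
    have := hnorm 0
    simpa using this
  have h6 : ⟪u, y⟫ ^ 2 ≤ c ^ 2 := by
    rw [← sq_abs]
    exact pow_le_pow_left₀ (abs_nonneg _) (by linarith) 2
  have h7 : ‖y‖ ^ 2 ≤ R ^ 2 := by rw [h0, hc2] at *; linarith
  rw [mem_closedBall, dist_zero_right]
  exact abs_le_of_sq_le_sq' h7 hR |>.2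

theorem steiner_nonempty {u : V n} {E : Set (V n)} (h : E.Nonempty) : (steiner u E).Nonempty := by
  obtain ⟨x, hx⟩ := h
  refine ⟨proj u x, proj u x, ⟨x, hx, rfl⟩, 0, ?_, by simp⟩
  rw [abs_zero]
  exact div_nonneg ENNReal.toReal_nonneg (by norm_num)

/-- The volume as an integral of fibre lengths over a slab. -/
theorem vol_eq {u : V n} (hu : ‖u‖ = 1) {E : Set (V n)} (hE : MeasurableSet E) :
    volume E = ∫⁻ y in {y : V n | 0 ≤ ⟪u, y⟫ ∧ ⟪u, y⟫ < 1}, volume (fib u E y) := by
  set Sg : Set (V n) := {y : V n | 0 ≤ ⟪u, y⟫ ∧ ⟪u, y⟫ < 1} with hSg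
  have hSm : MeasurableSet Sg := by
    have hm : Measurable fun y : V n => ⟪u, y⟫ := (by fun_prop : Continuous _).measurable
    exact (measurableSet_le measurable_const hm).inter (measurableSet_lt hm measurable_const)
  have h1 : ∀ y, volume (fib u E y) = ∫⁻ t : ℝ, E.indicator 1 (y + t • u) := by
    intro y
    have hm : MeasurableSet (fib u E y) :=
      (by fun_prop : Measurable fun t : ℝ => y + t • u) hE
    rw [← lintegral_indicator_one hm]
    rfl
  rw [← lintegral_indicator hSm]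
  have h2 : ∀ y, Sg.indicator (fun y => volume (fib u E y)) y =
      ∫⁻ t : ℝ, Sg.indicator 1 y * E.indicator 1 (y + t • u) := by
    intro y
    rw [lintegral_const_mul]
    · by_cases hy : y ∈ Sg
      · rw [indicator_of_mem hy, indicator_of_mem hy, h1 y]; simp
      · rw [indicator_of_notMem hy, indicator_of_notMem hy]; simp
    · exact (measurable_one.indicator hE).comp (by fun_prop)
  simp_rw [h2]
  have hmeas : Measurable (fun p : V n × ℝ =>
      Sg.indicator (1 : V n → ℝ≥0∞) p.1 * E.indicator (1 : V n → ℝ≥0∞) (p.1 + p.2 • u)) := by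
    apply Measurable.mul
    · exact (measurable_one.indicator hSm).comp measurable_fst
    · exact (measurable_one.indicator hE).comp (by fun_prop)
  rw [lintegral_lintegral_swap hmeas.aemeasurable]
  have h3 : ∀ t : ℝ, ∫⁻ y : V n, Sg.indicator (1 : V n → ℝ≥0∞) y * E.indicator 1 (y + t • u) =
      ∫⁻ y : V n, Sg.indicator (1 : V n → ℝ≥0∞) (y - t • u) * E.indicator 1 y := by
    intro t
    rw [← lintegral_add_right_eq_self (μ := (volume : Measure (V n)))
      (fun y => Sg.indicator (1 : V n → ℝ≥0∞) (y - t • u) * E.indicator 1 y) (t • u)]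
    simp
  simp_rw [h3]
  have hmeas2 : Measurable (fun p : ℝ × V n =>
      Sg.indicator (1 : V n → ℝ≥0∞) (p.2 - p.1 • u) * E.indicator (1 : V n → ℝ≥0∞) p.2) := by
    apply Measurable.mul
    · exact (measurable_one.indicator hSm).comp (by fun_prop)
    · exact (measurable_one.indicator hE).comp measurable_snd
  rw [lintegral_lintegral_swap hmeas2.aemeasurable]
  have h4 : ∀ y : V n, ∫⁻ t : ℝ, Sg.indicator (1 : V n → ℝ≥0∞) (y - t • u) * E.indicator 1 y =
      E.indicator 1 y := by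
    intro y
    rw [lintegral_mul_const]
    · have h5 : (fun t : ℝ => Sg.indicator (1 : V n → ℝ≥0∞) (y - t • u)) =
          (Ioc (⟪u, y⟫ - 1) ⟪u, y⟫).indicator 1 := by
        funext t
        have e : ⟪u, y - t • u⟫ = ⟪u, y⟫ - t := by
          rw [inner_sub_right, real_inner_smul_right, real_inner_self_eq_norm_sq, hu]; ring
        by_cases ht : t ∈ Ioc (⟪u, y⟫ - 1) ⟪u, y⟫
        · rw [indicator_of_mem ht, indicator_of_mem]
          · rfl
          · refine ⟨?_, ?_⟩ <;> rw [e] <;> linarith [ht.1, ht.2]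
        · rw [indicator_of_notMem ht, indicator_of_notMem]
          rintro ⟨ha, hb⟩
          rw [e] at ha hb
          exact ht ⟨by linarith, by linarith⟩
      rw [h5, lintegral_indicator_one measurableSet_Ioc, Real.volume_Ioc]
      have : ⟪u, y⟫ - (⟪u, y⟫ - 1) = 1 := by ring
      rw [this, ENNReal.ofReal_one, one_mul]
    · exact (measurable_one.indicator hSm).comp (by fun_prop)
  simp_rw [h4]
  rw [lintegral_indicator_one hE]

/-- Steiner symmetrization preserves the volume of compact sets. -/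
theorem vol_steiner {u : V n} (hu : ‖u‖ = 1) {E : Set (V n)} {R : ℝ}
    (hE : E ⊆ closedBall 0 R) (hEc : IsClosed E) : volume (steiner u E) = volume E := by
  rw [vol_eq hu (steiner_closed hu hE hEc).measurableSet, vol_eq hu hEc.measurableSet]
  apply lintegral_congr
  intro y
  have hfin := (fib_lt_top hu hE y).ne
  by_cases hne : (fib u E y).Nonempty
  · have h1 : fib u (steiner u E) y =
        Icc (-⟪u, y⟫ - len u E y / 2) (-⟪u, y⟫ + len u E y / 2) := by
      ext t
      simp only [fib, mem_ofPred_eq]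
      rw [mem_steiner hu]
      have e1 : ⟪u, y + t • u⟫ = ⟪u, y⟫ + t := by
        rw [inner_add_right, real_inner_smul_right, real_inner_self_eq_norm_sq, hu]; ring
      have e2 : len u E (y + t • u) = len u E y := by rw [len, vol_fib_add, len]
      rw [e1, e2]
      constructor
      · rintro ⟨_, h⟩
        obtain ⟨h3, h4⟩ := abs_le.1 h
        constructor <;> linarith
      · rintro ⟨h3, h4⟩
        refine ⟨?_, abs_le.2 ⟨by linarith, by linarith⟩⟩
        obtain ⟨s, hs⟩ := hne
        rw [fib_add]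
        exact ⟨-t + s, by simpa using hs⟩
    rw [h1, Real.volume_Icc]
    have : -⟪u, y⟫ + len u E y / 2 - (-⟪u, y⟫ - len u E y / 2) = len u E y := by ring
    rw [this, len, ENNReal.ofReal_toReal hfin]
  · rw [not_nonempty_iff_eq_empty] at hne
    have h1 : fib u (steiner u E) y = ∅ := by
      rw [eq_empty_iff_forall_notMem]
      intro t ht
      have ht' : y + t • u ∈ steiner u E := ht
      rw [mem_steiner hu, fib_add, hne] at ht'
      simp at ht'
    rw [h1, hne]

end Pool.Agent.Q154.Steiner
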