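import Mathlib.Topology.MetricSpace.GromovHausdorff
import Mathlib.Tactic

set_option autoImplicit false

/-!
Three metric spaces with four points each, obtained from a space with a nontrivial isometry by
small perturbations.
-/

open Metric Set

namespace Pool.Agent.Q154.ThreeSpaces

/-- The distance matrix with entries `d₀₁ = 20`, `d₂₃ = 24`, `d₀₂ = p`, `d₁₃ = q`, `d₀₃ = r`,
`d₁₂ = s`. -/
def mat (p q r s : ℕ) : Fin 4 → Fin 4 → ℕ :=
  ![![0, 20, p, r], ![20, 0, s, q], ![p, s, 0, 24], ![r, q, 24, 0]]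

/-- The three distance matrices. -/
def m : Fin 3 → Fin 4 → Fin 4 → ℕ :=
  ![mat 32 28 38 38, mat 31 29 40 36, mat 29 31 40 36]

theorem m_self : ∀ i x, m i x x = 0 := by decide

theorem m_comm : ∀ i x y, m i x y = m i y x := by decide

theorem m_tri : ∀ i x y z, m i x z ≤ m i x y + m i y z := by decide

theorem m_pos : ∀ i x y, m i x y ≤ 2 → x = y := by decide

theorem m_far : ∀ i x, ¬ m i x (![1, 0, 3, 2] x) ≤ 3 := by decide

/-- The spaces. -/
def Sp (_ : Fin 3) : Type := Fin 4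

instance (i : Fin 3) : Fintype (Sp i) := inferInstanceAs (Fintype (Fin 4))
instance (i : Fin 3) : Nonempty (Sp i) := inferInstanceAs (Nonempty (Fin 4))

noncomputable instance instMetric (i : Fin 3) : MetricSpace (Sp i) where
  dist x y := (m i x y : ℝ)
  dist_self x := by exact_mod_cast m_self i x
  dist_comm x y := by exact_mod_cast m_comm i x y
  dist_triangle x y z := by exact_mod_cast m_tri i x y z
  eq_of_dist_eq_zero {x y} h := m_pos i x y (by
    have : m i x y = 0 := by exact_mod_cast h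
    omega)

theorem dist_def (i : Fin 3) (x y : Sp i) : dist x y = (m i x y : ℝ) := rfl

instance (i : Fin 3) : CompactSpace (Sp i) := Finite.compactSpace

/-- The involution exchanging `0, 1` and `2, 3`. -/
def g : Fin 4 → Fin 4 := ![1, 0, 3, 2]

/-- Closeness of two naturals. -/
def cl (a b : ℕ) : Prop := a ≤ b + 2 ∧ b ≤ a + 2

instance (a b : ℕ) : Decidable (cl a b) := inferInstanceAs (Decidable (_ ∧ _))

theorem id01 : ∀ x y, cl (m 0 x y) (m 1 x y) := by decide
theorem id12 : ∀ x y, cl (m 1 x y) (m 2 x y) := by decide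
theorem g02 : ∀ x y, cl (m 0 x y) (m 2 (g x) (g y)) := by decide

/-- The closeness conditions for a map with values `a, b, c, d`. -/
def cond (i j : Fin 3) (a b c d : Fin 4) : Prop :=
  cl (m i 0 1) (m j a b) ∧ cl (m i 2 3) (m j c d) ∧ cl (m i 0 2) (m j a c) ∧
    cl (m i 1 3) (m j b d) ∧ cl (m i 0 3) (m j a d) ∧ cl (m i 1 2) (m j b c)

instance (i j : Fin 3) (a b c d : Fin 4) : Decidable (cond i j a b c d) := by
  unfold cond; infer_instance

set_option maxRecDepth 10000 in
theorem uniq01 : ∀ a b c d : Fin 4, cond 0 1 a b c d → a = 0 ∧ b = 1 ∧ c = 2 ∧ d = 3 := by decide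

set_option maxRecDepth 10000 in
theorem uniq12 : ∀ a b c d : Fin 4, cond 1 2 a b c d → a = 0 ∧ b = 1 ∧ c = 2 ∧ d = 3 := by decide

set_option maxRecDepth 10000 in
theorem uniq02 : ∀ a b c d : Fin 4, cond 0 2 a b c d → a = 1 ∧ b = 0 ∧ c = 3 ∧ d = 2 := by decide

theorem cases_lt : ∀ i j : Fin 3, i < j → (i = 0 ∧ j = 1) ∨ (i = 0 ∧ j = 2) ∨ (i = 1 ∧ j = 2) := by
  decide

/-- The expected optimal maps. -/
def tgt (i j : Fin 3) : Fin 4 → Fin 4 := if i = 0 ∧ j = 2 then g else id

/-- A relation with distortion at most `2` which is total on the left is contained in the graph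
of the expected map. -/
theorem rel_sub {i j : Fin 3} (hij : i < j) (S : Fin 4 → Fin 4 → Prop)
    (htot : ∀ x, ∃ y, S x y)
    (hS : ∀ x y x' y', S x y → S x' y' → cl (m i x x') (m j y y')) :
    ∀ x y, S x y → y = tgt i j x := by
  choose f hf using htot
  have hfun : ∀ x y, S x y → y = f x := by
    intro x y hxy
    have h := hS _ _ _ _ hxy (hf x)
    rw [m_self] at h
    exact m_pos j y (f x) (by have := h.2; omega)
  have h01 := hS _ _ _ _ (hf 0) (hf 1)
  have h23 := hS _ _ _ _ (hf 2) (hf 3)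
  have h02 := hS _ _ _ _ (hf 0) (hf 2)
  have h13 := hS _ _ _ _ (hf 1) (hf 3)
  have h03 := hS _ _ _ _ (hf 0) (hf 3)
  have h12 := hS _ _ _ _ (hf 1) (hf 2)
  intro x y hxy
  rw [hfun x y hxy]
  rcases cases_lt i j hij with ⟨rfl, rfl⟩ | ⟨rfl, rfl⟩ | ⟨rfl, rfl⟩
  · obtain ⟨e0, e1, e2, e3⟩ := uniq01 _ _ _ _ ⟨h01, h23, h02, h13, h03, h12⟩
    have : tgt 0 1 = id := by decide
    rw [this]
    fin_cases x
    · exact e0
    · exact e1
    · exact e2
    · exact e3
  · obtain ⟨e0, e1, e2, e3⟩ := uniq02 _ _ _ _ ⟨h01, h23, h02, h13, h03, h12⟩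
    have : tgt 0 2 = g := by decide
    rw [this]
    fin_cases x
    · exact e0
    · exact e1
    · exact e2
    · exact e3
  · obtain ⟨e0, e1, e2, e3⟩ := uniq12 _ _ _ _ ⟨h01, h23, h02, h13, h03, h12⟩
    have : tgt 1 2 = id := by decide
    rw [this]
    fin_cases x
    · exact e0
    · exact e1
    · exact e2
    · exact e3

theorem tgt_close : ∀ i j : Fin 3, i < j → ∀ x y, cl (m i x y) (m j (tgt i j x) (tgt i j y)) := by
  decide

theorem tgt_surj : ∀ i j : Fin 3, i < j → ∀ y, ∃ x, tgt i j x = y := by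
  decide

theorem cl_of_real {a b : ℕ} (h : |(a : ℝ) - b| ≤ 2) : cl a b := by
  obtain ⟨h1, h2⟩ := abs_le.1 h
  constructor
  · have : (a : ℝ) ≤ b + 2 := by linarith
    exact_mod_cast this
  · have : (b : ℝ) ≤ a + 2 := by linarith
    exact_mod_cast this

theorem real_of_cl {a b : ℕ} (h : cl a b) : |(a : ℝ) - b| ≤ 2 := by
  have h1 : (a : ℝ) ≤ b + 2 := by exact_mod_cast h.1
  have h2 : (b : ℝ) ≤ a + 2 := by exact_mod_cast h.2
  rw [abs_le]
  constructor <;> linarith

end Pool.Agent.Q154.ThreeSpaces
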