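import Mathlib.Topology.Separation.Regular
import Mathlib.Topology.Bases
import Mathlib.SetTheory.Cardinal.Arithmetic
import Mathlib.SetTheory.Cardinal.Aleph
import Mathlib.Tactic

set_option autoImplicit false

/-!
A Hausdorff zero-dimensional space of size `ℵ₁` satisfying a strong chain condition which is
not weakly Menger.
-/

open Set Topology Cardinal

namespace Pool.Agent.Q154.WeakMenger

/-- A bound on cross-intersecting pairs. -/
theorem cross_card {ι T : Type*} [DecidableEq T] (I : Finset ι) (s f : ι → Finset T) (k : ℕ)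
    (h1 : ∀ i ∈ I, Disjoint (s i) (f i)) (h2 : ∀ i ∈ I, (s i).card + (f i).card ≤ k)
    (h3 : ∀ i ∈ I, ∀ j ∈ I, i ≠ j → ¬ (Disjoint (s i) (f j) ∧ Disjoint (s j) (f i))) :
    I.card ≤ 2 ^ k := by
  classical
  set G : Finset T := I.biUnion (fun i => s i ∪ f i) with hG
  let E : ι → Finset (Finset T) := fun i =>
    G.powerset.filter (fun A => s i ⊆ A ∧ Disjoint A (f i))
  have hE : ∀ i ∈ I, 2 ^ G.card ≤ 2 ^ k * (E i).card := by
    intro i hi
    have hsub : s i ∪ f i ⊆ G := Finset.subset_biUnion_of_mem (fun i => s i ∪ f i) hi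
    have hinj : Set.InjOn (fun A : Finset T => A ∪ s i) ((G \ (s i ∪ f i)).powerset : Set _) := by
      intro A hA B hB hAB
      simp only [Finset.coe_powerset, mem_preimage, mem_powerset_iff, Finset.coe_subset] at hA hB
      have key : ∀ C : Finset T, C ⊆ G \ (s i ∪ f i) → (C ∪ s i) \ s i = C := by
        intro C hC
        ext x
        simp only [Finset.mem_sdiff, Finset.mem_union]
        constructor
        · rintro ⟨h | h, h'⟩
          · exact h
          · exact absurd h h'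
        · intro h
          refine ⟨Or.inl h, fun h' => ?_⟩
          have := Finset.mem_sdiff.1 (hC h)
          exact this.2 (Finset.mem_union_left _ h')
      have h' : (A ∪ s i) \ s i = (B ∪ s i) \ s i := by
        have : A ∪ s i = B ∪ s i := hAB
        rw [this]
      rwa [key A hA, key B hB] at h'
    have hcard : ((G \ (s i ∪ f i)).powerset.image (fun A => A ∪ s i)).card =
        2 ^ (G.card - (s i ∪ f i).card) := by
      rw [Finset.card_image_of_injOn hinj, Finset.card_powerset, Finset.card_sdiff_of_subset hsub]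
    have hle : (G \ (s i ∪ f i)).powerset.image (fun A => A ∪ s i) ⊆ E i := by
      intro B hB
      obtain ⟨A, hA, rfl⟩ := Finset.mem_image.1 hB
      rw [Finset.mem_powerset] at hA
      simp only [E, Finset.mem_filter, Finset.mem_powerset]
      refine ⟨?_, Finset.subset_union_right, ?_⟩
      · apply Finset.union_subset (hA.trans Finset.sdiff_subset)
        exact Finset.subset_union_left.trans hsub
      · rw [Finset.disjoint_union_left]
        refine ⟨?_, h1 i hi⟩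
        rw [Finset.disjoint_left]
        intro x hx hxf
        have := Finset.mem_sdiff.1 (hA hx)
        exact this.2 (Finset.mem_union_right _ hxf)
    have hc1 := Finset.card_le_card hle
    rw [hcard] at hc1
    have hc2 : (s i ∪ f i).card ≤ k := (Finset.card_union_le _ _).trans (h2 i hi)
    have hc3 : (s i ∪ f i).card ≤ G.card := Finset.card_le_card hsub
    calc 2 ^ G.card = 2 ^ (s i ∪ f i).card * 2 ^ (G.card - (s i ∪ f i).card) := by
          rw [← pow_add]; congr 1; omega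
      _ ≤ 2 ^ k * (E i).card := Nat.mul_le_mul (Nat.pow_le_pow_right (by norm_num) hc2) hc1
  have hdisj : Set.PairwiseDisjoint (I : Set ι) E := by
    intro i hi j hj hij
    rw [Function.onFun, Finset.disjoint_left]
    intro A hA hA'
    simp only [E, Finset.mem_filter, Finset.mem_powerset] at hA hA'
    exact h3 i hi j hj hij ⟨Finset.disjoint_of_subset_left hA.2.1 hA'.2.2,
      Finset.disjoint_of_subset_left hA'.2.1 hA.2.2⟩
  have hsum : ∑ i ∈ I, (E i).card ≤ 2 ^ G.card := by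
    rw [← Finset.card_biUnion (fun i hi j hj hij => hdisj hi hj hij), ← Finset.card_powerset]
    apply Finset.card_le_card
    intro A hA
    obtain ⟨i, _, hi⟩ := Finset.mem_biUnion.1 hA
    exact (Finset.mem_filter.1 hi).1
  have h4 : I.card * 2 ^ G.card ≤ 2 ^ k * 2 ^ G.card := by
    calc I.card * 2 ^ G.card = ∑ i ∈ I, 2 ^ G.card := by rw [Finset.sum_const, smul_eq_mul]
      _ ≤ ∑ i ∈ I, 2 ^ k * (E i).card := Finset.sum_le_sum hE
      _ = 2 ^ k * ∑ i ∈ I, (E i).card := by rw [Finset.mul_sum]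
      _ ≤ 2 ^ k * 2 ^ G.card := Nat.mul_le_mul_left _ hsum
  exact Nat.le_of_mul_le_mul_right h4 (by positivity)

/-- The points: sequences of finite nonempty sets which are eventually a constant singleton. -/
def P (T : Type) : Type :=
  {Z : ℕ → Finset T // (∀ n, (Z n).Nonempty) ∧ ∃ (N : ℕ) (a : T), ∀ n, N ≤ n → Z n = {a}}

section
variable {T : Type}

/-- Basic sets. -/
def B (s : Finset (ℕ × T)) (φ : ℕ → Finset T) : Set (P T) :=
  {Z | (∀ p ∈ s, p.2 ∈ Z.1 p.1) ∧ ∀ n, Disjoint (Z.1 n) (φ n)}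

theorem B_inter [DecidableEq T] (s t : Finset (ℕ × T)) (φ ψ : ℕ → Finset T) :
    B (s ∪ t) (fun n => φ n ∪ ψ n) = B s φ ∩ B t ψ := by
  ext Z
  simp only [B, Finset.mem_union, mem_ofPred_eq, mem_inter_iff, Finset.disjoint_union_right]
  constructor
  · rintro ⟨h1, h2⟩
    exact ⟨⟨fun p hp => h1 p (Or.inl hp), fun n => (h2 n).1⟩,
      ⟨fun p hp => h1 p (Or.inr hp), fun n => (h2 n).2⟩⟩
  · rintro ⟨⟨h1, h2⟩, h3, h4⟩
    exact ⟨fun p hp => hp.elim (h1 p) (h3 p), fun n => ⟨h2 n, h4 n⟩⟩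

instance instTop (T : Type) : TopologicalSpace (P T) where
  IsOpen U := ∀ Z ∈ U, ∃ (s : Finset (ℕ × T)) (φ : ℕ → Finset T), Z ∈ B s φ ∧ B s φ ⊆ U
  isOpen_univ := fun Z _ => ⟨∅, fun _ => ∅, ⟨by simp, by simp⟩, subset_univ _⟩
  isOpen_inter := by
    classical
    intro U V hU hV Z hZ
    obtain ⟨s, φ, h1, h2⟩ := hU Z hZ.1
    obtain ⟨t, ψ, h3, h4⟩ := hV Z hZ.2
    refine ⟨s ∪ t, fun n => φ n ∪ ψ n, ?_, ?_⟩
    · rw [B_inter]; exact ⟨h1, h3⟩
    · rw [B_inter]; exact fun W hW => ⟨h2 hW.1, h4 hW.2⟩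
  isOpen_sUnion := by
    rintro 𝒰 h Z ⟨U, hU, hZ⟩
    obtain ⟨s, φ, h1, h2⟩ := h U hU Z hZ
    exact ⟨s, φ, h1, h2.trans (subset_sUnion_of_mem hU)⟩

theorem isOpen_iff {U : Set (P T)} : IsOpen U ↔ ∀ Z ∈ U,
    ∃ (s : Finset (ℕ × T)) (φ : ℕ → Finset T), Z ∈ B s φ ∧ B s φ ⊆ U := Iff.rfl

theorem isOpen_B (s : Finset (ℕ × T)) (φ : ℕ → Finset T) : IsOpen (B s φ) :=
  fun _ hZ => ⟨s, φ, hZ, Subset.rfl⟩

theorem isClosed_B (s : Finset (ℕ × T)) (φ : ℕ → Finset T) : IsClosed (B s φ) := by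
  classical
  rw [← isOpen_compl_iff]
  intro Z hZ
  by_cases h1 : ∀ p ∈ s, p.2 ∈ Z.1 p.1
  · have h2 : ∃ n, ¬ Disjoint (Z.1 n) (φ n) := by
      by_contra h
      push Not at h
      exact hZ ⟨h1, h⟩
    obtain ⟨n, hn⟩ := h2
    rw [Finset.not_disjoint_iff] at hn
    obtain ⟨a, ha, ha'⟩ := hn
    refine ⟨{(n, a)}, fun _ => ∅, ⟨by simpa using ha, by simp⟩, ?_⟩
    rintro W ⟨hW, _⟩ hW'
    have := hW'.2 n
    rw [Finset.disjoint_left] at this
    exact this (hW (n, a) (by simp)) ha'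
  · push Not at h1
    obtain ⟨p, hp, hpZ⟩ := h1
    refine ⟨∅, fun n => if n = p.1 then {p.2} else ∅, ⟨by simp, ?_⟩, ?_⟩
    · intro n
      by_cases hn : n = p.1
      · subst hn
        simpa using hpZ
      · simp [hn]
    · rintro W ⟨_, hW⟩ hW'
      have h3 := hW p.1
      simp only [if_true, Finset.disjoint_singleton_right] at h3
      exact h3 (hW'.1 p hp)

theorem basis : TopologicalSpace.IsTopologicalBasis {U : Set (P T) | IsClopen U} := by
  apply TopologicalSpace.isTopologicalBasis_of_isOpen_of_nhds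
  · intro U hU
    exact hU.2
  · intro Z U hZ hU
    obtain ⟨s, φ, h1, h2⟩ := hU Z hZ
    exact ⟨B s φ, ⟨isClosed_B s φ, isOpen_B s φ⟩, h1, h2⟩

instance instT2 : T2Space (P T) := by
  classical
  refine ⟨fun Z W hZW => ?_⟩
  have aux : ∀ Z W : P T, (∃ n, ∃ a ∈ Z.1 n, a ∉ W.1 n) → ∃ u v : Set (P T), IsOpen u ∧ IsOpen v ∧
      Z ∈ u ∧ W ∈ v ∧ Disjoint u v := by
    rintro Z W ⟨n, a, ha, ha'⟩
    have hclosed := isClosed_B {(n, a)} (fun _ => (∅ : Finset T))
    refine ⟨_, _, isOpen_B {(n, a)} (fun _ => ∅), hclosed.isOpen_compl, ?_, ?_,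
      disjoint_compl_right⟩
    · exact ⟨by simpa using ha, by simp⟩
    · intro h
      exact ha' (h.1 (n, a) (by simp))
  have hne : ∃ n, Z.1 n ≠ W.1 n := by
    by_contra h
    push Not at h
    exact hZW (Subtype.ext (funext h))
  obtain ⟨n, hn⟩ := hne
  by_cases hsub : Z.1 n ⊆ W.1 n
  · have h2 : ¬ W.1 n ⊆ Z.1 n := fun h => hn (Finset.Subset.antisymm hsub h)
    obtain ⟨a, ha, ha'⟩ := Finset.not_subset.1 h2
    obtain ⟨u, v, hu, hv, h1, h2, h3⟩ := aux W Z ⟨n, a, ha, ha'⟩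
    exact ⟨v, u, hv, hu, h2, h1, h3.symm⟩
  · obtain ⟨a, ha, ha'⟩ := Finset.not_subset.1 hsub
    exact aux Z W ⟨n, a, ha, ha'⟩

variable [Uncountable T]

/-- A point outside countably many finite sets. -/
theorem exists_fresh (φ ψ : ℕ → Finset T) : ∃ a : T, ∀ n, a ∉ φ n ∧ a ∉ ψ n := by
  classical
  have hc : (⋃ n, ((φ n ∪ ψ n : Finset T) : Set T)).Countable :=
    countable_iUnion fun n => Finset.countable_toSet _
  have : ∃ a, a ∉ (⋃ n, ((φ n ∪ ψ n : Finset T) : Set T)) := by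
    by_contra h
    push Not at h
    have h2 : (univ : Set T).Countable := hc.mono fun a _ => h a
    rw [Set.countable_univ_iff] at h2
    exact not_countable h2
  obtain ⟨a, ha⟩ := this
  refine ⟨a, fun n => ?_⟩
  rw [mem_iUnion, not_exists] at ha
  have := ha n
  rw [Finset.mem_coe, Finset.mem_union, not_or] at this
  exact this

/-- The nonemptiness criterion. -/
theorem B_inter_nonempty [DecidableEq T] {s t : Finset (ℕ × T)} {φ ψ : ℕ → Finset T}
    (hs : ∀ p ∈ s, p.2 ∉ φ p.1 ∧ p.2 ∉ ψ p.1) (ht : ∀ p ∈ t, p.2 ∉ φ p.1 ∧ p.2 ∉ ψ p.1) :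
    (B s φ ∩ B t ψ).Nonempty := by
  obtain ⟨a, ha⟩ := exists_fresh φ ψ
  let Z : ℕ → Finset T := fun n => insert a (((s ∪ t).filter (fun p => p.1 = n)).image Prod.snd)
  have hZmem : ∀ n x, x ∈ Z n → x = a ∨ (n, x) ∈ s ∪ t := by
    intro n x hx
    simp only [Z, Finset.mem_insert, Finset.mem_image, Finset.mem_filter] at hx
    rcases hx with rfl | ⟨p, ⟨hp, hpn⟩, hpx⟩
    · exact Or.inl rfl
    · right
      rw [← hpn, ← hpx]
      exact hp
  have hst : ∀ p ∈ s ∪ t, p.2 ∉ φ p.1 ∧ p.2 ∉ ψ p.1 := by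
    intro p hp
    rcases Finset.mem_union.1 hp with h | h
    · exact hs p h
    · exact ht p h
  have hdisj : ∀ n, Disjoint (Z n) (φ n ∪ ψ n) := by
    intro n
    rw [Finset.disjoint_left]
    intro x hx hx'
    rcases hZmem n x hx with rfl | h
    · rcases Finset.mem_union.1 hx' with h | h
      · exact (ha n).1 h
      · exact (ha n).2 h
    · have := hst _ h
      rcases Finset.mem_union.1 hx' with h | h
      · exact this.1 h
      · exact this.2 h
  refine ⟨⟨Z, fun n => ⟨a, Finset.mem_insert_self _ _⟩, (s ∪ t).sup Prod.fst + 1, a, ?_⟩, ?_⟩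
  · intro n hn
    have : ((s ∪ t).filter (fun p => p.1 = n)) = ∅ := by
      rw [Finset.filter_eq_empty_iff]
      intro p hp hpn
      have := Finset.le_sup (f := Prod.fst) hp
      omega
    simp only [Z]
    rw [this]
    simp
  · rw [← B_inter]
    refine ⟨?_, hdisj⟩
    intro p hp
    simp only [Z, Finset.mem_insert, Finset.mem_image, Finset.mem_filter]
    right
    exact ⟨p, ⟨hp, rfl⟩, rfl⟩

/-- Points of the columns below `N`. -/
def low [DecidableEq T] (N : ℕ) (φ : ℕ → Finset T) : Finset (ℕ × T) :=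
  (Finset.range N).biUnion fun n => (φ n).image fun a => (n, a)

omit [Uncountable T] in
theorem mem_low [DecidableEq T] {N : ℕ} {φ : ℕ → Finset T} {p : ℕ × T} :
    p ∈ low N φ ↔ p.1 < N ∧ p.2 ∈ φ p.1 := by
  simp only [low, Finset.mem_biUnion, Finset.mem_range, Finset.mem_image]
  constructor
  · rintro ⟨n, hn, a, ha, rfl⟩
    exact ⟨hn, ha⟩
  · rintro ⟨h1, h2⟩
    exact ⟨p.1, h1, p.2, h2, rfl⟩

/-- Nonempty basic sets of the class `(N, k)`. -/
def Cls [DecidableEq T] (N k : ℕ) (q : Finset (ℕ × T) × (ℕ → Finset T)) : Prop :=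
  (B q.1 q.2).Nonempty ∧ (∀ p ∈ q.1, p.1 < N) ∧ q.1.card + (low N q.2).card ≤ k

/-- A family of pairwise disjoint sets of one class is bounded. -/
theorem card_le [DecidableEq T] {N k : ℕ} (I : Finset (Finset (ℕ × T) × (ℕ → Finset T)))
    (hI : ∀ q ∈ I, Cls N k q)
    (hd : ∀ q ∈ I, ∀ r ∈ I, q ≠ r → B q.1 q.2 ∩ B r.1 r.2 = ∅) : I.card ≤ 2 ^ k := by
  have hself : ∀ q ∈ I, ∀ p ∈ q.1, p.2 ∉ q.2 p.1 := by
    intro q hq p hp hp'
    obtain ⟨Z, hZ⟩ := (hI q hq).1
    have h1 := hZ.1 p hp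
    have h2 := hZ.2 p.1
    rw [Finset.disjoint_left] at h2
    exact h2 h1 hp'
  apply cross_card I (fun q => q.1) (fun q => low N q.2) k
  · intro q hq
    rw [Finset.disjoint_left]
    intro p hp hp'
    exact hself q hq p hp (mem_low.1 hp').2
  · intro q hq
    exact (hI q hq).2.2
  · rintro q hq r hr hqr ⟨h1, h2⟩
    rw [Finset.disjoint_left] at h1 h2
    have hne : (B q.1 q.2 ∩ B r.1 r.2).Nonempty := by
      apply B_inter_nonempty
      · intro p hp
        exact ⟨hself q hq p hp, fun h => h1 hp (mem_low.2 ⟨(hI q hq).2.1 p hp, h⟩)⟩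
      · intro p hp
        exact ⟨fun h => h2 hp (mem_low.2 ⟨(hI r hr).2.1 p hp, h⟩), hself r hr p hp⟩
    rw [hd q hq r hr hqr] at hne
    exact Set.not_nonempty_empty hne

/-- Every family of open sets `𝒰` has a countable subfamily whose union is dense in the union of
`𝒰`. -/
theorem weaklyLindelof (𝒰 : Set (Set (P T))) (hU : ∀ U ∈ 𝒰, IsOpen U) (hcov : ⋃₀ 𝒰 = Set.univ) :
    ∃ 𝒱 ⊆ 𝒰, 𝒱.Countable ∧ Dense (⋃₀ 𝒱) := by
  classical
  -- admissible finite families
  let Adm : ℕ × ℕ → Finset (Finset (ℕ × T) × (ℕ → Finset T)) → Prop := fun c I =>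
    (∀ q ∈ I, Cls c.1 c.2 q ∧ ∃ U ∈ 𝒰, B q.1 q.2 ⊆ U) ∧
    (∀ q ∈ I, ∀ r ∈ I, q ≠ r → B q.1 q.2 ∩ B r.1 r.2 = ∅)
  have hmax : ∀ c : ℕ × ℕ, ∃ I, Adm c I ∧ ∀ J, Adm c J → J.card ≤ I.card := by
    intro c
    have hbdd : ∀ I, Adm c I → I.card ≤ 2 ^ c.2 := fun I hI =>
      card_le (N := c.1) I (fun q hq => (hI.1 q hq).1) hI.2
    by_contra hcon
    push Not at hcon
    have hgrow : ∀ n : ℕ, ∃ I, Adm c I ∧ n ≤ I.card := by
      intro n
      induction n with
      | zero => exact ⟨∅, ⟨by simp, by simp⟩, Nat.zero_le _⟩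
      | succ n ih =>
        obtain ⟨I, hI, hn⟩ := ih
        obtain ⟨J, hJ, hIJ⟩ := hcon I hI
        exact ⟨J, hJ, by omega⟩
    obtain ⟨I, hI, hn⟩ := hgrow (2 ^ c.2 + 1)
    have := hbdd I hI
    omega
  choose I hI hImax using hmax
  have hchoose : ∀ q : Finset (ℕ × T) × (ℕ → Finset T), ∃ U, (∃ U ∈ 𝒰, B q.1 q.2 ⊆ U) →
      U ∈ 𝒰 ∧ B q.1 q.2 ⊆ U := by
    intro q
    by_cases h : ∃ U ∈ 𝒰, B q.1 q.2 ⊆ U
    · obtain ⟨U, hU, hq⟩ := h
      exact ⟨U, fun _ => ⟨hU, hq⟩⟩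
    · exact ⟨∅, fun h' => absurd h' h⟩
  choose g hg using hchoose
  refine ⟨⋃ c, g '' (I c), ?_, ?_, ?_⟩
  · intro U hU'
    obtain ⟨c, q, hq, rfl⟩ := mem_iUnion.1 hU'
    exact (hg q ((hI c).1 q hq).2).1
  · exact countable_iUnion fun c => ((I c).countable_toSet).image g
  · rw [dense_iff_inter_open]
    rintro O hO ⟨Z, hZ⟩
    obtain ⟨U, hUU, hZU⟩ : ∃ U ∈ 𝒰, Z ∈ U := by
      have : Z ∈ ⋃₀ 𝒰 := by rw [hcov]; trivial
      exact this
    obtain ⟨s, φ, hZB, hB⟩ := (hO.inter (hU U hUU)) Z ⟨hZ, hZU⟩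
    let N := s.sup Prod.fst + 1
    let q : Finset (ℕ × T) × (ℕ → Finset T) := (s, φ)
    let c : ℕ × ℕ := (N, s.card + (low N φ).card)
    have hq : Cls c.1 c.2 q ∧ ∃ U ∈ 𝒰, B q.1 q.2 ⊆ U := by
      refine ⟨⟨⟨Z, hZB⟩, ?_, le_rfl⟩, U, hUU, fun W hW => (hB hW).2⟩
      intro p hp
      have h' : p.1 ≤ s.sup Prod.fst := Finset.le_sup (f := Prod.fst) hp
      exact Nat.lt_succ_of_le h'
    have hmeet : ∃ r ∈ I c, (B q.1 q.2 ∩ B r.1 r.2).Nonempty := by
      by_contra hcon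
      push Not at hcon
      have hqI : q ∉ I c := by
        intro h
        have := hcon q h
        rw [inter_self] at this
        exact (Set.Nonempty.ne_empty ⟨Z, hZB⟩) this
      have hadm : Adm c (insert q (I c)) := by
        constructor
        · intro r hr
          rcases Finset.mem_insert.1 hr with rfl | hr
          · exact hq
          · exact (hI c).1 r hr
        · intro r hr r' hr' hne
          rcases Finset.mem_insert.1 hr with h | h <;> rcases Finset.mem_insert.1 hr' with h' | h'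
          · exact absurd (h.trans h'.symm) hne
          · rw [h]; exact hcon r' h'
          · rw [h', inter_comm]; exact hcon r h
          · exact (hI c).2 r h r' h' hne
      have := hImax c _ hadm
      rw [Finset.card_insert_of_notMem hqI] at this
      omega
    obtain ⟨r, hr, W, hW1, hW2⟩ := hmeet
    refine ⟨W, (hB hW1).1, g r, mem_iUnion.2 ⟨c, r, hr, rfl⟩, ?_⟩
    exact (hg r ((hI c).1 r hr).2).2 hW2

/-- The space is not weakly Menger. -/
theorem not_weaklyMenger : ∃ 𝒰 : ℕ → Set (Set (P T)),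
    (∀ n, (∀ U ∈ 𝒰 n, IsOpen U) ∧ ⋃₀ (𝒰 n) = Set.univ) ∧
    ∀ 𝒱 : ℕ → Set (Set (P T)), (∀ n, 𝒱 n ⊆ 𝒰 n ∧ (𝒱 n).Finite) → ¬ Dense (⋃ n, ⋃₀ (𝒱 n)) := by
  classical
  refine ⟨fun n => range fun a : T => B {(n, a)} (fun _ => ∅), ?_, ?_⟩
  · intro n
    refine ⟨?_, ?_⟩
    · rintro _ ⟨a, rfl⟩
      exact isOpen_B _ _
    · rw [eq_univ_iff_forall]
      intro Z
      obtain ⟨a, ha⟩ := Z.2.1 n
      exact ⟨_, ⟨a, rfl⟩, by simpa using ha, by simp⟩
  · intro 𝒱 h𝒱 hdense
    have hex : ∀ n, ∃ F : Finset T, 𝒱 n ⊆ (fun a : T => B {(n, a)} (fun _ => ∅)) '' (F : Set T) := by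
      intro n
      obtain ⟨h1, h2⟩ := h𝒱 n
      have h3 : ∀ V ∈ 𝒱 n, ∃ a : T, B {(n, a)} (fun _ => ∅) = V := fun V hV => h1 hV
      choose! a ha using h3
      refine ⟨h2.toFinset.image a, fun V hV => ⟨a V, ?_, ha V hV⟩⟩
      rw [Finset.mem_coe, Finset.mem_image]
      exact ⟨V, h2.mem_toFinset.2 hV, rfl⟩
    choose φ hφ using hex
    obtain ⟨W, hW1, hW2⟩ := B_inter_nonempty (s := ∅) (t := ∅) (φ := φ) (ψ := φ) (by simp) (by simp)
    rw [dense_iff_inter_open] at hdense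
    obtain ⟨Z, hZ1, hZ2⟩ := hdense (B ∅ φ) (isOpen_B _ _) ⟨W, hW1⟩
    obtain ⟨n, V, hV, hZV⟩ := mem_iUnion.1 hZ2
    obtain ⟨a, ha, rfl⟩ := hφ n hV
    have h1 : a ∈ Z.1 n := hZV.1 (n, a) (by simp)
    have h2 := hZ1.2 n
    rw [Finset.disjoint_left] at h2
    exact h2 h1 ha

end

/-- The cardinality of the space. -/
theorem mk_P {T : Type} (hT : #T = ℵ_ 1) : #(P T) ≤ ℵ_ 1 := by
  classical
  have hinf : ℵ₀ ≤ #T := by rw [hT]; exact aleph0_le_aleph 1
  have : Infinite T := Cardinal.infinite_iff.2 hinf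
  let F : List (Finset T) × T → (ℕ → Finset T) := fun q n => (q.1[n]?).getD {q.2}
  have hsub : Function.Injective (fun Z : P T => Z.1) := Subtype.val_injective
  have h1 : #(P T) ≤ #(range F) := by
    refine Cardinal.mk_le_of_injective (f := fun Z : P T => (⟨Z.1, ?_⟩ : range F)) ?_
    · obtain ⟨N, a, ha⟩ := Z.2.2
      refine ⟨((List.range N).map Z.1, a), ?_⟩
      funext n
      simp only [F]
      by_cases hn : n < N
      · simp [hn]
      · rw [List.getElem?_eq_none (by simpa using hn), Option.getD_none, ha n (by omega)]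
    · intro Z W h
      exact hsub (congrArg (fun x : range F => x.1) h)
  refine h1.trans (Cardinal.mk_range_le.trans ?_)
  rw [Cardinal.mk_prod, Cardinal.lift_id, Cardinal.lift_id, Cardinal.mk_list_eq_mk,
    Cardinal.mk_finset_of_infinite, hT]
  exact (Cardinal.mul_eq_self (aleph0_le_aleph 1)).le

/-- The space has exactly `ℵ₁` points. -/
theorem mk_P_eq {T : Type} (hT : #T = ℵ_ 1) : #(P T) = ℵ_ 1 := by
  classical
  refine le_antisymm (mk_P hT) ?_
  rw [← hT]
  refine Cardinal.mk_le_of_injective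
    (f := fun a : T => (⟨fun _ => {a}, fun _ => ⟨a, by simp⟩, 0, a, fun _ _ => rfl⟩ : P T)) ?_
  intro a b h
  have := congrFun (congrArg (fun Z : P T => Z.1) h) 0
  simpa using this

end Pool.Agent.Q154.WeakMenger
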